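import Pool.Agent.H98.MF.C.Defs

/-!
# Project MK4, block C: basic facts on `ord`, `US`, `KS`, `NG`, `gen`
-/

set_option autoImplicit false

open scoped BigOperators Pointwise nonZeroDivisors
open NumberField IsDedekindDomain

namespace Pool.Agent.H98.MF.B

section

variable {k : Type} [Field k] [NumberField k]

theorem ord_mul (P : HeightOneSpectrum (𝓞 k)) {a b : k} (ha : a ≠ 0) (hb : b ≠ 0) :
    ord P (a * b) = ord P a + ord P b := by
  unfold ord
  rw [← FractionalIdeal.spanSingleton_mul_spanSingleton]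
  exact FractionalIdeal.count_mul k P (FractionalIdeal.spanSingleton_ne_zero_iff.2 ha)
    (FractionalIdeal.spanSingleton_ne_zero_iff.2 hb)

theorem ord_one (P : HeightOneSpectrum (𝓞 k)) : ord P (1 : k) = 0 := by
  unfold ord
  rw [FractionalIdeal.spanSingleton_one]
  exact FractionalIdeal.count_one k P

theorem ord_inv (P : HeightOneSpectrum (𝓞 k)) (a : k) : ord P a⁻¹ = - ord P a := by
  unfold ord
  rw [← FractionalIdeal.spanSingleton_inv]
  exact FractionalIdeal.count_inv k P _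

theorem ord_div (P : HeightOneSpectrum (𝓞 k)) {a b : k} (ha : a ≠ 0) (hb : b ≠ 0) :
    ord P (a / b) = ord P a - ord P b := by
  rw [div_eq_mul_inv, ord_mul P ha (inv_ne_zero hb), ord_inv]
  ring

theorem ord_pow (P : HeightOneSpectrum (𝓞 k)) (a : k) (n : ℕ) :
    ord P (a ^ n) = n * ord P a := by
  unfold ord
  rw [← FractionalIdeal.spanSingleton_pow]
  exact FractionalIdeal.count_pow k P n _

/-- `ord` as a homomorphism -/
noncomputable def ordH (P : HeightOneSpectrum (𝓞 k)) : kˣ →* Multiplicative ℤ where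
  toFun a := Multiplicative.ofAdd (ord P (a : k))
  map_one' := by rw [Units.val_one, ord_one]; rfl
  map_mul' a b := by rw [Units.val_mul, ord_mul P a.ne_zero b.ne_zero]; rfl

theorem ordH_apply (P : HeightOneSpectrum (𝓞 k)) (a : kˣ) :
    ordH P a = Multiplicative.ofAdd (ord P (a : k)) := rfl

theorem ord_prod (P : HeightOneSpectrum (𝓞 k)) {ι : Type} (s : Finset ι) (f : ι → kˣ) :
    ord P ((∏ i ∈ s, f i : kˣ) : k) = ∑ i ∈ s, ord P (f i : k) := by
  classical
  induction s using Finset.induction_on with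
  | empty => simp [ord_one]
  | insert i s hi ih =>
    rw [Finset.prod_insert hi, Finset.sum_insert hi, Units.val_mul,
      ord_mul P (f i).ne_zero (Units.ne_zero _), ih]

theorem ord_neg_one (P : HeightOneSpectrum (𝓞 k)) : ord P (-1 : k) = 0 := by
  have h := ord_pow P (-1 : k) 2
  rw [neg_one_sq, ord_one] at h
  push_cast at h
  linarith

theorem ord_neg (P : HeightOneSpectrum (𝓞 k)) (a : k) : ord P (-a) = ord P a := by
  by_cases ha : a = 0
  · rw [ha, neg_zero]
  rw [← neg_one_mul, ord_mul P (neg_ne_zero.2 one_ne_zero) ha, ord_neg_one, zero_add]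

theorem ord_zpow (P : HeightOneSpectrum (𝓞 k)) (a : k) (n : ℤ) :
    ord P (a ^ n) = n * ord P a := by
  cases n with
  | ofNat n => simpa using ord_pow P a n
  | negSucc n =>
    rw [zpow_negSucc, ord_inv, ord_pow, Int.negSucc_eq]
    push_cast
    ring

/-- only finitely many primes occur in an element -/
theorem ord_finite (a : k) (ha : a ≠ 0) :
    {P : HeightOneSpectrum (𝓞 k) | ord P a ≠ 0}.Finite := by
  have h := FractionalIdeal.finite_factors
    (FractionalIdeal.spanSingleton (𝓞 k)⁰ a)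
  simpa [ord, Filter.eventually_cofinite] using h

/-- the primes where one of finitely many elements is not a unit -/
theorem ord_finite' (T : Finset kˣ) :
    ∃ S : Finset (HeightOneSpectrum (𝓞 k)), ∀ P, P ∉ S → ∀ a ∈ T, ord P (a : k) = 0 := by
  classical
  refine ⟨T.biUnion fun a => (ord_finite (a : k) a.ne_zero).toFinset, fun P hP a ha => ?_⟩
  by_contra h
  exact hP (Finset.mem_biUnion.2 ⟨a, ha, (Set.Finite.mem_toFinset _).2 h⟩)

/-! ### the subgroups -/

theorem mem_US {S : Finset (HeightOneSpectrum (𝓞 k))} {a : kˣ} :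
    a ∈ US S ↔ ∀ Q : HeightOneSpectrum (𝓞 k), Q ∉ S → ord Q (a : k) = 0 := by
  constructor
  · intro h
    have h1 : US S ≤ ⨅ Q ∈ {Q : HeightOneSpectrum (𝓞 k) | Q ∉ S}, (ordH Q).ker := by
      unfold US
      rw [Subgroup.closure_le]
      intro b hb
      rw [SetLike.mem_coe, Subgroup.mem_iInf]
      intro Q
      rw [Subgroup.mem_iInf]
      intro hQ
      rw [MonoidHom.mem_ker, ordH_apply, hb.2 Q hQ]
      rfl
    intro Q hQ
    have h2 := h1 h
    rw [Subgroup.mem_iInf] at h2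
    have h3 := h2 Q
    rw [Subgroup.mem_iInf] at h3
    have h4 := h3 hQ
    rw [MonoidHom.mem_ker, ordH_apply] at h4
    exact h4
  · intro h
    exact Subgroup.subset_closure ⟨a.ne_zero, h⟩

theorem US_mono {S S' : Finset (HeightOneSpectrum (𝓞 k))} (h : S ⊆ S') : US S ≤ US S' :=
  fun _ ha => mem_US.2 fun Q hQ => mem_US.1 ha Q fun h' => hQ (h h')

theorem exists_mem_US (T : Finset kˣ) :
    ∃ S : Finset (HeightOneSpectrum (𝓞 k)), ∀ a ∈ T, a ∈ US S := by
  obtain ⟨S, hS⟩ := ord_finite' T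
  exact ⟨S, fun a ha => mem_US.2 fun Q hQ => hS Q hQ a ha⟩

theorem neg_one_mem_US (S : Finset (HeightOneSpectrum (𝓞 k))) : (-1 : kˣ) ∈ US S :=
  mem_US.2 fun Q _ => by
    rw [Units.val_neg, Units.val_one]
    exact ord_neg_one Q

theorem mem_KS {S : Finset (HeightOneSpectrum (𝓞 k))} {a : kˣ} :
    a ∈ KS S ↔ ∀ v ∈ pls S, a ∈ LS v := by
  unfold KS
  simp only [Subgroup.mem_iInf]

theorem inl_mem_pls {S : Finset (HeightOneSpectrum (𝓞 k))} {P : HeightOneSpectrum (𝓞 k)} :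
    (Sum.inl P : Pl k) ∈ pls S ↔ P ∈ S := by
  unfold pls
  simp

theorem inr_mem_pls (S : Finset (HeightOneSpectrum (𝓞 k))) (φ : k →+* ℝ) :
    (Sum.inr φ : Pl k) ∈ pls S := by
  unfold pls
  simp

theorem pls_mono {S S' : Finset (HeightOneSpectrum (𝓞 k))} (h : S ⊆ S') : pls S ⊆ pls S' := by
  intro v hv
  rcases v with P | φ
  · exact inl_mem_pls.2 (h (inl_mem_pls.1 hv))
  · exact inr_mem_pls S' φ

theorem KS_anti {S S' : Finset (HeightOneSpectrum (𝓞 k))} (h : S ⊆ S') : KS S' ≤ KS S :=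
  fun _ ha => mem_KS.2 fun v hv => mem_KS.1 ha v (pls_mono h hv)

theorem mem_sqr {G : Type} [CommGroup G] {H : Subgroup G} {a : G} :
    a ∈ sqr H ↔ ∃ b ∈ H, b ^ 2 = a := by
  unfold sqr
  rw [Subgroup.mem_map]
  rfl

theorem sqr_le {G : Type} [CommGroup G] (H : Subgroup G) : sqr H ≤ H := by
  intro a ha
  obtain ⟨b, hb, rfl⟩ := mem_sqr.1 ha
  exact pow_mem hb 2

/-- a square which is an `S`-unit is the square of an `S`-unit -/
theorem mem_sqr_US {S : Finset (HeightOneSpectrum (𝓞 k))} {a b : kˣ} (ha : a ∈ US S)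
    (h : b ^ 2 = a) : a ∈ sqr (US S) := by
  refine mem_sqr.2 ⟨b, mem_US.2 fun Q hQ => ?_, h⟩
  have h1 := mem_US.1 ha Q hQ
  rw [← h, Units.val_pow_eq_pow_val, ord_pow] at h1
  push_cast at h1
  linarith

theorem LocSq_sq (P : HeightOneSpectrum (𝓞 k)) (b : kˣ) : LocSq P ((b ^ 2 : kˣ) : k) := by
  intro n
  refine ⟨(b : k)⁻¹, Or.inl ?_⟩
  rw [Units.val_pow_eq_pow_val, inv_pow]
  exact mul_inv_cancel₀ (pow_ne_zero _ b.ne_zero)

theorem LocP_sq (v : Pl k) (b : kˣ) : LocP v ((b ^ 2 : kˣ) : k) := by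
  rcases v with P | φ
  · exact LocSq_sq P b
  · show 0 < φ ((b ^ 2 : kˣ) : k)
    rw [Units.val_pow_eq_pow_val, map_pow]
    exact pow_pos_of_ne_zero_sq φ b
where
  pow_pos_of_ne_zero_sq (φ : k →+* ℝ) (b : kˣ) : 0 < (φ (b : k)) ^ 2 := by
    have h : φ (b : k) ≠ 0 := (map_ne_zero φ).2 b.ne_zero
    positivity

theorem sq_mem_LS (v : Pl k) (b : kˣ) : b ^ 2 ∈ LS v := Subgroup.subset_closure (LocP_sq v b)

theorem sq_mem_KS (S : Finset (HeightOneSpectrum (𝓞 k))) (b : kˣ) : b ^ 2 ∈ KS S :=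
  mem_KS.2 fun v _ => sq_mem_LS v b

/-! ### admissible sets -/

theorem adm_mono {S S' : Finset (HeightOneSpectrum (𝓞 k))} (h : Adm S) (hS : S ⊆ S') :
    Adm S' := by
  refine ⟨fun P hP => hS (h.two P hP), fun P hP => ?_⟩
  obtain ⟨a, ha, h1, h2⟩ := h.prS P fun h' => hP (hS h')
  exact ⟨a, ha, h1, fun Q hQ hne => h2 Q (fun h' => hQ (hS h')) hne⟩

theorem gen_spec {S : Finset (HeightOneSpectrum (𝓞 k))} (hS : PrS S)
    {Q : HeightOneSpectrum (𝓞 k)} (hQ : Q ∉ S) :
    ord Q (gen S Q : k) = 1 ∧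
      ∀ R : HeightOneSpectrum (𝓞 k), R ∉ S → R ≠ Q → ord R (gen S Q : k) = 0 := by
  obtain ⟨a, ha, h1, h2⟩ := hS Q hQ
  have h : ∃ a : kˣ, ord Q (a : k) = 1 ∧
      ∀ R : HeightOneSpectrum (𝓞 k), R ∉ S → R ≠ Q → ord R (a : k) = 0 :=
    ⟨Units.mk0 a ha, h1, h2⟩
  unfold gen
  rw [dif_pos h]
  exact h.choose_spec

/-- for principal `S`-integers every element is an `S`-unit times a product of generators -/
theorem exists_unit_mul {S : Finset (HeightOneSpectrum (𝓞 k))} (hS : PrS S) (x : kˣ)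
    (T : Finset (HeightOneSpectrum (𝓞 k))) (hT : ∀ Q, Q ∉ S → Q ∉ T → ord Q (x : k) = 0)
    (hTS : ∀ Q ∈ T, Q ∉ S) :
    x * (∏ Q ∈ T, gen S Q ^ (ord Q (x : k)))⁻¹ ∈ US S := by
  classical
  refine mem_US.2 fun R hR => ?_
  have h0 : ∀ y : kˣ, ∀ n : ℤ, ord R ((y ^ n : kˣ) : k) = n * ord R (y : k) := fun y n => by
    rw [Units.val_zpow_eq_zpow_val, ord_zpow]
  rw [Units.val_mul, ord_mul R x.ne_zero (Units.ne_zero _), Units.val_inv_eq_inv_val, ord_inv,
    ord_prod]
  simp only [h0]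
  by_cases hRT : R ∈ T
  · rw [Finset.sum_eq_single R]
    · rw [(gen_spec hS hR).1]
      ring
    · intro Q hQ hne
      rw [(gen_spec hS (hTS Q hQ)).2 R hR (Ne.symm hne), mul_zero]
    · intro h
      exact absurd hRT h
  · rw [hT R hR hRT, Finset.sum_eq_zero, neg_zero, add_zero]
    intro Q hQ
    rw [(gen_spec hS (hTS Q hQ)).2 R hR (fun h => hRT (h ▸ hQ)), mul_zero]

/-- an element with even exponents outside `S` is an `S`-unit times a square -/
theorem exists_unit_mul_sq {S : Finset (HeightOneSpectrum (𝓞 k))} (hS : PrS S) (x : kˣ)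
    (h : ∀ Q, Q ∉ S → Even (ord Q (x : k))) : ∃ u ∈ US S, ∃ t : kˣ, x = u * t ^ 2 := by
  classical
  set T := (ord_finite (x : k) x.ne_zero).toFinset.filter fun Q => Q ∉ S with hT
  have h1 := exists_unit_mul hS x T (fun Q hQ hQT => by
    by_contra hne
    exact hQT (Finset.mem_filter.2 ⟨(Set.Finite.mem_toFinset _).2 hne, hQ⟩))
    (fun Q hQ => (Finset.mem_filter.1 hQ).2)
  refine ⟨_, h1, ∏ Q ∈ T, gen S Q ^ (ord Q (x : k) / 2), ?_⟩
  have h2 : (∏ Q ∈ T, gen S Q ^ (ord Q (x : k) / 2)) ^ 2 = ∏ Q ∈ T, gen S Q ^ (ord Q (x : k)) := by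
    rw [← Finset.prod_pow]
    refine Finset.prod_congr rfl fun Q hQ => ?_
    have h3 := h Q (Finset.mem_filter.1 hQ).2
    rw [← zpow_natCast, ← zpow_mul]
    congr 1
    obtain ⟨m, hm⟩ := h3
    rw [hm]
    push_cast
    omega
  rw [h2, inv_mul_cancel_right]

end

end Pool.Agent.H98.MF.B
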