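import Pool.Agent.H98.MF.C.Defs

/-!
# Project MK4, block C: the statements
-/

set_option autoImplicit false

open scoped BigOperators Pointwise
open NumberField IsDedekindDomain

namespace Pool.Agent.H98.MF

section

variable (k : Type) [Field k] [NumberField k]

/-- the results of block L used in block C -/
structure LIn : Prop where
  memLS : ∀ (v : Pl k) (a : kˣ), a ∈ LS v ↔ LocP v (a : k)
  idxP : ∀ P : HeightOneSpectrum (𝓞 k),
    (LS (Sum.inl P : Pl k)).index = 4 * nrm P ^ (ord P (2 : k)).toNat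
  idxR : ∀ φ : k →+* ℝ, (LS (Sum.inr φ : Pl k)).index = 2
  mulR : ∀ (v : Pl k) (a b c : kˣ), hv v (a : k) ((b * c : kˣ) : k) = hv v a b + hv v a c
  symm : ∀ (v : Pl k) (a b : kˣ), hv v (a : k) (b : k) = hv v b a
  nd : ∀ (v : Pl k) (a : kˣ), (∀ b : kˣ, hv v (a : k) (b : k) = 0) ↔ LocP v (a : k)
  nm : ∀ (v : Pl k) (a b : kˣ) (x y : k), (b : k) = x ^ 2 - a * y ^ 2 → hv v (a : k) (b : k) = 0
  unt : ∀ P : HeightOneSpectrum (𝓞 k), ord P (2 : k) = 0 → ∀ a b : kˣ, ord P (a : k) = 0 →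
    hs P (a : k) (b : k) = (ord P (b : k) : ZMod 2) * qr (a : k) P
  weak : ∀ (T : Finset (Pl k)) (c : Pl k → kˣ), ∃ x : kˣ, ∀ v ∈ T, x / c v ∈ LS v
  triv : ∀ (P : HeightOneSpectrum (𝓞 k)) {r : ℕ} (a b : Fin r → kˣ),
    Triv (Dec P) (fun i => (a i : k)) (fun i => (b i : k)) ↔ ∑ i, hs P (a i : k) (b i : k) = 0
  trivR : ∀ (φ : k →+* ℝ) {r : ℕ} (a b : Fin r → kˣ),
    Triv (DecR φ) (fun i => (a i : k)) (fun i => (b i : k)) ↔ ∑ i, hsR φ (a i : k) (b i : k) = 0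

/-- the results of block N used in block C: bounded above sums of characters, and the
density of the split primes -/
structure NIn : Prop where
  n2 : ∀ S : Finset (HeightOneSpectrum (𝓞 k)), Adm S → ∀ ψ : kˣ →* Multiplicative (ZMod 2),
    Fnl S ψ → ψ ≠ 1 → ∃ C : ℝ, ∀ s : ℝ, 1 < s → s ≤ 2 →
      ∑' Q : {Q : HeightOneSpectrum (𝓞 k) // Q ∉ S},
        (if ψ (gen S Q.1) = 1 then (1 : ℝ) else -1) * (nrm Q.1 : ℝ) ^ (-s) ≤ C
  sm : ∀ s : ℝ, 1 < s → Summable fun Q : HeightOneSpectrum (𝓞 k) => (nrm Q : ℝ) ^ (-s)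
  n4 : ∃ K : ℝ, ∀ s : ℝ, 1 < s → s ≤ 2 →
    |∑' Q : HeightOneSpectrum (𝓞 k), (nrm Q : ℝ) ^ (-s) - Real.log (1 / (s - 1))| ≤ K
  n4a : ∀ a : kˣ, ¬ IsSquare a → ∃ K : ℝ, ∀ s : ℝ, 1 < s → s ≤ 2 →
    |∑' Q : {Q : HeightOneSpectrum (𝓞 k) // LocSq Q (a : k)}, (nrm Q.1 : ℝ) ^ (-s) -
      (1 / 2) * Real.log (1 / (s - 1))| ≤ K

/-- C1: admissible sets exist -/
def C1St : Prop := ∀ T : Finset (HeightOneSpectrum (𝓞 k)), ∃ S, T ⊆ S ∧ Adm S

/-- C2: the `S`-units modulo squares -/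
def C2St : Prop := ∀ S : Finset (HeightOneSpectrum (𝓞 k)),
  (sqr (US S)).relIndex (US S) = 2 ^ mS S

/-- CI: the index of the elements that are squares at the places of `S` -/
def CISt : Prop := ∀ S : Finset (HeightOneSpectrum (𝓞 k)), Adm S → (KS S).index = 2 ^ (2 * mS S)

variable {k}

/-- norms from the field of the square root of `a` -/
def NG (a : kˣ) : Subgroup kˣ :=
  Subgroup.closure {b : kˣ | ∃ x y : k, (b : k) = x ^ 2 - a * y ^ 2}

/-- primes outside `S` that split are generated by norms -/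
def NPr (S : Finset (HeightOneSpectrum (𝓞 k))) (a : kˣ) : Prop :=
  ∀ P : HeightOneSpectrum (𝓞 k), P ∉ S → LocSq P (a : k) → ∃ b : kˣ, b ∈ NG a ∧
    ord P (b : k) = 1 ∧ ∀ Q : HeightOneSpectrum (𝓞 k), Q ∉ S → Q ≠ P → ord Q (b : k) = 0

open Classical in
/-- the number of places of `S` and real places where `a` is not a square -/
noncomputable def sS (S : Finset (HeightOneSpectrum (𝓞 k))) (a : kˣ) : ℕ :=
  ((pls S).filter fun v => ¬ LocP v (a : k)).card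

variable (k)

/-- C3: the norm index of the `S`-units, for a quadratic extension with principal ring of
`S`-integers -/
def C3St : Prop := ∀ (T : Finset (HeightOneSpectrum (𝓞 k))) (a : kˣ), ¬ IsSquare a →
  ∃ S, T ⊆ S ∧ Adm S ∧ a ∈ US S ∧ NPr S a ∧
    ∃ N : Subgroup kˣ, N ≤ US S ∧ N ≤ NG a ∧ N.relIndex (US S) * 2 = 2 ^ sS S a

/-- RE: the reciprocity law -/
def RecSt : Prop := ∀ S : Finset (HeightOneSpectrum (𝓞 k)),
  (∀ P : HeightOneSpectrum (𝓞 k), 0 < ord P (2 : k) → P ∈ S) →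
  ∀ a ∈ US S, ∀ b ∈ US S, ∑ v ∈ pls S, hv v (a : k) (b : k) = 0

/-- HN: the Hasse norm theorem for quadratic extensions -/
def HNSt : Prop := ∀ a b : kˣ, (∀ v : Pl k, hv v (a : k) (b : k) = 0) →
  ∃ x y : k, (b : k) = x ^ 2 - a * y ^ 2

/-- IN: `S`-units that are local squares at the places of `S` are squares -/
def InSt : Prop := ∀ S : Finset (HeightOneSpectrum (𝓞 k)), Adm S → ∀ a ∈ US S, a ∈ KS S →
  a ∈ sqr (US S)

/-- DU: every functional killing the `S`-units comes from an `S`-unit -/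
def DuSt : Prop := ∀ S : Finset (HeightOneSpectrum (𝓞 k)), Adm S →
  ∀ ψ : kˣ →* Multiplicative (ZMod 2), Fnl S ψ → ∃ a ∈ US S, ∀ x : kˣ,
    val2 ψ x = ∑ v ∈ pls S, hv v (a : k) (x : k)

/-- G2: prime elements with given classes at the places of `S` -/
def G2St : Prop := ∀ S : Finset (HeightOneSpectrum (𝓞 k)), Adm S → ∀ γ : kˣ,
  ∃ (Q : HeightOneSpectrum (𝓞 k)) (q : kˣ), Q ∉ S ∧ ord Q (q : k) = 1 ∧
    (∀ R : HeightOneSpectrum (𝓞 k), R ∉ S → R ≠ Q → ord R (q : k) = 0) ∧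
    ∀ v ∈ pls S, q / γ ∈ LS v

/-- HP: the Hasse principle for sums of symbols -/
def HPSt : Prop := ∀ (r : ℕ) (a b : Fin r → kˣ),
  (∀ P : HeightOneSpectrum (𝓞 k), Triv (Dec P) (fun i => (a i : k)) (fun i => (b i : k))) →
  (∀ φ : k →+* ℝ, Triv (DecR φ) (fun i => (a i : k)) (fun i => (b i : k))) →
  Triv ⊤ (fun i => (a i : k)) (fun i => (b i : k))

variable {k}

/-- a frame of `k` modulo squares: a basis `u` of the `S`-units, a complement `w` in the local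
classes, and a generator of every prime outside `S` with class in the complement -/
structure CFr (S : Finset (HeightOneSpectrum (𝓞 k))) where
  /-- the units -/
  u : Fin (mS S) → kˣ
  /-- the complement -/
  w : Fin (mS S) → kˣ
  /-- the coordinates of `-1` -/
  l : Fin (mS S) → ZMod 2
  /-- the prime elements -/
  ppi : {P : HeightOneSpectrum (𝓞 k) // P ∉ S} → kˣ
  u_mem : ∀ i, u i ∈ US S
  u_gen : ∀ x ∈ US S, ∃ c : Fin (mS S) → ZMod 2, x * ∏ i, u i ^ (c i).val ∈ sqr (US S)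
  u_ind : ∀ c : Fin (mS S) → ZMod 2, IsSquare (∏ i, u i ^ (c i).val) → c = 0
  neg_one : -1 * ∏ i, u i ^ (l i).val ∈ sqr (US S)
  uw : ∀ i j, ∑ v ∈ pls S, hv v (u i : k) (w j : k) = if i = j then 1 else 0
  ww : ∀ i j, ∑ v ∈ pls S, hv v (w i : k) (w j : k) = l i * l j
  ord_self : ∀ P, ord P.1 (ppi P : k) = 1
  ord_other : ∀ P, ∀ Q : HeightOneSpectrum (𝓞 k), Q ∉ S → Q ≠ P.1 → ord Q (ppi P : k) = 0
  loc : ∀ P, ∀ v ∈ pls S, ppi P / ∏ j, w j ^ (qr (u j : k) P.1).val ∈ LS v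

variable (k)

/-- FR: frames exist -/
def FrSt : Prop := ∀ S : Finset (HeightOneSpectrum (𝓞 k)), Adm S → Nonempty (CFr S)

end

end Pool.Agent.H98.MF
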