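import Pool.Agent.H98.MF.C.Bas
import Pool.Agent.H98.MF.C.Stm

/-!
# Project MK4, block C: consequences of frames (row C9)
-/

set_option autoImplicit false

open scoped BigOperators Pointwise nonZeroDivisors
open NumberField IsDedekindDomain

namespace Pool.Agent.H98.MF.B

section

variable {k : Type} [Field k] [NumberField k]

theorem ord_int_nonneg (P : HeightOneSpectrum (𝓞 k)) (x : 𝓞 k) : 0 ≤ ord P (x : k) := by
  unfold ord
  have h : FractionalIdeal.spanSingleton (𝓞 k)⁰ (x : k) =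
      ((Ideal.span {x} : Ideal (𝓞 k)) : FractionalIdeal (𝓞 k)⁰ k) := by
    rw [FractionalIdeal.coeIdeal_span_singleton]
  rw [h]
  exact FractionalIdeal.count_coe_nonneg k P _

theorem ord_two_eq {S : Finset (HeightOneSpectrum (𝓞 k))} (hS : Adm S)
    {P : HeightOneSpectrum (𝓞 k)} (hP : P ∉ S) : ord P (2 : k) = 0 := by
  have h1 : 0 ≤ ord P (2 : k) := by
    have h := ord_int_nonneg P (2 : 𝓞 k)
    have h2 : ((2 : 𝓞 k) : k) = 2 := map_ofNat (algebraMap (𝓞 k) k) 2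
    rwa [h2] at h
  by_contra h
  exact hP (hS.two P (lt_of_le_of_ne h1 (Ne.symm h)))

/-- the sum of the symbols over the places of `S` and the real places -/
noncomputable def sy (S : Finset (HeightOneSpectrum (𝓞 k))) (a b : kˣ) : ZMod 2 :=
  ∑ v ∈ pls S, hv v (a : k) (b : k)

theorem sy_mul (hL : LIn k) (S : Finset (HeightOneSpectrum (𝓞 k))) (a b c : kˣ) :
    sy S a (b * c) = sy S a b + sy S a c := by
  unfold sy
  rw [← Finset.sum_add_distrib]
  exact Finset.sum_congr rfl fun v _ => hL.mulR v a b c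

theorem sy_comm (hL : LIn k) (S : Finset (HeightOneSpectrum (𝓞 k))) (a b : kˣ) :
    sy S a b = sy S b a :=
  Finset.sum_congr rfl fun v _ => hL.symm v a b

theorem sy_one (hL : LIn k) (S : Finset (HeightOneSpectrum (𝓞 k))) (a : kˣ) : sy S a 1 = 0 := by
  have h := sy_mul hL S a 1 1
  rw [mul_one] at h
  exact left_eq_add.1 h

theorem sy_inv (hL : LIn k) (S : Finset (HeightOneSpectrum (𝓞 k))) (a b : kˣ) :
    sy S a b⁻¹ = sy S a b := by
  have h := sy_mul hL S a b b⁻¹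
  rw [mul_inv_cancel, sy_one hL] at h
  have h2 : sy S a b⁻¹ = - sy S a b := (neg_eq_of_add_eq_zero_right h.symm).symm
  rw [h2, ZMod.neg_eq_self_mod_two]

theorem sy_prod (hL : LIn k) (S : Finset (HeightOneSpectrum (𝓞 k))) (a : kˣ) {ι : Type}
    (s : Finset ι) (f : ι → kˣ) : sy S a (∏ i ∈ s, f i) = ∑ i ∈ s, sy S a (f i) := by
  classical
  induction s using Finset.induction_on with
  | empty => simp [sy_one hL]
  | insert i s hi ih => rw [Finset.prod_insert hi, Finset.sum_insert hi, sy_mul hL, ih]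

theorem sy_pow (hL : LIn k) (S : Finset (HeightOneSpectrum (𝓞 k))) (a b : kˣ) (n : ℕ) :
    sy S a (b ^ n) = n * sy S a b := by
  induction n with
  | zero => simp [sy_one hL]
  | succ n ih => rw [pow_succ, sy_mul hL, ih]; push_cast; ring

theorem hv_of_loc (hL : LIn k) (v : Pl k) (a b : kˣ) (h : b ∈ LS v) : hv v (a : k) (b : k) = 0 := by
  rw [hL.symm v a b]
  exact (hL.nd v b).2 ((hL.memLS v b).1 h) a

theorem sy_of_KS (hL : LIn k) (S : Finset (HeightOneSpectrum (𝓞 k))) (a b : kˣ)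
    (h : b ∈ KS S) : sy S a b = 0 :=
  Finset.sum_eq_zero fun v hv => hv_of_loc hL v a b (mem_KS.1 h v hv)

/-- symbols of local units -/
theorem qr_mul (hL : LIn k) {S : Finset (HeightOneSpectrum (𝓞 k))} (hS : Adm S)
    {P : HeightOneSpectrum (𝓞 k)} (hP : P ∉ S) (a b : kˣ) (ha : ord P (a : k) = 0)
    (hb : ord P (b : k) = 0) :
    qr ((a * b : kˣ) : k) P = qr (a : k) P + qr (b : k) P := by
  obtain ⟨π, hπ0, hπ, -⟩ := hS.prS P hP
  have h2 := ord_two_eq hS hP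
  set p : kˣ := Units.mk0 π hπ0 with hp
  have hpo : ord P (p : k) = 1 := hπ
  have hab : ord P ((a * b : kˣ) : k) = 0 := by
    rw [Units.val_mul, ord_mul P a.ne_zero b.ne_zero, ha, hb, add_zero]
  have e : ∀ c : kˣ, ord P (c : k) = 0 → hs P (c : k) (p : k) = qr (c : k) P := by
    intro c hc
    rw [hL.unt P h2 c p hc, hpo]
    simp
  rw [← e _ hab, ← e _ ha, ← e _ hb]
  have h3 := hL.mulR (Sum.inl P) p a b
  have h4 : ∀ x y : kˣ, hs P (x : k) (y : k) = hs P (y : k) (x : k) := fun x y =>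
    hL.symm (Sum.inl P) x y
  rw [h4 (a * b) p, h4 a p, h4 b p]
  exact h3

theorem qr_one (hL : LIn k) {S : Finset (HeightOneSpectrum (𝓞 k))} (hS : Adm S)
    {P : HeightOneSpectrum (𝓞 k)} (hP : P ∉ S) : qr ((1 : kˣ) : k) P = 0 := by
  have h := qr_mul hL hS hP 1 1 (by rw [Units.val_one, ord_one]) (by rw [Units.val_one, ord_one])
  rw [mul_one] at h
  exact left_eq_add.1 h

theorem qr_prod (hL : LIn k) {S : Finset (HeightOneSpectrum (𝓞 k))} (hS : Adm S)
    {P : HeightOneSpectrum (𝓞 k)} (hP : P ∉ S) {ι : Type} (s : Finset ι) (f : ι → kˣ)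
    (hf : ∀ i ∈ s, ord P (f i : k) = 0) :
    qr ((∏ i ∈ s, f i : kˣ) : k) P = ∑ i ∈ s, qr (f i : k) P := by
  classical
  induction s using Finset.induction_on with
  | empty => simpa using qr_one hL hS hP
  | insert i s hi ih =>
    rw [Finset.prod_insert hi, Finset.sum_insert hi,
      qr_mul hL hS hP _ _ (hf i (Finset.mem_insert_self i s)) ?_,
      ih fun j hj => hf j (Finset.mem_insert_of_mem hj)]
    rw [ord_prod]
    exact Finset.sum_eq_zero fun j hj => hf j (Finset.mem_insert_of_mem hj)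

theorem qr_pow (hL : LIn k) {S : Finset (HeightOneSpectrum (𝓞 k))} (hS : Adm S)
    {P : HeightOneSpectrum (𝓞 k)} (hP : P ∉ S) (a : kˣ) (ha : ord P (a : k) = 0) (n : ℕ) :
    qr ((a ^ n : kˣ) : k) P = n * qr (a : k) P := by
  induction n with
  | zero => simpa using qr_one hL hS hP
  | succ n ih =>
    rw [pow_succ, qr_mul hL hS hP _ _ ?_ ha, ih]
    · push_cast; ring
    · rw [Units.val_pow_eq_pow_val, ord_pow, ha, mul_zero]

theorem zval (x : ZMod 2) : ((x.val : ℕ) : ZMod 2) = x := ZMod.natCast_zmod_val x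

/-- reciprocity for an `S`-unit and a generator of a prime outside `S` -/
theorem sy_unit (hL : LIn k) (hr : RecSt k) {S : Finset (HeightOneSpectrum (𝓞 k))}
    (hS : Adm S) {P : HeightOneSpectrum (𝓞 k)} (hP : P ∉ S) (a p : kˣ) (ha : a ∈ US S)
    (hp : ord P (p : k) = 1)
    (hp' : ∀ Q : HeightOneSpectrum (𝓞 k), Q ∉ S → Q ≠ P → ord Q (p : k) = 0) :
    sy S a p = qr (a : k) P := by
  classical
  have hS' : ∀ Q : HeightOneSpectrum (𝓞 k), 0 < ord Q (2 : k) → Q ∈ insert P S := fun Q hQ =>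
    Finset.mem_insert_of_mem (hS.two Q hQ)
  have ha' : a ∈ US (insert P S) := US_mono (Finset.subset_insert P S) ha
  have hp1 : p ∈ US (insert P S) := mem_US.2 fun Q hQ => by
    rw [Finset.mem_insert, not_or] at hQ
    exact hp' Q hQ.2 hQ.1
  have h := hr (insert P S) hS' a ha' p hp1
  have h1 : pls (insert P S) = insert (Sum.inl P : Pl k) (pls S) := by
    ext v
    rcases v with Q | φ
    · simp [inl_mem_pls]
    · simp [inr_mem_pls]
  rw [h1, Finset.sum_insert (by rw [inl_mem_pls]; exact hP)] at h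
  have h2 : hv (Sum.inl P : Pl k) (a : k) (p : k) = qr (a : k) P := by
    show hs P (a : k) (p : k) = _
    rw [hL.unt P (ord_two_eq hS hP) a p (mem_US.1 ha P hP), hp]
    simp
  rw [h2] at h
  have h3 : sy S a p = - qr (a : k) P := eq_neg_of_add_eq_zero_right h
  rw [h3, ZMod.neg_eq_self_mod_two]

variable {S : Finset (HeightOneSpectrum (𝓞 k))}

/-- the type of a prime -/
noncomputable def tyF (F : CFr S) (P : {P : HeightOneSpectrum (𝓞 k) // P ∉ S})
    (j : Fin (mS S)) : ZMod 2 := qr (F.u j : k) P.1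

theorem ord_u (F : CFr S) (P : {P : HeightOneSpectrum (𝓞 k) // P ∉ S}) (i : Fin (mS S)) :
    ord P.1 (F.u i : k) = 0 := mem_US.1 (F.u_mem i) P.1 P.2

theorem qr_units (hL : LIn k) (hS : Adm S) (F : CFr S)
    (P : {P : HeightOneSpectrum (𝓞 k) // P ∉ S}) (c : Fin (mS S) → ZMod 2) :
    qr ((∏ i, F.u i ^ (c i).val : kˣ) : k) P.1 = c ⬝ᵥ tyF F P := by
  rw [qr_prod hL hS P.2]
  · unfold dotProduct tyF
    refine Finset.sum_congr rfl fun i _ => ?_
    rw [qr_pow hL hS P.2 _ (ord_u F P i), zval]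
  · intro i _
    rw [Units.val_pow_eq_pow_val, ord_pow, ord_u F P i, mul_zero]

/-- (1) -/
theorem qr_neg_one (hL : LIn k) (hS : Adm S) (F : CFr S)
    (P : {P : HeightOneSpectrum (𝓞 k) // P ∉ S}) :
    qr (-1 : k) P.1 = F.l ⬝ᵥ tyF F P := by
  obtain ⟨b, hb, hb2⟩ := mem_sqr.1 F.neg_one
  have hb0 : ord P.1 (b : k) = 0 := mem_US.1 hb P.1 P.2
  have h1 := qr_pow hL hS P.2 b hb0 2
  rw [hb2] at h1
  have h2 : ord P.1 ((∏ i, F.u i ^ (F.l i).val : kˣ) : k) = 0 := by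
    rw [ord_prod]
    refine Finset.sum_eq_zero fun i _ => ?_
    rw [Units.val_pow_eq_pow_val, ord_pow, ord_u F P i, mul_zero]
  have h3 : ord P.1 ((-1 : kˣ) : k) = 0 := by
    rw [Units.val_neg, Units.val_one]; exact ord_neg_one _
  rw [qr_mul hL hS P.2 _ _ h3 h2, qr_units hL hS F P] at h1
  have h4 : ((2 : ℕ) : ZMod 2) = 0 := rfl
  rw [h4, zero_mul] at h1
  have h5 : qr ((-1 : kˣ) : k) P.1 = - (F.l ⬝ᵥ tyF F P) := eq_neg_of_add_eq_zero_left h1
  rw [ZMod.neg_eq_self_mod_two] at h5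
  rw [← h5, Units.val_neg, Units.val_one]

/-- (3) -/
theorem sy_u_ppi (hL : LIn k) (hr : RecSt k) (hS : Adm S) (F : CFr S)
    (P : {P : HeightOneSpectrum (𝓞 k) // P ∉ S}) (i : Fin (mS S)) :
    sy S (F.u i) (F.ppi P) = tyF F P i :=
  sy_unit hL hr hS P.2 _ _ (F.u_mem i) (F.ord_self P) (F.ord_other P)

theorem ppi_div_mem (F : CFr S) (P : {P : HeightOneSpectrum (𝓞 k) // P ∉ S}) :
    F.ppi P / ∏ j, F.w j ^ (tyF F P j).val ∈ KS S :=
  mem_KS.2 fun v hv => F.loc P v hv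

theorem sy_ppi (hL : LIn k) (F : CFr S) (a : kˣ)
    (P : {P : HeightOneSpectrum (𝓞 k) // P ∉ S}) :
    sy S a (F.ppi P) = ∑ j, tyF F P j * sy S a (F.w j) := by
  have h1 : F.ppi P = (F.ppi P / ∏ j, F.w j ^ (tyF F P j).val) *
      ∏ j, F.w j ^ (tyF F P j).val := by
    rw [div_mul_cancel]
  conv_lhs => rw [h1]
  rw [sy_mul hL, sy_of_KS hL S a _ (ppi_div_mem F P), zero_add, sy_prod hL]
  refine Finset.sum_congr rfl fun j _ => ?_
  rw [sy_pow hL, zval]

theorem sy_ppi_ppi (hL : LIn k) (F : CFr S) (P Q : {P : HeightOneSpectrum (𝓞 k) // P ∉ S}) :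
    sy S (F.ppi P) (F.ppi Q) = (F.l ⬝ᵥ tyF F P) * (F.l ⬝ᵥ tyF F Q) := by
  rw [sy_ppi hL F _ Q]
  have h1 : ∀ j, sy S (F.ppi P) (F.w j) = (F.l ⬝ᵥ tyF F P) * F.l j := by
    intro j
    rw [sy_comm hL, sy_ppi hL F _ P]
    unfold dotProduct
    rw [Finset.sum_mul]
    refine Finset.sum_congr rfl fun i _ => ?_
    have h2 : sy S (F.w j) (F.w i) = F.l j * F.l i := F.ww j i
    rw [h2]
    ring
  simp only [h1]
  have h3 : (F.l ⬝ᵥ tyF F P) * (F.l ⬝ᵥ tyF F Q) =
      ∑ j, tyF F Q j * ((F.l ⬝ᵥ tyF F P) * F.l j) := by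
    conv_lhs => rw [show (F.l ⬝ᵥ tyF F Q) = ∑ j, F.l j * tyF F Q j from rfl]
    rw [Finset.mul_sum]
    exact Finset.sum_congr rfl fun j _ => by ring
  rw [h3]

/-- (2) -/
theorem recipF (hL : LIn k) (hr : RecSt k) (hS : Adm S) (F : CFr S)
    (P Q : {P : HeightOneSpectrum (𝓞 k) // P ∉ S}) (hPQ : P ≠ Q) :
    qr (F.ppi P : k) Q.1 + qr (F.ppi Q : k) P.1 = (F.l ⬝ᵥ tyF F P) * (F.l ⬝ᵥ tyF F Q) := by
  classical
  have hPQ' : P.1 ≠ Q.1 := fun h => hPQ (Subtype.ext h)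
  set S2 : Finset (HeightOneSpectrum (𝓞 k)) := insert P.1 (insert Q.1 S) with hS2
  have hS' : ∀ R : HeightOneSpectrum (𝓞 k), 0 < ord R (2 : k) → R ∈ S2 := fun R hR =>
    Finset.mem_insert_of_mem (Finset.mem_insert_of_mem (hS.two R hR))
  have hp1 : F.ppi P ∈ US S2 := mem_US.2 fun R hR => by
    rw [hS2, Finset.mem_insert, Finset.mem_insert, not_or, not_or] at hR
    exact F.ord_other P R hR.2.2 hR.1
  have hq1 : F.ppi Q ∈ US S2 := mem_US.2 fun R hR => by
    rw [hS2, Finset.mem_insert, Finset.mem_insert, not_or, not_or] at hR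
    exact F.ord_other Q R hR.2.2 hR.2.1
  have h := hr S2 hS' _ hp1 _ hq1
  have h1 : pls S2 = insert (Sum.inl P.1 : Pl k) (insert (Sum.inl Q.1 : Pl k) (pls S)) := by
    ext v
    rcases v with R | φ
    · simp [inl_mem_pls, hS2]
    · simp [inr_mem_pls]
  rw [h1, Finset.sum_insert (by
      rw [Finset.mem_insert, inl_mem_pls, not_or]
      exact ⟨fun h => hPQ' (Sum.inl_injective h), P.2⟩),
    Finset.sum_insert (by rw [inl_mem_pls]; exact Q.2)] at h
  have h2 : hv (Sum.inl Q.1 : Pl k) (F.ppi P : k) (F.ppi Q : k) = qr (F.ppi P : k) Q.1 := by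
    show hs Q.1 (F.ppi P : k) (F.ppi Q : k) = _
    rw [hL.unt Q.1 (ord_two_eq hS Q.2) _ _ (F.ord_other P Q.1 Q.2 (Ne.symm hPQ')), F.ord_self Q]
    simp
  have h3 : hv (Sum.inl P.1 : Pl k) (F.ppi P : k) (F.ppi Q : k) = qr (F.ppi Q : k) P.1 := by
    rw [hL.symm]
    show hs P.1 (F.ppi Q : k) (F.ppi P : k) = _
    rw [hL.unt P.1 (ord_two_eq hS P.2) _ _ (F.ord_other Q P.1 P.2 hPQ'), F.ord_self P]
    simp
  rw [h2, h3] at h
  have h4 := sy_ppi_ppi hL F P Q
  unfold sy at h4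
  rw [h4] at h
  have h5 : qr (F.ppi P : k) Q.1 + qr (F.ppi Q : k) P.1 +
      (F.l ⬝ᵥ tyF F P) * (F.l ⬝ᵥ tyF F Q) = 0 := by
    rw [← h]; ring
  rw [eq_neg_of_add_eq_zero_left h5, ZMod.neg_eq_self_mod_two]

/-- the standard representatives modulo squares -/
noncomputable def rep (F : CFr S) (c : Fin (mS S) → ZMod 2)
    (y : Finset {P : HeightOneSpectrum (𝓞 k) // P ∉ S}) : kˣ :=
  (∏ i, F.u i ^ (c i).val) * ∏ P ∈ y, F.ppi P

theorem ord_rep (F : CFr S) (c : Fin (mS S) → ZMod 2)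
    (y : Finset {P : HeightOneSpectrum (𝓞 k) // P ∉ S})
    (P : {P : HeightOneSpectrum (𝓞 k) // P ∉ S}) [Decidable (P ∈ y)] :
    ord P.1 (rep F c y : k) = if P ∈ y then 1 else 0 := by
  classical
  unfold rep
  rw [Units.val_mul, ord_mul _ (Units.ne_zero _) (Units.ne_zero _), ord_prod, ord_prod]
  have h1 : ∑ i, ord P.1 ((F.u i ^ (c i).val : kˣ) : k) = 0 := by
    refine Finset.sum_eq_zero fun i _ => ?_
    rw [Units.val_pow_eq_pow_val, ord_pow, ord_u F P i, mul_zero]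
  rw [h1, zero_add]
  have h2 : ∀ Q ∈ y, ord P.1 (F.ppi Q : k) = if Q = P then 1 else 0 := by
    intro Q _
    split_ifs with h
    · rw [h]; exact F.ord_self P
    · exact F.ord_other Q P.1 P.2 fun h' => h (Subtype.ext h'.symm)
  rw [Finset.sum_congr rfl h2, Finset.sum_ite_eq']
  split_ifs <;> rfl

/-- (4), uniqueness -/
theorem rep_sq (F : CFr S) (c : Fin (mS S) → ZMod 2)
    (y : Finset {P : HeightOneSpectrum (𝓞 k) // P ∉ S}) (h : IsSquare (rep F c y)) :
    c = 0 ∧ y = ∅ := by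
  classical
  have hy : y = ∅ := by
    by_contra hne
    obtain ⟨P, hP⟩ := Finset.nonempty_iff_ne_empty.2 hne
    obtain ⟨t, ht⟩ := h
    have h1 := ord_rep F c y P
    rw [if_pos hP, ht, Units.val_mul, ord_mul _ (Units.ne_zero _) (Units.ne_zero _)] at h1
    omega
  refine ⟨?_, hy⟩
  apply F.u_ind
  rw [hy] at h
  unfold rep at h
  rwa [Finset.prod_empty, mul_one] at h

/-- (4), existence -/
theorem exists_rep (hS : Adm S) (F : CFr S) (x : kˣ) :
    ∃ (c : Fin (mS S) → ZMod 2) (y : Finset {P : HeightOneSpectrum (𝓞 k) // P ∉ S}) (t : kˣ),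
      x = rep F c y * t ^ 2 := by
  classical
  have hfin : {P : {P : HeightOneSpectrum (𝓞 k) // P ∉ S} | ¬ Even (ord P.1 (x : k))}.Finite := by
    refine Set.Finite.of_finite_image (f := fun P => P.1)
      ((ord_finite (x : k) x.ne_zero).subset ?_) (fun P _ Q _ h => Subtype.ext h)
    rintro _ ⟨P, hP, rfl⟩ h0
    apply hP
    rw [h0]
    exact Even.zero
  set y := hfin.toFinset with hy
  have h1 : ∀ Q, Q ∉ S → Even (ord Q ((x * (rep F 0 y)⁻¹ : kˣ) : k)) := by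
    intro Q hQ
    rw [Units.val_mul, ord_mul _ (Units.ne_zero _) (Units.ne_zero _), Units.val_inv_eq_inv_val,
      ord_inv, ord_rep F 0 y ⟨Q, hQ⟩]
    split_ifs with h
    · have h2 : ¬ Even (ord Q (x : k)) := by
        rw [hy, Set.Finite.mem_toFinset] at h
        exact h
      rw [Int.not_even_iff_odd] at h2
      obtain ⟨m, hm⟩ := h2
      exact ⟨m, by rw [hm]; ring⟩
    · have h2 : Even (ord Q (x : k)) := by
        by_contra h3
        exact h ((Set.Finite.mem_toFinset _).2 h3)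
      simpa using h2
  obtain ⟨u, hu, t, ht⟩ := exists_unit_mul_sq hS.prS _ h1
  obtain ⟨c, hc⟩ := F.u_gen u hu
  obtain ⟨b, -, hb⟩ := mem_sqr.1 hc
  refine ⟨c, y, t * b * (∏ i, F.u i ^ (c i).val)⁻¹, ?_⟩
  have h3 : x = u * t ^ 2 * rep F 0 y := by
    rw [← ht, inv_mul_cancel_right]
  have h4 : rep F 0 y = ∏ P ∈ y, F.ppi P := by
    unfold rep
    simp
  have h5 : u = b ^ 2 * (∏ i, F.u i ^ (c i).val)⁻¹ := by
    rw [hb, mul_inv_cancel_right]
  rw [h3, h4, h5]
  unfold rep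
  generalize (∏ i, F.u i ^ (c i).val) = A
  generalize (∏ P ∈ y, F.ppi P) = B
  have hA : (A : k) ≠ 0 := A.ne_zero
  apply Units.ext
  push_cast
  field_simp

/-- functionals -/
theorem Fnl_ppi (hL : LIn k) (hr : RecSt k) (hd : DuSt k) (hS : Adm S) (F : CFr S)
    (ψ : kˣ →* Multiplicative (ZMod 2)) (hψ : Fnl S ψ) :
    ∃ c : Fin (mS S) → ZMod 2,
      (∀ P : {P : HeightOneSpectrum (𝓞 k) // P ∉ S}, val2 ψ (F.ppi P) = c ⬝ᵥ tyF F P) ∧
      (c = 0 → ψ = 1) := by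
  classical
  obtain ⟨a, ha, hψa⟩ := hd S hS ψ hψ
  obtain ⟨c, hc⟩ := F.u_gen a ha
  obtain ⟨b, hbU, hb⟩ := mem_sqr.1 hc
  have hsy : ∀ x : kˣ, val2 ψ x = ∑ i, c i * sy S (F.u i) x := by
    intro x
    have h1 : val2 ψ x = sy S a x := hψa x
    have h2 : sy S x (b ^ 2) = 0 := by
      rw [sy_pow hL]
      have h4 : ((2 : ℕ) : ZMod 2) = 0 := rfl
      rw [h4, zero_mul]
    rw [hb, sy_mul hL, sy_prod hL] at h2
    rw [h1, sy_comm hL, eq_neg_of_add_eq_zero_left h2, ZMod.neg_eq_self_mod_two]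
    refine Finset.sum_congr rfl fun i _ => ?_
    rw [sy_pow hL, zval, sy_comm hL]
  refine ⟨c, fun P => ?_, fun hc0 => ?_⟩
  · rw [hsy]
    unfold dotProduct
    exact Finset.sum_congr rfl fun i _ => by rw [sy_u_ppi hL hr hS F P i]
  · ext x
    have h1 := hsy x
    rw [Finset.sum_eq_zero fun i _ => by rw [hc0]; simp] at h1
    exact Multiplicative.toAdd.injective h1

/-- a product of prime elements with trivial total type is a local square everywhere -/
theorem prod_ppi_KS (F : CFr S) (y : Finset {P : HeightOneSpectrum (𝓞 k) // P ∉ S})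
    (h : ∀ j, ∑ P ∈ y, tyF F P j = 0) : ∏ P ∈ y, F.ppi P ∈ KS S := by
  classical
  have h1 : ∏ P ∈ y, F.ppi P = (∏ P ∈ y, F.ppi P / ∏ j, F.w j ^ (tyF F P j).val) *
      ∏ P ∈ y, ∏ j, F.w j ^ (tyF F P j).val := by
    rw [← Finset.prod_mul_distrib]
    exact Finset.prod_congr rfl fun P _ => by rw [div_mul_cancel]
  rw [h1, Finset.prod_comm]
  refine mul_mem (prod_mem fun P _ => ppi_div_mem F P) (prod_mem fun j _ => ?_)
  rw [Finset.prod_pow_eq_pow_sum]
  have h2 : ((∑ P ∈ y, (tyF F P j).val : ℕ) : ZMod 2) = 0 := by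
    rw [Nat.cast_sum, ← h j]
    exact Finset.sum_congr rfl fun P _ => zval _
  rw [ZMod.natCast_eq_zero_iff] at h2
  obtain ⟨m, hm⟩ := h2
  rw [hm, pow_mul, ← pow_mul, mul_comm, pow_mul]
  exact sq_mem_KS S _

end

end Pool.Agent.H98.MF.B
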