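import Pool.Agent.H98.MF.Base

/-!
# Project MK4, block C: places, local square classes, S-units as subgroups
-/

set_option autoImplicit false

open scoped BigOperators Pointwise
open NumberField IsDedekindDomain

namespace Pool.Agent.H98.MF

/-- finite primes and real embeddings -/
abbrev Pl (k : Type) [Field k] [NumberField k] : Type := HeightOneSpectrum (𝓞 k) ⊕ (k →+* ℝ)

section

variable {k : Type} [Field k] [NumberField k]

/-- the places of `S` together with all real places -/
noncomputable def pls (S : Finset (HeightOneSpectrum (𝓞 k))) : Finset (Pl k) :=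
  S.disjSum (Finset.univ : Finset (k →+* ℝ))

/-- local squares at a place -/
def LocP : Pl k → k → Prop
  | Sum.inl P, a => LocSq P a
  | Sum.inr φ, a => 0 < φ a

/-- the Hilbert symbol at a place -/
noncomputable def hv : Pl k → k → k → ZMod 2
  | Sum.inl P, a, b => hs P a b
  | Sum.inr φ, a, b => hsR φ a b

/-- the group of local squares -/
def LS (v : Pl k) : Subgroup kˣ := Subgroup.closure {a : kˣ | LocP v (a : k)}

/-- the `S`-units -/
def US (S : Finset (HeightOneSpectrum (𝓞 k))) : Subgroup kˣ :=
  Subgroup.closure {a : kˣ | SUn S (a : k)}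

/-- elements that are local squares at all places of `S` and all real places -/
def KS (S : Finset (HeightOneSpectrum (𝓞 k))) : Subgroup kˣ := ⨅ v ∈ pls S, LS v

/-- elements pairing to zero with `a` at all places of `S` and all real places -/
def NS (S : Finset (HeightOneSpectrum (𝓞 k))) (a : kˣ) : Subgroup kˣ :=
  Subgroup.closure {b : kˣ | ∀ v ∈ pls S, hv v (a : k) (b : k) = 0}

/-- the squares of a subgroup -/
def sqr {G : Type} [CommGroup G] (H : Subgroup G) : Subgroup G := H.map (powMonoidHom 2)

/-- the number of places of `S` and of infinite places -/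
noncomputable def mS (S : Finset (HeightOneSpectrum (𝓞 k))) : ℕ :=
  S.card + InfinitePlace.nrRealPlaces k + InfinitePlace.nrComplexPlaces k

/-- homomorphisms to `ZMod 2` trivial on `S`-units and on `KS S` -/
structure Fnl (S : Finset (HeightOneSpectrum (𝓞 k))) (ψ : kˣ →* Multiplicative (ZMod 2)) : Prop where
  unit : ∀ a ∈ US S, ψ a = 1
  loc : ∀ a ∈ KS S, ψ a = 1

/-- additive form of a homomorphism to `ZMod 2` -/
def val2 (ψ : kˣ →* Multiplicative (ZMod 2)) (a : kˣ) : ZMod 2 := Multiplicative.toAdd (ψ a)

open Classical in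
/-- a generator of `Q` in the ring of `S`-integers -/
noncomputable def gen (S : Finset (HeightOneSpectrum (𝓞 k))) (Q : HeightOneSpectrum (𝓞 k)) : kˣ :=
  if h : ∃ a : kˣ, ord Q (a : k) = 1 ∧ ∀ R : HeightOneSpectrum (𝓞 k), R ∉ S → R ≠ Q → ord R (a : k) = 0
  then h.choose else 1

/-- the norm of a prime -/
noncomputable def nrm (Q : HeightOneSpectrum (𝓞 k)) : ℕ := Ideal.absNorm Q.asIdeal

end

end Pool.Agent.H98.MF
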