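import Pool.Agent.H98.MF.C.Bas
import Pool.Agent.H98.MF.Frm

/-!
# Project MK4, block C: the Chebyshev bound for the primes of a number field
-/

set_option autoImplicit false

open scoped BigOperators Pointwise
open NumberField IsDedekindDomain

namespace Pool.Agent.H98.MF.B

section

theorem pi_bound : ∃ C : ℝ, 0 ≤ C ∧ ∀ x : ℝ, 2 ≤ x →
    (Nat.primeCounting ⌊x⌋₊ : ℝ) ≤ C * x / Real.log x := by
  have h1 := Chebyshev.eventually_primeCounting_le (ε := 1) one_pos
  obtain ⟨X, hX⟩ := Filter.eventually_atTop.1 h1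
  have hl4 : 0 ≤ Real.log 4 := Real.log_nonneg (by norm_num)
  refine ⟨max (Real.log 4 + 1) |X|, le_max_of_le_left (by linarith), fun x hx => ?_⟩
  have hlog : 0 < Real.log x := Real.log_pos (by linarith)
  have hx0 : 0 ≤ x := by linarith
  rcases le_or_gt X x with h | h
  · refine (hX x h).trans ?_
    gcongr
    exact le_max_left _ _
  · have h2 : (Nat.primeCounting ⌊x⌋₊ : ℝ) ≤ |X| := by
      have h3 : Nat.primeCounting ⌊x⌋₊ ≤ ⌊x⌋₊ := by
        rw [← Nat.primesLE_card_eq_primeCounting]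
        refine (Finset.card_le_card (t := Finset.Icc 1 ⌊x⌋₊) fun p hp => ?_).trans (by simp)
        rw [Nat.mem_primesLE] at hp
        exact Finset.mem_Icc.2 ⟨hp.2.one_le, hp.1⟩
      have h4 : ((⌊x⌋₊ : ℕ) : ℝ) ≤ x := Nat.floor_le hx0
      calc (Nat.primeCounting ⌊x⌋₊ : ℝ) ≤ ((⌊x⌋₊ : ℕ) : ℝ) := by exact_mod_cast h3
        _ ≤ x := h4
        _ ≤ X := h.le
        _ ≤ |X| := le_abs_self X
    have h5 : Real.log x ≤ x := (Real.log_le_sub_one_of_pos (by linarith)).trans (by linarith)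
    rw [le_div_iff₀ hlog]
    calc (Nat.primeCounting ⌊x⌋₊ : ℝ) * Real.log x ≤ |X| * x := by
          exact mul_le_mul h2 h5 hlog.le (abs_nonneg X)
      _ ≤ max (Real.log 4 + 1) |X| * x := by
          gcongr
          exact le_max_right _ _

variable {k : Type} [Field k] [NumberField k]

/-- the rational prime below -/
noncomputable def rp (P : HeightOneSpectrum (𝓞 k)) : ℕ :=
  Ideal.absNorm (Ideal.under ℤ P.asIdeal)

theorem rp_prime (P : HeightOneSpectrum (𝓞 k)) : (rp P).Prime := by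
  have : NeZero P.asIdeal := ⟨P.ne_bot⟩
  exact Nat.absNorm_under_prime P.asIdeal

theorem nrm_pos (P : HeightOneSpectrum (𝓞 k)) : 0 < nrm P := by
  unfold nrm
  rw [Nat.pos_iff_ne_zero, Ne, Ideal.absNorm_eq_zero_iff]
  exact P.ne_bot

theorem rp_le (P : HeightOneSpectrum (𝓞 k)) : rp P ≤ nrm P :=
  Nat.le_of_dvd (nrm_pos P) (Int.absNorm_under_dvd_absNorm P.asIdeal)

theorem card_rp (p : ℕ) (hp : p.Prime) (T : Finset (HeightOneSpectrum (𝓞 k)))
    (hT : ∀ P ∈ T, rp P = p) : T.card ≤ Module.finrank ℚ k := by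
  classical
  have hp0 : Ideal.span {(p : ℤ)} ≠ ⊥ := by
    rw [Ne, Ideal.span_singleton_eq_bot]
    exact_mod_cast hp.ne_zero
  have hmax : (Ideal.span {(p : ℤ)}).IsMaximal :=
    ((Ideal.span_singleton_prime (by exact_mod_cast hp.ne_zero)).2
      (Nat.prime_iff_prime_int.1 hp)).isMaximal hp0
  have h1 : (T.image fun P => P.asIdeal) ⊆
      IsDedekindDomain.primesOverFinset (Ideal.span {(p : ℤ)}) (𝓞 k) := by
    intro I hI
    obtain ⟨P, hP, rfl⟩ := Finset.mem_image.1 hI
    rw [IsDedekindDomain.mem_primesOverFinset_iff hp0]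
    refine ⟨P.isPrime, ⟨?_⟩⟩
    have h2 := hT P hP
    unfold rp at h2
    rw [← h2, Int.ideal_span_absNorm_eq_self]
  have h3 : T.card = (T.image fun P => P.asIdeal).card :=
    (Finset.card_image_of_injective T fun P Q h => HeightOneSpectrum.ext h).symm
  rw [h3]
  exact (Finset.card_le_card h1).trans
    (Ideal.card_primesOverFinset_le_finrank (𝓞 k) ℚ k hp0)

theorem cheb (F : Sys) (pl : F.P → HeightOneSpectrum (𝓞 k)) (hinj : Function.Injective pl)
    (hN : ∀ p, F.N p = nrm (pl p)) :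
    ∃ C : ℝ, ∀ x : ℝ, 2 ≤ x → ((F.pr x).card : ℝ) ≤ C * x / Real.log x := by
  classical
  obtain ⟨C, hC0, hC⟩ := pi_bound
  refine ⟨Module.finrank ℚ k * C, fun x hx => ?_⟩
  have hx0 : 0 ≤ x := by linarith
  have h1 : (F.pr x).card ≤ Module.finrank ℚ k *
      ((Finset.range (⌊x⌋₊ + 1)).filter Nat.Prime).card := by
    refine Finset.card_le_mul_card_image_of_maps_to (f := fun p => rp (pl p)) ?_ _ ?_
    · intro p hp
      rw [Finset.mem_filter, Finset.mem_range]
      refine ⟨Nat.lt_succ_of_le (Nat.le_floor ?_), rp_prime _⟩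
      have h2 := (F.mem_pr hx0).1 hp
      rw [hN] at h2
      exact le_trans (by exact_mod_cast rp_le (pl p)) h2
    · intro q hq
      have h3 := card_rp q (Finset.mem_filter.1 hq).2
        (((F.pr x).filter fun p => rp (pl p) = q).image pl) (by
          intro P hP
          obtain ⟨p, hp, rfl⟩ := Finset.mem_image.1 hP
          exact (Finset.mem_filter.1 hp).2)
      rwa [Finset.card_image_of_injective _ hinj] at h3
  have h4 : ((Finset.range (⌊x⌋₊ + 1)).filter Nat.Prime).card = Nat.primeCounting ⌊x⌋₊ := by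
    unfold Nat.primeCounting Nat.primeCounting'
    rw [Nat.count_eq_card_filter_range]
  rw [h4] at h1
  have h5 := hC x hx
  calc ((F.pr x).card : ℝ) ≤ (Module.finrank ℚ k : ℝ) * Nat.primeCounting ⌊x⌋₊ := by
        exact_mod_cast h1
    _ ≤ Module.finrank ℚ k * (C * x / Real.log x) := by gcongr
    _ = Module.finrank ℚ k * C * x / Real.log x := by ring

end

end Pool.Agent.H98.MF.B
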