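import Pool.Agent.H98.MF.C.Stm
import Pool.Agent.H98.MF.C.Bas

/-!
# Project MK4, block C, row H0: sums of cup products which are coboundaries, over a number field
-/

set_option autoImplicit false
set_option linter.unusedSectionVars false

open scoped BigOperators Pointwise
open NumberField IsDedekindDomain Filter Topology

namespace Pool.Agent.H98.MF.B

section

variable {k : Type} [Field k] [NumberField k]

/-! ### quadratic characters -/

theorem om_two_ne : (2 : Om k) ≠ 0 := two_ne_zero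

theorem root_or {d : k} {y : Om k} (hy : y ^ 2 = algebraMap k (Om k) d) (σ : Gm k) :
    σ y = y ∨ σ y = -y := by
  have h : σ y ^ 2 = y ^ 2 := by rw [← map_pow, hy, AlgEquiv.commutes]
  exact sq_eq_sq_iff_eq_or_eq_neg.mp h

theorem chi_eq_zero_iff (d : k) (y : Om k) (hy : y ^ 2 = algebraMap k (Om k) d) (σ : Gm k) :
    chi d σ = 0 ↔ σ y = y := by
  have h1 : chi d σ = 0 ↔ σ (sq d) = sq d := by
    rw [chi]
    split_ifs with h
    · simp [h]
    · simp [h]
  rw [h1]
  have h2 : y ^ 2 = sq d ^ 2 := by rw [hy, sq_sq]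
  rcases sq_eq_sq_iff_eq_or_eq_neg.mp h2 with h | h
  · rw [h]
  · rw [h, map_neg, neg_inj]

theorem zmod2_ne (x : ZMod 2) (h : x ≠ 0) : x = 1 := by
  revert x
  decide

theorem chi_eq_one_iff (d : k) (hd : d ≠ 0) (y : Om k) (hy : y ^ 2 = algebraMap k (Om k) d)
    (σ : Gm k) : chi d σ = 1 ↔ σ y = -y := by
  have hy0 : y ≠ 0 := by
    rintro rfl
    rw [zero_pow two_ne_zero] at hy
    exact hd ((map_eq_zero (algebraMap k (Om k))).1 hy.symm)
  have hyn : y ≠ -y := by
    intro h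
    have h2 : (2 : Om k) * y = 0 := by linear_combination h
    rcases mul_eq_zero.mp h2 with h3 | h3
    · exact om_two_ne h3
    · exact hy0 h3
  constructor
  · intro h
    rcases root_or hy σ with h1 | h1
    · rw [(chi_eq_zero_iff d y hy σ).mpr h1] at h
      exact absurd h zero_ne_one
    · exact h1
  · intro h
    apply zmod2_ne
    intro h1
    rw [(chi_eq_zero_iff d y hy σ).mp h1] at h
    exact hyn h

theorem chi_zero (σ : Gm k) : chi (0 : k) σ = 0 := by
  rw [chi_eq_zero_iff 0 0 (by simp) σ, map_zero]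

theorem chi_hom (d : k) (σ τ : Gm k) : chi d (σ * τ) = chi d σ + chi d τ := by
  by_cases hd : d = 0
  · subst hd
    rw [chi_zero, chi_zero, chi_zero, add_zero]
  have hy := sq_sq d
  rcases root_or hy σ with h1 | h1 <;> rcases root_or hy τ with h2 | h2
  · rw [(chi_eq_zero_iff d _ hy σ).mpr h1, (chi_eq_zero_iff d _ hy τ).mpr h2, add_zero,
      chi_eq_zero_iff d _ hy, AlgEquiv.mul_apply, h2, h1]
  · rw [(chi_eq_zero_iff d _ hy σ).mpr h1, (chi_eq_one_iff d hd _ hy τ).mpr h2, zero_add,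
      chi_eq_one_iff d hd _ hy, AlgEquiv.mul_apply, h2, map_neg, h1]
  · rw [(chi_eq_one_iff d hd _ hy σ).mpr h1, (chi_eq_zero_iff d _ hy τ).mpr h2, add_zero,
      chi_eq_one_iff d hd _ hy, AlgEquiv.mul_apply, h2, h1]
  · rw [(chi_eq_one_iff d hd _ hy σ).mpr h1, (chi_eq_one_iff d hd _ hy τ).mpr h2]
    have h3 : (1 : ZMod 2) + 1 = 0 := by decide
    rw [h3, chi_eq_zero_iff d _ hy, AlgEquiv.mul_apply, h2, map_neg, h1, neg_neg]

theorem chi_one' (d : k) : chi d (1 : Gm k) = 0 := by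
  rw [chi_eq_zero_iff d _ (sq_sq d)]
  rfl

/-- values at finitely many points are locally constant -/
theorem loc_of_values {β : Type} (s : Finset (Om k)) (f : Gm k → β)
    (hf : ∀ σ τ : Gm k, (∀ x ∈ s, σ x = τ x) → f σ = f τ) : IsLocallyConstant f := by
  rw [IsLocallyConstant.iff_exists_open]
  intro σ
  have hfin : FiniteDimensional k (IntermediateField.adjoin k (s : Set (Om k))) := by
    apply IntermediateField.finiteDimensional_adjoin
    intro x _
    exact (Algebra.IsAlgebraic.isAlgebraic x).isIntegral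
  have hopen := IntermediateField.fixingSubgroup_isOpen
    (IntermediateField.adjoin k (s : Set (Om k)))
  refine ⟨(fun τ : Gm k => σ⁻¹ * τ) ⁻¹'
    ((IntermediateField.adjoin k (s : Set (Om k))).fixingSubgroup : Set (Gm k)),
    hopen.preimage (continuous_const.mul continuous_id), ?_, ?_⟩
  · show σ⁻¹ * σ ∈ (IntermediateField.adjoin k (s : Set (Om k))).fixingSubgroup
    rw [inv_mul_cancel]
    exact Subgroup.one_mem _
  · intro τ hτ
    apply hf
    intro x hx
    have h1 : (σ⁻¹ * τ) x = x := by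
      have h2 := (IntermediateField.mem_fixingSubgroup_iff _ _).1 hτ x
      exact h2 (IntermediateField.subset_adjoin k _ hx)
    have h3 : σ ((σ⁻¹ * τ) x) = τ x := by
      rw [← AlgEquiv.mul_apply, ← mul_assoc, mul_inv_cancel, one_mul]
    rw [← h3, h1]

theorem chi_lc (d : k) : IsLocallyConstant (chi d : Gm k → ZMod 2) := by
  refine loc_of_values {sq d} (chi d) fun σ τ h => ?_
  have h1 := h (sq d) (by simp)
  unfold chi
  rw [h1]

theorem chi_mul (x y : k) (hx : x ≠ 0) (hy : y ≠ 0) (σ : Gm k) :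
    chi (x * y) σ = chi x σ + chi y σ := by
  have hxy : (sq x * sq y) ^ 2 = algebraMap k (Om k) (x * y) := by
    rw [mul_pow, sq_sq, sq_sq, map_mul]
  have hd : x * y ≠ 0 := mul_ne_zero hx hy
  rcases root_or (sq_sq x) σ with h1 | h1 <;> rcases root_or (sq_sq y) σ with h2 | h2
  · rw [(chi_eq_zero_iff x _ (sq_sq x) σ).mpr h1, (chi_eq_zero_iff y _ (sq_sq y) σ).mpr h2,
      add_zero, chi_eq_zero_iff _ _ hxy, map_mul, h1, h2]
  · rw [(chi_eq_zero_iff x _ (sq_sq x) σ).mpr h1, (chi_eq_one_iff y hy _ (sq_sq y) σ).mpr h2,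
      zero_add, chi_eq_one_iff _ hd _ hxy, map_mul, h1, h2, mul_neg]
  · rw [(chi_eq_one_iff x hx _ (sq_sq x) σ).mpr h1, (chi_eq_zero_iff y _ (sq_sq y) σ).mpr h2,
      add_zero, chi_eq_one_iff _ hd _ hxy, map_mul, h1, h2, neg_mul]
  · rw [(chi_eq_one_iff x hx _ (sq_sq x) σ).mpr h1, (chi_eq_one_iff y hy _ (sq_sq y) σ).mpr h2]
    have h3 : (1 : ZMod 2) + 1 = 0 := by decide
    rw [h3, chi_eq_zero_iff _ _ hxy, map_mul, h1, h2, neg_mul_neg]

theorem chi_mul_units (a b : kˣ) (σ : Gm k) :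
    chi ((a * b : kˣ) : k) σ = chi (a : k) σ + chi (b : k) σ := by
  rw [Units.val_mul]
  exact chi_mul _ _ a.ne_zero b.ne_zero σ

theorem chi_sq (x : k) (σ : Gm k) : chi (x ^ 2) σ = 0 := by
  rw [chi_eq_zero_iff (x ^ 2) (algebraMap k (Om k) x) (by rw [map_pow]), AlgEquiv.commutes]

theorem chi_isSquare (d : k) (h : ∀ σ : Gm k, chi d σ = 0) : IsSquare d := by
  have h1 : ∀ σ : Gm k, σ (sq d) = sq d := fun σ =>
    (chi_eq_zero_iff d _ (sq_sq d) σ).mp (h σ)
  have h2 : sq d ∈ Set.range (algebraMap k (Om k)) :=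
    (InfiniteGalois.mem_range_algebraMap_iff_fixed (sq d)).mpr h1
  obtain ⟨q, hq⟩ := h2
  refine ⟨q, ?_⟩
  have h3 : (algebraMap k (Om k)) (q * q) = (algebraMap k (Om k)) d := by
    rw [map_mul, hq, ← pow_two, sq_sq]
  exact ((algebraMap k (Om k)).injective h3).symm

theorem chi_eq_zero_iff_isSquare (d : k) : (∀ σ : Gm k, chi d σ = 0) ↔ IsSquare d := by
  refine ⟨chi_isSquare d, ?_⟩
  rintro ⟨q, rfl⟩ σ
  rw [← pow_two]
  exact chi_sq q σ

/-! ### sums of cup products -/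

/-- the value of the sum of the cup products of the pairs of `l` -/
noncomputable def cupL (l : List (kˣ × kˣ)) (σ τ : Gm k) : ZMod 2 :=
  (l.map fun p => chi (p.1 : k) σ * chi (p.2 : k) τ).sum

/-- the sum of the cup products of the pairs of `l` is a coboundary -/
def TT (l : List (kˣ × kˣ)) : Prop :=
  ∃ f : Gm k → ZMod 2, IsLocallyConstant f ∧ ∀ σ τ, f (σ * τ) = f σ + f τ + cupL l σ τ

theorem cupL_nil (σ τ : Gm k) : cupL ([] : List (kˣ × kˣ)) σ τ = 0 := rfl

theorem cupL_cons (p : kˣ × kˣ) (l : List (kˣ × kˣ)) (σ τ : Gm k) :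
    cupL (p :: l) σ τ = chi (p.1 : k) σ * chi (p.2 : k) τ + cupL l σ τ := by
  unfold cupL
  rw [List.map_cons, List.sum_cons]

theorem cupL_append (l l' : List (kˣ × kˣ)) (σ τ : Gm k) :
    cupL (l ++ l') σ τ = cupL l σ τ + cupL l' σ τ := by
  unfold cupL
  rw [List.map_append, List.sum_append]

theorem cupL_perm {l l' : List (kˣ × kˣ)} (h : l.Perm l') (σ τ : Gm k) :
    cupL l σ τ = cupL l' σ τ := by
  unfold cupL
  exact (h.map _).sum_eq

theorem TT.congr {l l' : List (kˣ × kˣ)} (h : TT l) (e : ∀ σ τ : Gm k, cupL l' σ τ = cupL l σ τ) :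
    TT l' := by
  obtain ⟨f, hf, h1⟩ := h
  exact ⟨f, hf, fun σ τ => by rw [h1, e]⟩

theorem TT.perm {l l' : List (kˣ × kˣ)} (h : TT l) (e : l.Perm l') : TT l' :=
  h.congr fun σ τ => (cupL_perm e σ τ).symm

theorem TT_perm {l l' : List (kˣ × kˣ)} (e : l.Perm l') : TT l ↔ TT l' :=
  ⟨fun h => h.perm e, fun h => h.perm e.symm⟩

theorem TT.append {l l' : List (kˣ × kˣ)} (h : TT l) (h' : TT l') : TT (l ++ l') := by
  obtain ⟨f, hf, h1⟩ := h
  obtain ⟨f', hf', h2⟩ := h'
  refine ⟨f + f', hf.add hf', fun σ τ => ?_⟩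
  rw [Pi.add_apply, Pi.add_apply, Pi.add_apply, h1, h2, cupL_append]
  ring

theorem TT.of_append {l l' : List (kˣ × kˣ)} (h : TT (l ++ l')) (h' : TT l') : TT l := by
  obtain ⟨f, hf, h1⟩ := h
  obtain ⟨f', hf', h2⟩ := h'
  refine ⟨f + f', hf.add hf', fun σ τ => ?_⟩
  have h3 : cupL l' σ τ + cupL l' σ τ = 0 := CharTwo.add_self_eq_zero _
  rw [Pi.add_apply, Pi.add_apply, Pi.add_apply, h1, h2, cupL_append]
  linear_combination h3

theorem TT.of_append_left {l l' : List (kˣ × kˣ)} (h : TT (l ++ l')) (h' : TT l) : TT l' :=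
  (h.perm List.perm_append_comm).of_append h'

theorem TT_append_iff {l l' : List (kˣ × kˣ)} (h' : TT l') : TT (l ++ l') ↔ TT l :=
  ⟨fun h => h.of_append h', fun h => h.append h'⟩

theorem TT_nil : TT ([] : List (kˣ × kˣ)) :=
  ⟨fun _ => 0, IsLocallyConstant.const 0, fun σ τ => by rw [cupL_nil]; ring⟩

theorem TT_of_cup_zero {l : List (kˣ × kˣ)} (h : ∀ σ τ : Gm k, cupL l σ τ = 0) : TT l :=
  TT_nil.congr fun σ τ => by rw [h, cupL_nil]

theorem TT.cons {p : kˣ × kˣ} {l : List (kˣ × kˣ)} (h : TT [p]) (h' : TT l) : TT (p :: l) :=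
  h.append h'

theorem TT.of_cons {p : kˣ × kˣ} {l : List (kˣ × kˣ)} (h : TT (p :: l)) (h' : TT l) : TT [p] :=
  TT.of_append (l := [p]) h h'

theorem TT.tail {p : kˣ × kˣ} {l : List (kˣ × kˣ)} (h : TT (p :: l)) (h' : TT [p]) : TT l :=
  TT.of_append_left (l := [p]) h h'

/-- the list taken twice -/
theorem TT_double (l : List (kˣ × kˣ)) : TT (l ++ l) :=
  TT_of_cup_zero fun σ τ => by
    rw [cupL_append]
    exact CharTwo.add_self_eq_zero _

/-- additivity in the second argument -/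
theorem TT_mul_right (a b c : kˣ) : TT [(a, b), (a, c), (a, b * c)] := by
  refine TT_of_cup_zero fun σ τ => ?_
  simp only [cupL_cons, cupL_nil, chi_mul_units]
  have h : ∀ x y z : ZMod 2, x * y + (x * z + (x * (y + z) + 0)) = 0 := by decide
  exact h _ _ _

/-- additivity in the first argument -/
theorem TT_mul_left (a b c : kˣ) : TT [(a, c), (b, c), (a * b, c)] := by
  refine TT_of_cup_zero fun σ τ => ?_
  simp only [cupL_cons, cupL_nil, chi_mul_units]
  have h : ∀ x y z : ZMod 2, x * z + (y * z + ((x + y) * z + 0)) = 0 := by decide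
  exact h _ _ _

/-- symmetry -/
theorem TT_symm2 (a b : kˣ) : TT [(a, b), (b, a)] := by
  refine ⟨fun σ => chi (a : k) σ * chi (b : k) σ, (chi_lc _).mul (chi_lc _), fun σ τ => ?_⟩
  simp only [cupL_cons, cupL_nil, chi_hom]
  ring

theorem TT.swap {a b : kˣ} (h : TT [(a, b)]) : TT [(b, a)] :=
  TT.tail (TT_symm2 a b) h

theorem TT_swap_iff (a b : kˣ) : TT [(a, b)] ↔ TT [(b, a)] :=
  ⟨fun h => h.swap, fun h => h.swap⟩

/-- squares -/
theorem TT_sq_right (a b : kˣ) : TT [(a, b ^ 2)] := by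
  refine TT_of_cup_zero fun σ τ => ?_
  simp only [cupL_cons, cupL_nil, Units.val_pow_eq_pow_val, chi_sq]
  ring

theorem TT_sq_left (a b : kˣ) : TT [(a ^ 2, b)] := (TT_sq_right b a).swap

/-- changing the first argument by a square -/
theorem TT_mul_sq_left {a b t : kˣ} : TT [(a * t ^ 2, b)] ↔ TT [(a, b)] := by
  have e : ∀ σ τ : Gm k, cupL [(a * t ^ 2, b)] σ τ = cupL [(a, b)] σ τ := fun σ τ => by
    simp only [cupL_cons, cupL_nil, chi_mul_units, Units.val_pow_eq_pow_val, chi_sq]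
    ring
  exact ⟨fun h => h.congr fun σ τ => (e σ τ).symm, fun h => h.congr e⟩

theorem TT_mul_sq_right {a b t : kˣ} : TT [(a, b * t ^ 2)] ↔ TT [(a, b)] := by
  rw [TT_swap_iff, TT_mul_sq_left, TT_swap_iff]

/-- `Triv` on the whole group in terms of lists -/
theorem Triv_top_iff {r : ℕ} (a b : Fin r → kˣ) :
    Triv ⊤ (fun i => (a i : k)) (fun i => (b i : k)) ↔ TT (List.ofFn fun i => (a i, b i)) := by
  have e : ∀ σ τ : Gm k, cupL (List.ofFn fun i => (a i, b i)) σ τ =
      ∑ i, chi (a i : k) σ * chi (b i : k) τ := fun σ τ => by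
    unfold cupL
    rw [List.map_ofFn, List.sum_ofFn]
    rfl
  constructor
  · rintro ⟨f, hf, h⟩
    exact ⟨f, hf, fun σ τ => by rw [e]; exact h σ (Subgroup.mem_top σ) τ (Subgroup.mem_top τ)⟩
  · rintro ⟨f, hf, h⟩
    exact ⟨f, hf, fun σ _ τ _ => by rw [h, e]⟩

/-! ### norms -/

/-- the sign of a residue modulo two -/
noncomputable def sgO (x : ZMod 2) : Om k := if x = 0 then 1 else -1

theorem sgO_add (x y : ZMod 2) : (sgO (x + y) : Om k) = sgO x * sgO y := by
  have h : ∀ x : ZMod 2, x = 0 ∨ x = 1 := by decide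
  have h1 : (1 : ZMod 2) ≠ 0 := by decide
  have h2 : (1 : ZMod 2) + 1 = 0 := by decide
  unfold sgO
  rcases h x with rfl | rfl <;> rcases h y with rfl | rfl
  · simp
  · simp
  · simp
  · rw [h2, if_pos rfl, if_neg h1]
    ring

theorem sgO_sq (x : ZMod 2) : (sgO x * sgO x : Om k) = 1 := by
  unfold sgO
  split_ifs <;> ring

theorem sgO_inj {x y : ZMod 2} {c : Om k} (hc : c ≠ 0) (h : sgO x * c = sgO y * c) :
    x = y := by
  have h1 := mul_right_cancel₀ hc h
  have h3 : ∀ x : ZMod 2, x = 0 ∨ x = 1 := by decide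
  have h4 : (1 : ZMod 2) ≠ 0 := by decide
  have h5 : (1 : Om k) ≠ -1 := by
    intro h
    have h6 : (2 : Om k) = 0 := by linear_combination h
    exact om_two_ne h6
  unfold sgO at h1
  rcases h3 x with rfl | rfl <;> rcases h3 y with rfl | rfl
  · rfl
  · rw [if_pos rfl, if_neg h4] at h1
    exact absurd h1 h5
  · rw [if_pos rfl, if_neg h4] at h1
    exact absurd h1.symm h5
  · rfl

theorem map_sq_eq (d : k) (σ : Gm k) : σ (sq d) = sgO (chi d σ) * sq d := by
  have h4 : (1 : ZMod 2) ≠ 0 := by decide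
  have h1 : σ (sq d) ^ 2 = sq d ^ 2 := by
    rw [← map_pow, sq_sq, AlgEquiv.commutes]
  unfold chi sgO
  by_cases h : σ (sq d) = sq d
  · rw [if_pos h, if_pos rfl, h, one_mul]
  · rw [if_neg h, if_neg h4]
    rcases sq_eq_sq_iff_eq_or_eq_neg.1 h1 with h2 | h2
    · exact absurd h2 h
    · rw [h2]
      ring

theorem map_sgO (σ : Gm k) (x : ZMod 2) : σ (sgO x) = sgO x := by
  unfold sgO
  split_ifs
  · exact map_one σ
  · rw [map_neg, map_one]

/-- **Norms give coboundaries.** -/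
theorem TT_of_norm (a b : kˣ) (x y : k) (hb : (b : k) = x ^ 2 - a * y ^ 2) : TT [(a, b)] := by
  classical
  apply TT.swap
  have hz4 : (1 : ZMod 2) ≠ 0 := by decide
  have hz3 : ∀ x : ZMod 2, x = 0 ∨ x = 1 := by decide
  set X : Om k := algebraMap k (Om k) x with hX
  set Y : Om k := algebraMap k (Om k) y with hY
  set t : Om k := sq (a : k) with ht
  set u : Om k := sq (b : k) with hu
  have hXf : ∀ σ : Gm k, σ X = X := fun σ => AlgEquiv.commutes σ x
  have hYf : ∀ σ : Gm k, σ Y = Y := fun σ => AlgEquiv.commutes σ y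
  have ht2 : t ^ 2 = algebraMap k (Om k) a := sq_sq _
  have hu2 : u ^ 2 = X ^ 2 - Y ^ 2 * t ^ 2 := by
    rw [hu, sq_sq, hb, ht2, hX, hY]
    simp only [map_sub, map_mul, map_pow]
    ring
  have hu0 : u ≠ 0 := by
    intro h
    have h1 := sq_sq (b : k)
    rw [← hu, h, zero_pow two_ne_zero] at h1
    exact b.ne_zero ((map_eq_zero (algebraMap k (Om k))).1 h1.symm)
  have hgg : (X + Y * t) * (X - Y * t) = u ^ 2 := by
    rw [hu2]
    ring
  have hg1 : X + Y * t ≠ 0 := by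
    intro h
    apply pow_ne_zero 2 hu0
    rw [← hgg, h, zero_mul]
  obtain ⟨θ, hθ⟩ := IsAlgClosed.exists_pow_nat_eq (X + Y * t) (n := 2) two_pos
  have hθ0 : θ ≠ 0 := by
    intro h
    apply hg1
    rw [← hθ, h]
    norm_num
  set θ₂ : Om k := u / θ with hθ₂
  have hθ₂0 : θ₂ ≠ 0 := div_ne_zero hu0 hθ0
  have hθ₂2 : θ₂ ^ 2 = X - Y * t := by
    rw [hθ₂, div_pow, hθ, ← hgg]
    field_simp
  have hdiv : u / θ₂ = θ := by
    rw [hθ₂]
    field_simp
  -- the cochain
  let f : Gm k → ZMod 2 := fun σ =>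
    if chi (a : k) σ = 0 then (if σ θ = θ then 0 else 1) else (if σ θ = θ₂ then 0 else 1)
  have hf0 : ∀ σ : Gm k, chi (a : k) σ = 0 → σ θ = sgO (f σ) * θ := by
    intro σ hσ
    have h2 : σ t = t := by
      have h3 := map_sq_eq (a : k) σ
      rw [hσ] at h3
      rw [ht, h3]
      simp [sgO]
    have h3 : (σ θ) ^ 2 = θ ^ 2 := by
      rw [← map_pow, hθ, map_add, map_mul, hXf, hYf, h2]
    show σ θ = sgO (if chi (a : k) σ = 0 then (if σ θ = θ then 0 else 1)
      else (if σ θ = θ₂ then 0 else 1)) * θ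
    rw [if_pos hσ]
    by_cases h4 : σ θ = θ
    · rw [if_pos h4, h4]
      simp [sgO]
    · rw [if_neg h4]
      rcases sq_eq_sq_iff_eq_or_eq_neg.1 h3 with h5 | h5
      · exact absurd h5 h4
      · rw [h5]
        simp [sgO]
  have hf1 : ∀ σ : Gm k, chi (a : k) σ = 1 → σ θ = sgO (f σ) * θ₂ := by
    intro σ hσ
    have h2 : σ t = -t := by
      have h3 := map_sq_eq (a : k) σ
      rw [hσ] at h3
      rw [ht, h3]
      simp [sgO]
    have h3 : (σ θ) ^ 2 = θ₂ ^ 2 := by
      rw [← map_pow, hθ, map_add, map_mul, hXf, hYf, h2, hθ₂2]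
      ring
    show σ θ = sgO (if chi (a : k) σ = 0 then (if σ θ = θ then 0 else 1)
      else (if σ θ = θ₂ then 0 else 1)) * θ₂
    rw [if_neg (by rw [hσ]; exact hz4)]
    by_cases h4 : σ θ = θ₂
    · rw [if_pos h4, h4]
      simp [sgO]
    · rw [if_neg h4]
      rcases sq_eq_sq_iff_eq_or_eq_neg.1 h3 with h5 | h5
      · exact absurd h5 h4
      · rw [h5]
        simp [sgO]
  have hg0 : ∀ σ : Gm k, chi (a : k) σ = 0 →
      σ θ₂ = sgO (chi (b : k) σ) * sgO (f σ) * θ₂ := by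
    intro σ hσ
    rw [hθ₂, map_div₀, hf0 σ hσ, map_sq_eq (b : k) σ, ← hu]
    have h2 := sgO_sq (k := k) (f σ)
    have h3 : (sgO (f σ) : Om k) ≠ 0 := by
      intro h
      rw [h, zero_mul] at h2
      exact zero_ne_one h2
    field_simp
    linear_combination -sgO (chi (b : k) σ) * h2
  have hg1' : ∀ σ : Gm k, chi (a : k) σ = 1 →
      σ θ₂ = sgO (chi (b : k) σ) * sgO (f σ) * θ := by
    intro σ hσ
    have h2 := sgO_sq (k := k) (f σ)
    have h3 : (sgO (f σ) : Om k) ≠ 0 := by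
      intro h
      rw [h, zero_mul] at h2
      exact zero_ne_one h2
    have h4 : σ θ₂ = sgO (chi (b : k) σ) * u / (sgO (f σ) * θ₂) := by
      rw [← hf1 σ hσ, ← map_sq_eq (b : k) σ, ← map_div₀]
    rw [h4, ← hdiv]
    field_simp
    linear_combination -sgO (chi (b : k) σ) * h2
  refine ⟨f, ?_, ?_⟩
  · refine loc_of_values {t, θ} f ?_
    intro σ τ h
    have h2 : σ t = τ t := h t (by simp)
    have h3 : σ θ = τ θ := h θ (by simp)
    have h4 : chi (a : k) σ = chi (a : k) τ := by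
      unfold chi
      rw [← ht, h2]
    show (if chi (a : k) σ = 0 then (if σ θ = θ then 0 else 1)
        else (if σ θ = θ₂ then 0 else 1)) =
      (if chi (a : k) τ = 0 then (if τ θ = θ then 0 else 1) else (if τ θ = θ₂ then 0 else 1))
    rw [h4, h3]
  · intro σ τ
    have e : cupL [(b, a)] σ τ = chi (b : k) σ * chi (a : k) τ := by
      rw [cupL_cons, cupL_nil, add_zero]
    rw [e]
    have hm := chi_hom (a : k) σ τ
    rcases hz3 (chi (a : k) σ) with hσ | hσ <;> rcases hz3 (chi (a : k) τ) with hτ | hτ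
    · rw [hτ, mul_zero, add_zero]
      rw [hσ, hτ, add_zero] at hm
      apply sgO_inj hθ0
      rw [← hf0 _ hm, AlgEquiv.mul_apply, hf0 τ hτ, map_mul, map_sgO, hf0 σ hσ, sgO_add]
      ring
    · rw [hτ, mul_one]
      rw [hσ, hτ, zero_add] at hm
      apply sgO_inj hθ₂0
      rw [← hf1 _ hm, AlgEquiv.mul_apply, hf1 τ hτ, map_mul, map_sgO, hg0 σ hσ, sgO_add,
        sgO_add]
      ring
    · rw [hτ, mul_zero, add_zero]
      rw [hσ, hτ, add_zero] at hm
      apply sgO_inj hθ₂0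
      rw [← hf1 _ hm, AlgEquiv.mul_apply, hf0 τ hτ, map_mul, map_sgO, hf1 σ hσ, sgO_add]
      ring
    · rw [hτ, mul_one]
      rw [hσ, hτ] at hm
      have hm' : chi (a : k) (σ * τ) = 0 := by
        rw [hm]
        decide
      apply sgO_inj hθ0
      rw [← hf0 _ hm', AlgEquiv.mul_apply, hf1 τ hτ, map_mul, map_sgO, hg1' σ hσ, sgO_add,
        sgO_add]
      ring

end

end Pool.Agent.H98.MF.B
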