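import Pool.Agent.H98.MF.C.Stm
import Pool.Agent.H98.MF.L.TrivI
import Pool.Agent.H98.MF.L.Real
import Pool.Agent.H98.MF.L.WApx
import Pool.Agent.H98.MF.L.Cnt
import Pool.Agent.H98.MF.L.Odd

/-!
# Project MK4, block C: the interface `LIn` from block L
-/

set_option autoImplicit false

open scoped BigOperators Pointwise
open NumberField IsDedekindDomain

namespace Pool.Agent.H98.MF.B

section

variable {k : Type} [Field k] [NumberField k]

theorem phi_ne (φ : k →+* ℝ) (a : kˣ) : φ (a : k) ≠ 0 := (map_ne_zero φ).2 a.ne_zero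

theorem mem_LSR (φ : k →+* ℝ) (a : kˣ) : a ∈ LS (Sum.inr φ : Pl k) ↔ 0 < φ (a : k) := by
  constructor
  · intro h
    unfold LS at h
    induction h using Subgroup.closure_induction with
    | mem b hb => exact hb
    | one => simp
    | mul b c _ _ hb hc =>
      rw [Units.val_mul, map_mul]
      exact mul_pos hb hc
    | inv b _ hb =>
      rw [Units.val_inv_eq_inv_val, map_inv₀]
      exact inv_pos.2 hb
  · intro h
    exact Subgroup.subset_closure h

theorem LSR_index (φ : k →+* ℝ) : (LS (Sum.inr φ : Pl k)).index = 2 := by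
  rw [Subgroup.index_eq_two_iff]
  refine ⟨-1, fun b => ?_⟩
  rw [mem_LSR, mem_LSR, Units.val_mul, map_mul, Units.val_neg, Units.val_one, map_neg, map_one,
    mul_neg_one]
  rcases lt_or_gt_of_ne (phi_ne φ b) with h | h
  · exact Or.inl ⟨by linarith, by linarith⟩
  · exact Or.inr ⟨h, by linarith⟩

theorem lin (k : Type) [Field k] [NumberField k] : LIn k where
  memLS v a := by
    rcases v with P | φ
    · exact mem_LS P a
    · exact mem_LSR φ a
  idxP P := LS_index P
  idxR φ := LSR_index φ
  mulR v a b c := by
    rcases v with P | φ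
    · show hs P (a : k) ((b * c : kˣ) : k) = hs P (a : k) b + hs P (a : k) c
      rw [Units.val_mul]
      exact hs_mul_right P a.ne_zero b.ne_zero c.ne_zero
    · show hsR φ (a : k) ((b * c : kˣ) : k) = hsR φ (a : k) b + hsR φ (a : k) c
      unfold hsR
      rw [Units.val_mul, map_mul]
      have h2 : (1 : ZMod 2) + 1 = 0 := by decide
      by_cases ha : φ (a : k) < 0
      · simp only [ha, true_and]
        rcases lt_or_gt_of_ne (phi_ne φ b) with hb | hb <;>
          rcases lt_or_gt_of_ne (phi_ne φ c) with hc | hc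
        · rw [if_neg (not_lt.2 (mul_pos_of_neg_of_neg hb hc).le), if_pos hb, if_pos hc, h2]
        · rw [if_pos (mul_neg_of_neg_of_pos hb hc), if_pos hb, if_neg (not_lt.2 hc.le), add_zero]
        · rw [if_pos (mul_neg_of_pos_of_neg hb hc), if_neg (not_lt.2 hb.le), if_pos hc, zero_add]
        · rw [if_neg (not_lt.2 (mul_pos hb hc).le), if_neg (not_lt.2 hb.le),
            if_neg (not_lt.2 hc.le), add_zero]
      · simp [ha]
  symm v a b := by
    rcases v with P | φ
    · exact hs_symm P a.ne_zero b.ne_zero
    · show hsR φ (a : k) (b : k) = hsR φ (b : k) (a : k)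
      unfold hsR
      simp only [and_comm]
  nd v a := by
    rcases v with P | φ
    · constructor
      · intro h
        exact hs_nondeg P a.ne_zero fun b hb => h (Units.mk0 b hb)
      · intro h b
        exact h.hs_left b.ne_zero
    · constructor
      · intro h
        have h1 : hsR φ (a : k) ((-1 : kˣ) : k) = 0 := h (-1)
        unfold hsR at h1
        rw [Units.val_neg, Units.val_one, map_neg, map_one] at h1
        rcases lt_or_gt_of_ne (phi_ne φ a) with h2 | h2
        · rw [if_pos ⟨h2, by norm_num⟩] at h1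
          exact absurd h1 one_ne_zero
        · exact h2
      · intro h b
        show hsR φ (a : k) (b : k) = 0
        unfold hsR
        have h3 : (0 : ℝ) < φ (a : k) := h
        rw [if_neg]
        intro h4
        linarith [h4.1]
  nm v a b x y h := by
    rcases v with P | φ
    · show hs P (a : k) (b : k) = 0
      have h1 : x ^ 2 - (a : k) * y ^ 2 ≠ 0 := by
        rw [← h]
        exact b.ne_zero
      rw [h]
      exact hs_norm P h1
    · show hsR φ (a : k) (b : k) = 0
      unfold hsR
      rw [if_neg]
      rintro ⟨h1, h2⟩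
      rw [h, map_sub, map_mul, map_pow, map_pow] at h2
      nlinarith [sq_nonneg (φ x), sq_nonneg (φ y), mul_nonneg (neg_nonneg.2 h1.le)
        (sq_nonneg (φ y))]
  unt P h2 a b ha := hs_even h2 a.ne_zero b.ne_zero (by rw [ha]; exact Even.zero)
  weak T c := by
    classical
    obtain ⟨a, ha0, ha1, ha2⟩ := weak_sq (T.preimage Sum.inl Sum.inl_injective.injOn)
      (fun P => (c (Sum.inl P) : k)) (fun P _ => (c (Sum.inl P)).ne_zero)
      (fun φ => 0 < φ (c (Sum.inr φ) : k))
    refine ⟨Units.mk0 a ha0, fun v hv' => ?_⟩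
    rcases v with P | φ
    · rw [mem_LS P]
      have h1 := (ha1 P (Finset.mem_preimage.2 hv')).1
      have h2 : ((Units.mk0 a ha0 / c (Sum.inl P) : kˣ) : k) =
          (a * (c (Sum.inl P) : k)) * ((c (Sum.inl P) : k)⁻¹) ^ 2 := by
        rw [Units.val_div_eq_div_val, Units.val_mk0]
        have := (c (Sum.inl P)).ne_zero
        field_simp
      rw [h2, locSq_mul_sq P (inv_ne_zero (c (Sum.inl P)).ne_zero)]
      exact h1
    · rw [mem_LSR]
      have h1 := ha2 φ
      rw [Units.val_div_eq_div_val, Units.val_mk0, map_div₀]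
      rcases lt_or_gt_of_ne (phi_ne φ (c (Sum.inr φ))) with h | h
      · have h3 : ¬ 0 < φ a := fun h4 => by
          have := h1.2.1 h4
          linarith
        have h4 : φ a < 0 := lt_of_le_of_ne (not_lt.1 h3) h1.1
        exact div_pos_of_neg_of_neg h4 h
      · exact div_pos (h1.2.2 h) h
  triv P _ a b := triv_iff P _ _ (fun i => (a i).ne_zero) (fun i => (b i).ne_zero)
  trivR φ _ a b := trivR_iff φ _ _ (fun i => (a i).ne_zero) (fun i => (b i).ne_zero)

end

end Pool.Agent.H98.MF.B
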