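import Pool.Agent.H98.MF.C.Bas

/-!
# Project MK4, block C: `ord` and the valuation
-/

set_option autoImplicit false

open scoped BigOperators Pointwise nonZeroDivisors
open NumberField IsDedekindDomain

namespace Pool.Agent.H98.MF.B

section

variable {k : Type} [Field k] [NumberField k]

open Classical in
theorem ord_int (P : HeightOneSpectrum (𝓞 k)) (r : 𝓞 k) (hr : r ≠ 0) :
    ord P (algebraMap (𝓞 k) k r) =
      ((Associates.mk P.asIdeal).count (Associates.mk (Ideal.span {r} : Ideal (𝓞 k))).factors : ℤ) := by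
  unfold ord
  rw [← FractionalIdeal.coeIdeal_span_singleton, FractionalIdeal.count_coe k P]
  intro h
  exact hr (Ideal.span_singleton_eq_bot.1 h)

theorem ord_alg_nonneg (P : HeightOneSpectrum (𝓞 k)) (r : 𝓞 k) :
    0 ≤ ord P (algebraMap (𝓞 k) k r) := by
  unfold ord
  rw [← FractionalIdeal.coeIdeal_span_singleton]
  exact FractionalIdeal.count_coe_nonneg k P _

theorem val_int (P : HeightOneSpectrum (𝓞 k)) (r : 𝓞 k) (hr : r ≠ 0) :
    P.valuation k (algebraMap (𝓞 k) k r) = WithZero.exp (- ord P (algebraMap (𝓞 k) k r)) := by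
  classical
  rw [HeightOneSpectrum.valuation_of_algebraMap, HeightOneSpectrum.intValuation_if_neg _ hr,
    ord_int P r hr]

theorem val_eq (P : HeightOneSpectrum (𝓞 k)) {x : k} (hx : x ≠ 0) :
    P.valuation k x = WithZero.exp (- ord P x) := by
  obtain ⟨a, b, hb, rfl⟩ := IsFractionRing.div_surjective (A := 𝓞 k) x
  have hb0 : b ≠ 0 := nonZeroDivisors.ne_zero hb
  have hbk : algebraMap (𝓞 k) k b ≠ 0 := by
    intro h
    exact hb0 ((FaithfulSMul.algebraMap_injective (𝓞 k) k) (by rw [h, map_zero]))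
  have ha0 : a ≠ 0 := by
    rintro rfl
    exact hx (by rw [map_zero, zero_div])
  have hak : algebraMap (𝓞 k) k a ≠ 0 := by
    intro h
    exact ha0 ((FaithfulSMul.algebraMap_injective (𝓞 k) k) (by rw [h, map_zero]))
  rw [map_div₀, val_int P a ha0, val_int P b hb0, ord_div P hak hbk, ← WithZero.exp_sub]
  congr 1
  ring

theorem le_ord_iff (P : HeightOneSpectrum (𝓞 k)) {x : k} (hx : x ≠ 0) (n : ℤ) :
    n ≤ ord P x ↔ P.valuation k x ≤ WithZero.exp (-n) := by
  rw [val_eq P hx, WithZero.exp_le_exp]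
  constructor <;> intro h <;> linarith

theorem ord_eq_iff (P : HeightOneSpectrum (𝓞 k)) {x : k} (hx : x ≠ 0) (n : ℤ) :
    ord P x = n ↔ P.valuation k x = WithZero.exp (-n) := by
  rw [val_eq P hx, WithZero.exp_inj]
  constructor <;> intro h <;> linarith

/-- the ultrametric inequality -/
theorem ord_add (P : HeightOneSpectrum (𝓞 k)) {x y : k} (hx : x ≠ 0) (hy : y ≠ 0)
    (hxy : x + y ≠ 0) : min (ord P x) (ord P y) ≤ ord P (x + y) := by
  rw [le_ord_iff P hxy]
  refine (Valuation.map_add (P.valuation k) x y).trans ?_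
  rw [val_eq P hx, val_eq P hy]
  refine max_le ?_ ?_
  · rw [WithZero.exp_le_exp]
    have := min_le_left (ord P x) (ord P y)
    linarith
  · rw [WithZero.exp_le_exp]
    have := min_le_right (ord P x) (ord P y)
    linarith

theorem ord_add_of_lt (P : HeightOneSpectrum (𝓞 k)) {x y : k} (hx : x ≠ 0) (hy : y ≠ 0)
    (h : ord P x < ord P y) : x + y ≠ 0 ∧ ord P (x + y) = ord P x := by
  have h1 : P.valuation k y < P.valuation k x := by
    rw [val_eq P hx, val_eq P hy, WithZero.exp_lt_exp]
    linarith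
  have h2 : P.valuation k (x + y) = P.valuation k x :=
    Valuation.map_add_eq_of_lt_left (P.valuation k) h1
  have h3 : x + y ≠ 0 := by
    intro h0
    rw [h0, map_zero] at h2
    have h4 := (Valuation.ne_zero_iff (P.valuation k)).2 hx
    exact h4 h2.symm
  refine ⟨h3, ?_⟩
  rw [ord_eq_iff P h3, h2, val_eq P hx]

/-- an element close to one is a unit -/
theorem ord_of_sub_one (P : HeightOneSpectrum (𝓞 k)) {x : k} (h : x = 1 ∨ 1 ≤ ord P (x - 1)) :
    x ≠ 0 ∧ ord P x = 0 := by
  rcases h with h | h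
  · rw [h]
    exact ⟨one_ne_zero, ord_one P⟩
  · have h1 : x - 1 ≠ 0 := by
      intro h0
      rw [h0] at h
      have : ord P (0 : k) = 0 := by
        unfold ord
        rw [FractionalIdeal.spanSingleton_zero, FractionalIdeal.count_zero]
      omega
    have h2 := ord_add_of_lt P (one_ne_zero (α := k)) h1 (by rw [ord_one]; omega)
    rw [add_sub_cancel, ord_one] at h2
    exact h2

theorem LocSq_even (P : HeightOneSpectrum (𝓞 k)) {a : k} (ha : a ≠ 0) (h : LocSq P a) :
    Even (ord P a) := by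
  obtain ⟨c, hc⟩ := h 1
  have h1 := ord_of_sub_one P (x := a * c ^ 2) (by simpa using hc)
  have hc0 : c ≠ 0 := by
    rintro rfl
    exact h1.1 (by simp)
  have h2 := h1.2
  rw [ord_mul P ha (pow_ne_zero 2 hc0), ord_pow] at h2
  exact ⟨- ord P c, by push_cast at h2; linarith⟩

end

end Pool.Agent.H98.MF.B
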