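import Pool.Agent.H98.MF.C.RNoBad

/-!
# Project MK4, block C, second half: the reciprocity law
-/

set_option autoImplicit false

open scoped BigOperators Pointwise
open NumberField IsDedekindDomain

namespace Pool.Agent.H98.MF.R

section

variable {k : Type} [Field k] [NumberField k]

theorem recip (hA : AnaF k) (hL : LocF k)
    (hGd : ∀ a : kˣ, ¬ IsSquare a → ∀ S₀ : Finset (HeightOneSpectrum (𝓞 k)), ∃ S, S₀ ⊆ S ∧ Gd S a)
    (hcard : ∀ S : Finset (HeightOneSpectrum (𝓞 k)), Adm S → (KS S).index = 4 ^ mS S ∧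
      (sqr (US S)).relIndex (US S) = 2 ^ mS S)
    (hadm : ∀ S₀ : Finset (HeightOneSpectrum (𝓞 k)), ∃ S, S₀ ⊆ S ∧ Adm S)
    {S : Finset (HeightOneSpectrum (𝓞 k))}
    (h2 : ∀ P : HeightOneSpectrum (𝓞 k), 0 < ord P (2 : k) → P ∈ S) (a b : kˣ)
    (ha : a ∈ US S) (hb : b ∈ US S) : ∑ v ∈ pls S, hv v (a : k) (b : k) = 0 := by
  rw [← om_sum hA hL hGd h2 a b ha hb]
  refine Finset.sum_congr rfl fun v _ => ?_
  unfold om
  by_cases h : v ∈ TG a
  · rw [if_pos h]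
  · rw [if_neg h]
    have h1 : a ∈ LS v := by
      by_contra h1
      exact h (no_bad hA hL hGd hcard hadm v a h1)
    exact (hL.rad v a).1 h1 b

/-- a local square at all places of `S` and all real places which is an `S`-unit is a square -/
theorem inj_US (hA : AnaF k) (hL : LocF k)
    (hGd : ∀ a : kˣ, ¬ IsSquare a → ∀ S₀ : Finset (HeightOneSpectrum (𝓞 k)), ∃ S, S₀ ⊆ S ∧ Gd S a)
    {S : Finset (HeightOneSpectrum (𝓞 k))} (hS : Adm S) (a : kˣ) (ha : a ∈ US S)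
    (hK : a ∈ KS S) : IsSquare a := by
  by_contra hns
  obtain ⟨v, hv, hT⟩ := TG_ne hA hL hGd hS a ha hns
  exact TG_nsp hT ((mem_KS S a).1 hK v hv)

/-- Hasse norm theorem for square root extensions -/
theorem hasse_norm (hA : AnaF k) (hL : LocF k)
    (hGd : ∀ a : kˣ, ¬ IsSquare a → ∀ S₀ : Finset (HeightOneSpectrum (𝓞 k)), ∃ S, S₀ ⊆ S ∧ Gd S a)
    (a b : kˣ) (h : ∀ v : Pl k, hv v (a : k) (b : k) = 0) : b ∈ Nm a := by
  by_cases hs : IsSquare a
  · obtain ⟨c, rfl⟩ := hs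
    refine Subgroup.subset_closure ⟨((b : k) + 1) / 2, ((b : k) - 1) / (2 * (c : k)), ?_⟩
    have hc : (c : k) ≠ 0 := c.ne_zero
    rw [Units.val_mul]
    field_simp
    ring
  · obtain ⟨S₁, _, h1⟩ := exists_US b ∅
    obtain ⟨S, hSS, hG⟩ := hGd a hs S₁
    exact (Gd.main hA hL hG hs).2.1 b (US_mono hSS h1) ((mem_NS hL S a b).2 fun v _ => h v)

end

end Pool.Agent.H98.MF.R
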