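import Pool.Agent.H98.MF.C.Bri
import Pool.Agent.H98.MF.C.RRec

/-!
# Project MK4, block C: the reciprocity law in the form used by the rest of block C
-/

set_option autoImplicit false

open scoped BigOperators Pointwise
open NumberField IsDedekindDomain

namespace Pool.Agent.H98.MF.B

open Pool.Agent.H98.MF.R

section

variable {k : Type} [Field k] [NumberField k]

theorem hcard_of (h2 : C2St k) (hi : CISt k) : ∀ S : Finset (HeightOneSpectrum (𝓞 k)), Adm S →
    (KS S).index = 4 ^ mS S ∧ (sqr (US S)).relIndex (US S) = 2 ^ mS S := by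
  intro S hS
  refine ⟨?_, h2 S⟩
  rw [hi S hS, pow_mul]
  norm_num

theorem recSt_of (hL : LIn k) (hN : NIn k) (h1 : C1St k) (h2 : C2St k) (hi : CISt k)
    (h3 : C3St k) : RecSt k := fun _ hS a ha b hb =>
  recip (anaF_of hN) (locF_of hL) (gd_of hL h3) (hcard_of h2 hi) h1 hS a b ha hb

theorem inSt_of (hL : LIn k) (hN : NIn k) (h3 : C3St k) : InSt k := fun S hS a ha hK => by
  obtain ⟨b, hb⟩ := inj_US (anaF_of hN) (locF_of hL) (gd_of hL h3) hS a ha hK
  exact mem_sqr_US ha (b := b) (by rw [hb, pow_two])

theorem mem_NG {a b : kˣ} : b ∈ NG a ↔ ∃ x y : k, (b : k) = x ^ 2 - a * y ^ 2 := by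
  constructor
  · intro h
    unfold NG at h
    induction h using Subgroup.closure_induction with
    | mem b hb => exact hb
    | one => exact ⟨1, 0, by simp⟩
    | mul b c _ _ hb hc =>
      obtain ⟨x, y, h1⟩ := hb
      obtain ⟨z, w, h2⟩ := hc
      refine ⟨x * z + a * y * w, x * w + y * z, ?_⟩
      rw [Units.val_mul, h1, h2]
      ring
    | inv b _ hb =>
      obtain ⟨x, y, h1⟩ := hb
      refine ⟨x / b, y / b, ?_⟩
      have h2 : (b : k) ≠ 0 := b.ne_zero
      rw [Units.val_inv_eq_inv_val, div_pow, div_pow]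
      field_simp
      rw [h1]
  · intro h
    exact Subgroup.subset_closure h

theorem hnSt_of (hL : LIn k) (hN : NIn k) (h3 : C3St k) : HNSt k := fun a b h =>
  mem_NG.1 (hasse_norm (anaF_of hN) (locF_of hL) (gd_of hL h3) a b h)

/-- the functional of an element on the places of `S` -/
noncomputable def psiS (hL : LIn k) (S : Finset (HeightOneSpectrum (𝓞 k))) (a : kˣ) :
    kˣ →* Multiplicative (ZMod 2) := ∏ v ∈ pls S, hvH (locF_of hL) v a

theorem psiS_apply (hL : LIn k) (S : Finset (HeightOneSpectrum (𝓞 k))) (a x : kˣ) :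
    val2 (psiS hL S a) x = ∑ v ∈ pls S, hv v (a : k) (x : k) := by
  unfold val2 psiS
  rw [MonoidHom.finsetProd_apply, toAdd_prod]
  rfl

theorem val2_ext {G : Type} [CommGroup G] {ψ φ : G →* Multiplicative (ZMod 2)}
    (h : ∀ x, Multiplicative.toAdd (ψ x) = Multiplicative.toAdd (φ x)) : ψ = φ :=
  MonoidHom.ext fun x => Multiplicative.toAdd.injective (h x)

theorem sup_index (h2 : C2St k) (hi : CISt k) (hin : InSt k)
    {S : Finset (HeightOneSpectrum (𝓞 k))} (hS : Adm S) : (US S ⊔ KS S).index = 2 ^ mS S := by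
  have h3 : (KS S).relIndex (US S) = 2 ^ mS S := by
    rw [← h2 S, ← Subgroup.inf_relIndex_right (KS S) (US S)]
    congr 1
    refine le_antisymm ?_ ?_
    · intro a ha
      exact hin S hS a ha.2 ha.1
    · intro a ha
      refine ⟨?_, sqr_le _ ha⟩
      obtain ⟨b, _, rfl⟩ := mem_sqr.1 ha
      exact sq_mem_KS S b
  have h4 : (KS S).relIndex (US S ⊔ KS S) = 2 ^ mS S := by
    rw [Subgroup.relIndex_sup_right, h3]
  have h5 := Subgroup.relIndex_mul_index (H := KS S) (K := US S ⊔ KS S) le_sup_right
  rw [h4, hi S hS, two_mul, pow_add] at h5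
  exact Nat.eq_of_mul_eq_mul_left (by positivity) h5

theorem duSt_of (hL : LIn k) (h2 : C2St k) (hi : CISt k) (hr : RecSt k) (hin : InSt k) :
    DuSt k := by
  classical
  intro S hS ψ hψ
  have hadd : ∀ a b : kˣ, psiS hL S (a * b) = psiS hL S a * psiS hL S b := fun a b => by
    refine val2_ext fun x => ?_
    have h := psiS_apply hL S (a * b) x
    have h' := psiS_apply hL S a x
    have h'' := psiS_apply hL S b x
    unfold val2 at h h' h''
    rw [h, MonoidHom.mul_apply, toAdd_mul, h', h'', ← Finset.sum_add_distrib]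
    exact Finset.sum_congr rfl fun v _ => (locF_of hL).mul v a b x
  have hrad : ∀ a ∈ US S, psiS hL S a = 1 → a ∈ sqr (US S) := by
    intro a ha h
    refine hin S hS a ha (mem_KS.2 fun v hv' => ?_)
    rw [hL.memLS, ← hL.nd]
    intro b
    obtain ⟨x, hx⟩ := hL.weak (pls S) (fun w => if w = v then b else 1)
    have h1 := psiS_apply hL S a x
    rw [h, Finset.sum_eq_single v] at h1
    · have h4 := hx v hv'
      rw [if_pos rfl, div_eq_mul_inv] at h4
      rw [← hv_congr (locF_of hL) v a x b h4, ← h1]
      rfl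
    · intro w hw hwv
      have h4 := hx w hw
      rw [if_neg hwv, div_eq_mul_inv] at h4
      rw [hv_congr (locF_of hL) w a x 1 h4]
      exact hv_one (locF_of hL) w a
    · intro h'
      exact absurd hv' h'
  obtain ⟨a, ha⟩ := dual_count (G := kˣ) (A := US S) (US S ⊔ KS S)
    (fun x => by
      rw [← pow_two]
      exact Subgroup.mem_sup_right (sq_mem_KS S x))
    ((sqr (US S)).subgroupOf (US S))
    { toFun := fun a => psiS hL S a
      map_one' := by
        have h := hadd 1 1
        rw [mul_one] at h
        exact left_eq_mul.1 h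
      map_mul' := fun a b => hadd a b }
    (fun a y hy => by
      show psiS hL S a y = 1
      have hle : US S ⊔ KS S ≤ (psiS hL S a).ker := by
        refine sup_le (fun b hb => ?_) (fun b hb => ?_)
        · rw [MonoidHom.mem_ker]
          refine Multiplicative.toAdd.injective ?_
          have h := psiS_apply hL S a b
          unfold val2 at h
          rw [h]
          exact hr S hS.two a a.2 b hb
        · rw [MonoidHom.mem_ker]
          refine Multiplicative.toAdd.injective ?_
          have h := psiS_apply hL S a b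
          unfold val2 at h
          rw [h]
          refine Finset.sum_eq_zero fun v hv' => ?_
          have h4 := mem_KS.1 hb v hv'
          rw [hL.symm v a b]
          exact (hL.nd v b).2 ((hL.memLS v b).1 h4) a
      exact hle hy)
    (fun a h => Subgroup.mem_subgroupOf.2 (hrad a a.2 h))
    (fun b hb => by
      obtain ⟨c, hc, hcb⟩ := mem_sqr.1 (Subgroup.mem_subgroupOf.1 hb)
      show psiS hL S b = 1
      rw [← hcb, pow_two, hadd]
      refine val2_ext fun x => ?_
      rw [MonoidHom.mul_apply, toAdd_mul, CharTwo.add_self_eq_zero]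
      rfl)
    (by rw [sup_index h2 hi hin hS]; positivity)
    (by
      rw [sup_index h2 hi hin hS]
      exact (h2 S).ge)
    (by
      have h := h2 S
      unfold Subgroup.relIndex at h
      rw [h]
      positivity)
    ψ
    (fun y hy => by
      have hle : US S ⊔ KS S ≤ ψ.ker := sup_le
        (fun b hb => hψ.unit b hb) (fun b hb => hψ.loc b hb)
      exact hle hy)
  refine ⟨a, a.2, fun x => ?_⟩
  rw [← psiS_apply hL S a x, ← ha]
  rfl

end

end Pool.Agent.H98.MF.B
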