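import Pool.Agent.H98.MF.C.Bas
import Pool.Agent.H98.MF.C.Stm

/-!
# Project MK4, block C: the `S`-units modulo squares
-/

set_option autoImplicit false

open scoped BigOperators Pointwise nonZeroDivisors
open NumberField IsDedekindDomain

namespace Pool.Agent.H98.MF.B

/-- adding a homomorphism to the integers doubles the index of the squares -/
theorem c2_double {G : Type} [CommGroup G] (A B : Subgroup G) (f : G →* Multiplicative ℤ)
    (hA : A = B ⊓ f.ker) (hf : ∃ b ∈ B, f b ≠ 1) :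
    (sqr B).relIndex B = 2 * (sqr A).relIndex A := by
  have hAB : A ≤ B := hA ▸ inf_le_left
  have hm : ∀ x, x ∈ A ↔ x ∈ B ∧ f x = 1 := fun x => by
    rw [hA, Subgroup.mem_inf, MonoidHom.mem_ker]
  -- torsion freeness of the integers
  have htf : ∀ z : Multiplicative ℤ, ∀ n : ℤ, n ≠ 0 → z ^ n = 1 → z = 1 := by
    intro z n hn hz
    have h1 : n • Multiplicative.toAdd z = 0 := by
      rw [← toAdd_zpow, hz]
      rfl
    rw [smul_eq_mul] at h1
    rcases mul_eq_zero.1 h1 with h2 | h2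
    · exact absurd h2 hn
    · exact h2
  -- a generator of the image
  obtain ⟨⟨z, hzB⟩, hz⟩ := IsCyclic.exists_generator (α := (B.map f : Subgroup (Multiplicative ℤ)))
  obtain ⟨g, hgB, hgz⟩ := hzB
  have hgen : ∀ b ∈ B, ∃ n : ℤ, f b = z ^ n := by
    intro b hb
    obtain ⟨n, hn⟩ := Subgroup.mem_zpowers_iff.1 (hz ⟨f b, b, hb, rfl⟩)
    refine ⟨n, ?_⟩
    have h2 := congrArg Subtype.val hn
    simpa using h2.symm
  have hz1 : z ≠ 1 := by
    intro h
    obtain ⟨b, hb, hb1⟩ := hf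
    obtain ⟨n, hn⟩ := hgen b hb
    exact hb1 (by rw [hn, h, one_zpow])
  have e1 : (A ⊔ sqr B).relIndex B = 2 := by
    rw [Subgroup.relIndex_eq_two_iff_exists_notMem_and]
    refine ⟨g, hgB, ?_, ?_⟩
    · intro h
      obtain ⟨a, ha, c, hc, hac⟩ := Subgroup.mem_sup.1 h
      obtain ⟨b, hb, rfl⟩ := mem_sqr.1 hc
      obtain ⟨n, hn⟩ := hgen b hb
      have h1 : f g = z ^ (2 * n) := by
        rw [← hac, map_mul, ((hm a).1 ha).2, one_mul, map_pow, hn, mul_comm 2 n, zpow_mul]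
        rfl
      have h2 : z ^ (2 * n - 1) = 1 := by
        rw [zpow_sub, ← h1, zpow_one, ← hgz, mul_inv_cancel]
      exact hz1 (htf z _ (by omega) h2)
    · intro b hb
      obtain ⟨n, hn⟩ := hgen b hb
      rcases Int.even_or_odd' n with ⟨m, hm' | hm'⟩
      · right
        refine Subgroup.mem_sup.2 ⟨b * (g ^ m ^ 1)⁻¹ ^ 2, ?_, (g ^ m) ^ 2,
          mem_sqr.2 ⟨g ^ m, zpow_mem hgB m, rfl⟩, ?_⟩
        · refine (hm _).2 ⟨mul_mem hb (pow_mem (inv_mem (zpow_mem hgB _)) 2), ?_⟩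
          rw [map_mul, map_pow, map_inv, map_zpow, hn, hgz, hm', pow_one, mul_comm 2 m, zpow_mul,
            inv_pow]
          exact mul_inv_cancel _
        · rw [pow_one, inv_pow]
          exact inv_mul_cancel_right b _
      · left
        refine Subgroup.mem_sup.2 ⟨b * g * ((g ^ (m + 1)) ^ 2)⁻¹, ?_, (g ^ (m + 1)) ^ 2,
          mem_sqr.2 ⟨g ^ (m + 1), zpow_mem hgB _, rfl⟩, inv_mul_cancel_right _ _⟩
        refine (hm _).2 ⟨mul_mem (mul_mem hb hgB) (inv_mem (pow_mem (zpow_mem hgB _) 2)), ?_⟩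
        rw [map_mul, map_mul, map_inv, map_pow, map_zpow, hn, hgz, hm', ← zpow_natCast,
          ← zpow_mul, ← zpow_add_one, ← zpow_neg, ← zpow_add]
        convert zpow_zero z using 2
        push_cast
        ring
  have e2 : (sqr B).relIndex (A ⊔ sqr B) = (sqr A).relIndex A := by
    rw [Subgroup.relIndex_sup_right, ← Subgroup.inf_relIndex_right]
    congr 1
    ext x
    rw [Subgroup.mem_inf]
    constructor
    · rintro ⟨h1, h2⟩
      obtain ⟨b, hb, rfl⟩ := mem_sqr.1 h1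
      refine mem_sqr.2 ⟨b, (hm b).2 ⟨hb, ?_⟩, rfl⟩
      have h3 := ((hm _).1 h2).2
      rw [map_pow] at h3
      exact htf _ 2 two_ne_zero (by exact_mod_cast h3)
    · intro h
      obtain ⟨b, hb, rfl⟩ := mem_sqr.1 h
      exact ⟨mem_sqr.2 ⟨b, hAB hb, rfl⟩, pow_mem hb 2⟩
  rw [← Subgroup.relIndex_mul_relIndex (sqr B) (A ⊔ sqr B) B le_sup_right
    (sup_le hAB (sqr_le B)), e1, e2, mul_comm]

/-- the squares of a subgroup under an injective homomorphism -/
theorem c2_map {G G' : Type} [CommGroup G] [CommGroup G'] (f : G →* G')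
    (hf : Function.Injective f) (H : Subgroup G) :
    (sqr (H.map f)).relIndex (H.map f) = (sqr H).relIndex H := by
  have h : sqr (H.map f) = (sqr H).map f := by
    ext x
    constructor
    · intro hx
      obtain ⟨b, ⟨c, hc, rfl⟩, rfl⟩ := mem_sqr.1 hx
      exact ⟨c ^ 2, mem_sqr.2 ⟨c, hc, rfl⟩, map_pow f c 2⟩
    · rintro ⟨y, hy, rfl⟩
      obtain ⟨c, hc, rfl⟩ := mem_sqr.1 hy
      exact mem_sqr.2 ⟨f c, ⟨c, hc, rfl⟩, (map_pow f c 2).symm⟩
  rw [h, Subgroup.relIndex_map_map_of_injective _ _ hf]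

section

variable (k : Type) [Field k] [NumberField k]

/-- the exponents of a unit with respect to the fundamental system -/
noncomputable def c2_e (x : (𝓞 k)ˣ) : Fin (Units.rank k) → ℤ :=
  (Units.exist_unique_eq_mul_prod k x).choose.2

theorem c2_e_spec (x : (𝓞 k)ˣ) : ∃ ζ ∈ Units.torsion k,
    x = ζ * ∏ i, (Units.fundSystem k i) ^ (c2_e k x i) :=
  ⟨_, (Units.exist_unique_eq_mul_prod k x).choose.1.2,
    (Units.exist_unique_eq_mul_prod k x).choose_spec.1⟩

theorem c2_e_unique {x ζ : (𝓞 k)ˣ} {f : Fin (Units.rank k) → ℤ} (hζ : ζ ∈ Units.torsion k)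
    (h : x = ζ * ∏ i, (Units.fundSystem k i) ^ (f i)) : c2_e k x = f := by
  have h1 := (Units.exist_unique_eq_mul_prod k x).choose_spec.2 (⟨ζ, hζ⟩, f) h
  exact (congrArg Prod.snd h1).symm

theorem c2_e_mul (x y : (𝓞 k)ˣ) : c2_e k (x * y) = c2_e k x + c2_e k y := by
  obtain ⟨ζ, hζ, hx⟩ := c2_e_spec k x
  obtain ⟨η, hη, hy⟩ := c2_e_spec k y
  refine c2_e_unique k (mul_mem hζ hη) ?_
  have h : ∏ i, (Units.fundSystem k i) ^ ((c2_e k x + c2_e k y) i) =
      (∏ i, (Units.fundSystem k i) ^ (c2_e k x i)) *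
        ∏ i, (Units.fundSystem k i) ^ (c2_e k y i) := by
    rw [← Finset.prod_mul_distrib]
    exact Finset.prod_congr rfl fun i _ => by rw [Pi.add_apply, zpow_add]
  rw [h]
  calc x * y = (ζ * ∏ i, (Units.fundSystem k i) ^ (c2_e k x i)) *
      (η * ∏ i, (Units.fundSystem k i) ^ (c2_e k y i)) := by rw [← hx, ← hy]
    _ = _ := mul_mul_mul_comm _ _ _ _

/-- one exponent as a homomorphism -/
noncomputable def c2_f (i : Fin (Units.rank k)) : (𝓞 k)ˣ →* Multiplicative ℤ :=
  MonoidHom.mk' (fun x => Multiplicative.ofAdd (c2_e k x i)) fun x y => by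
    rw [c2_e_mul, Pi.add_apply, ofAdd_add]

theorem c2_f_apply (i : Fin (Units.rank k)) (x : (𝓞 k)ˣ) :
    c2_f k i x = Multiplicative.ofAdd (c2_e k x i) := rfl

theorem c2_e_fund (i : Fin (Units.rank k)) :
    c2_e k (Units.fundSystem k i) = Pi.single i 1 := by
  classical
  refine c2_e_unique k (one_mem _) ?_
  rw [one_mul, Finset.prod_eq_single i]
  · rw [Pi.single_eq_same, zpow_one]
  · intro j _ hj
    rw [Pi.single_eq_of_ne hj, zpow_zero]
  · intro h
    exact absurd (Finset.mem_univ i) h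

/-- the units with exponents zero on a set -/
noncomputable def c2_B (s : Finset (Fin (Units.rank k))) : Subgroup (𝓞 k)ˣ := ⨅ i ∈ s, (c2_f k i).ker

theorem mem_c2_B {s : Finset (Fin (Units.rank k))} {x : (𝓞 k)ˣ} :
    x ∈ c2_B k s ↔ ∀ i ∈ s, c2_e k x i = 0 := by
  unfold c2_B
  simp only [Subgroup.mem_iInf, MonoidHom.mem_ker, c2_f_apply, ofAdd_eq_one]

theorem c2_B_univ : c2_B k Finset.univ = Units.torsion k := by
  ext x
  rw [mem_c2_B]
  constructor
  · intro h
    obtain ⟨ζ, hζ, hx⟩ := c2_e_spec k x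
    rw [hx, Finset.prod_eq_one (fun i hi => by rw [h i hi, zpow_zero]), mul_one]
    exact hζ
  · intro h i _
    have h1 : c2_e k x = 0 := c2_e_unique k h (by
      rw [Finset.prod_eq_one (fun i _ => by rw [Pi.zero_apply, zpow_zero]), mul_one])
    rw [h1, Pi.zero_apply]

theorem c2_step (s : Finset (Fin (Units.rank k))) :
    (sqr (⊤ : Subgroup (𝓞 k)ˣ)).relIndex ⊤ = 2 ^ s.card * (sqr (c2_B k s)).relIndex (c2_B k s) := by
  classical
  induction s using Finset.induction_on with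
  | empty =>
    have h : c2_B k ∅ = ⊤ := by
      unfold c2_B
      simp
    rw [h, Finset.card_empty, pow_zero, one_mul]
  | insert i s hi ih =>
    rw [ih, c2_double (c2_B k (insert i s)) (c2_B k s) (c2_f k i), Finset.card_insert_of_notMem hi,
      pow_succ, mul_assoc]
    · ext x
      rw [Subgroup.mem_inf, mem_c2_B, mem_c2_B, MonoidHom.mem_ker, c2_f_apply, ofAdd_eq_one]
      simp only [Finset.mem_insert, forall_eq_or_imp]
      exact and_comm
    · refine ⟨Units.fundSystem k i, (mem_c2_B k).2 fun j hj => ?_, ?_⟩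
      · rw [c2_e_fund, Pi.single_eq_of_ne]
        rintro rfl
        exact hi hj
      · rw [c2_f_apply, c2_e_fund, Pi.single_eq_same]
        intro h
        rw [ofAdd_eq_one] at h
        exact one_ne_zero h

theorem c2_tors : (sqr (Units.torsion k)).relIndex (Units.torsion k) = 2 := by
  have h1 : (sqr (Units.torsion k)).subgroupOf (Units.torsion k) =
      (powMonoidHom 2 : Units.torsion k →* Units.torsion k).range := by
    ext ⟨x, hx⟩
    rw [Subgroup.mem_subgroupOf, mem_sqr]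
    constructor
    · rintro ⟨b, hb, hbx⟩
      exact ⟨⟨b, hb⟩, Subtype.ext hbx⟩
    · rintro ⟨⟨b, hb⟩, hbx⟩
      exact ⟨b, hb, congrArg Subtype.val hbx⟩
  rw [Subgroup.relIndex, h1, IsCyclic.index_powMonoidHom_range]
  have h2 : Even (Units.torsionOrder k) := Units.even_torsionOrder k
  exact Nat.gcd_eq_right h2.two_dvd

theorem c2_units : (sqr (⊤ : Subgroup (𝓞 k)ˣ)).relIndex ⊤ =
    2 ^ (InfinitePlace.nrRealPlaces k + InfinitePlace.nrComplexPlaces k) := by
  rw [c2_step k Finset.univ, c2_B_univ, c2_tors, ← pow_succ]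
  congr 1
  rw [Finset.card_univ, Fintype.card_fin, Units.rank,
    ← InfinitePlace.card_eq_nrRealPlaces_add_nrComplexPlaces]
  have h := Fintype.card_pos (α := InfinitePlace k)
  omega

/-- an element without primes is a unit of the ring of integers -/
theorem c2_int (a : kˣ) (h : ∀ Q : HeightOneSpectrum (𝓞 k), ord Q (a : k) = 0) :
    ∃ x : 𝓞 k, algebraMap (𝓞 k) k x = a := by
  have h1 := FractionalIdeal.finprod_heightOneSpectrum_factorization' k
    (FractionalIdeal.spanSingleton_ne_zero_iff (R := 𝓞 k) (S := (𝓞 k)⁰) |>.2 a.ne_zero)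
  have h2 : FractionalIdeal.spanSingleton (𝓞 k)⁰ (a : k) = 1 := by
    rw [← h1, finprod_eq_one_of_forall_eq_one]
    intro Q
    have h3 : FractionalIdeal.count k Q (FractionalIdeal.spanSingleton (𝓞 k)⁰ (a : k)) = 0 := h Q
    rw [h3, zpow_zero]
  have h4 : (a : k) ∈ (1 : FractionalIdeal (𝓞 k)⁰ k) := by
    rw [← h2]
    exact FractionalIdeal.mem_spanSingleton_self _ _
  exact (FractionalIdeal.mem_one_iff _).1 h4

theorem c2_ord_coe_nonneg (Q : HeightOneSpectrum (𝓞 k)) (x : 𝓞 k) :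
    0 ≤ ord Q (algebraMap (𝓞 k) k x) := by
  unfold ord
  rw [← FractionalIdeal.coeIdeal_span_singleton]
  exact FractionalIdeal.count_coe_nonneg k Q _

theorem c2_US_empty :
    US (∅ : Finset (HeightOneSpectrum (𝓞 k))) =
      (⊤ : Subgroup (𝓞 k)ˣ).map (Units.map (algebraMap (𝓞 k) k : 𝓞 k →* k)) := by
  ext a
  rw [mem_US]
  constructor
  · intro h
    have h0 : ∀ Q : HeightOneSpectrum (𝓞 k), ord Q (a : k) = 0 := fun Q =>
      h Q (Finset.notMem_empty Q)
    have h0' : ∀ Q : HeightOneSpectrum (𝓞 k), ord Q ((a⁻¹ : kˣ) : k) = 0 := fun Q => by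
      rw [Units.val_inv_eq_inv_val, ord_inv, h0 Q, neg_zero]
    obtain ⟨x, hx⟩ := c2_int k a h0
    obtain ⟨y, hy⟩ := c2_int k a⁻¹ h0'
    have hinj : Function.Injective (algebraMap (𝓞 k) k) := FaithfulSMul.algebraMap_injective _ _
    have hxy : x * y = 1 := hinj (by
      rw [map_mul, hx, hy, map_one, ← Units.val_mul, mul_inv_cancel, Units.val_one])
    refine ⟨⟨x, y, hxy, by rw [mul_comm, hxy]⟩, Subgroup.mem_top _, ?_⟩
    ext
    exact hx
  · rintro ⟨u, -, rfl⟩ Q _
    have h1 := c2_ord_coe_nonneg k Q (u : 𝓞 k)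
    have h2 := c2_ord_coe_nonneg k Q ((u⁻¹ : (𝓞 k)ˣ) : 𝓞 k)
    have h3 : ord Q (algebraMap (𝓞 k) k (u : 𝓞 k)) +
        ord Q (algebraMap (𝓞 k) k ((u⁻¹ : (𝓞 k)ˣ) : 𝓞 k)) = 0 := by
      have hu : algebraMap (𝓞 k) k (u : 𝓞 k) * algebraMap (𝓞 k) k ((u⁻¹ : (𝓞 k)ˣ) : 𝓞 k) = 1 := by
        rw [← map_mul, ← Units.val_mul, mul_inv_cancel, Units.val_one, map_one]
      rw [← ord_mul Q (left_ne_zero_of_mul_eq_one hu) (right_ne_zero_of_mul_eq_one hu), hu,
        ord_one]
    show ord Q (algebraMap (𝓞 k) k (u : 𝓞 k)) = 0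
    omega

/-- a power of a prime is principal -/
theorem c2_gen (P : HeightOneSpectrum (𝓞 k)) : ∃ a : kˣ, ord P (a : k) ≠ 0 ∧
    ∀ Q : HeightOneSpectrum (𝓞 k), Q ≠ P → ord Q (a : k) = 0 := by
  have hP : P.asIdeal ∈ (Ideal (𝓞 k))⁰ := mem_nonZeroDivisors_of_ne_zero P.ne_bot
  set n := Nat.card (ClassGroup (𝓞 k)) with hn
  have hn0 : n ≠ 0 := Nat.card_pos.ne'
  have h1 : (P.asIdeal ^ n).IsPrincipal := by
    rw [← ClassGroup.mk0_eq_one_iff (pow_mem hP n)]
    have h2 : ClassGroup.mk0 (⟨P.asIdeal ^ n, pow_mem hP n⟩ : (Ideal (𝓞 k))⁰) =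
        ClassGroup.mk0 ⟨P.asIdeal, hP⟩ ^ n := by
      rw [← map_pow]
      rfl
    rw [h2]
    exact pow_card_eq_one'
  obtain ⟨x, hx⟩ := h1.principal
  rw [Ideal.submodule_span_eq] at hx
  have hx0 : x ≠ 0 := by
    rintro rfl
    rw [Ideal.span_singleton_zero] at hx
    exact pow_ne_zero n P.ne_bot hx
  have hxk : algebraMap (𝓞 k) k x ≠ 0 := by
    intro h
    exact hx0 (FaithfulSMul.algebraMap_injective (𝓞 k) k (by rw [h, map_zero]))
  have ho : ∀ Q : HeightOneSpectrum (𝓞 k), ord Q (algebraMap (𝓞 k) k x) =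
      n * FractionalIdeal.count k Q (P.asIdeal : FractionalIdeal (𝓞 k)⁰ k) := by
    intro Q
    unfold ord
    rw [← FractionalIdeal.coeIdeal_span_singleton, ← hx, FractionalIdeal.coeIdeal_pow,
      FractionalIdeal.count_pow]
  refine ⟨Units.mk0 _ hxk, ?_, fun Q hQ => ?_⟩
  · rw [Units.val_mk0, ho, FractionalIdeal.count_self, mul_one]
    exact_mod_cast hn0
  · rw [Units.val_mk0, ho, FractionalIdeal.count_maximal_coprime k Q (Ne.symm hQ), mul_zero]

/-- the `S`-units modulo squares -/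
theorem c2 : C2St k := by
  classical
  intro S
  induction S using Finset.induction_on with
  | empty =>
    have hinj : Function.Injective (Units.map (algebraMap (𝓞 k) k : 𝓞 k →* k)) :=
      Units.map_injective (FaithfulSMul.algebraMap_injective _ _)
    rw [c2_US_empty, c2_map _ hinj, c2_units]
    unfold mS
    rw [Finset.card_empty, zero_add]
  | insert P S hP ih =>
    rw [c2_double (US S) (US (insert P S)) (ordH P), ih]
    · unfold mS
      rw [Finset.card_insert_of_notMem hP, ← pow_succ']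
      congr 1
      ring
    · ext a
      rw [Subgroup.mem_inf, mem_US, mem_US, MonoidHom.mem_ker, ordH_apply, ofAdd_eq_one]
      constructor
      · intro h
        exact ⟨fun Q hQ => h Q fun h' => hQ (Finset.mem_insert_of_mem h'), h P hP⟩
      · rintro ⟨h1, h2⟩ Q hQ
        by_cases hQP : Q = P
        · rw [hQP, h2]
        · exact h1 Q fun h' => (Finset.mem_insert.1 h').elim hQP hQ
    · obtain ⟨a, ha, ha'⟩ := c2_gen k P
      refine ⟨a, mem_US.2 fun Q hQ => ha' Q fun h => hQ (h ▸ Finset.mem_insert_self _ _), ?_⟩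
      rw [ordH_apply]
      intro h
      exact ha (ofAdd_eq_one.1 h)

end

end Pool.Agent.H98.MF.B
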