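import Pool.Agent.H98.MF.C.C3c

/-!
# Project MK4, block C, C3: the assembly for quadratic extensions
-/

set_option autoImplicit false

open scoped BigOperators Pointwise
open NumberField IsDedekindDomain Polynomial

namespace Pool.Agent.H98.MF.B

section

variable {k L : Type} [Field k] [Field L] [Algebra k L]

theorem c3f_norm (b : Module.Basis (Fin 2) k L) (a : k) (h0 : b 0 = 1)
    (h1 : (b 1) ^ 2 = algebraMap k L a) (u v : k) :
    Algebra.norm k (u • b 0 + v • b 1) = u ^ 2 - a * v ^ 2 := by
  have e0 : (u • b 0 + v • b 1) * b 0 = u • b 0 + v • b 1 := by rw [h0, mul_one]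
  have e1 : (u • b 0 + v • b 1) * b 1 = (a * v) • b 0 + u • b 1 := by
    rw [h0, add_mul, smul_mul_assoc, smul_mul_assoc, one_mul, ← pow_two, h1,
      Algebra.smul_def (a * v), map_mul, Algebra.smul_def v]
    ring
  rw [Algebra.norm_eq_matrix_det b, Matrix.det_fin_two]
  simp only [Algebra.leftMulMatrix_eq_repr_mul, e0, e1, map_add, map_smul, Module.Basis.repr_self,
    Finsupp.add_apply, Finsupp.smul_apply, Finsupp.single_apply, smul_eq_mul]
  simp
  ring

theorem c3f_basis {a : kˣ} {α : L} (hdeg : Module.finrank k L = 2)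
    (hsq : α ^ 2 = algebraMap k L a) (hns : ¬ IsSquare a) :
    ∃ b : Module.Basis (Fin 2) k L, b 0 = 1 ∧ b 1 = α := by
  have hli : LinearIndependent k ![(1 : L), α] := by
    rw [LinearIndependent.pair_iff]
    intro s t hst
    have ht : t = 0 := by
      by_contra ht
      apply hns
      have h1 : α = algebraMap k L (-s / t) := by
        have ht' : algebraMap k L t ≠ 0 := by
          rw [Ne, map_eq_zero]
          exact ht
        rw [map_div₀, eq_div_iff ht', map_neg]
        rw [Algebra.smul_def, Algebra.smul_def, mul_one] at hst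
        linear_combination hst
      have h2 : ((-s / t) ^ 2 : k) = (a : k) := by
        apply (algebraMap k L).injective
        rw [map_pow, ← h1, hsq]
      have hb0 : (-s / t : k) ≠ 0 := by
        intro h
        rw [h, zero_pow two_ne_zero] at h2
        exact a.ne_zero h2.symm
      refine ⟨Units.mk0 _ hb0, ?_⟩
      apply Units.ext
      rw [Units.val_mul, Units.val_mk0, ← h2, pow_two]
    subst ht
    rw [zero_smul, add_zero, Algebra.smul_def, mul_one] at hst
    exact ⟨(map_eq_zero _).1 hst, rfl⟩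
  have hcard : Fintype.card (Fin 2) = Module.finrank k L := by rw [hdeg, Fintype.card_fin]
  refine ⟨basisOfLinearIndependentOfCardEqFinrank hli hcard, ?_, ?_⟩
  · rw [coe_basisOfLinearIndependentOfCardEqFinrank]; rfl
  · rw [coe_basisOfLinearIndependentOfCardEqFinrank]; rfl

theorem c3f_norm_mem {a : kˣ} {α : L} (hdeg : Module.finrank k L = 2)
    (hsq : α ^ 2 = algebraMap k L a) (hns : ¬ IsSquare a) (x : L) :
    ∃ u v : k, Algebra.norm k x = u ^ 2 - a * v ^ 2 := by
  obtain ⟨b, h0, h1⟩ := c3f_basis hdeg hsq hns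
  refine ⟨b.repr x 0, b.repr x 1, ?_⟩
  rw [← c3f_norm b a h0 (by rw [h1, hsq]), ← Fin.sum_univ_two (fun i => b.repr x i • b i),
    b.sum_repr]

end

/-- C3 -/
theorem c3_of (h1 : ∀ (k : Type) [Field k] [NumberField k], C1St k)
    (hd : ∀ (k L : Type) [Field k] [NumberField k] [Field L] [NumberField L] [Algebra k L],
      C3dSt k L)
    (he : ∀ (k L : Type) [Field k] [NumberField k] [Field L] [NumberField L] [Algebra k L],
      C3eSt k L)
    (k : Type) [Field k] [NumberField k] : C3St k := by
  classical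
  intro T a ha
  -- the quadratic extension
  have hirr : Irreducible (X ^ 2 - C (a : k) : k[X]) := by
    rw [X_pow_sub_C_irreducible_iff_of_prime Nat.prime_two]
    intro b hb
    have hb0 : b ≠ 0 := by
      rintro rfl
      rw [zero_pow two_ne_zero] at hb
      exact a.ne_zero hb.symm
    apply ha
    refine ⟨Units.mk0 b hb0, ?_⟩
    apply Units.ext
    rw [Units.val_mul, Units.val_mk0, ← hb, pow_two]
  have hfact : Fact (Irreducible (X ^ 2 - C (a : k) : k[X])) := ⟨hirr⟩
  let L : Type := AdjoinRoot (X ^ 2 - C (a : k) : k[X])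
  let _ : Field L := AdjoinRoot.instField
  let _ : Algebra k L := AdjoinRoot.instAlgebra _
  have hfin : FiniteDimensional k L := (AdjoinRoot.powerBasis hirr.ne_zero).finite
  have : CharZero L := charZero_of_injective_algebraMap (algebraMap k L).injective
  have : IsScalarTower ℚ k L := IsScalarTower.of_algebraMap_eq' (Subsingleton.elim _ _)
  have : NumberField L :=
    { to_charZero := inferInstance, to_finiteDimensional := FiniteDimensional.trans ℚ k L }
  have hdeg : Module.finrank k L = 2 := by
    rw [(AdjoinRoot.powerBasis hirr.ne_zero).finrank, AdjoinRoot.powerBasis_dim,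
      natDegree_X_pow_sub_C]
  set α : L := AdjoinRoot.root _ with hα
  have hsq : α ^ 2 = algebraMap k L a := by
    have h2 : (aeval (AdjoinRoot.root (X ^ 2 - C (a : k) : k[X]))) (X ^ 2 - C (a : k) : k[X]) = 0 := by
      rw [AdjoinRoot.aeval_eq, AdjoinRoot.mk_self]
    rw [map_sub, map_pow, aeval_X, aeval_C, sub_eq_zero] at h2
    exact h2
  have hQE : QE a α := ⟨hdeg, hsq, ha⟩
  -- the sets of primes
  obtain ⟨S₀', -, hS₀'⟩ := h1 L ∅
  obtain ⟨S₁, hS₁⟩ := ovr_below (k := k) (L := L) S₀'
  obtain ⟨S₂, hS₂⟩ := exists_mem_US ({a} : Finset kˣ)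
  obtain ⟨S, hTS, hS⟩ := h1 k (T ∪ (S₁ ∪ S₂))
  have hT : T ⊆ S := Finset.subset_union_left.trans hTS
  have hS1 : S₁ ⊆ S := (Finset.subset_union_left.trans Finset.subset_union_right).trans hTS
  have hS2 : S₂ ⊆ S := (Finset.subset_union_right.trans Finset.subset_union_right).trans hTS
  obtain ⟨S', hS'⟩ := ovr_exists (L := L) S
  have haS : a ∈ US S := US_mono hS2 (hS₂ a (Finset.mem_singleton_self a))
  have hAdm' : Adm S' := adm_mono hS₀' (hS₁ S hS1 S' hS')
  refine ⟨S, hT, hS, haS, he k L a α hQE S S' hS' hS haS hAdm'.prS,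
    (US S').map (nu k L) ⊓ US S, inf_le_right, ?_, ?_⟩
  · refine inf_le_left.trans ?_
    rintro _ ⟨x, -, rfl⟩
    apply Subgroup.subset_closure
    obtain ⟨u, v, huv⟩ := c3f_norm_mem hdeg hsq ha (x : L)
    exact ⟨u, v, huv⟩
  · rw [Subgroup.inf_relIndex_right]
    exact hd k L a α hQE S S' hS' hS haS

end Pool.Agent.H98.MF.B
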