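import Pool.Agent.H98.MF.C.StmL

/-!
# Project MK4, block C: the infinite places of a quadratic extension
-/

set_option autoImplicit false

open scoped BigOperators Pointwise
open NumberField IsDedekindDomain

namespace Pool.Agent.H98.MF.B

/-- real embeddings as ring homomorphisms to the reals -/
noncomputable def c3a_real (K : Type) [Field K] :
    {φ : K →+* ℂ // ComplexEmbedding.IsReal φ} ≃ (K →+* ℝ) where
  toFun φ := φ.2.embedding
  invFun ψ := ⟨Complex.ofRealHom.comp ψ, by
    rw [ComplexEmbedding.isReal_iff]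
    ext x
    simp⟩
  left_inv φ := by
    apply Subtype.ext
    ext x
    simp
  right_inv ψ := by
    ext x
    simp [ComplexEmbedding.IsReal.embedding]

theorem c3a_nr (K : Type) [Field K] [NumberField K] :
    Nat.card (K →+* ℝ) = InfinitePlace.nrRealPlaces K := by
  classical
  rw [← InfinitePlace.card_real_embeddings, ← Nat.card_eq_fintype_card]
  exact (Nat.card_congr (c3a_real K)).symm

section

variable {k L : Type} [Field k] [NumberField k] [Field L] [NumberField L] [Algebra k L]

theorem c3a_pb {a : kˣ} {α : L} (h : QE a α) :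
    ∃ pb : PowerBasis k L, minpoly k pb.gen = Polynomial.X ^ 2 - Polynomial.C (a : k) := by
  have hi : Irreducible (Polynomial.X ^ 2 - Polynomial.C (a : k)) := by
    rw [X_pow_sub_C_irreducible_iff_of_prime Nat.prime_two]
    intro b hb
    have hb0 : b ≠ 0 := by
      rintro rfl
      rw [zero_pow two_ne_zero] at hb
      exact a.ne_zero hb.symm
    apply h.ns
    refine ⟨Units.mk0 b hb0, ?_⟩
    apply Units.ext
    rw [Units.val_mul, Units.val_mk0, ← hb, pow_two]
  have hm : minpoly k α = Polynomial.X ^ 2 - Polynomial.C (a : k) := by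
    refine (minpoly.eq_of_irreducible_of_monic hi ?_ (Polynomial.monic_X_pow_sub_C _ two_ne_zero)).symm
    simp [h.sq]
  have hfin : FiniteDimensional k L := Module.finite_of_finrank_pos (by rw [h.deg]; norm_num)
  have hint : IsIntegral k α := IsIntegral.of_finite k α
  have htop : IntermediateField.adjoin k {α} = ⊤ := by
    rw [Field.primitive_element_iff_minpoly_natDegree_eq, hm, h.deg,
      Polynomial.natDegree_X_pow_sub_C]
  have htop' : Algebra.adjoin k {α} = ⊤ := by
    rw [← IntermediateField.adjoin_simple_toSubalgebra_of_isAlgebraic hint.isAlgebraic, htop]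
    rfl
  refine ⟨PowerBasis.ofAdjoinEqTop hint htop', ?_⟩
  rw [PowerBasis.ofAdjoinEqTop_gen, hm]

theorem c3a_fib {a : kˣ} {α : L} (h : QE a α) (φ : k →+* ℝ) :
    Nat.card {ψ : L →+* ℝ // ψ.comp (algebraMap k L) = φ} = Nat.card {y : ℝ // y ^ 2 = φ (a : k)} := by
  obtain ⟨pb, hpb⟩ := c3a_pb h
  let _ := φ.toAlgebra
  let e : {ψ : L →+* ℝ // ψ.comp (algebraMap k L) = φ} ≃ (L →ₐ[k] ℝ) :=
    { toFun := fun ψ => { ψ.1 with commutes' := fun r => RingHom.congr_fun ψ.2 r }
      invFun := fun f => ⟨f.toRingHom, by ext r; exact f.commutes r⟩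
      left_inv := fun ψ => by
        apply Subtype.ext
        ext x
        rfl
      right_inv := fun f => by
        ext x
        rfl }
  rw [Nat.card_congr e, Nat.card_congr pb.liftEquiv]
  refine Nat.card_congr (Equiv.subtypeEquivRight fun y => ?_)
  rw [hpb]
  simp only [map_sub, map_pow, Polynomial.aeval_X, Polynomial.aeval_C, sub_eq_zero]
  rfl

theorem c3a_two {c : ℝ} (hc : 0 < c) : Nat.card {y : ℝ // y ^ 2 = c} = 2 := by
  have h1 : {y : ℝ | y ^ 2 = c} = {Real.sqrt c, - Real.sqrt c} := by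
    ext y
    simp only [Set.mem_ofPred_eq, Set.mem_insert_iff, Set.mem_singleton_iff]
    rw [← sq_eq_sq_iff_eq_or_eq_neg, Real.sq_sqrt hc.le]
  have h2 : Real.sqrt c ≠ - Real.sqrt c := by
    have := Real.sqrt_pos.2 hc
    intro h3
    linarith
  change Nat.card ({y : ℝ | y ^ 2 = c} : Set ℝ) = 2
  rw [h1, Nat.card_coe_set_eq, Set.ncard_pair h2]

theorem c3a_zero {c : ℝ} (hc : c < 0) : Nat.card {y : ℝ // y ^ 2 = c} = 0 := by
  have : IsEmpty {y : ℝ // y ^ 2 = c} := ⟨fun y => by
    have := y.2
    have h1 := sq_nonneg (y : ℝ)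
    linarith⟩
  exact Nat.card_of_isEmpty

end

theorem c3a (k L : Type) [Field k] [NumberField k] [Field L] [NumberField L] [Algebra k L] :
    C3aSt k L := by
  classical
  intro a α h
  have hne : ∀ φ : k →+* ℝ, φ (a : k) ≠ 0 := fun φ => (map_ne_zero φ).2 a.ne_zero
  have h1 : Nat.card (L →+* ℝ) = 2 * Nat.card {φ : k →+* ℝ // 0 < φ (a : k)} := by
    rw [← Nat.card_congr (Equiv.sigmaFiberEquiv fun ψ : L →+* ℝ => ψ.comp (algebraMap k L)),
      Nat.card_sigma]
    have h2 : ∀ φ : k →+* ℝ, Nat.card {ψ : L →+* ℝ // ψ.comp (algebraMap k L) = φ} =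
        if 0 < φ (a : k) then 2 else 0 := by
      intro φ
      rw [c3a_fib h φ]
      split_ifs with h3
      · exact c3a_two h3
      · exact c3a_zero (lt_of_le_of_ne (not_lt.1 h3) (hne φ))
    rw [Finset.sum_congr rfl fun φ _ => h2 φ, Finset.sum_ite, Finset.sum_const, Finset.sum_const_zero,
      add_zero, smul_eq_mul, mul_comm, Nat.card_eq_fintype_card, Fintype.card_subtype]
  have h4 : Nat.card (k →+* ℝ) =
      Nat.card {φ : k →+* ℝ // 0 < φ (a : k)} + Nat.card {φ : k →+* ℝ // ¬ 0 < φ (a : k)} := by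
    rw [← Nat.card_sum]
    exact (Nat.card_congr (Equiv.sumCompl fun φ : k →+* ℝ => 0 < φ (a : k))).symm
  have hfin : FiniteDimensional k L := Module.finite_of_finrank_pos (by rw [h.deg]; norm_num)
  have h5 := InfinitePlace.card_add_two_mul_card_eq_rank k
  have h6 := InfinitePlace.card_add_two_mul_card_eq_rank L
  have h7 : Module.finrank ℚ k * Module.finrank k L = Module.finrank ℚ L :=
    Module.finrank_mul_finrank ℚ k L
  rw [h.deg] at h7
  rw [c3a_nr] at h1 h4
  omega

end Pool.Agent.H98.MF.B
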