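import Pool.Agent.H98.MF.C.StmL
import Pool.Agent.H98.MF.L.QuadZ

/-!
# Project MK4, block C, file C3b: the primes above a prime in a quadratic extension
-/

set_option autoImplicit false
set_option linter.unusedSectionVars false

open scoped BigOperators Pointwise
open NumberField IsDedekindDomain

namespace Pool.Agent.H98.MF.B

section

variable {k L : Type} [Field k] [NumberField k] [Field L] [NumberField L] [Algebra k L]

theorem qe_ns {a : kˣ} {α : L} (h : QE a α) : ¬ IsSquare (a : k) := by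
  rintro ⟨c, hc⟩
  apply h.ns
  have hc0 : c ≠ 0 := by
    rintro rfl
    exact a.ne_zero (by rw [hc, mul_zero])
  exact ⟨Units.mk0 c hc0, Units.ext hc⟩

theorem qe_ne_zero {a : kˣ} {α : L} (h : QE a α) : α ≠ 0 := by
  intro h0
  exact qx_not_range h.sq (qe_ns h) 0 (by rw [h0, map_zero])

/-- every element is `x + y α` -/
theorem qe_repr {a : kˣ} {α : L} (h : QE a α) (z : L) :
    ∃ x y : k, z = algebraMap k L x + algebraMap k L y * α :=
  qx_repr h.sq (qe_ns h) h.deg z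

/-- the conjugation and the norm -/
theorem qe_conj {a : kˣ} {α : L} (h : QE a α) :
    ∃ σ : L ≃ₐ[k] L, σ α = -α ∧ (∀ z, σ (σ z) = z) ∧ (∀ τ : L ≃ₐ[k] L, τ = 1 ∨ τ = σ) ∧
      ∀ z, algebraMap k L (Algebra.norm k z) = z * σ z := by
  obtain ⟨σ, h1, h2, h3⟩ := qx_conj h.sq (qe_ns h) h.deg
  exact ⟨σ, h1, h2, h3, fun z => qx_norm h.sq (qe_ns h) h.deg σ h1 h3 z⟩

/-- the norm form -/
theorem qe_norm_form {a : kˣ} {α : L} (h : QE a α) (x y : k) :
    Algebra.norm k (algebraMap k L x + algebraMap k L y * α) = x ^ 2 - a * y ^ 2 :=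
  qx_norm_form h.sq (qe_ns h) h.deg x y

/-- any two primes above `P` are conjugate -/
theorem qe_over {a : kˣ} {α : L} (h : QE a α) (σ : L ≃ₐ[k] L) (hσ : σ α = -α)
    {P : HeightOneSpectrum (𝓞 k)} {Q Q' : HeightOneSpectrum (𝓞 L)} (hQ : Over P Q)
    (hQ' : Over P Q') : Q' = Q ∨ Q' = cj σ Q := by
  obtain ⟨τ, h1, h2, h3, h4⟩ := qe_conj h
  have hστ : σ = τ := by
    rcases h3 σ with h5 | h5
    · exfalso
      rw [h5] at hσ
      have h6 : α = -α := by simpa using hσ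
      exact qe_ne_zero h (self_eq_neg.1 h6)
    · exact h5
  subst hστ
  exact over_conj h.sq (qe_ns h) h.deg σ hσ h3 hQ hQ'

/-- `P` splits exactly if `a` is a square at `P` -/
theorem qe_split_iff {a : kˣ} {α : L} (h : QE a α) (σ : L ≃ₐ[k] L) (hσ : σ α = -α)
    {P : HeightOneSpectrum (𝓞 k)} {Q : HeightOneSpectrum (𝓞 L)} (hQ : Over P Q) :
    LocSq P (a : k) ↔ cj σ Q ≠ Q :=
  ⟨fun hl => cj_ne_of_locSq h.sq (qe_ns h) σ hσ hQ hl,
    fun hn => locSq_of_cj_ne h.sq (qe_ns h) h.deg σ hσ hQ hn⟩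

/-- outside an admissible set the extension is unramified -/
theorem qe_ord_of_even {a : kˣ} {α : L} (h : QE a α)
    {P : HeightOneSpectrum (𝓞 k)} {Q : HeightOneSpectrum (𝓞 L)} (hQ : Over P Q)
    (h2 : MF.ord P (2 : k) = 0) (ha : Even (MF.ord P (a : k))) (x : k) :
    MF.ord Q (algebraMap k L x) = MF.ord P x := by
  obtain ⟨σ, h1, _, h3, _⟩ := qe_conj h
  have h4 := unram_of_even h.sq (qe_ns h) h.deg σ h1 h3 hQ h2 ha
  rw [hQ.ord_map, h4]
  simp

/-- outside an admissible set the extension by the root of an `S`-unit is unramified -/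
theorem qe_ord_of_adm {a : kˣ} {α : L} (h : QE a α) {S : Finset (HeightOneSpectrum (𝓞 k))}
    (hS : Adm S) (ha : a ∈ US S) {P : HeightOneSpectrum (𝓞 k)} (hP : P ∉ S)
    {Q : HeightOneSpectrum (𝓞 L)} (hQ : Over P Q) (x : k) :
    MF.ord Q (algebraMap k L x) = MF.ord P x := by
  apply qe_ord_of_even h hQ
  · by_contra h0
    apply hP
    apply hS.two
    have h1 : (2 : k) = ((2 : 𝓞 k) : k) := rc_two.symm
    have h2 := ord_int_nonneg P (2 : 𝓞 k)
    rw [h1] at h0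
    exact lt_of_le_of_ne h2 (Ne.symm h0)
  · rw [mem_US.1 ha P hP]
    exact ⟨0, rfl⟩

theorem c3b_split {a : kˣ} {α : L} (h : QE a α) {P : HeightOneSpectrum (𝓞 k)}
    (hl : LocSq P (a : k)) : Nat.card {Q : HeightOneSpectrum (𝓞 L) //
    Q.asIdeal.comap (algebraMap (𝓞 k) (𝓞 L)) = P.asIdeal} = 2 := by
  obtain ⟨σ, hσ, hσσ, hall, hnorm⟩ := qe_conj h
  obtain ⟨Q, hQ⟩ := exists_over (L := L) P
  have hne := (qe_split_iff h σ hσ hQ).1 hl
  rw [Nat.card_eq_two_iff]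
  refine ⟨⟨Q, hQ⟩, ⟨cj σ Q, hQ.cj σ⟩, ?_, ?_⟩
  · intro h0
    exact hne (congrArg Subtype.val h0).symm
  · ext ⟨Q', hQ'⟩
    simp only [Set.mem_insert_iff, Set.mem_singleton_iff, Subtype.mk.injEq, Set.mem_univ, iff_true]
    exact qe_over h σ hσ hQ hQ'

theorem c3b_nonsplit {a : kˣ} {α : L} (h : QE a α) {P : HeightOneSpectrum (𝓞 k)}
    (hl : ¬ LocSq P (a : k)) : Nat.card {Q : HeightOneSpectrum (𝓞 L) //
    Q.asIdeal.comap (algebraMap (𝓞 k) (𝓞 L)) = P.asIdeal} = 1 := by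
  obtain ⟨σ, hσ, hσσ, hall, hnorm⟩ := qe_conj h
  obtain ⟨Q, hQ⟩ := exists_over (L := L) P
  have hcj : cj σ Q = Q := by
    by_contra h0
    exact hl ((qe_split_iff h σ hσ hQ).2 h0)
  rw [Nat.card_eq_one_iff_unique]
  refine ⟨⟨?_⟩, ⟨⟨Q, hQ⟩⟩⟩
  rintro ⟨Q₁, h₁⟩ ⟨Q₂, h₂⟩
  apply Subtype.ext
  have e1 : Q₁ = Q := by
    rcases qe_over h σ hσ hQ h₁ with h0 | h0
    · exact h0
    · rw [h0, hcj]
  have e2 : Q₂ = Q := by
    rcases qe_over h σ hσ hQ h₂ with h0 | h0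
    · exact h0
    · rw [h0, hcj]
  show Q₁ = Q₂
  rw [e1, e2]

end

/-- the number of primes above a prime in a quadratic extension -/
theorem c3b (k L : Type) [Field k] [NumberField k] [Field L] [NumberField L] [Algebra k L] :
    C3bSt k L := fun _ _ h _ => ⟨fun hl => c3b_split h hl, fun hl => c3b_nonsplit h hl⟩

end Pool.Agent.H98.MF.B
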