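import Pool.Agent.H98.MF.C.StmL

/-!
# Project MK4, block C, C3c: the number of places of a quadratic extension over `S`
-/

set_option autoImplicit false

open scoped BigOperators Pointwise
open NumberField IsDedekindDomain

namespace Pool.Agent.H98.MF.B

section

variable {k L : Type} [Field k] [NumberField k] [Field L] [NumberField L] [Algebra k L]

/-- finitely many primes above a prime -/
theorem c3c_above_finite (P : HeightOneSpectrum (𝓞 k)) :
    {Q : HeightOneSpectrum (𝓞 L) |
      Q.asIdeal.comap (algebraMap (𝓞 k) (𝓞 L)) = P.asIdeal}.Finite := by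
  have hinj : Function.Injective (algebraMap (𝓞 k) (𝓞 L)) :=
    FaithfulSMul.algebraMap_injective _ _
  have hne : Ideal.map (algebraMap (𝓞 k) (𝓞 L)) P.asIdeal ≠ 0 := by
    intro h
    exact P.ne_bot ((Ideal.map_eq_bot_iff_of_injective hinj).1 h)
  refine (Ideal.finite_factors hne).subset ?_
  intro Q hQ
  rw [Set.mem_ofPred_eq] at hQ ⊢
  rw [Ideal.dvd_iff_le, Ideal.map_le_iff_le_comap, hQ]

/-- the primes above a finite set of primes -/
theorem ovr_exists (S : Finset (HeightOneSpectrum (𝓞 k))) :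
    ∃ S' : Finset (HeightOneSpectrum (𝓞 L)), Ovr S S' := by
  classical
  refine ⟨S.biUnion fun P => (c3c_above_finite (L := L) P).toFinset, fun Q => ?_⟩
  simp only [Finset.mem_biUnion, Set.Finite.mem_toFinset, Set.mem_ofPred_eq]

/-- every finite set of primes of `L` lies over a finite set -/
theorem ovr_below (T' : Finset (HeightOneSpectrum (𝓞 L))) :
    ∃ S : Finset (HeightOneSpectrum (𝓞 k)), ∀ S₁ : Finset (HeightOneSpectrum (𝓞 k)), S ⊆ S₁ →
      ∀ S₂ : Finset (HeightOneSpectrum (𝓞 L)), Ovr S₁ S₂ → T' ⊆ S₂ := by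
  classical
  refine ⟨T'.image (HeightOneSpectrum.under (𝓞 k)), fun S₁ h1 S₂ h2 Q hQ => ?_⟩
  exact (h2 Q).2 ⟨HeightOneSpectrum.under (𝓞 k) Q, h1 (Finset.mem_image_of_mem _ hQ), rfl⟩

/-- the places of `S` and the real places where `a` is not a square -/
theorem c3c_sS_eq (S : Finset (HeightOneSpectrum (𝓞 k))) (a : kˣ) [DecidablePred
      fun P : HeightOneSpectrum (𝓞 k) => ¬ LocSq P (a : k)] :
    sS S a = (S.filter fun P => ¬ LocSq P (a : k)).card +
      Nat.card {φ : k →+* ℝ // ¬ 0 < φ (a : k)} := by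
  classical
  have h : ((pls S).filter fun v => ¬ LocP v (a : k)) =
      (S.filter fun P => ¬ LocSq P (a : k)).disjSum
        ((Finset.univ : Finset (k →+* ℝ)).filter fun φ => ¬ 0 < φ (a : k)) := by
    ext v
    rcases v with P | φ
    · rw [Finset.mem_filter, Finset.inl_mem_disjSum, Finset.mem_filter, inl_mem_pls]
      rfl
    · rw [Finset.mem_filter, Finset.inr_mem_disjSum, Finset.mem_filter]
      simp only [inr_mem_pls, true_and, Finset.mem_univ]
      rfl
  have h2 : sS S a = ((pls S).filter fun v => ¬ LocP v (a : k)).card := by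
    unfold sS
    congr
  rw [h2, h, Finset.card_disjSum]
  congr 1
  rw [Nat.subtype_card]
  intro φ
  simp

end

/-- C3c -/
theorem c3c_of (k L : Type) [Field k] [NumberField k] [Field L] [NumberField L] [Algebra k L]
    (ha : C3aSt k L) (hb : C3bSt k L) : C3cSt k L := by
  classical
  intro a α hQ S S' hS
  have h1 : S' = S.biUnion fun P => S'.filter fun Q =>
      Q.asIdeal.comap (algebraMap (𝓞 k) (𝓞 L)) = P.asIdeal := by
    ext Q
    rw [Finset.mem_biUnion]
    constructor
    · intro h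
      obtain ⟨P, hP, h2⟩ := (hS Q).1 h
      exact ⟨P, hP, Finset.mem_filter.2 ⟨h, h2⟩⟩
    · rintro ⟨P, _, h2⟩
      exact (Finset.mem_filter.1 h2).1
  have h2 : ∀ P ∈ S, (S'.filter fun Q : HeightOneSpectrum (𝓞 L) =>
      Q.asIdeal.comap (algebraMap (𝓞 k) (𝓞 L)) = P.asIdeal).card +
      (if ¬ LocSq P (a : k) then 1 else 0) = 2 := by
    intro P hP
    have h3 : Nat.card {Q : HeightOneSpectrum (𝓞 L) //
        Q.asIdeal.comap (algebraMap (𝓞 k) (𝓞 L)) = P.asIdeal} =
        (S'.filter fun Q : HeightOneSpectrum (𝓞 L) =>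
          Q.asIdeal.comap (algebraMap (𝓞 k) (𝓞 L)) = P.asIdeal).card := by
      rw [Nat.subtype_card]
      intro Q
      rw [Finset.mem_filter]
      exact ⟨fun h => h.2, fun h => ⟨(hS Q).2 ⟨P, hP, h⟩, h⟩⟩
    rw [← h3]
    by_cases h4 : LocSq P (a : k)
    · rw [(hb a α hQ P).1 h4, if_neg (not_not.2 h4)]
    · rw [(hb a α hQ P).2 h4, if_pos h4]
  have h5 : S'.card = ∑ P ∈ S, (S'.filter fun Q : HeightOneSpectrum (𝓞 L) =>
      Q.asIdeal.comap (algebraMap (𝓞 k) (𝓞 L)) = P.asIdeal).card := by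
    conv_lhs => rw [h1]
    refine Finset.card_biUnion ?_
    intro P _ P' _ hne
    rw [Function.onFun, Finset.disjoint_left]
    intro Q hQ1 hQ2
    refine hne (HeightOneSpectrum.ext ?_)
    rw [← (Finset.mem_filter.1 hQ1).2, ← (Finset.mem_filter.1 hQ2).2]
  have h6 : S'.card + (S.filter fun P => ¬ LocSq P (a : k)).card = 2 * S.card := by
    rw [h5, Finset.card_filter, ← Finset.sum_add_distrib, Finset.sum_congr rfl h2,
      Finset.sum_const, smul_eq_mul, mul_comm]
  have h7 := ha a α hQ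
  rw [c3c_sS_eq]
  unfold mS
  omega

end Pool.Agent.H98.MF.B
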