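import Pool.Agent.H98.MF.C.StmL
import Pool.Agent.H98.MF.C.Val

/-!
# Project MK4, block C, C3d: the index of the norms of `S`-units (helper4)
-/

set_option autoImplicit false

open scoped BigOperators Pointwise
open NumberField IsDedekindDomain

namespace Pool.Agent.H98.MF.B

section

variable {k L : Type} [Field k] [NumberField k] [Field L] [NumberField L] [Algebra k L]

/-- the conjugation of a quadratic extension -/
theorem c3d_conj {a : kˣ} {α : L} (h : QE a α) : ∃ σ : L ≃ₐ[k] L, σ α = -α ∧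
    (∀ z, algebraMap k L (Algebra.norm k z) = z * σ z) ∧ (∀ z, σ (σ z) = z) ∧
    (∀ z, σ z = z → ∃ x, z = algebraMap k L x) ∧
    ∀ z, ∃ x y, z = algebraMap k L x + algebraMap k L y * α := by
  classical
  have : Algebra.IsQuadraticExtension k L := ⟨h.deg⟩
  have hcard : Nat.card (L ≃ₐ[k] L) = 2 := by
    rw [IsGalois.card_aut_eq_finrank, h.deg]
  have : Nontrivial (L ≃ₐ[k] L) := by
    rw [← Finite.one_lt_card_iff_nontrivial, hcard]
    norm_num
  obtain ⟨σ, hσ⟩ := exists_ne (1 : L ≃ₐ[k] L)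
  have hall : ∀ τ : L ≃ₐ[k] L, τ = 1 ∨ τ = σ := by
    intro τ
    by_contra hc
    push Not at hc
    have h3 : ({1, σ, τ} : Finset (L ≃ₐ[k] L)).card ≤ 2 := by
      rw [← hcard, Nat.card_eq_fintype_card]
      exact Finset.card_le_univ _
    rw [Finset.card_insert_of_notMem, Finset.card_insert_of_notMem, Finset.card_singleton] at h3
    · omega
    · rw [Finset.mem_singleton]
      exact fun h4 => hc.2 h4.symm
    · simp only [Finset.mem_insert, Finset.mem_singleton, not_or]
      exact ⟨fun h4 => hσ h4.symm, fun h4 => hc.1 h4.symm⟩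
  have hfix : ∀ z, σ z = z → ∃ x, z = algebraMap k L x := by
    intro z hz
    have h1 := (IsGalois.mem_range_algebraMap_iff_fixed (F := k) z).2 (by
      intro τ
      rcases hall τ with h2 | h2
      · rw [h2]
        rfl
      · rw [h2]
        exact hz)
    obtain ⟨x, hx⟩ := h1
    exact ⟨x, hx.symm⟩
  have hinv : ∀ z, σ (σ z) = z := by
    intro z
    have h1 : σ * σ = 1 := by
      rcases hall (σ * σ) with h2 | h2
      · exact h2
      · exfalso
        apply hσ
        have : σ * σ = σ * 1 := by rw [h2, mul_one]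
        exact mul_left_cancel this
    have h2 := congrArg (fun τ : L ≃ₐ[k] L => τ z) h1
    exact h2
  have hα : σ α = -α := by
    have h1 : (σ α - α) * (σ α + α) = 0 := by
      have h2 : σ α ^ 2 = α ^ 2 := by
        rw [← map_pow, h.sq, AlgEquiv.commutes]
      linear_combination h2
    rcases mul_eq_zero.1 h1 with h4 | h4
    · exfalso
      obtain ⟨x, hx⟩ := hfix α (sub_eq_zero.1 h4)
      have h5 : x ^ 2 = (a : k) := by
        apply (algebraMap k L).injective
        rw [map_pow, ← hx, h.sq]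
      have hx0 : x ≠ 0 := by
        rintro rfl
        rw [zero_pow two_ne_zero] at h5
        exact a.ne_zero h5.symm
      apply h.ns
      refine ⟨Units.mk0 x hx0, Units.ext ?_⟩
      rw [Units.val_mul, Units.val_mk0, ← h5, pow_two]
    · exact eq_neg_of_add_eq_zero_left h4
  have hα0 : α ≠ 0 := by
    rintro rfl
    have h5 := h.sq
    rw [zero_pow two_ne_zero] at h5
    exact a.ne_zero ((map_eq_zero (algebraMap k L)).1 h5.symm)
  refine ⟨σ, hα, ?_, hinv, hfix, ?_⟩
  · intro z
    rw [Algebra.norm_eq_prod_automorphisms]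
    have huniv : (Finset.univ : Finset (L ≃ₐ[k] L)) = {1, σ} := by
      ext τ
      simp only [Finset.mem_univ, Finset.mem_insert, Finset.mem_singleton, true_iff]
      exact hall τ
    rw [huniv, Finset.prod_pair (fun h4 => hσ h4.symm)]
    rfl
  · intro z
    obtain ⟨x, hx⟩ := hfix ((z + σ z) / 2) (by
      rw [map_div₀, map_add, hinv, map_ofNat, add_comm])
    obtain ⟨y, hy⟩ := hfix ((z - σ z) / (2 * α)) (by
      rw [map_div₀, map_sub, hinv, map_mul, map_ofNat, hα]
      field_simp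
      ring)
    refine ⟨x, y, ?_⟩
    rw [← hx, ← hy]
    field_simp
    ring

theorem c3d_inj : Function.Injective (algebraMap (𝓞 k) (𝓞 L)) :=
  FaithfulSMul.algebraMap_injective _ _

/-- the prime below -/
theorem c3d_below (Q : HeightOneSpectrum (𝓞 L)) : ∃ P : HeightOneSpectrum (𝓞 k),
    Q.asIdeal.comap (algebraMap (𝓞 k) (𝓞 L)) = P.asIdeal :=
  ⟨HeightOneSpectrum.under (𝓞 k) Q, rfl⟩

/-- a prime above -/
theorem c3d_above (P : HeightOneSpectrum (𝓞 k)) : ∃ Q : HeightOneSpectrum (𝓞 L),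
    Q.asIdeal.comap (algebraMap (𝓞 k) (𝓞 L)) = P.asIdeal := by
  have : Algebra.IsIntegral (𝓞 k) (𝓞 L) := inferInstance
  obtain ⟨Q, hQ, hQP⟩ := Ideal.exists_ideal_over_prime_of_isIntegral_of_isDomain
    (R := 𝓞 k) (S := 𝓞 L) P.asIdeal (by
      rw [(RingHom.injective_iff_ker_eq_bot _).1 c3d_inj]
      exact bot_le)
  refine ⟨⟨Q, hQ, ?_⟩, hQP⟩
  rintro rfl
  apply P.ne_bot
  rw [← hQP]
  exact Ideal.comap_bot_of_injective _ c3d_inj

/-- the exponent in a quadratic extension -/
theorem c3d_ord {P : HeightOneSpectrum (𝓞 k)} {Q : HeightOneSpectrum (𝓞 L)}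
    (h : Q.asIdeal.comap (algebraMap (𝓞 k) (𝓞 L)) = P.asIdeal) :
    ∃ e : ℕ, 1 ≤ e ∧ ∀ x : kˣ, ord Q (algebraMap k L (x : k)) = e * ord P (x : k) := by
  have hl : Q.asIdeal.LiesOver P.asIdeal := ⟨h.symm⟩
  refine ⟨P.asIdeal.ramificationIdx' Q.asIdeal, ?_, ?_⟩
  · exact Nat.one_le_iff_ne_zero.2 (Ideal.IsDedekindDomain.ramificationIdx'_ne_zero_of_liesOver Q.asIdeal P.ne_bot)
  · intro x
    have h1 := HeightOneSpectrum.valuation_liesOver L P Q (x : k)
    rw [val_eq P x.ne_zero, val_eq Q (by simpa using x.ne_zero), ← WithZero.exp_nsmul,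
      WithZero.exp_inj] at h1
    rw [nsmul_eq_mul] at h1
    linarith

theorem c3d_ord_int (P : HeightOneSpectrum (𝓞 k)) (a : 𝓞 k) (n : ℕ) (ha : a ≠ 0) :
    (n : ℤ) ≤ ord P (a : k) ↔ a ∈ P.asIdeal ^ n := by
  rw [← HeightOneSpectrum.intValuation_le_pow_iff_mem]
  have h1 := val_int P a ha
  rw [HeightOneSpectrum.valuation_of_algebraMap] at h1
  rw [h1, WithZero.exp_le_exp]
  exact neg_le_neg_iff.symm

/-- conjugate primes -/
theorem c3d_cj (σ : L ≃ₐ[k] L) (Q : HeightOneSpectrum (𝓞 L)) : ∃ Q' : HeightOneSpectrum (𝓞 L),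
    Q'.asIdeal.comap (algebraMap (𝓞 k) (𝓞 L)) = Q.asIdeal.comap (algebraMap (𝓞 k) (𝓞 L)) ∧
    ∀ z : L, ord Q (σ z) = ord Q' z := by
  let s : 𝓞 L ≃+* 𝓞 L := RingOfIntegers.mapRingEquiv (σ : L ≃+* L)
  have hs : ∀ z : 𝓞 L, ((s z : 𝓞 L) : L) = σ (z : L) := fun z => rfl
  have hprime : (Q.asIdeal.comap s).IsPrime := Ideal.comap_isPrime s Q.asIdeal
  have hne : Q.asIdeal.comap s ≠ ⊥ := by
    intro h
    apply Q.ne_bot
    have h1 := Ideal.comap_injective_of_surjective (s : 𝓞 L →+* 𝓞 L) s.surjective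
    apply h1
    have h2 : (⊥ : Ideal (𝓞 L)).comap (s : 𝓞 L →+* 𝓞 L) = ⊥ :=
      Ideal.comap_bot_of_injective _ s.injective
    rw [h2]
    exact h
  refine ⟨⟨Q.asIdeal.comap s, hprime, hne⟩, ?_, ?_⟩
  · show (Q.asIdeal.comap s).comap (algebraMap (𝓞 k) (𝓞 L)) = _
    ext x
    rw [Ideal.mem_comap, Ideal.mem_comap, Ideal.mem_comap]
    have h1 : s (algebraMap (𝓞 k) (𝓞 L) x) = algebraMap (𝓞 k) (𝓞 L) x := by
      apply RingOfIntegers.ext
      rw [hs]
      have h2 : ((algebraMap (𝓞 k) (𝓞 L) x : 𝓞 L) : L) = algebraMap k L (x : k) := rfl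
      rw [h2, AlgEquiv.commutes]
    rw [h1]
  · have hint : ∀ z : 𝓞 L, z ≠ 0 → ord Q (σ (z : L)) =
        ord (⟨Q.asIdeal.comap s, hprime, hne⟩ : HeightOneSpectrum (𝓞 L)) (z : L) := by
      intro z hz
      have hz' : s z ≠ 0 := by
        rw [Ne, EmbeddingLike.map_eq_zero_iff]
        exact hz
      have key : ∀ n : ℕ, (n : ℤ) ≤ ord Q (σ (z : L)) ↔
          (n : ℤ) ≤ ord (⟨Q.asIdeal.comap s, hprime, hne⟩ : HeightOneSpectrum (𝓞 L)) (z : L) := by
        intro n
        rw [← hs, c3d_ord_int Q (s z) n hz', c3d_ord_int _ z n hz]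
        show s z ∈ Q.asIdeal ^ n ↔ z ∈ (Q.asIdeal.comap s) ^ n
        have h1 : (Q.asIdeal.comap s) ^ n = (Q.asIdeal ^ n).comap s := by
          rw [← Ideal.map_symm, ← Ideal.map_symm, Ideal.map_pow]
        rw [h1, Ideal.mem_comap]
      have h1 : 0 ≤ ord Q (σ (z : L)) := by
        rw [← hs]
        exact ord_alg_nonneg Q (s z)
      have h2 : 0 ≤ ord (⟨Q.asIdeal.comap s, hprime, hne⟩ : HeightOneSpectrum (𝓞 L)) (z : L) :=
        ord_alg_nonneg _ z
      apply le_antisymm
      · have := (key (ord Q (σ (z : L))).toNat).1 (by rw [Int.toNat_of_nonneg h1])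
        rwa [Int.toNat_of_nonneg h1] at this
      · have := (key (ord (⟨Q.asIdeal.comap s, hprime, hne⟩ :
          HeightOneSpectrum (𝓞 L)) (z : L)).toNat).2 (by rw [Int.toNat_of_nonneg h2])
        rwa [Int.toNat_of_nonneg h2] at this
    intro z
    obtain ⟨x, y, hy, rfl⟩ := IsFractionRing.div_surjective (A := 𝓞 L) z
    have hy0 : y ≠ 0 := nonZeroDivisors.ne_zero hy
    have hyL : ((y : 𝓞 L) : L) ≠ 0 := by
      intro h
      exact hy0 (RingOfIntegers.ext h)
    by_cases hx : x = 0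
    · subst hx
      have h0 : ∀ R : HeightOneSpectrum (𝓞 L), ord R (0 : L) = 0 := by
        intro R
        unfold ord
        rw [FractionalIdeal.spanSingleton_zero, FractionalIdeal.count_zero]
      rw [map_zero, zero_div, map_zero, h0, h0]
    · have hxL : ((x : 𝓞 L) : L) ≠ 0 := by
        intro h
        exact hx (RingOfIntegers.ext h)
      rw [map_div₀, ord_div Q (by simpa using hxL) (by simpa using hyL), ord_div _ hxL hyL]
      have h1 := hint x hx
      have h2 := hint y hy0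
      rw [h1, h2]

/-- primes outside `S` are unramified -/
theorem c3d_unram {a : kˣ} {α : L} (h : QE a α) {P : HeightOneSpectrum (𝓞 k)}
    {Q : HeightOneSpectrum (𝓞 L)}
    (hQ : Q.asIdeal.comap (algebraMap (𝓞 k) (𝓞 L)) = P.asIdeal)
    (h2 : ord P (2 : k) = 0) (ha : ord P (a : k) = 0) (x : kˣ) :
    ord Q (algebraMap k L (x : k)) = ord P (x : k) := by
  obtain ⟨e, he1, he⟩ := c3d_ord hQ
  obtain ⟨σ, hα, -, hinv, hfix, -⟩ := c3d_conj h
  obtain ⟨Q', hQ', hc⟩ := c3d_cj σ Q
  suffices h1 : e = 1 by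
    rw [he x, h1]
    simp
  by_contra hne
  have he2 : 2 ≤ e := by omega
  -- multiples of `e`
  have hmul : ∀ x : k, x ≠ 0 → 1 ≤ ord Q (algebraMap k L x) → 2 ≤ ord Q (algebraMap k L x) := by
    intro x hx h1
    have h3 := he (Units.mk0 x hx)
    rw [Units.val_mk0] at h3
    rw [h3] at h1 ⊢
    have h4 : 0 < ord P x := by
      by_contra h5
      push Not at h5
      have : (e : ℤ) * ord P x ≤ 0 := mul_nonpos_of_nonneg_of_nonpos (by positivity) h5
      omega
    have h5 : (2 : ℤ) ≤ e := by exact_mod_cast he2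
    nlinarith
  have htwo : (2 : L) ≠ 0 := two_ne_zero
  have hQ2 : ord Q (2 : L) = 0 := by
    have h3 := he (Units.mk0 (2 : k) two_ne_zero)
    rw [Units.val_mk0, h2, mul_zero, map_ofNat] at h3
    exact h3
  have hα0 : α ≠ 0 := by
    rintro rfl
    have h5 := h.sq
    rw [zero_pow two_ne_zero] at h5
    exact a.ne_zero ((map_eq_zero (algebraMap k L)).1 h5.symm)
  have hQα : ord Q α = 0 := by
    have h3 := ord_pow Q α 2
    rw [h.sq, he a, ha, mul_zero] at h3
    push_cast at h3
    linarith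
  obtain ⟨π, hπ⟩ := Q.intValuation_exists_uniformizer
  have hπ0 : π ≠ 0 := by
    rintro rfl
    rw [map_zero] at hπ
    exact WithZero.exp_ne_zero hπ.symm
  have hπL : (π : L) ≠ 0 := fun h0 => hπ0 (RingOfIntegers.ext h0)
  have hπ1 : ord Q (π : L) = 1 := by
    have h3 := val_int Q π hπ0
    rw [HeightOneSpectrum.valuation_of_algebraMap, hπ, WithZero.exp_inj] at h3
    have h4 : algebraMap (𝓞 L) L π = (π : L) := rfl
    rw [h4] at h3
    linarith
  by_cases hQQ : Q' = Q
  · rw [hQQ] at hc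
    have hσπ : ord Q (σ (π : L)) = 1 := by rw [hc, hπ1]
    have hσπ0 : σ (π : L) ≠ 0 := by simpa using hπL
    obtain ⟨X, hX⟩ := hfix ((π : L) + σ π) (by rw [map_add, hinv, add_comm])
    obtain ⟨Y, hY⟩ := hfix (((π : L) - σ π) * α) (by
      rw [map_mul, map_sub, hinv, hα]
      ring)
    have hsum : (2 : L) * (π : L) * α = algebraMap k L X * α + algebraMap k L Y := by
      rw [← hX, ← hY]
      ring
    have hval : ∀ u v : L, (u = 0 ∨ 1 ≤ ord Q u) → (v = 0 ∨ 1 ≤ ord Q v) →
        (u + v = 0 ∨ 1 ≤ ord Q (u + v)) := by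
      intro u v hu hv
      by_cases h0 : u + v = 0
      · exact Or.inl h0
      right
      by_cases hu0 : u = 0
      · subst hu0
        rw [zero_add] at h0 ⊢
        exact hv.resolve_left h0
      by_cases hv0 : v = 0
      · subst hv0
        rw [add_zero] at h0 ⊢
        exact hu.resolve_left h0
      exact (le_min (hu.resolve_left hu0) (hv.resolve_left hv0)).trans (ord_add Q hu0 hv0 h0)
    have hX1 : X = 0 ∨ 2 ≤ ord Q (algebraMap k L X) := by
      by_cases hX0 : X = 0
      · exact Or.inl hX0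
      right
      apply hmul X hX0
      have h3 := hval (π : L) (σ π) (Or.inr hπ1.ge) (Or.inr hσπ.ge)
      rw [hX] at h3
      exact h3.resolve_left (by simpa using hX0)
    have hY1 : Y = 0 ∨ 2 ≤ ord Q (algebraMap k L Y) := by
      by_cases hY0 : Y = 0
      · exact Or.inl hY0
      right
      apply hmul Y hY0
      have h3 := hval (π : L) (-σ π) (Or.inr hπ1.ge) (Or.inr (by rw [ord_neg]; exact hσπ.ge))
      rw [← sub_eq_add_neg] at h3
      have h4 : (π : L) - σ π ≠ 0 := by
        intro h0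
        rw [h0, zero_mul] at hY
        exact hY0 ((map_eq_zero (algebraMap k L)).1 hY.symm)
      rw [← hY, ord_mul Q h4 hα0, hQα, add_zero]
      exact h3.resolve_left h4
    have hlhs : ord Q ((2 : L) * (π : L) * α) = 1 := by
      rw [ord_mul Q (mul_ne_zero htwo hπL) hα0, ord_mul Q htwo hπL, hQ2, hπ1, hQα]
      norm_num
    have hl0 : (2 : L) * (π : L) * α ≠ 0 := mul_ne_zero (mul_ne_zero htwo hπL) hα0
    rw [hsum] at hlhs hl0
    rcases hX1 with hX1 | hX1
    · subst hX1
      rw [map_zero, zero_mul, zero_add] at hlhs hl0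
      rcases hY1 with hY1 | hY1
      · rw [hY1, map_zero] at hl0
        exact hl0 rfl
      · omega
    · have hXn : algebraMap k L X ≠ 0 := by
        intro h0
        rw [h0] at hX1
        have : ord Q (0 : L) = 0 := by
          unfold ord
          rw [FractionalIdeal.spanSingleton_zero, FractionalIdeal.count_zero]
        omega
      have hXa : ord Q (algebraMap k L X * α) = ord Q (algebraMap k L X) := by
        rw [ord_mul Q hXn hα0, hQα, add_zero]
      rcases hY1 with hY1 | hY1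
      · subst hY1
        rw [map_zero, add_zero] at hlhs
        omega
      · have hYn : algebraMap k L Y ≠ 0 := by
          intro h0
          rw [h0] at hY1
          have : ord Q (0 : L) = 0 := by
            unfold ord
            rw [FractionalIdeal.spanSingleton_zero, FractionalIdeal.count_zero]
          omega
        have h5 := ord_add Q (mul_ne_zero hXn hα0) hYn hl0
        rw [hXa, hlhs] at h5
        have h6 := le_min hX1 hY1
        omega
  · -- a multiple in `Q'` and not in `Q`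
    obtain ⟨t, ht1, ht2⟩ : ∃ t ∈ Q'.asIdeal, t ∉ Q.asIdeal := by
      by_contra hno
      push Not at hno
      apply hQQ
      have hle : Q'.asIdeal ≤ Q.asIdeal := hno
      have h3 := Q'.isMaximal.eq_of_le Q.isPrime.ne_top hle
      exact HeightOneSpectrum.ext h3
    have ht0 : t ≠ 0 := by
      rintro rfl
      exact ht2 Q.asIdeal.zero_mem
    have htL : (t : L) ≠ 0 := fun h0 => ht0 (RingOfIntegers.ext h0)
    have htQ : ord Q (t : L) = 0 := by
      have h3 : ¬ (1 : ℤ) ≤ ord Q (t : L) := by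
        intro h4
        apply ht2
        have h5 := (c3d_ord_int Q t 1 ht0).1 (by exact_mod_cast h4)
        rwa [pow_one] at h5
      have h4 : 0 ≤ ord Q (t : L) := ord_alg_nonneg Q t
      omega
    have htQ' : 1 ≤ ord Q' (t : L) := by
      have h3 := (c3d_ord_int Q' t 1 ht0).2 (by rwa [pow_one])
      exact_mod_cast h3
    have hz0 : (π : L) * (t : L) ^ 2 ≠ 0 := mul_ne_zero hπL (pow_ne_zero 2 htL)
    have hz1 : ord Q ((π : L) * (t : L) ^ 2) = 1 := by
      rw [ord_mul Q hπL (pow_ne_zero 2 htL), ord_pow, htQ, hπ1]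
      norm_num
    have hz2 : 2 ≤ ord Q (σ ((π : L) * (t : L) ^ 2)) := by
      rw [hc, ord_mul Q' hπL (pow_ne_zero 2 htL), ord_pow]
      have h3 : 0 ≤ ord Q' (π : L) := ord_alg_nonneg Q' π
      push_cast
      linarith
    obtain ⟨X, hX⟩ := hfix ((π : L) * (t : L) ^ 2 + σ ((π : L) * (t : L) ^ 2)) (by
      rw [map_add, hinv, add_comm])
    have h3 := ord_add_of_lt Q hz0 (y := σ ((π : L) * (t : L) ^ 2)) (by simpa using hz0)
      (by rw [hz1]; omega)
    rw [hX, hz1] at h3
    have hX0 : X ≠ 0 := by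
      rintro rfl
      exact h3.1 (map_zero _)
    have h4 := hmul X hX0 h3.2.ge
    omega

/-- C3d: the index of the norms of `S`-units -/
theorem c3d_of (k L : Type) [Field k] [NumberField k] [Field L] [NumberField L] [Algebra k L]
    (hc : C3cSt k L) (h2 : C2St k) (h2L : C2St L) : C3dSt k L := by
  intro a α h S S' hSS hAdm haS
  obtain ⟨σ, hα, hnorm, hinv, hfix, hform⟩ := c3d_conj h
  let io : kˣ →* Lˣ := Units.map ((algebraMap k L : k →+* L) : k →* L)
  have hio : ∀ x : kˣ, ((io x : Lˣ) : L) = algebraMap k L (x : k) := fun x => rfl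
  have hioinj : Function.Injective io := by
    intro x y hxy
    have h1 := congrArg (fun u : Lˣ => (u : L)) hxy
    exact Units.ext ((algebraMap k L).injective h1)
  let sg : Lˣ →* Lˣ := Units.map ((σ : L →+* L) : L →* L)
  have hsg : ∀ z : Lˣ, ((sg z : Lˣ) : L) = σ (z : L) := fun z => rfl
  have hν : ∀ z : Lˣ, io (nu k L z) = z * sg z := by
    intro z
    apply Units.ext
    rw [Units.val_mul, hio, hsg, ← hnorm]
    rfl
  have hνio : ∀ x : kˣ, nu k L (io x) = x ^ 2 := by
    intro x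
    apply Units.ext
    rw [Units.val_pow_eq_pow_val]
    show Algebra.norm k (algebraMap k L (x : k)) = (x : k) ^ 2
    rw [Algebra.norm_algebraMap, h.deg]
  have hα0 : α ≠ 0 := by
    rintro rfl
    have h5 := h.sq
    rw [zero_pow two_ne_zero] at h5
    exact a.ne_zero ((map_eq_zero (algebraMap k L)).1 h5.symm)
  -- primes
  have hout : ∀ (Q : HeightOneSpectrum (𝓞 L)) (P : HeightOneSpectrum (𝓞 k)),
      Q.asIdeal.comap (algebraMap (𝓞 k) (𝓞 L)) = P.asIdeal → (Q ∈ S' ↔ P ∈ S) := by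
    intro Q P hQP
    rw [hSS Q]
    constructor
    · rintro ⟨P', hP', h1⟩
      have h3 : P = P' := HeightOneSpectrum.ext (by rw [← hQP, h1])
      rw [h3]
      exact hP'
    · intro hP
      exact ⟨P, hP, hQP⟩
  have hA : ∀ x ∈ US S, io x ∈ US S' := by
    intro x hx
    refine mem_US.2 fun Q hQ => ?_
    obtain ⟨P, hP⟩ := c3d_below (k := k) Q
    obtain ⟨e, -, he⟩ := c3d_ord hP
    rw [hio, he x, mem_US.1 hx P (fun hPS => hQ ((hout Q P hP).2 hPS)), mul_zero]
  have hB : ∀ z ∈ US S', nu k L z ∈ US S := by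
    intro z hz
    refine mem_US.2 fun P hP => ?_
    obtain ⟨Q, hQ⟩ := c3d_above (L := L) P
    obtain ⟨e, he1, he⟩ := c3d_ord hQ
    obtain ⟨Q', hQ', hcj⟩ := c3d_cj σ Q
    have hQS : Q ∉ S' := fun h1 => hP ((hout Q P hQ).1 h1)
    have hQS' : Q' ∉ S' := fun h1 => hP ((hout Q' P (hQ'.trans hQ)).1 h1)
    have h1 := he (nu k L z)
    rw [← hio, hν z, Units.val_mul, ord_mul Q z.ne_zero (Units.ne_zero _), hsg, hcj,
      mem_US.1 hz Q hQS, mem_US.1 hz Q' hQS', add_zero] at h1
    rcases mul_eq_zero.1 h1.symm with h3 | h3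
    · exfalso
      have : e = 0 := by exact_mod_cast h3
      omega
    · exact h3
  have hunram : ∀ (P : HeightOneSpectrum (𝓞 k)) (Q : HeightOneSpectrum (𝓞 L)), P ∉ S →
      Q.asIdeal.comap (algebraMap (𝓞 k) (𝓞 L)) = P.asIdeal → ∀ x : kˣ,
      ord Q (io x : L) = ord P (x : k) := by
    intro P Q hP hQ x
    rw [hio]
    refine c3d_unram h hQ ?_ (mem_US.1 haS P hP) x
    have h1 : ¬ 0 < ord P (2 : k) := fun h1 => hP (hAdm.two P h1)
    have h3 : 0 ≤ ord P (2 : k) := by
      have := ord_alg_nonneg P (2 : 𝓞 k)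
      rwa [map_ofNat] at this
    omega
  -- the kernel of the norm modulo squares
  have hK : (sqr (US S)).comap (nu k L) ⊓ US S' = (US S).map io ⊔ sqr (US S') := by
    apply le_antisymm
    · rintro z ⟨hz1, hz2⟩
      obtain ⟨c, hcA, hc2⟩ := mem_sqr.1 (Subgroup.mem_comap.1 hz1)
      -- Hilbert 90
      obtain ⟨w, hw⟩ : ∃ w : Lˣ, z * (io c)⁻¹ = w * (sg w)⁻¹ := by
        have hz0 : (z * (io c)⁻¹) * sg (z * (io c)⁻¹) = 1 := by
          rw [← hν, map_mul, map_inv, hνio, ← hc2, mul_inv_cancel, map_one]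
        by_cases hm : ((z * (io c)⁻¹ : Lˣ) : L) = -1
        · have hα0' : α ≠ 0 := hα0
          refine ⟨Units.mk0 α hα0', ?_⟩
          rw [eq_mul_inv_iff_mul_eq]
          apply Units.ext
          rw [Units.val_mul, hm, hsg, Units.val_mk0, hα]
          ring
        · have h1 : (1 : L) + ((z * (io c)⁻¹ : Lˣ) : L) ≠ 0 := by
            intro h0
            apply hm
            linear_combination h0
          refine ⟨Units.mk0 _ h1, ?_⟩
          rw [eq_mul_inv_iff_mul_eq]
          apply Units.ext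
          have h3 := congrArg (fun u : Lˣ => (u : L)) hz0
          rw [Units.val_mul, hsg, Units.val_mk0, map_add, map_one]
          simp only [Units.val_mul, hsg, Units.val_one] at h3 ⊢
          rw [map_mul] at h3 ⊢
          linear_combination h3
      -- z = io y * w ^ 2
      have hzy : z = io (c * (nu k L w)⁻¹) * w ^ 2 := by
        have h1 : z = io c * (w * (sg w)⁻¹) := by
          rw [← hw, mul_comm z, mul_inv_cancel_left]
        rw [h1, map_mul, map_inv, hν w, pow_two, mul_inv]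
        have h3 : io c * (w⁻¹ * (sg w)⁻¹) * (w * w) = io c * (w * (sg w)⁻¹) * (w⁻¹ * w) := by
          simp only [mul_comm, mul_left_comm, mul_assoc]
        rw [h3, inv_mul_cancel, mul_one]
      obtain ⟨u, huA, t, ht⟩ := exists_unit_mul_sq hAdm.prS (c * (nu k L w)⁻¹) (by
        intro P hP
        obtain ⟨Q, hQ⟩ := c3d_above (L := L) P
        have hQS : Q ∉ S' := fun h1 => hP ((hout Q P hQ).1 h1)
        have h1 := mem_US.1 hz2 Q hQS
        rw [hzy, Units.val_mul, ord_mul Q (Units.ne_zero _) (Units.ne_zero _),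
          hunram P Q hP hQ, Units.val_pow_eq_pow_val, ord_pow] at h1
        refine ⟨- ord Q (w : L), ?_⟩
        rw [Nat.cast_ofNat] at h1
        linarith)
      have hz3 : z = io u * (io t * w) ^ 2 := by
        rw [hzy, ht, map_mul, map_pow, mul_pow, mul_assoc]
      have h5 : (io t * w) ^ 2 ∈ US S' := by
        have h6 : (io t * w) ^ 2 = (io u)⁻¹ * z := by rw [hz3, inv_mul_cancel_left]
        rw [h6]
        exact mul_mem (inv_mem (hA u huA)) hz2
      have h7 : (io t * w) ^ 2 ∈ sqr (US S') := mem_sqr_US h5 rfl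
      rw [hz3]
      exact Subgroup.mul_mem_sup (Subgroup.mem_map_of_mem io huA) h7
    · rw [sup_le_iff]
      constructor
      · rintro _ ⟨x, hx, rfl⟩
        refine ⟨?_, hA x hx⟩
        show nu k L (io x) ∈ sqr (US S)
        rw [hνio]
        exact mem_sqr.2 ⟨x, hx, rfl⟩
      · intro z hz
        obtain ⟨s, hs, rfl⟩ := mem_sqr.1 hz
        refine ⟨?_, pow_mem hs 2⟩
        show nu k L (s ^ 2) ∈ sqr (US S)
        rw [map_pow]
        exact mem_sqr.2 ⟨_, hB s hs, rfl⟩
  -- the kernel of the map to the classes in `L`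
  have hA2D : sqr (US S) ≤ US S ⊓ (sqr (US S')).comap io := by
    intro x hx
    obtain ⟨s, hs, rfl⟩ := mem_sqr.1 hx
    refine ⟨pow_mem hs 2, ?_⟩
    show io (s ^ 2) ∈ sqr (US S')
    rw [map_pow]
    exact mem_sqr.2 ⟨_, hA s hs, rfl⟩
  have hαS : Units.mk0 α hα0 ∈ US S' := by
    refine mem_US.2 fun Q hQ => ?_
    have h1 := mem_US.1 (hA a haS) Q hQ
    rw [hio, ← h.sq, ord_pow] at h1
    rw [Units.val_mk0]
    push_cast at h1
    linarith
  have haD : a ∈ US S ⊓ (sqr (US S')).comap io := by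
    refine ⟨haS, ?_⟩
    show io a ∈ sqr (US S')
    refine mem_sqr.2 ⟨_, hαS, ?_⟩
    apply Units.ext
    rw [Units.val_pow_eq_pow_val, Units.val_mk0, h.sq, hio]
  have hDcase : ∀ x ∈ US S ⊓ (sqr (US S')).comap io, x ∈ sqr (US S) ∨ a * x ∈ sqr (US S) := by
    rintro x ⟨hx1, hx2⟩
    obtain ⟨s, hs, hs2⟩ := mem_sqr.1 (Subgroup.mem_comap.1 hx2)
    have hσs : σ (s : L) = s ∨ σ (s : L) = -s := by
      have h1 : (σ (s : L)) ^ 2 = (s : L) ^ 2 := by
        rw [← map_pow, ← Units.val_pow_eq_pow_val, hs2, hio, AlgEquiv.commutes]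
      exact sq_eq_sq_iff_eq_or_eq_neg.1 h1
    rcases hσs with h1 | h1
    · left
      obtain ⟨p, hp⟩ := hfix (s : L) h1
      have hp0 : p ≠ 0 := by
        rintro rfl
        rw [map_zero] at hp
        exact s.ne_zero hp
      refine mem_sqr_US hx1 (b := Units.mk0 p hp0) ?_
      apply hioinj
      rw [← hs2, map_pow]
      congr 1
      exact Units.ext hp.symm
    · right
      obtain ⟨p, hp⟩ := hfix ((s : L) * α) (by rw [map_mul, h1, hα, neg_mul_neg])
      have hp0 : p ≠ 0 := by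
        rintro rfl
        rw [map_zero] at hp
        rcases mul_eq_zero.1 hp with h3 | h3
        · exact s.ne_zero h3
        · exact hα0 h3
      refine mem_sqr_US (mul_mem haS hx1) (b := Units.mk0 p hp0) ?_
      apply hioinj
      rw [map_mul, ← hs2, map_pow]
      apply Units.ext
      rw [Units.val_mul, Units.val_pow_eq_pow_val, Units.val_pow_eq_pow_val, hio, hio, ← h.sq,
        Units.val_mk0, ← hp]
      ring
  have hrel2 : (sqr (US S)).relIndex (US S ⊓ (sqr (US S')).comap io) = 2 := by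
    rw [Subgroup.relIndex, Subgroup.index_eq_two_iff]
    refine ⟨⟨a, haD⟩, fun b => ?_⟩
    rw [Subgroup.mem_subgroupOf, Subgroup.mem_subgroupOf]
    have hns : ∀ x : kˣ, x ∈ sqr (US S) → a * x ∉ sqr (US S) := by
      intro x hx hax
      obtain ⟨s, hs, rfl⟩ := mem_sqr.1 hx
      obtain ⟨t, ht, ht2⟩ := mem_sqr.1 hax
      apply h.ns
      refine ⟨t * s⁻¹, ?_⟩
      have h1 : a = t ^ 2 * (s ^ 2)⁻¹ := by rw [ht2, mul_inv_cancel_right]
      calc a = t ^ 2 * (s ^ 2)⁻¹ := h1
        _ = t * s⁻¹ * (t * s⁻¹) := by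
          rw [pow_two, pow_two, mul_inv, mul_mul_mul_comm]
    have h1 : (((b * ⟨a, haD⟩ : (US S ⊓ (sqr (US S')).comap io : Subgroup kˣ)) : kˣ)) =
        a * (b : kˣ) := by
      rw [mul_comm]
      rfl
    rw [h1]
    rcases hDcase (b : kˣ) b.2 with h3 | h3
    · exact Or.inr ⟨h3, hns _ h3⟩
    · exact Or.inl ⟨h3, fun h4 => hns _ h4 h3⟩
  -- the indices
  have e1 := Subgroup.relIndex_mul_relIndex (sqr (US S)) (US S ⊓ (sqr (US S')).comap io) (US S)
    hA2D inf_le_left
  rw [hrel2, inf_comm, Subgroup.inf_relIndex_right, h2 S, Subgroup.relIndex_comap] at e1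
  have hle1 : sqr (US S') ≤ (US S).map io ⊔ sqr (US S') := le_sup_right
  have hle2 : (US S).map io ⊔ sqr (US S') ≤ US S' := by
    rw [← hK]
    exact inf_le_right
  have e2 := Subgroup.relIndex_mul_relIndex _ _ _ hle1 hle2
  rw [Subgroup.relIndex_sup_right, h2L S', ← hK, Subgroup.inf_relIndex_right,
    Subgroup.relIndex_comap] at e2
  have hle3 : sqr (US S) ≤ (US S').map (nu k L) := by
    intro x hx
    obtain ⟨s, hs, rfl⟩ := mem_sqr.1 hx
    exact ⟨io s, hA s hs, hνio s⟩
  have hle4 : (US S').map (nu k L) ≤ US S := by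
    rintro _ ⟨z, hz, rfl⟩
    exact hB z hz
  have e3 := Subgroup.relIndex_mul_relIndex _ _ _ hle3 hle4
  rw [h2 S] at e3
  have e4 := hc a α h S S' hSS
  have e5 : 2 ^ mS S' * (((US S').map (nu k L)).relIndex (US S) * 2) = 2 ^ mS S' * 2 ^ sS S a := by
    rw [← pow_add, e4, two_mul, pow_add]
    nth_rewrite 1 [← e2]
    nth_rewrite 1 [← e1]
    rw [← e3]
    ring
  exact Nat.eq_of_mul_eq_mul_left (by positivity) e5

end

end Pool.Agent.H98.MF.B
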