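import Pool.Agent.H98.MF.C.StmL
import Pool.Agent.H98.MF.C.Val

/-!
# Project MK4, block C, C3e: split primes are generated by norms
-/

set_option autoImplicit false

open scoped BigOperators Pointwise nonZeroDivisors
open NumberField IsDedekindDomain

namespace Pool.Agent.H98.MF.B

section

variable {k L : Type} [Field k] [NumberField k] [Field L] [NumberField L] [Algebra k L]

/-- the exponents of elements of the base field in a prime above -/
theorem c3e_ord_up (P : HeightOneSpectrum (𝓞 k)) (Q : HeightOneSpectrum (𝓞 L))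
    (h : Q.asIdeal.comap (algebraMap (𝓞 k) (𝓞 L)) = P.asIdeal) :
    ∃ e : ℕ, 0 < e ∧ ∀ c : k, c ≠ 0 → ord Q (algebraMap k L c) = e * ord P c := by
  haveI : Q.asIdeal.LiesOver P.asIdeal := ⟨h.symm⟩
  refine ⟨P.asIdeal.ramificationIdx' Q.asIdeal, Nat.pos_of_ne_zero
    (Ideal.IsDedekindDomain.ramificationIdx'_ne_zero_of_liesOver Q.asIdeal P.ne_bot), ?_⟩
  intro c hc
  have hc' : algebraMap k L c ≠ 0 := by
    rw [Ne, map_eq_zero]; exact hc
  have h1 := HeightOneSpectrum.valuation_liesOver (K := k) L P Q c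
  rw [val_eq P hc, val_eq Q hc', ← WithZero.exp_nsmul, WithZero.exp_inj] at h1
  rw [nsmul_eq_mul] at h1
  linarith

/-- the conjugate of a prime -/
def conjP (σ : L ≃+* L) (R : HeightOneSpectrum (𝓞 L)) : HeightOneSpectrum (𝓞 L) where
  asIdeal := R.asIdeal.comap (RingOfIntegers.mapRingEquiv σ : 𝓞 L →+* 𝓞 L)
  isPrime := by
    haveI := R.isPrime
    exact Ideal.comap_isPrime _ _
  ne_bot := by
    intro h
    apply R.ne_bot
    rw [eq_bot_iff]
    intro x hx
    have h1 : (RingOfIntegers.mapRingEquiv σ).symm x ∈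
        R.asIdeal.comap (RingOfIntegers.mapRingEquiv σ : 𝓞 L →+* 𝓞 L) := by
      rw [Ideal.mem_comap]
      simpa using hx
    rw [h, Ideal.mem_bot, map_eq_zero_iff _ (RingEquiv.injective _)] at h1
    rw [h1]
    exact Ideal.zero_mem _

theorem c3e_mem_pow (σ : L ≃+* L) (R : HeightOneSpectrum (𝓞 L)) (r : 𝓞 L) (n : ℕ) :
    RingOfIntegers.mapRingEquiv σ r ∈ R.asIdeal ^ n ↔ r ∈ (conjP σ R).asIdeal ^ n := by
  have h1 : ∀ I : Ideal (𝓞 L), I.comap (RingOfIntegers.mapRingEquiv σ : 𝓞 L →+* 𝓞 L)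
      = I.map ((RingOfIntegers.mapRingEquiv σ).symm : 𝓞 L →+* 𝓞 L) := by
    intro I
    exact (Ideal.map_symm (I := I) (RingOfIntegers.mapRingEquiv σ)).symm
  have h2 : (conjP σ R).asIdeal ^ n
      = (R.asIdeal ^ n).comap (RingOfIntegers.mapRingEquiv σ : 𝓞 L →+* 𝓞 L) := by
    show (R.asIdeal.comap (RingOfIntegers.mapRingEquiv σ : 𝓞 L →+* 𝓞 L)) ^ n = _
    rw [h1, h1, Ideal.map_pow]
  rw [h2, Ideal.mem_comap]
  rfl

theorem c3e_ord_conj_int (σ : L ≃+* L) (R : HeightOneSpectrum (𝓞 L)) (r : 𝓞 L) (hr : r ≠ 0) :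
    ord R (σ (algebraMap (𝓞 L) L r)) = ord (conjP σ R) (algebraMap (𝓞 L) L r) := by
  have hσ : σ (algebraMap (𝓞 L) L r) = algebraMap (𝓞 L) L (RingOfIntegers.mapRingEquiv σ r) := rfl
  have hr1 : RingOfIntegers.mapRingEquiv σ r ≠ 0 := by
    intro h
    exact hr ((map_eq_zero_iff _ (RingEquiv.injective _)).1 h)
  have hinj : Function.Injective (algebraMap (𝓞 L) L) := FaithfulSMul.algebraMap_injective _ _
  have hx1 : algebraMap (𝓞 L) L r ≠ 0 := by
    rw [Ne, map_eq_zero_iff _ hinj]; exact hr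
  have hx2 : algebraMap (𝓞 L) L (RingOfIntegers.mapRingEquiv σ r) ≠ 0 := by
    rw [Ne, map_eq_zero_iff _ hinj]; exact hr1
  have key : ∀ n : ℕ, ((n : ℤ) ≤ ord R (algebraMap (𝓞 L) L (RingOfIntegers.mapRingEquiv σ r)) ↔
      (n : ℤ) ≤ ord (conjP σ R) (algebraMap (𝓞 L) L r)) := by
    intro n
    rw [le_ord_iff R hx2, le_ord_iff _ hx1, HeightOneSpectrum.valuation_of_algebraMap,
      HeightOneSpectrum.valuation_of_algebraMap, HeightOneSpectrum.intValuation_le_pow_iff_mem,
      HeightOneSpectrum.intValuation_le_pow_iff_mem]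
    exact c3e_mem_pow σ R r n
  rw [hσ]
  obtain ⟨n1, h1⟩ := Int.eq_ofNat_of_zero_le (ord_alg_nonneg R (RingOfIntegers.mapRingEquiv σ r))
  obtain ⟨n2, h2⟩ := Int.eq_ofNat_of_zero_le (ord_alg_nonneg (conjP σ R) r)
  have k1 := (key n1).1 (by rw [h1])
  have k2 := (key n2).2 (by rw [h2])
  rw [h2] at k1
  rw [h1] at k2
  rw [h1, h2]
  omega

theorem c3e_ord_conj (σ : L ≃+* L) (R : HeightOneSpectrum (𝓞 L)) {x : L} (hx : x ≠ 0) :
    ord R (σ x) = ord (conjP σ R) x := by
  obtain ⟨a, b, hb, rfl⟩ := IsFractionRing.div_surjective (A := 𝓞 L) x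
  have hb0 : b ≠ 0 := nonZeroDivisors.ne_zero hb
  have hinj : Function.Injective (algebraMap (𝓞 L) L) := FaithfulSMul.algebraMap_injective _ _
  have ha0 : a ≠ 0 := by
    rintro rfl
    exact hx (by rw [map_zero, zero_div])
  have hak : algebraMap (𝓞 L) L a ≠ 0 := by
    rw [Ne, map_eq_zero_iff _ hinj]; exact ha0
  have hbk : algebraMap (𝓞 L) L b ≠ 0 := by
    rw [Ne, map_eq_zero_iff _ hinj]; exact hb0
  have hak' : σ (algebraMap (𝓞 L) L a) ≠ 0 := by
    rw [Ne, map_eq_zero_iff _ σ.injective]; exact hak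
  have hbk' : σ (algebraMap (𝓞 L) L b) ≠ 0 := by
    rw [Ne, map_eq_zero_iff _ σ.injective]; exact hbk
  rw [map_div₀, ord_div R hak' hbk', ord_div _ hak hbk, c3e_ord_conj_int σ R a ha0,
    c3e_ord_conj_int σ R b hb0]

/-- every element of the quadratic extension -/
theorem c3e_rep {a : kˣ} {α : L} (h : QE a α) (β : L) :
    ∃ x y : k, β = algebraMap k L x + algebraMap k L y * α := by
  have hα : ∀ c : k, algebraMap k L c ≠ α := by
    intro c hc
    apply h.ns
    have h1 : algebraMap k L (c ^ 2) = algebraMap k L (a : k) := by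
      rw [map_pow, hc, h.sq]
    have h2 : c ^ 2 = (a : k) := (algebraMap k L).injective h1
    have hc0 : c ≠ 0 := by
      rintro rfl
      exact a.ne_zero (by rw [← h2]; ring)
    exact ⟨Units.mk0 c hc0, by ext; rw [Units.val_mul, Units.val_mk0, ← h2]; ring⟩
  have hli : LinearIndependent k ![(1 : L), α] := by
    rw [LinearIndependent.pair_iff]
    intro s t hst
    by_cases ht : t = 0
    · subst ht
      rw [zero_smul, add_zero, smul_eq_zero] at hst
      exact ⟨hst.resolve_right one_ne_zero, rfl⟩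
    · exfalso
      apply hα (-(s / t))
      rw [Algebra.smul_def, Algebra.smul_def, mul_one] at hst
      have ht' : algebraMap k L t ≠ 0 := by rw [Ne, map_eq_zero]; exact ht
      rw [map_neg, map_div₀]
      field_simp
      linear_combination -hst
  haveI : FiniteDimensional k L := Module.finite_of_finrank_pos (by rw [h.deg]; norm_num)
  have hspan : Submodule.span k (Set.range ![(1 : L), α]) = ⊤ :=
    hli.span_eq_top_of_card_eq_finrank' (by rw [h.deg]; simp)
  have hmem : β ∈ Submodule.span k (Set.range ![(1 : L), α]) := by rw [hspan]; trivial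
  rw [Matrix.range_cons, Matrix.range_cons, Matrix.range_empty, Set.union_empty,
    Set.singleton_union, Submodule.mem_span_pair] at hmem
  obtain ⟨x, y, hxy⟩ := hmem
  refine ⟨x, y, ?_⟩
  rw [← hxy, Algebra.smul_def, Algebra.smul_def, mul_one]

/-- the nontrivial automorphism -/
theorem c3e_aut {a : kˣ} {α : L} (h : QE a α) : ∃ σ : L ≃ₐ[k] L, σ α = -α := by
  haveI : Algebra.IsQuadraticExtension k L := ⟨h.deg⟩
  have hcard : Nat.card (L ≃ₐ[k] L) = 2 := by
    rw [IsGalois.card_aut_eq_finrank, h.deg]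
  haveI : Finite (L ≃ₐ[k] L) := Nat.finite_of_card_ne_zero (by rw [hcard]; norm_num)
  haveI : Nontrivial (L ≃ₐ[k] L) := by
    rw [← Finite.one_lt_card_iff_nontrivial, hcard]; norm_num
  obtain ⟨σ, hσ⟩ := exists_ne (1 : L ≃ₐ[k] L)
  refine ⟨σ, ?_⟩
  have h1 : (σ α) ^ 2 = α ^ 2 := by
    rw [← map_pow, h.sq, AlgEquiv.commutes]
  rcases sq_eq_sq_iff_eq_or_eq_neg.1 h1 with h2 | h2
  · exfalso
    apply hσ
    ext β
    obtain ⟨x, y, rfl⟩ := c3e_rep h β
    rw [map_add, map_mul, AlgEquiv.commutes, AlgEquiv.commutes, h2]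
    rfl
  · exact h2

end

/-- C3e -/
theorem c3e_of (k L : Type) [Field k] [NumberField k] [Field L] [NumberField L] [Algebra k L]
    (hb : C3bSt k L) : C3eSt k L := by
  intro a α hq S S' hS hadm haS hpr P hP hloc
  obtain ⟨σ, hσ⟩ := c3e_aut hq
  set τ : L ≃+* L := σ.toRingEquiv with hτ
  have hτap : ∀ x, τ x = σ x := fun x => rfl
  -- conjugate primes lie over the same prime
  have hconj_over : ∀ R : HeightOneSpectrum (𝓞 L),
      (conjP τ R).asIdeal.comap (algebraMap (𝓞 k) (𝓞 L))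
        = R.asIdeal.comap (algebraMap (𝓞 k) (𝓞 L)) := by
    intro R
    ext c
    rw [Ideal.mem_comap, Ideal.mem_comap]
    show RingOfIntegers.mapRingEquiv τ (algebraMap (𝓞 k) (𝓞 L) c) ∈ R.asIdeal ↔ _
    have : RingOfIntegers.mapRingEquiv τ (algebraMap (𝓞 k) (𝓞 L) c)
        = algebraMap (𝓞 k) (𝓞 L) c := by
      apply RingOfIntegers.ext
      rw [RingOfIntegers.mapRingEquiv_apply, hτap]
      have h2 : ((algebraMap (𝓞 k) (𝓞 L) c : 𝓞 L) : L) = algebraMap k L (c : k) := rfl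
      rw [h2, AlgEquiv.commutes]
    rw [this]
  have hσσ : ∀ x, σ (σ x) = x := by
    intro x
    obtain ⟨u, v, rfl⟩ := c3e_rep hq x
    rw [map_add, map_mul, AlgEquiv.commutes, AlgEquiv.commutes, hσ, map_add, map_mul,
      AlgEquiv.commutes, AlgEquiv.commutes, map_neg, hσ, neg_neg]
  have hcc : ∀ R : HeightOneSpectrum (𝓞 L), conjP τ (conjP τ R) = R := by
    intro R
    apply HeightOneSpectrum.ext
    ext c
    show RingOfIntegers.mapRingEquiv τ (RingOfIntegers.mapRingEquiv τ c) ∈ R.asIdeal ↔ _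
    have : RingOfIntegers.mapRingEquiv τ (RingOfIntegers.mapRingEquiv τ c) = c := by
      apply RingOfIntegers.ext
      rw [RingOfIntegers.mapRingEquiv_apply, RingOfIntegers.mapRingEquiv_apply, hτap, hτap, hσσ]
    rw [this]
  -- primes over a prime outside `S` are outside `S'`
  have hout : ∀ (P' : HeightOneSpectrum (𝓞 k)) (R : HeightOneSpectrum (𝓞 L)), P' ∉ S →
      R.asIdeal.comap (algebraMap (𝓞 k) (𝓞 L)) = P'.asIdeal → R ∉ S' := by
    intro P' R h1 h2 h3
    obtain ⟨P'', h4, h5⟩ := (hS R).1 h3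
    apply h1
    have : P' = P'' := HeightOneSpectrum.ext (h2.symm.trans h5)
    rw [this]; exact h4
  obtain ⟨⟨Q0, hQ0⟩, ⟨Q1, hQ1⟩, hne, -⟩ := Nat.card_eq_two_iff.1 ((hb a α hq P).1 hloc)
  have hne' : Q0 ≠ Q1 := fun h => hne (Subtype.ext h)
  -- the conjugate of `Q0` is different
  have hQc : conjP τ Q0 ≠ Q0 := by
    intro hcon
    have hsub : ((Q0.asIdeal : Ideal (𝓞 L)) : Set (𝓞 L)) ⊆
        (Q1.asIdeal : Set (𝓞 L)) ∪ ((conjP τ Q1).asIdeal : Set (𝓞 L)) := by
      intro r hr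
      obtain ⟨u, v, huv⟩ := c3e_rep hq (r : L)
      have hprod : (r : L) * σ (r : L) = algebraMap k L (u ^ 2 - a * v ^ 2) := by
        rw [huv, map_add, map_mul, AlgEquiv.commutes, AlgEquiv.commutes, hσ, map_sub, map_mul,
          map_pow, map_pow, ← hq.sq]
        ring
      have hint : IsIntegral ℤ (u ^ 2 - a * v ^ 2 : k) := by
        have h1 : IsIntegral ℤ (algebraMap k L (u ^ 2 - a * v ^ 2)) := by
          rw [← hprod]
          apply IsIntegral.mul (RingOfIntegers.isIntegral_coe r)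
          exact (RingOfIntegers.isIntegral_coe (RingOfIntegers.mapRingEquiv τ r))
        exact (isIntegral_algebraMap_iff (algebraMap k L).injective).1 h1
      set s : 𝓞 k := ⟨u ^ 2 - a * v ^ 2, hint⟩ with hs
      have hs1 : algebraMap (𝓞 k) (𝓞 L) s = r * RingOfIntegers.mapRingEquiv τ r := by
        apply RingOfIntegers.ext
        show algebraMap k L (u ^ 2 - a * v ^ 2) = (r : L) * σ (r : L)
        exact hprod.symm
      have hs2 : s ∈ P.asIdeal := by
        rw [← hQ0, Ideal.mem_comap, hs1]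
        exact Ideal.mul_mem_right _ _ hr
      rw [← hQ1, Ideal.mem_comap, hs1] at hs2
      haveI := Q1.isPrime
      rcases Ideal.IsPrime.mem_or_mem Q1.isPrime hs2 with h | h
      · exact Or.inl h
      · exact Or.inr h
    have hmax0 := Q0.isMaximal
    rcases Ideal.subset_union.1 hsub with h | h
    · exact hne' (HeightOneSpectrum.ext (hmax0.eq_of_le Q1.isPrime.ne_top h))
    · have h1 : Q0 = conjP τ Q1 :=
        HeightOneSpectrum.ext (hmax0.eq_of_le (conjP τ Q1).isPrime.ne_top h)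
      have h2 : conjP τ Q0 = Q1 := by rw [h1, hcc]
      exact hne' (hcon.symm.trans h2)
  obtain ⟨β, hβ0, hβ1, hβ2⟩ := hpr Q0 (hout P Q0 hP hQ0)
  obtain ⟨x, y, hxy⟩ := c3e_rep hq β
  have hprod : β * σ β = algebraMap k L (x ^ 2 - a * y ^ 2) := by
    rw [hxy, map_add, map_mul, AlgEquiv.commutes, AlgEquiv.commutes, hσ, map_sub, map_mul,
      map_pow, map_pow, ← hq.sq]
    ring
  have hσβ : σ β ≠ 0 := by
    rw [Ne, map_eq_zero_iff _ σ.injective]; exact hβ0
  have hb0 : (x ^ 2 - a * y ^ 2 : k) ≠ 0 := by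
    intro h
    rw [h, map_zero] at hprod
    exact mul_ne_zero hβ0 hσβ hprod
  have hup : ∀ R : HeightOneSpectrum (𝓞 L),
      ord R (algebraMap k L (x ^ 2 - a * y ^ 2)) = ord R β + ord (conjP τ R) β := by
    intro R
    rw [← hprod, ord_mul R hβ0 hσβ, ← c3e_ord_conj τ R hβ0]
    rfl
  refine ⟨Units.mk0 _ hb0, Subgroup.subset_closure ⟨x, y, rfl⟩, ?_, ?_⟩
  · rw [Units.val_mk0]
    obtain ⟨e, he, hord⟩ := c3e_ord_up P Q0 hQ0
    have h1 := hup Q0
    rw [hord _ hb0, hβ1, hβ2 (conjP τ Q0) (hout P _ hP ((hconj_over Q0).trans hQ0)) hQc,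
      add_zero] at h1
    have he' : (1 : ℤ) ≤ e := by exact_mod_cast he
    have hpos : 0 < ord P (x ^ 2 - (a : k) * y ^ 2) := by
      by_contra hneg
      push Not at hneg
      nlinarith
    nlinarith
  · intro P' hP' hPP'
    rw [Units.val_mk0]
    obtain ⟨R, hRm, hRo⟩ : ∃ R : HeightOneSpectrum (𝓞 L), True ∧
        R.asIdeal.comap (algebraMap (𝓞 k) (𝓞 L)) = P'.asIdeal := by
      obtain ⟨J, hJ1, hJ2⟩ :=
        Ideal.exists_maximal_ideal_liesOver_of_isIntegral P'.asIdeal (S := 𝓞 L)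
      refine ⟨⟨J, hJ1.isPrime, ?_⟩, trivial, hJ2.over.symm⟩
      intro hJ
      apply P'.ne_bot
      rw [hJ2.over, hJ]
      exact Ideal.comap_bot_of_injective _ (FaithfulSMul.algebraMap_injective (𝓞 k) (𝓞 L))
    obtain ⟨e, he, hord⟩ := c3e_ord_up P' R hRo
    have hRS := hout P' R hP' hRo
    have hRne : R ≠ Q0 := by
      rintro rfl
      exact hPP' (HeightOneSpectrum.ext (hRo.symm.trans hQ0))
    have hRc := hout P' (conjP τ R) hP' ((hconj_over R).trans hRo)
    have hRcne : conjP τ R ≠ Q0 := by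
      intro h
      apply hPP'
      apply HeightOneSpectrum.ext
      rw [← hRo, ← hconj_over R, h, hQ0]
    have h1 := hup R
    rw [hord _ hb0, hβ2 R hRS hRne, hβ2 _ hRc hRcne, add_zero] at h1
    have he' : (e : ℤ) ≠ 0 := by exact_mod_cast he.ne'
    exact (mul_eq_zero.1 h1).resolve_left he'

end Pool.Agent.H98.MF.B
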