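import Pool.Agent.H98.MF.C.Stm
import Pool.Agent.H98.MF.C.Bas

/-!
# Project MK4, block C: row C8, frames
-/

set_option autoImplicit false

open scoped BigOperators Pointwise nonZeroDivisors
open NumberField IsDedekindDomain

namespace Pool.Agent.H98.MF.B

/-! ### linear algebra in elementary 2-groups -/

theorem c8_two (x : ZMod 2) : x + x = 0 := CharTwo.add_self_eq_zero x

/-- functionals separate the points of an elementary 2-group -/
theorem c8_sep {G : Type} [CommGroup G] (H : Subgroup G) (hH : ∀ x : G, x ^ 2 ∈ H) (x : G)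
    (hx : x ∉ H) : ∃ ψ : G →* Multiplicative (ZMod 2), (∀ y ∈ H, ψ y = 1) ∧ ψ x ≠ 1 := by
  have hz : ∀ z : Additive (G ⧸ H), 2 • z = 0 := by
    intro z
    obtain ⟨g, hg⟩ := QuotientGroup.mk_surjective (Additive.toMul z)
    have h2 : (Additive.toMul z) ^ 2 = 1 := by
      rw [← hg, ← QuotientGroup.mk_pow, QuotientGroup.eq_one_iff]
      exact hH g
    exact h2
  let _ : Module (ZMod 2) (Additive (G ⧸ H)) := AddCommGroup.zmodModule hz
  have hne : Additive.ofMul (x : G ⧸ H) ≠ 0 := by
    intro h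
    apply hx
    rw [← QuotientGroup.eq_one_iff]
    exact h
  have h1 := (Module.forall_dual_apply_eq_zero_iff (ZMod 2) (Additive.ofMul (x : G ⧸ H))).not.2 hne
  push Not at h1
  obtain ⟨f, hf⟩ := h1
  refine ⟨(AddMonoidHom.toMultiplicativeRight f.toAddMonoidHom).comp (QuotientGroup.mk' H), ?_, ?_⟩
  · intro y hy
    have h3 : (QuotientGroup.mk' H) y = 1 := (QuotientGroup.eq_one_iff y).2 hy
    rw [MonoidHom.comp_apply, h3, map_one]
  · intro h
    apply hf
    exact h

/-- a basis of a finite elementary 2-group -/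
theorem c8_basis {G : Type} [CommGroup G] (U : Subgroup G) (m : ℕ)
    (h : (sqr U).relIndex U = 2 ^ m) : ∃ u : Fin m → G, (∀ i, u i ∈ U) ∧
      (∀ x ∈ U, ∃ c : Fin m → ZMod 2, x * ∏ i, u i ^ (c i).val ∈ sqr U) ∧
      (∀ c : Fin m → ZMod 2, ∏ i, u i ^ (c i).val ∈ sqr U → c = 0) := by
  set H : Subgroup U := (sqr U).subgroupOf U with hHdef
  have hz : ∀ z : Additive (U ⧸ H), 2 • z = 0 := by
    intro z
    obtain ⟨g, hg⟩ := QuotientGroup.mk_surjective (Additive.toMul z)
    have h2 : (Additive.toMul z) ^ 2 = 1 := by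
      rw [← hg, ← QuotientGroup.mk_pow, QuotientGroup.eq_one_iff, hHdef, Subgroup.mem_subgroupOf]
      exact mem_sqr.2 ⟨g, g.2, rfl⟩
    exact h2
  let _ : Module (ZMod 2) (Additive (U ⧸ H)) := AddCommGroup.zmodModule hz
  have hcard : Nat.card (Additive (U ⧸ H)) = 2 ^ m := h
  have : Finite (Additive (U ⧸ H)) := Nat.finite_of_card_ne_zero (by rw [hcard]; positivity)
  have : Module.Finite (ZMod 2) (Additive (U ⧸ H)) := inferInstance
  have hfr : Module.finrank (ZMod 2) (Additive (U ⧸ H)) = m := by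
    have h1 := Module.natCard_eq_pow_finrank (K := ZMod 2) (V := Additive (U ⧸ H))
    rw [hcard, Nat.card_zmod] at h1
    exact (Nat.pow_right_injective le_rfl h1).symm
  set b := Module.finBasisOfFinrankEq (ZMod 2) (Additive (U ⧸ H)) hfr with hb
  choose g hg using fun i => QuotientGroup.mk_surjective (Additive.toMul (b i))
  -- the class of a product
  have hcl : ∀ c : Fin m → ZMod 2,
      Additive.ofMul (((∏ i, g i ^ (c i).val : U) : U ⧸ H)) = ∑ i, c i • b i := by
    intro c
    have h1 : (((∏ i, g i ^ (c i).val : U) : U ⧸ H)) = ∏ i, ((g i : U ⧸ H)) ^ (c i).val := by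
      exact map_prod (QuotientGroup.mk' H) (fun i => g i ^ (c i).val) Finset.univ
    rw [h1, ofMul_prod]
    refine Finset.sum_congr rfl fun i _ => ?_
    rw [hg i, ofMul_pow]
    have h2 : c i • b i = ((c i).val : ZMod 2) • b i := by rw [ZMod.natCast_zmod_val]
    rw [h2, Nat.cast_smul_eq_nsmul]
    rfl
  have hval : ∀ c : Fin m → ZMod 2,
      ((∏ i, g i ^ (c i).val : U) : G) = ∏ i, (g i : G) ^ (c i).val := by
    intro c
    simp
  refine ⟨fun i => (g i : G), fun i => (g i).2, ?_, ?_⟩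
  · intro x hx
    set y : Additive (U ⧸ H) := Additive.ofMul ((⟨x, hx⟩ : U) : U ⧸ H) with hy
    refine ⟨fun i => b.repr y i, ?_⟩
    have h1 := hcl (fun i => b.repr y i)
    rw [b.sum_repr y] at h1
    have h2 : ((((⟨x, hx⟩ : U) * (∏ i, g i ^ (b.repr y i).val) : U)) : U ⧸ H) = 1 := by
      have h3 : Additive.ofMul ((((⟨x, hx⟩ : U) * (∏ i, g i ^ (b.repr y i).val) : U)) : U ⧸ H) =
          y + y := by
        rw [QuotientGroup.mk_mul, ofMul_mul, h1]
      have h4 : y + y = 0 := by
        have := hz y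
        rwa [two_nsmul] at this
      exact h3.trans h4
    have h5 : (⟨x, hx⟩ : U) * (∏ i, g i ^ (b.repr y i).val) ∈ (sqr U).subgroupOf U :=
      (QuotientGroup.eq_one_iff _).1 h2
    rw [Subgroup.mem_subgroupOf, Subgroup.coe_mul, hval] at h5
    exact h5
  · intro c hc
    have h1 : ((∏ i, g i ^ (c i).val : U) : U ⧸ H) = 1 := by
      rw [QuotientGroup.eq_one_iff, hHdef, Subgroup.mem_subgroupOf, hval]
      exact hc
    have h2 := hcl c
    rw [h1] at h2
    have h3 : ∑ i, c i • b i = 0 := h2.symm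
    funext i
    exact Fintype.linearIndependent_iff.1 b.linearIndependent c h3 i

section pairing

variable {G : Type} [CommGroup G] {B : G → G → ZMod 2}

theorem c8_B_one (hadd : ∀ a b c, B a (b * c) = B a b + B a c) (a : G) : B a 1 = 0 := by
  have h := hadd a 1 1
  rw [mul_one] at h
  exact left_eq_add.1 h

theorem c8_B_pow (hadd : ∀ a b c, B a (b * c) = B a b + B a c) (a b : G) (n : ℕ) :
    B a (b ^ n) = n * B a b := by
  induction n with
  | zero => rw [pow_zero, c8_B_one hadd]; simp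
  | succ n ih => rw [pow_succ, hadd, ih]; push_cast; ring

theorem c8_B_val (hadd : ∀ a b c, B a (b * c) = B a b + B a c) (a b : G) (c : ZMod 2) :
    B a (b ^ c.val) = c * B a b := by
  rw [c8_B_pow hadd, ZMod.natCast_zmod_val]

theorem c8_B_prod (hadd : ∀ a b c, B a (b * c) = B a b + B a c) (a : G) {ι : Type}
    (s : Finset ι) (f : ι → G) : B a (∏ i ∈ s, f i) = ∑ i ∈ s, B a (f i) := by
  classical
  induction s using Finset.induction_on with
  | empty => rw [Finset.prod_empty, Finset.sum_empty, c8_B_one hadd]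
  | insert i s hi ih => rw [Finset.prod_insert hi, Finset.sum_insert hi, hadd, ih]

theorem c8_B_vec (hadd : ∀ a b c, B a (b * c) = B a b + B a c) (a : G) {m : ℕ}
    (u : Fin m → G) (c : Fin m → ZMod 2) :
    B a (∏ i, u i ^ (c i).val) = ∑ i, c i * B a (u i) := by
  rw [c8_B_prod hadd]
  exact Finset.sum_congr rfl fun i _ => c8_B_val hadd a (u i) (c i)

theorem c8_B_sq (hadd : ∀ a b c, B a (b * c) = B a b + B a c) (a b : G) : B a (b ^ 2) = 0 := by
  rw [pow_two, hadd, c8_two]

/-- dual vectors exist -/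
theorem c8_dual (hadd : ∀ a b c, B a (b * c) = B a b + B a c) (hsymm : ∀ a b, B a b = B b a)
    {m : ℕ} (u : Fin m → G)
    (hnd : ∀ c : Fin m → ZMod 2, (∀ y, B (∏ i, u i ^ (c i).val) y = 0) → c = 0)
    (t : Fin m → ZMod 2) : ∃ x : G, ∀ i, B (u i) x = t i := by
  let T : Submodule (ZMod 2) (Fin m → ZMod 2) :=
    { carrier := {t | ∃ x : G, ∀ i, B (u i) x = t i}
      zero_mem' := ⟨1, fun i => c8_B_one hadd (u i)⟩
      add_mem' := by
        rintro a b ⟨x, hx⟩ ⟨y, hy⟩
        exact ⟨x * y, fun i => by rw [hadd, hx, hy]; rfl⟩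
      smul_mem' := by
        rintro c a ⟨x, hx⟩
        exact ⟨x ^ c.val, fun i => by rw [c8_B_val hadd, hx]; rfl⟩ }
  have hT : T = ⊤ := by
    by_contra hcon
    obtain ⟨f, hf0, hfT⟩ := Submodule.exists_le_ker_of_lt_top T (lt_top_iff_ne_top.2 hcon)
    apply hf0
    set c : Fin m → ZMod 2 := fun i => f fun j => if i = j then 1 else 0 with hc
    have hfx : ∀ s, f s = ∑ i, s i * c i := by
      intro s
      rw [LinearMap.pi_apply_eq_sum_univ f s]
      rfl
    have hc0 : c = 0 := by
      apply hnd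
      intro y
      rw [hsymm, c8_B_vec hadd]
      have h1 : (fun i => B (u i) y) ∈ T := ⟨y, fun i => rfl⟩
      have h2 := hfT h1
      rw [LinearMap.mem_ker, hfx] at h2
      rw [← h2]
      refine Finset.sum_congr rfl fun i _ => ?_
      rw [hsymm y (u i), mul_comm]
    apply LinearMap.ext
    intro s
    rw [hfx, hc0]
    simp
  have h3 : t ∈ T := by rw [hT]; trivial
  exact h3

/-- dual vectors with prescribed products -/
theorem c8_dual' (hadd : ∀ a b c, B a (b * c) = B a b + B a c) (hsymm : ∀ a b, B a b = B b a)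
    {m : ℕ} (u : Fin m → G) (huu : ∀ i j, B (u i) (u j) = 0)
    (hnd : ∀ c : Fin m → ZMod 2, (∀ y, B (∏ i, u i ^ (c i).val) y = 0) → c = 0)
    (e : G) (l : Fin m → ZMod 2) (he : ∀ y, B e y = ∑ i, l i * B (u i) y)
    (hself : ∀ w, B w w = B w e) :
    ∃ w : Fin m → G, (∀ i j, B (u i) (w j) = if i = j then 1 else 0) ∧
      ∀ i j, B (w i) (w j) = l i * l j := by
  choose w0 hw0 using fun j => c8_dual hadd hsymm u hnd (fun i => if i = j then 1 else 0)
  set c : Fin m → Fin m → ZMod 2 := fun a i =>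
    if i < a then B (w0 i) (w0 a) + l i * l a else 0 with hc
  set w : Fin m → G := fun i => w0 i * ∏ a, u a ^ (c a i).val with hw
  have huw : ∀ i j, B (u i) (w j) = if i = j then 1 else 0 := by
    intro i j
    rw [hw]
    simp only
    rw [hadd, hw0, c8_B_vec hadd, Finset.sum_eq_zero, add_zero]
    intro a _
    rw [huu, mul_zero]
  refine ⟨w, huw, ?_⟩
  have hexp : ∀ i j, B (w i) (w j) = B (w0 i) (w0 j) + c j i + c i j := by
    intro i j
    have h1 : B (w i) (w j) = B (w i) (w0 j) + ∑ a, c a j * B (w i) (u a) := by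
      rw [hw]
      simp only
      rw [hadd, c8_B_vec hadd]
    have h2 : ∑ a, c a j * B (w i) (u a) = c i j := by
      rw [Finset.sum_eq_single i]
      · rw [hsymm, huw, if_pos rfl, mul_one]
      · intro a _ ha
        rw [hsymm, huw, if_neg ha, mul_zero]
      · intro h
        exact absurd (Finset.mem_univ i) h
    have h3 : B (w i) (w0 j) = B (w0 i) (w0 j) + c j i := by
      rw [hsymm (w i) (w0 j)]
      rw [hw]
      simp only
      rw [hadd, c8_B_vec hadd, hsymm (w0 j) (w0 i), Finset.sum_eq_single j]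
      · rw [hsymm (w0 j) (u j), hw0, if_pos rfl, mul_one]
      · intro a _ ha
        rw [hsymm (w0 j) (u a), hw0, if_neg ha, mul_zero]
      · intro h
        exact absurd (Finset.mem_univ j) h
    rw [h1, h2, h3]
  intro i j
  rcases lt_trichotomy i j with h | h | h
  · rw [hexp]
    have h1 : c j i = B (w0 i) (w0 j) + l i * l j := by rw [hc]; simp only; rw [if_pos h]
    have h2 : c i j = 0 := by rw [hc]; simp only; rw [if_neg (not_lt.2 h.le)]
    rw [h1, h2, add_zero, ← add_assoc, c8_two, zero_add]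
  · subst h
    rw [hself, hsymm, he, Finset.sum_eq_single i]
    · rw [huw, if_pos rfl, mul_one]
      have h4 : ∀ x : ZMod 2, x = x * x := by decide
      exact h4 _
    · intro a _ ha
      rw [huw, if_neg ha, mul_zero]
    · intro h
      exact absurd (Finset.mem_univ i) h
  · rw [hexp]
    have h1 : c i j = B (w0 j) (w0 i) + l j * l i := by rw [hc]; simp only; rw [if_pos h]
    have h2 : c j i = 0 := by rw [hc]; simp only; rw [if_neg (not_lt.2 h.le)]
    rw [h1, h2, add_zero, hsymm (w0 j) (w0 i), ← add_assoc, c8_two, zero_add, mul_comm]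

end pairing

/-! ### the row -/

section

variable {k : Type} [Field k] [NumberField k]

theorem c8_ord_two (P : HeightOneSpectrum (𝓞 k)) : 0 ≤ ord P (2 : k) := by
  have h : FractionalIdeal.spanSingleton (𝓞 k)⁰ (2 : k) =
      ((Ideal.span {(2 : 𝓞 k)} : Ideal (𝓞 k)) : FractionalIdeal (𝓞 k)⁰ k) := by
    rw [FractionalIdeal.coeIdeal_span_singleton]
    congr 1
  unfold ord
  rw [h]
  exact FractionalIdeal.count_coe_nonneg k P _

theorem c8_ord_two' {S : Finset (HeightOneSpectrum (𝓞 k))} (hS : Adm S)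
    {P : HeightOneSpectrum (𝓞 k)} (hP : P ∉ S) : ord P (2 : k) = 0 := by
  rcases (c8_ord_two P).lt_or_eq with h | h
  · exact absurd (hS.two P h) hP
  · exact h.symm

/-- the pairing of `S` -/
noncomputable def c8B (S : Finset (HeightOneSpectrum (𝓞 k))) (a b : kˣ) : ZMod 2 :=
  ∑ v ∈ pls S, hv v (a : k) (b : k)

theorem c8B_add (hL : LIn k) (S : Finset (HeightOneSpectrum (𝓞 k))) (a b c : kˣ) :
    c8B S a (b * c) = c8B S a b + c8B S a c := by
  unfold c8B
  rw [← Finset.sum_add_distrib]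
  exact Finset.sum_congr rfl fun v _ => hL.mulR v a b c

theorem c8B_symm (hL : LIn k) (S : Finset (HeightOneSpectrum (𝓞 k))) (a b : kˣ) :
    c8B S a b = c8B S b a :=
  Finset.sum_congr rfl fun v _ => hL.symm v a b

theorem c8B_self (hL : LIn k) (S : Finset (HeightOneSpectrum (𝓞 k))) (a : kˣ) :
    c8B S a a = c8B S a (-1) := by
  have h1 : c8B S a (-a) = 0 := by
    refine Finset.sum_eq_zero fun v _ => ?_
    refine hL.nm v a (-a) 0 1 ?_
    rw [Units.val_neg]
    ring
  have h2 : (-a : kˣ) = a * (-1) := by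
    rw [mul_neg, mul_one]
  rw [h2, c8B_add hL] at h1
  exact CharTwo.add_eq_zero.1 h1

theorem c8_LS_zero (hL : LIn k) (v : Pl k) (a z : kˣ) (hz : z ∈ LS v) :
    hv v (a : k) (z : k) = 0 := by
  rw [hL.symm]
  exact (hL.nd v z).2 ((hL.memLS v z).1 hz) a

/-- the pairing is nondegenerate on the `S`-units -/
theorem c8_nd (hL : LIn k) (hin : InSt k) {S : Finset (HeightOneSpectrum (𝓞 k))} (hS : Adm S)
    {x : kˣ} (hx : x ∈ US S) (h : ∀ y, c8B S x y = 0) : x ∈ sqr (US S) := by
  classical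
  refine hin S hS x hx (mem_KS.2 fun v hv' => (hL.memLS v x).2 ((hL.nd v x).1 fun b => ?_))
  obtain ⟨y, hy⟩ := hL.weak (pls S) (fun w => if w = v then b else 1)
  have h1 := h y
  have hv1 : hv v (x : k) (y : k) = hv v (x : k) (b : k) := by
    have h2 : y / b ∈ LS v := by simpa using hy v hv'
    have h3 : y = b * (y / b) := by rw [mul_div_cancel]
    rw [h3, hL.mulR, c8_LS_zero hL v x _ h2, add_zero]
  have hv2 : ∀ w ∈ pls S, w ≠ v → hv w (x : k) (y : k) = 0 := by
    intro w hw hne
    have h2 := hy w hw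
    simp only [if_neg hne, div_one] at h2
    exact c8_LS_zero hL w x y h2
  unfold c8B at h1
  rw [Finset.sum_eq_single v hv2 (fun h => absurd hv' h), hv1] at h1
  exact h1

/-- the pairing of an `S`-unit with the generator of a prime outside `S` -/
theorem c8_gen (hL : LIn k) (hr : RecSt k) {S : Finset (HeightOneSpectrum (𝓞 k))} (hS : Adm S)
    {P : HeightOneSpectrum (𝓞 k)} (hP : P ∉ S) {x : kˣ} (hx : x ∈ US S) :
    c8B S x (gen S P) = qr (x : k) P := by
  classical
  obtain ⟨hg1, hg2⟩ := gen_spec hS.prS hP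
  have hsub : S ⊆ insert P S := Finset.subset_insert P S
  have hx' : x ∈ US (insert P S) := US_mono hsub hx
  have hg' : gen S P ∈ US (insert P S) := by
    refine mem_US.2 fun Q hQ => ?_
    rw [Finset.mem_insert, not_or] at hQ
    exact hg2 Q hQ.2 hQ.1
  have h1 := hr (insert P S) (fun Q hQ => hsub (hS.two Q hQ)) x hx' (gen S P) hg'
  have hpl : pls (insert P S) = insert (Sum.inl P : Pl k) (pls S) := by
    ext v
    rcases v with Q | φ
    · rw [inl_mem_pls, Finset.mem_insert, Finset.mem_insert, inl_mem_pls, Sum.inl.injEq]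
    · rw [Finset.mem_insert]
      exact ⟨fun _ => Or.inr (inr_mem_pls S φ), fun _ => inr_mem_pls _ φ⟩
  have hnot : (Sum.inl P : Pl k) ∉ pls S := fun h => hP (inl_mem_pls.1 h)
  rw [hpl, Finset.sum_insert hnot] at h1
  have h2 : hv (Sum.inl P : Pl k) (x : k) (gen S P : k) = qr (x : k) P := by
    show hs P (x : k) (gen S P : k) = _
    rw [hL.unt P (c8_ord_two' hS hP) x (gen S P) (mem_US.1 hx P hP), hg1]
    simp
  rw [h2] at h1
  exact (CharTwo.add_eq_zero.1 h1).symm

end

theorem fr_of (k : Type) [Field k] [NumberField k] (hL : LIn k) (h1 : C1St k) (h2 : C2St k)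
    (hi : CISt k) (hr : RecSt k) (hin : InSt k) (hd : DuSt k) : FrSt k := by
  classical
  intro S hS
  obtain ⟨u, hu, hgen, hind⟩ := c8_basis (US S) (mS S) (h2 S)
  have hadd := c8B_add hL S
  have hsymm := c8B_symm hL S
  have hUU : ∀ x ∈ US S, ∀ y ∈ US S, c8B S x y = 0 := fun x hx y hy => hr S hS.two x hx y hy
  have hprod : ∀ c : Fin (mS S) → ZMod 2, ∏ i, u i ^ (c i).val ∈ US S :=
    fun c => Subgroup.prod_mem _ fun i _ => pow_mem (hu i) _
  have hnd : ∀ c : Fin (mS S) → ZMod 2, (∀ y, c8B S (∏ i, u i ^ (c i).val) y = 0) → c = 0 :=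
    fun c hc => hind c (c8_nd hL hin hS (hprod c) hc)
  -- the expansion of the pairing with a unit
  have hexp : ∀ (x : kˣ) (c : Fin (mS S) → ZMod 2), x * ∏ i, u i ^ (c i).val ∈ sqr (US S) →
      ∀ y, c8B S x y = ∑ i, c i * c8B S (u i) y := by
    intro x c hc y
    obtain ⟨b, _, hb⟩ := mem_sqr.1 hc
    have h3 : c8B S y (x * ∏ i, u i ^ (c i).val) = 0 := by
      rw [← hb]
      exact c8_B_sq hadd y b
    rw [hadd, c8_B_vec hadd] at h3
    rw [hsymm x y, CharTwo.add_eq_zero.1 h3]
    exact Finset.sum_congr rfl fun i _ => by rw [hsymm y (u i)]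
  obtain ⟨l, hl⟩ := hgen (-1) (neg_one_mem_US S)
  obtain ⟨w, huw, hww⟩ := c8_dual' hadd hsymm u (fun i j => hUU _ (hu i) _ (hu j)) hnd (-1) l
    (hexp (-1) l hl) (c8B_self hL S)
  -- the generators
  have hpi : ∀ P : {P : HeightOneSpectrum (𝓞 k) // P ∉ S}, ∃ p : kˣ, ord P.1 (p : k) = 1 ∧
      (∀ Q : HeightOneSpectrum (𝓞 k), Q ∉ S → Q ≠ P.1 → ord Q (p : k) = 0) ∧
      ∀ v ∈ pls S, p / ∏ j, w j ^ (qr (u j : k) P.1).val ∈ LS v := by
    rintro ⟨P, hP⟩
    simp only
    obtain ⟨hg1, hg2⟩ := gen_spec hS.prS hP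
    set x : kˣ := gen S P / ∏ j, w j ^ (qr (u j : k) P).val with hx
    have hBx : ∀ i, c8B S (u i) x = 0 := by
      intro i
      have h3 : gen S P = x * ∏ j, w j ^ (qr (u j : k) P).val := by
        rw [hx, div_mul_cancel]
      have h4 := c8_gen hL hr hS hP (hu i)
      rw [h3, hadd, c8_B_vec hadd, Finset.sum_eq_single i] at h4
      · rw [huw, if_pos rfl, mul_one] at h4
        exact add_eq_right.1 h4
      · intro j _ hj
        rw [huw, if_neg (Ne.symm hj), mul_zero]
      · intro h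
        exact absurd (Finset.mem_univ i) h
    have hmem : x ∈ US S ⊔ KS S := by
      by_contra hcon
      obtain ⟨ψ, hψ, hψx⟩ := c8_sep (US S ⊔ KS S)
        (fun y => Subgroup.mem_sup_right (sq_mem_KS S y)) x hcon
      obtain ⟨a, ha, hψa⟩ := hd S hS ψ ⟨fun y hy => hψ y (Subgroup.mem_sup_left hy),
        fun y hy => hψ y (Subgroup.mem_sup_right hy)⟩
      apply hψx
      obtain ⟨c, hc⟩ := hgen a ha
      have h3 : val2 ψ x = 0 := by
        rw [hψa x]
        have h4 := hexp a c hc x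
        rw [Finset.sum_eq_zero (fun i _ => by rw [hBx i, mul_zero])] at h4
        exact h4
      exact h3
    obtain ⟨a, ha, b, hb, hab⟩ := Subgroup.mem_sup.1 hmem
    refine ⟨gen S P * a⁻¹, ?_, ?_, ?_⟩
    · rw [Units.val_mul, ord_mul P (Units.ne_zero _) (Units.ne_zero _), hg1,
        Units.val_inv_eq_inv_val, ord_inv, mem_US.1 ha P hP]
      simp
    · intro Q hQ hne
      rw [Units.val_mul, ord_mul Q (Units.ne_zero _) (Units.ne_zero _), hg2 Q hQ hne,
        Units.val_inv_eq_inv_val, ord_inv, mem_US.1 ha Q hQ]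
      simp
    · intro v hv'
      have h5 : gen S P * a⁻¹ / ∏ j, w j ^ (qr (u j : k) P).val = b := by
        rw [mul_comm, mul_div_assoc, ← hx, ← hab, inv_mul_cancel_left]
      rw [h5]
      exact mem_KS.1 hb v hv'
  choose p hp1 hp2 hp3 using hpi
  exact ⟨{
    u := u
    w := w
    l := l
    ppi := p
    u_mem := hu
    u_gen := hgen
    u_ind := by
      intro c hc
      obtain ⟨r, hr'⟩ := hc
      exact hind c (mem_sqr_US (hprod c) (by rw [hr', pow_two]))
    neg_one := hl
    uw := huw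
    ww := hww
    ord_self := hp1
    ord_other := hp2
    loc := hp3 }⟩

end Pool.Agent.H98.MF.B
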