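import Pool.Agent.H98.MF.C.Stm
import Pool.Agent.H98.MF.C.Bas

/-!
# Project MK4, block C: the index of the local squares at the places of `S`
-/

set_option autoImplicit false

open scoped BigOperators Pointwise nonZeroDivisors
open NumberField IsDedekindDomain

namespace Pool.Agent.H98.MF.B

/-- weak approximation gives the index of a finite intersection -/
theorem ci_index_iInf {G ι : Type} [CommGroup G] (T : Finset ι) (H : ι → Subgroup G)
    (happ : ∀ c : ι → G, ∃ x : G, ∀ v ∈ T, x / c v ∈ H v) :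
    (⨅ v ∈ T, H v).index = ∏ v ∈ T, (H v).index := by
  classical
  let f : G →* (∀ v : T, G ⧸ H v) := MonoidHom.pi fun v : T => QuotientGroup.mk' (H v)
  have hker : f.ker = ⨅ v ∈ T, H v := by
    ext x
    rw [MonoidHom.mem_ker, Subgroup.mem_iInf]
    constructor
    · intro h v
      rw [Subgroup.mem_iInf]
      intro hv
      have h1 := congrFun h ⟨v, hv⟩
      exact (QuotientGroup.eq_one_iff x).1 h1
    · intro h
      funext v
      have h1 := h v.1
      rw [Subgroup.mem_iInf] at h1
      exact (QuotientGroup.eq_one_iff x).2 (h1 v.2)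
  have hsurj : Function.Surjective f := by
    intro y
    have hc : ∀ v : T, ∃ g : G, QuotientGroup.mk' (H v) g = y v :=
      fun v => QuotientGroup.mk'_surjective _ _
    choose c hc using hc
    obtain ⟨x, hx⟩ := happ (fun v => if h : v ∈ T then c ⟨v, h⟩ else 1)
    refine ⟨x, ?_⟩
    funext v
    have h1 := hx v.1 v.2
    rw [dif_pos v.2] at h1
    rw [← hc v]
    show QuotientGroup.mk' (H v) x = QuotientGroup.mk' (H v) (c ⟨v.1, v.2⟩)
    rw [← div_eq_one, ← map_div, QuotientGroup.mk'_apply]
    exact (QuotientGroup.eq_one_iff _).2 h1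
  rw [← hker, Subgroup.index_ker, MonoidHom.range_eq_top.2 hsurj]
  rw [Nat.card_congr (Subgroup.topEquiv (G := ∀ v : T, G ⧸ H v)).toEquiv, Nat.card_pi]
  rw [← Finset.prod_coe_sort T (fun v => (H v).index)]
  rfl

section

variable {k : Type} [Field k] [NumberField k]

/-- the exponent of a nonzero algebraic integer -/
theorem ci_ord_eq (P : HeightOneSpectrum (𝓞 k)) (x : 𝓞 k) (hx : x ≠ 0) :
    ord P (x : k) = (Associates.mk P.asIdeal).count
      (Associates.mk (Ideal.span {x})).factors := by
  unfold ord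
  rw [← FractionalIdeal.count_coe k P (by rwa [Ne, Ideal.zero_eq_bot, Ideal.span_singleton_eq_bot]),
    FractionalIdeal.coeIdeal_span_singleton]

/-- the product formula for `2` -/
theorem ci_prod_two (S : Finset (HeightOneSpectrum (𝓞 k)))
    (hS : ∀ P : HeightOneSpectrum (𝓞 k), 0 < ord P (2 : k) → P ∈ S) :
    ∏ P ∈ S, nrm P ^ (ord P (2 : k)).toNat = 2 ^ Module.finrank ℚ k := by
  classical
  have h2 : (2 : 𝓞 k) ≠ 0 := two_ne_zero
  have hspan : (Ideal.span {(2 : 𝓞 k)}) ≠ 0 := by
    rwa [Ne, Ideal.zero_eq_bot, Ideal.span_singleton_eq_bot]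
  have hord : ∀ P : HeightOneSpectrum (𝓞 k), ord P (2 : k) = (Associates.mk P.asIdeal).count
      (Associates.mk (Ideal.span {(2 : 𝓞 k)})).factors := fun P => by
    rw [← ci_ord_eq P 2 h2]
    congr 1
  have h1 := Ideal.finprod_heightOneSpectrum_factorization hspan
  have h3 : Ideal.absNorm (Ideal.span {(2 : 𝓞 k)}) = 2 ^ Module.finrank ℚ k := by
    rw [Ideal.absNorm_span_singleton]
    have : (2 : 𝓞 k) = algebraMap ℤ (𝓞 k) 2 := by simp
    rw [this, Algebra.norm_algebraMap, Int.natAbs_pow]
    congr 1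
    exact RingOfIntegers.rank k
  have h4 : ∏ᶠ v : HeightOneSpectrum (𝓞 k), v.maxPowDividing (Ideal.span {(2 : 𝓞 k)}) =
      ∏ P ∈ S, P.maxPowDividing (Ideal.span {(2 : 𝓞 k)}) := by
    apply finprod_eq_prod_of_mulSupport_subset
    intro P hP
    rw [Function.mem_mulSupport] at hP
    apply hS
    rw [hord]
    by_contra hcon
    apply hP
    have : (Associates.mk P.asIdeal).count
      (Associates.mk (Ideal.span {(2 : 𝓞 k)})).factors = 0 := by omega
    rw [HeightOneSpectrum.maxPowDividing, this, pow_zero]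
  rw [← h3]
  conv_rhs => rw [← h1, h4, map_prod]
  refine Finset.prod_congr rfl fun P _ => ?_
  rw [HeightOneSpectrum.maxPowDividing, map_pow, nrm, hord, Int.toNat_natCast]

/-- the number of real embeddings -/
theorem ci_card_real (k : Type) [Field k] [NumberField k] :
    (Finset.univ : Finset (k →+* ℝ)).card = InfinitePlace.nrRealPlaces k := by
  classical
  rw [Finset.card_univ, ← InfinitePlace.card_real_embeddings]
  refine Fintype.card_congr (Equiv.ofBijective
    (fun φ : k →+* ℝ => (⟨Complex.ofRealHom.comp φ, ?_⟩ :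
      {φ : k →+* ℂ // ComplexEmbedding.IsReal φ})) ⟨?_, ?_⟩)
  · rw [ComplexEmbedding.isReal_iff]
    ext x
    simp [ComplexEmbedding.conjugate]
  · intro φ ψ h
    ext x
    have h1 := congrArg (fun t : {φ : k →+* ℂ // ComplexEmbedding.IsReal φ} => t.1 x) h
    simpa using h1
  · rintro ⟨φ, hφ⟩
    refine ⟨hφ.embedding, Subtype.ext ?_⟩
    ext x
    simp

/-- the index of the elements that are squares at the places of `S` -/
theorem ci (k : Type) [Field k] [NumberField k] (hL : LIn k) : CISt k := by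
  classical
  intro S hS
  unfold KS
  rw [ci_index_iInf (pls S) (fun v : Pl k => LS v) (hL.weak (pls S))]
  unfold pls
  rw [Finset.prod_disjSum]
  simp only [hL.idxP, hL.idxR]
  rw [Finset.prod_mul_distrib, Finset.prod_const, Finset.prod_const, ci_prod_two S hS.two,
    ci_card_real, ← InfinitePlace.card_add_two_mul_card_eq_rank k]
  unfold mS
  have : (4 : ℕ) = 2 ^ 2 := by norm_num
  rw [this, ← pow_mul, ← pow_add, ← pow_add]
  congr 1
  ring

/-- the pairing with `a` at `v` as a homomorphism -/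
noncomputable def ci_hom (hL : LIn k) (v : Pl k) (a : kˣ) : kˣ →* Multiplicative (ZMod 2) where
  toFun b := Multiplicative.ofAdd (hv v (a : k) (b : k))
  map_one' := by
    have h := hL.mulR v a 1 1
    rw [mul_one] at h
    have h1 : hv v (a : k) ((1 : kˣ) : k) = 0 := by
      have := left_eq_add.1 h
      exact this
    rw [h1]
    rfl
  map_mul' b c := by
    rw [hL.mulR]
    rfl

theorem ci_hom_apply (hL : LIn k) (v : Pl k) (a b : kˣ) :
    ci_hom hL v a b = Multiplicative.ofAdd (hv v (a : k) (b : k)) := rfl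

theorem ci_mem_ker (hL : LIn k) (v : Pl k) (a b : kˣ) :
    b ∈ (ci_hom hL v a).ker ↔ hv v (a : k) (b : k) = 0 := by
  rw [MonoidHom.mem_ker, ci_hom_apply]
  exact ofAdd_eq_one

theorem ci_LS_le (hL : LIn k) (v : Pl k) (a : kˣ) : LS v ≤ (ci_hom hL v a).ker := by
  intro b hb
  rw [ci_mem_ker, hL.symm]
  exact (hL.nd v b).2 ((hL.memLS v b).1 hb) a

open Classical in
theorem ci_index_ker (hL : LIn k) (v : Pl k) (a : kˣ) :
    (ci_hom hL v a).ker.index = if LocP v (a : k) then 1 else 2 := by
  split_ifs with h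
  · rw [Subgroup.index_eq_one, eq_top_iff]
    intro b _
    rw [ci_mem_ker]
    exact (hL.nd v a).2 h b
  · rw [Subgroup.index_ker]
    have h1 : ∃ b : kˣ, hv v (a : k) (b : k) ≠ 0 := by
      by_contra hcon
      refine h ((hL.nd v a).1 fun b => ?_)
      by_contra hb
      exact hcon ⟨b, hb⟩
    obtain ⟨b, hb⟩ := h1
    have h2 : (ci_hom hL v a).range = ⊤ := by
      rw [MonoidHom.range_eq_top]
      intro y
      have hz : ∀ z w : ZMod 2, w ≠ 0 → z = 0 ∨ z = w := by decide
      rcases hz (Multiplicative.toAdd y) (hv v (a : k) (b : k)) hb with h0 | h0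
      · refine ⟨1, ?_⟩
        rw [map_one]
        exact (toAdd_eq_zero.1 h0).symm
      · refine ⟨b, ?_⟩
        rw [ci_hom_apply, ← h0]
        rfl
    rw [h2, Nat.card_congr (Subgroup.topEquiv (G := Multiplicative (ZMod 2))).toEquiv,
      Nat.card_eq_fintype_card]
    rfl

theorem ci_mem_NS (hL : LIn k) (S : Finset (HeightOneSpectrum (𝓞 k))) (a : kˣ) :
    NS S a = ⨅ v ∈ pls S, (ci_hom hL v a).ker := by
  have h : ({b : kˣ | ∀ v ∈ pls S, hv v (a : k) (b : k) = 0} : Set kˣ) =
      ((⨅ v ∈ pls S, (ci_hom hL v a).ker : Subgroup kˣ) : Set kˣ) := by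
    ext b
    simp only [Set.mem_ofPred_eq, SetLike.mem_coe, Subgroup.mem_iInf, ci_mem_ker]
  unfold NS
  rw [h, Subgroup.closure_eq]

/-- the index of the elements pairing to zero with `a` at the places of `S` -/
theorem ns_index (hL : LIn k) (S : Finset (HeightOneSpectrum (𝓞 k))) (a : kˣ) :
    (NS S a).index = 2 ^ sS S a := by
  classical
  rw [ci_mem_NS hL, ci_index_iInf (pls S) (fun v : Pl k => (ci_hom hL v a).ker) ?_]
  · simp only [ci_index_ker]
    unfold sS
    rw [Finset.prod_ite, Finset.prod_const_one, one_mul, Finset.prod_const]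
  · intro c
    obtain ⟨x, hx⟩ := hL.weak (pls S) c
    exact ⟨x, fun v hv => ci_LS_le hL v a (hx v hv)⟩

end

end Pool.Agent.H98.MF.B
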