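import Pool.Agent.H98.MF.C.StmL
import Pool.Agent.H98.MF.C.Val

/-!
# Project MK4, block C, row G2: prime elements in given classes
-/

set_option autoImplicit false

open scoped BigOperators Pointwise
open NumberField IsDedekindDomain

namespace Pool.Agent.H98.MF.B

theorem g2_z2_cases (x : Multiplicative (ZMod 2)) :
    x = 1 ∨ x = Multiplicative.ofAdd 1 := by
  revert x
  decide

theorem g2_z2_sq (x : Multiplicative (ZMod 2)) : x ^ 2 = 1 := by
  revert x
  decide

/-- the sign character -/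
noncomputable def g2sg : Multiplicative (ZMod 2) →* ℝ where
  toFun x := if x = 1 then 1 else -1
  map_one' := by simp
  map_mul' x y := by
    have h1 : (Multiplicative.ofAdd 1 : Multiplicative (ZMod 2)) ≠ 1 := by decide
    have h2 : (Multiplicative.ofAdd 1 * Multiplicative.ofAdd 1 : Multiplicative (ZMod 2)) = 1 := by
      decide
    rcases g2_z2_cases x with rfl | rfl <;> rcases g2_z2_cases y with rfl | rfl <;>
      simp [h1, h2]

theorem g2sg_apply (x : Multiplicative (ZMod 2)) : g2sg x = if x = 1 then 1 else -1 := rfl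

theorem g2sg_abs (x : Multiplicative (ZMod 2)) : |g2sg x| = 1 := by
  rw [g2sg_apply]
  split_ifs <;> simp

/-- the sum of a nontrivial sign character -/
theorem g2_sum_zero {G : Type} [Group G] [Fintype G] (f : G →* Multiplicative (ZMod 2))
    (hf : f ≠ 1) : ∑ g : G, g2sg (f g) = 0 := by
  refine sum_hom_units_eq_zero (g2sg.comp f) fun h => hf ?_
  ext g
  have h1 : g2sg (f g) = 1 := DFunLike.congr_fun h g
  rw [g2sg_apply] at h1
  by_contra hne
  have hne' : f g ≠ 1 := fun h2 => hne (by rw [h2]; rfl)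
  rw [if_neg hne'] at h1
  norm_num at h1

/-- a functional separating an element from a subgroup that contains the squares -/
theorem g2_separate {G : Type} [CommGroup G] (H : Subgroup G) (hH : ∀ x : G, x ^ 2 ∈ H) (x : G)
    (hx : x ∉ H) :
    ∃ ψ : G →* Multiplicative (ZMod 2), (∀ a ∈ H, ψ a = 1) ∧ ψ x ≠ 1 := by
  have h2 : ∀ v : Additive (G ⧸ H), 2 • v = 0 := by
    intro v
    obtain ⟨g, hg⟩ := QuotientGroup.mk_surjective (s := H) v.toMul
    have h3 : v = Additive.ofMul (QuotientGroup.mk g : G ⧸ H) := by rw [hg]; rfl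
    rw [h3, ← ofMul_pow, ← QuotientGroup.mk_pow, (QuotientGroup.eq_one_iff _).2 (hH g)]
    rfl
  let _ : Module (ZMod 2) (Additive (G ⧸ H)) := AddCommGroup.zmodModule h2
  have hv : (Additive.ofMul (QuotientGroup.mk x : G ⧸ H)) ≠ 0 := by
    intro h
    exact hx ((QuotientGroup.eq_one_iff _).1 h)
  have h4 := (Module.forall_dual_apply_eq_zero_iff (ZMod 2)
    (Additive.ofMul (QuotientGroup.mk x : G ⧸ H))).not.2 hv
  push Not at h4
  obtain ⟨φ, hφ⟩ := h4
  refine ⟨MonoidHom.mk' (fun g => Multiplicative.ofAdd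
    (φ (Additive.ofMul (QuotientGroup.mk g : G ⧸ H)))) fun a b => ?_, fun a ha => ?_, ?_⟩
  · rw [QuotientGroup.mk_mul, ofMul_mul, map_add, ofAdd_add]
  · show Multiplicative.ofAdd (φ (Additive.ofMul (QuotientGroup.mk a : G ⧸ H))) = 1
    rw [(QuotientGroup.eq_one_iff _).2 ha, ofMul_one, map_zero]
    rfl
  · intro h
    exact hφ (Multiplicative.ofAdd.injective h)

section

variable {k : Type} [Field k] [NumberField k]

theorem g2_ord_two {S : Finset (HeightOneSpectrum (𝓞 k))} (hS : Adm S)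
    {Q : HeightOneSpectrum (𝓞 k)} (hQ : Q ∉ S) : ord Q (2 : k) = 0 := by
  have h1 : 0 ≤ ord Q (2 : k) := by
    have := ord_alg_nonneg (k := k) Q 2
    rwa [map_ofNat] at this
  rcases h1.eq_or_lt with h | h
  · exact h.symm
  · exact absurd (hS.two Q h) hQ

/-- the sum of the symbols as a homomorphism in the first variable -/
noncomputable def g2pair (hL : LIn k) (T : Finset (Pl k)) (γ : kˣ) :
    kˣ →* Multiplicative (ZMod 2) :=
  MonoidHom.mk' (fun a => Multiplicative.ofAdd (∑ v ∈ T, hv v (a : k) (γ : k))) fun a b => by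
    rw [← ofAdd_add, ← Finset.sum_add_distrib]
    congr 1
    refine Finset.sum_congr rfl fun v _ => ?_
    rw [hL.symm v (a * b) γ, hL.mulR, hL.symm v γ a, hL.symm v γ b]

theorem g2pair_apply (hL : LIn k) (T : Finset (Pl k)) (γ a : kˣ) :
    g2pair hL T γ a = Multiplicative.ofAdd (∑ v ∈ T, hv v (a : k) (γ : k)) := rfl

theorem g2_one_le_nrm (Q : HeightOneSpectrum (𝓞 k)) : (1 : ℝ) ≤ nrm Q := by
  have h : nrm Q ≠ 0 := by
    unfold nrm
    rw [Ne, Ideal.absNorm_eq_zero_iff]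
    exact Q.ne_bot
  exact_mod_cast Nat.one_le_iff_ne_zero.2 h

theorem g2_wt_pos (Q : HeightOneSpectrum (𝓞 k)) (s : ℝ) : 0 < (nrm Q : ℝ) ^ (-s) :=
  Real.rpow_pos_of_pos (lt_of_lt_of_le one_pos (g2_one_le_nrm Q)) _

theorem g2_wt_le (Q : HeightOneSpectrum (𝓞 k)) {s : ℝ} (hs : 0 ≤ s) :
    (nrm Q : ℝ) ^ (-s) ≤ 1 :=
  Real.rpow_le_one_of_one_le_of_nonpos (g2_one_le_nrm Q) (by linarith)

open Classical in
/-- the quadratic character as a sign -/
noncomputable def g2f (a : k) (Q : HeightOneSpectrum (𝓞 k)) : ℝ := if LocSq Q a then 1 else -1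

theorem g2f_abs (a : k) (Q : HeightOneSpectrum (𝓞 k)) : |g2f a Q| = 1 := by
  unfold g2f
  split_ifs <;> simp

theorem g2f_eq (a : k) (Q : HeightOneSpectrum (𝓞 k)) :
    g2f a Q = g2sg (Multiplicative.ofAdd (qr a Q)) := by
  unfold g2f qr
  rw [g2sg_apply]
  split_ifs with h1 h2 h2
  · rfl
  · exact absurd rfl h2
  · exact absurd (Multiplicative.ofAdd.injective (a₂ := (0 : ZMod 2)) h2) (by decide)
  · rfl

theorem g2_summ (hN : NIn k) {s : ℝ} (hs : 1 < s) (c : HeightOneSpectrum (𝓞 k) → ℝ) (B : ℝ)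
    (hc : ∀ Q, |c Q| ≤ B) :
    Summable fun Q : HeightOneSpectrum (𝓞 k) => c Q * (nrm Q : ℝ) ^ (-s) := by
  refine Summable.of_norm_bounded ((hN.sm s hs).mul_left B) fun Q => ?_
  rw [Real.norm_eq_abs, abs_mul, abs_of_pos (g2_wt_pos Q s)]
  exact mul_le_mul_of_nonneg_right (hc Q) (g2_wt_pos Q s).le

/-- the character sum of a nonsquare is bounded -/
theorem g2_char_bound (hN : NIn k) (a : kˣ) (ha : ¬ IsSquare a) :
    ∃ K : ℝ, ∀ s : ℝ, 1 < s → s ≤ 2 →
      |∑' Q : HeightOneSpectrum (𝓞 k), g2f (a : k) Q * (nrm Q : ℝ) ^ (-s)| ≤ K := by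
  classical
  obtain ⟨K1, hK1⟩ := hN.n4
  obtain ⟨K2, hK2⟩ := hN.n4a a ha
  refine ⟨2 * K2 + K1, fun s hs hs2 => ?_⟩
  have h1 := hK1 s hs hs2
  have h2 := hK2 s hs hs2
  have e1 : ∑' Q : {Q : HeightOneSpectrum (𝓞 k) // LocSq Q (a : k)}, (nrm Q.1 : ℝ) ^ (-s) =
      ∑' Q : HeightOneSpectrum (𝓞 k),
        (if LocSq Q (a : k) then (1 : ℝ) else 0) * (nrm Q : ℝ) ^ (-s) := by
    have := tsum_subtype {Q : HeightOneSpectrum (𝓞 k) | LocSq Q (a : k)}
      (fun Q => (nrm Q : ℝ) ^ (-s))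
    refine this.trans (tsum_congr fun Q => ?_)
    rw [Set.indicator_apply]
    by_cases h : LocSq Q (a : k)
    · simp [h]
    · simp [h]
  have s1 := g2_summ hN hs (fun Q => if LocSq Q (a : k) then (1 : ℝ) else 0) 1
    (fun Q => by split_ifs <;> simp)
  have s2 := hN.sm s hs
  have e2 : ∑' Q : HeightOneSpectrum (𝓞 k), g2f (a : k) Q * (nrm Q : ℝ) ^ (-s) =
      2 * ∑' Q : HeightOneSpectrum (𝓞 k),
        (if LocSq Q (a : k) then (1 : ℝ) else 0) * (nrm Q : ℝ) ^ (-s) -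
      ∑' Q : HeightOneSpectrum (𝓞 k), (nrm Q : ℝ) ^ (-s) := by
    rw [← tsum_mul_left, ← (s1.mul_left 2).tsum_sub s2]
    refine tsum_congr fun Q => ?_
    unfold g2f
    split_ifs <;> ring
  rw [e2, ← e1]
  rw [abs_le] at h1 h2 ⊢
  constructor <;> linarith [h1.1, h1.2, h2.1, h2.2]

theorem g2_exists_prime (hL : LIn k) (hN : NIn k) (h2 : C2St k)
    {S : Finset (HeightOneSpectrum (𝓞 k))} (hS : Adm S) (γ : kˣ) :
    ∃ Q : HeightOneSpectrum (𝓞 k), Q ∉ S ∧ ∀ u ∈ US S,
      qr (u : k) Q = ∑ v ∈ pls S, hv v (u : k) (γ : k) := by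
  classical
  by_contra hcon
  push Not at hcon
  -- the finite group
  let A := US S
  let N : Subgroup A := (sqr (US S)).subgroupOf (US S)
  have hcard : Nat.card (A ⧸ N) ≠ 0 := by
    have h3 : Nat.card (A ⧸ N) = 2 ^ mS S := h2 S
    rw [h3]
    positivity
  have _ : Finite (A ⧸ N) := Nat.finite_of_card_ne_zero hcard
  let _ : Fintype (A ⧸ N) := Fintype.ofFinite _
  -- homomorphisms on A descend
  have hker : ∀ f : kˣ →* Multiplicative (ZMod 2), N ≤ (f.comp A.subtype).ker := by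
    intro f a ha
    obtain ⟨b, _, hb⟩ := mem_sqr.1 (Subgroup.mem_subgroupOf.1 ha)
    rw [MonoidHom.mem_ker, MonoidHom.comp_apply, Subgroup.coe_subtype, ← hb, map_pow, g2_z2_sq]
  let bar : (kˣ →* Multiplicative (ZMod 2)) → ((A ⧸ N) →* Multiplicative (ZMod 2)) :=
    fun f => QuotientGroup.lift N (f.comp A.subtype) (hker f)
  have hbar : ∀ (f : kˣ →* Multiplicative (ZMod 2)) (g : A ⧸ N), bar f g = f (g.out : A) := by
    intro f g
    have h4 : bar f (QuotientGroup.mk g.out) = f (g.out : A) := rfl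
    rwa [QuotientGroup.out_eq'] at h4
  let ε : kˣ →* Multiplicative (ZMod 2) := g2pair hL (pls S) γ
  let η : HeightOneSpectrum (𝓞 k) → kˣ →* Multiplicative (ZMod 2) :=
    fun Q => g2pair hL {Sum.inl Q} (gen S Q)
  have hη : ∀ Q, Q ∉ S → ∀ u ∈ US S, η Q u = Multiplicative.ofAdd (qr (u : k) Q) := by
    intro Q hQ u hu
    have h5 : η Q u = Multiplicative.ofAdd (hs Q (u : k) (gen S Q : k)) := by
      show g2pair hL {Sum.inl Q} (gen S Q) u = _
      rw [g2pair_apply, Finset.sum_singleton]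
      rfl
    rw [h5, hL.unt Q (g2_ord_two hS hQ) u (gen S Q) (mem_US.1 hu Q hQ), (gen_spec hS.prS hQ).1]
    simp
  -- orthogonality
  have horth : ∀ Q, Q ∉ S → ∑ g : A ⧸ N,
      g2sg (bar ε g) * g2f (((g.out : A) : kˣ) : k) Q = 0 := by
    intro Q hQ
    obtain ⟨u, hu, hne⟩ := hcon Q hQ
    have h6 : bar (ε * η Q) ≠ 1 := by
      intro h
      have h7 : bar (ε * η Q) (QuotientGroup.mk ⟨u, hu⟩) = 1 := by rw [h]; rfl
      have h8 : bar (ε * η Q) (QuotientGroup.mk ⟨u, hu⟩) = ε u * η Q u := rfl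
      rw [h8, hη Q hQ u hu] at h7
      have h9 : (∑ v ∈ pls S, hv v (u : k) (γ : k)) + qr (u : k) Q = 0 := by
        have : ε u = Multiplicative.ofAdd (∑ v ∈ pls S, hv v (u : k) (γ : k)) := rfl
        rw [this, ← ofAdd_add] at h7
        exact Multiplicative.ofAdd.injective h7
      apply hne
      rw [add_comm] at h9
      exact CharTwo.add_eq_zero.1 h9
    have h10 := g2_sum_zero (bar (ε * η Q)) h6
    rw [← h10]
    refine Finset.sum_congr rfl fun g _ => ?_
    rw [hbar, hbar, g2f_eq, ← hη Q hQ _ (g.out : A).2, ← map_mul]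
    rfl
  -- the bounds
  have hbound : ∀ g : A ⧸ N, ∃ K : ℝ, g ≠ 1 → ∀ s : ℝ, 1 < s → s ≤ 2 →
      |∑' Q : HeightOneSpectrum (𝓞 k),
        g2f (((g.out : A) : kˣ) : k) Q * (nrm Q : ℝ) ^ (-s)| ≤ K := by
    intro g
    by_cases hg : g = 1
    · exact ⟨0, fun h => absurd hg h⟩
    · have hns : ¬ IsSquare ((g.out : A) : kˣ) := by
        rintro ⟨b, hb⟩
        apply hg
        have h11 : ((g.out : A) : kˣ) ∈ sqr (US S) := mem_sqr_US (g.out : A).2
          (by rw [pow_two]; exact hb.symm)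
        have h12 : (QuotientGroup.mk g.out : A ⧸ N) = 1 :=
          (QuotientGroup.eq_one_iff _).2 (Subgroup.mem_subgroupOf.2 h11)
        rwa [QuotientGroup.out_eq'] at h12
      obtain ⟨K, hK⟩ := g2_char_bound hN _ hns
      exact ⟨K, fun _ => hK⟩
  choose K hK using hbound
  obtain ⟨K0, hK0⟩ := hN.n4
  have hK0' : 0 ≤ K0 := le_trans (abs_nonneg _) (hK0 2 (by norm_num) le_rfl)
  have hKpos : ∀ g : A ⧸ N, g ≠ 1 → 0 ≤ K g := fun g hg =>
    le_trans (abs_nonneg _) (hK g hg 2 (by norm_num) le_rfl)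
  set n : ℝ := (Fintype.card (A ⧸ N) : ℝ) with hn
  have hn0 : 0 ≤ n := Nat.cast_nonneg _
  set B : ℝ := K0 + ∑ g ∈ (Finset.univ : Finset (A ⧸ N)).erase 1, K g + S.card * n with hB
  have hB0 : 0 ≤ B := by
    have h13 : 0 ≤ ∑ g ∈ (Finset.univ : Finset (A ⧸ N)).erase 1, K g :=
      Finset.sum_nonneg fun g hg => hKpos g (Finset.ne_of_mem_erase hg)
    positivity
  have hmain : ∀ s : ℝ, 1 < s → s ≤ 2 → Real.log (1 / (s - 1)) ≤ B := by
    intro s hs hs2
    let F : A ⧸ N → ℝ := fun g => ∑' Q : HeightOneSpectrum (𝓞 k),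
      g2f (((g.out : A) : kˣ) : k) Q * (nrm Q : ℝ) ^ (-s)
    -- total
    have htot : |∑ g : A ⧸ N, g2sg (bar ε g) * F g| ≤ S.card * n := by
      have e3 : ∑ g : A ⧸ N, g2sg (bar ε g) * F g = ∑' Q : HeightOneSpectrum (𝓞 k),
          (∑ g : A ⧸ N, g2sg (bar ε g) * g2f (((g.out : A) : kˣ) : k) Q) *
            (nrm Q : ℝ) ^ (-s) := by
        have e4 : ∀ g : A ⧸ N, g2sg (bar ε g) * F g = ∑' Q : HeightOneSpectrum (𝓞 k),
            g2sg (bar ε g) * (g2f (((g.out : A) : kˣ) : k) Q * (nrm Q : ℝ) ^ (-s)) :=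
          fun g => tsum_mul_left.symm
        rw [Finset.sum_congr rfl fun g _ => e4 g, ← Summable.tsum_finsetSum]
        · refine tsum_congr fun Q => ?_
          rw [Finset.sum_mul]
          exact Finset.sum_congr rfl fun g _ => by ring
        · intro g _
          exact (g2_summ hN hs _ 1 (fun Q => (g2f_abs _ Q).le)).mul_left _
      rw [e3, tsum_eq_sum (s := S) (fun Q hQ => by rw [horth Q hQ, zero_mul])]
      refine (Finset.abs_sum_le_sum_abs _ _).trans ?_
      have h14 : ∀ Q ∈ S, |(∑ g : A ⧸ N, g2sg (bar ε g) * g2f (((g.out : A) : kˣ) : k) Q) *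
            (nrm Q : ℝ) ^ (-s)| ≤ n := by
        intro Q _
        rw [abs_mul, abs_of_pos (g2_wt_pos Q s)]
        have h15 : |∑ g : A ⧸ N, g2sg (bar ε g) * g2f (((g.out : A) : kˣ) : k) Q| ≤ n := by
          refine (Finset.abs_sum_le_sum_abs _ _).trans ?_
          have : ∀ g : A ⧸ N, |g2sg (bar ε g) * g2f (((g.out : A) : kˣ) : k) Q| = 1 := by
            intro g
            rw [abs_mul, g2sg_abs, g2f_abs, mul_one]
          rw [Finset.sum_congr rfl fun g _ => this g]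
          simp [hn]
        calc _ ≤ n * 1 := mul_le_mul h15 (g2_wt_le Q (by linarith)) (g2_wt_pos Q s).le hn0
          _ = n := mul_one n
      refine (Finset.sum_le_sum h14).trans ?_
      simp
    have h16 : ∑ g : A ⧸ N, g2sg (bar ε g) * F g = F 1 +
        ∑ g ∈ (Finset.univ : Finset (A ⧸ N)).erase 1, g2sg (bar ε g) * F g := by
      rw [← Finset.add_sum_erase _ _ (Finset.mem_univ (1 : A ⧸ N)), map_one, map_one, one_mul]
    have h17 : |∑ g ∈ (Finset.univ : Finset (A ⧸ N)).erase 1, g2sg (bar ε g) * F g| ≤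
        ∑ g ∈ (Finset.univ : Finset (A ⧸ N)).erase 1, K g := by
      refine (Finset.abs_sum_le_sum_abs _ _).trans (Finset.sum_le_sum fun g hg => ?_)
      rw [abs_mul, g2sg_abs, one_mul]
      exact hK g (Finset.ne_of_mem_erase hg) s hs hs2
    have h18 : F 1 = ∑' Q : HeightOneSpectrum (𝓞 k), (nrm Q : ℝ) ^ (-s) := by
      refine tsum_congr fun Q => ?_
      have h19 : (((1 : A ⧸ N).out : A) : kˣ) ∈ sqr (US S) := by
        have h20 : (QuotientGroup.mk (1 : A ⧸ N).out : A ⧸ N) = 1 := QuotientGroup.out_eq' _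
        exact Subgroup.mem_subgroupOf.1 ((QuotientGroup.eq_one_iff _).1 h20)
      obtain ⟨b, _, hb⟩ := mem_sqr.1 h19
      have h21 : LocSq Q ((((1 : A ⧸ N).out : A) : kˣ) : k) := by
        rw [← hb]
        exact LocSq_sq Q b
      unfold g2f
      rw [if_pos h21, one_mul]
    have h22 := hK0 s hs hs2
    rw [← h18] at h22
    rw [h16] at htot
    rw [abs_le] at htot h17 h22
    rw [hB]
    linarith [htot.1, htot.2, h17.1, h17.2, h22.1, h22.2]
  have h23 := hmain (1 + Real.exp (-(B + 1))) (by linarith [Real.exp_pos (-(B + 1))]) (by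
    have : Real.exp (-(B + 1)) ≤ 1 := Real.exp_le_one_iff.2 (by linarith)
    linarith)
  rw [add_sub_cancel_left, one_div, ← Real.exp_neg, neg_neg, Real.log_exp] at h23
  linarith

end

end Pool.Agent.H98.MF.B

namespace Pool.Agent.H98.MF

open B

theorem g2_of (k : Type) [Field k] [NumberField k] (hL : LIn k) (hN : NIn k) (h2 : C2St k)
    (hr : RecSt k) (hin : InSt k) (hd : DuSt k) : G2St k := by
  classical
  have _ := hin
  intro S hS γ
  obtain ⟨Q, hQ, hq⟩ := g2_exists_prime hL hN h2 hS γ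
  set q₀ := gen S Q with hq₀
  obtain ⟨ho, ho'⟩ := gen_spec hS.prS hQ
  have h1 : ∀ u ∈ US S, ∑ v ∈ pls S, hv v (u : k) ((q₀ / γ : kˣ) : k) = 0 := by
    intro u hu
    have hS' : ∀ P : HeightOneSpectrum (𝓞 k), 0 < ord P (2 : k) → P ∈ insert Q S :=
      fun P hP => Finset.mem_insert_of_mem (hS.two P hP)
    have hu' : u ∈ US (insert Q S) := US_mono (Finset.subset_insert _ _) hu
    have hq' : q₀ ∈ US (insert Q S) := mem_US.2 fun R hR => by
      rw [Finset.mem_insert, not_or] at hR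
      exact ho' R hR.2 hR.1
    have h2' := hr (insert Q S) hS' u hu' q₀ hq'
    have h3 : pls (insert Q S) = insert (Sum.inl Q) (pls S) := by
      ext v
      rcases v with P | φ
      · rw [inl_mem_pls, Finset.mem_insert, Finset.mem_insert, inl_mem_pls]
        simp
      · simp [inr_mem_pls]
    have h4 : (Sum.inl Q : Pl k) ∉ pls S := fun h => hQ (inl_mem_pls.1 h)
    rw [h3, Finset.sum_insert h4] at h2'
    have h5 : hv (Sum.inl Q) (u : k) (q₀ : k) = qr (u : k) Q := by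
      show hs Q (u : k) (q₀ : k) = _
      rw [hL.unt Q (g2_ord_two hS hQ) u q₀ (mem_US.1 hu Q hQ), ho]
      simp
    rw [h5, hq u hu] at h2'
    have h6 : ∑ v ∈ pls S, hv v (u : k) (q₀ : k) = ∑ v ∈ pls S, hv v (u : k) (γ : k) :=
      (CharTwo.add_eq_zero.1 h2').symm
    have h7 : ∀ v : Pl k, hv v (u : k) (q₀ : k) =
        hv v (u : k) ((q₀ / γ : kˣ) : k) + hv v (u : k) (γ : k) := by
      intro v
      rw [← hL.mulR v u (q₀ / γ) γ, div_mul_cancel]
    rw [Finset.sum_congr rfl fun v _ => h7 v, Finset.sum_add_distrib] at h6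
    exact add_eq_right.1 h6
  have h8 : q₀ / γ ∈ US S ⊔ KS S := by
    by_contra hx
    obtain ⟨ψ, hψ, hψx⟩ := g2_separate (US S ⊔ KS S)
      (fun x => Subgroup.mem_sup_right (sq_mem_KS S x)) _ hx
    obtain ⟨a, ha, hval⟩ := hd S hS ψ ⟨fun a ha => hψ a (Subgroup.mem_sup_left ha),
      fun a ha => hψ a (Subgroup.mem_sup_right ha)⟩
    apply hψx
    have h9 := hval (q₀ / γ)
    rw [h1 a ha] at h9
    exact Multiplicative.toAdd.injective h9
  obtain ⟨u, hu, κ, hκ, huκ⟩ := Subgroup.mem_sup.1 h8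
  refine ⟨Q, q₀ / u, hQ, ?_, ?_, ?_⟩
  · rw [Units.val_div_eq_div_val, ord_div Q q₀.ne_zero u.ne_zero, ho, mem_US.1 hu Q hQ, sub_zero]
  · intro R hR hne
    rw [Units.val_div_eq_div_val, ord_div R q₀.ne_zero u.ne_zero, ho' R hR hne, mem_US.1 hu R hR,
      sub_zero]
  · intro v hv'
    have h10 : q₀ / u / γ = κ := by
      rw [div_right_comm, ← huκ, mul_div_cancel_left]
    rw [h10]
    exact mem_KS.1 hκ v hv'

end Pool.Agent.H98.MF
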