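import Pool.Agent.H98.MF.C.RBas

/-!
# Project MK4, block C, second half: symbols
-/

set_option autoImplicit false

open scoped BigOperators Pointwise
open NumberField IsDedekindDomain

namespace Pool.Agent.H98.MF.R

section

variable {k : Type} [Field k] [NumberField k]

theorem sy_add_self (x : ZMod 2) : x + x = 0 := by
  revert x
  decide

theorem hv_mulr (hL : LocF k) (v : Pl k) (a b c : kˣ) :
    hv v (a : k) ((b * c : kˣ) : k) = hv v (a : k) (b : k) + hv v (a : k) (c : k) := by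
  rw [hL.symm v a (b * c), hL.mul, hL.symm v b a, hL.symm v c a]

theorem hv_one (hL : LocF k) (v : Pl k) (a : kˣ) : hv v (a : k) ((1 : kˣ) : k) = 0 := by
  have h := hv_mulr hL v a 1 1
  rw [mul_one] at h
  exact left_eq_add.1 h

theorem hv_inv (hL : LocF k) (v : Pl k) (a b : kˣ) :
    hv v (a : k) ((b⁻¹ : kˣ) : k) = hv v (a : k) (b : k) := by
  have h := hv_mulr hL v a b b⁻¹
  rw [mul_inv_cancel, hv_one hL] at h
  have h2 := sy_add_self (hv v (a : k) (b : k))
  exact add_left_cancel (h.symm.trans h2.symm)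

/-- the symbol as a homomorphism in the second variable -/
noncomputable def hvH (hL : LocF k) (v : Pl k) (a : kˣ) : kˣ →* Multiplicative (ZMod 2) where
  toFun b := Multiplicative.ofAdd (hv v (a : k) (b : k))
  map_one' := by rw [hv_one hL]; rfl
  map_mul' b c := by rw [hv_mulr hL]; rfl

theorem hv_congr (hL : LocF k) (v : Pl k) (a b c : kˣ) (h : b * c⁻¹ ∈ LS v) :
    hv v (a : k) (b : k) = hv v (a : k) (c : k) := by
  have h1 := (hL.rad v (b * c⁻¹)).1 h a
  rw [← hL.symm v a (b * c⁻¹), hv_mulr hL, hv_inv hL] at h1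
  have h2 := sy_add_self (hv v (a : k) (c : k))
  exact add_right_cancel (h1.trans h2.symm)

theorem sy_sq (hL : LocF k) (v : Pl k) (c b : kˣ) :
    hv v ((c * c : kˣ) : k) (b : k) = 0 := by
  rw [hL.mul]
  exact sy_add_self _

theorem hv_sq (hL : LocF k) (v : Pl k) (a b : kˣ) (h : IsSquare a) :
    hv v (a : k) (b : k) = 0 := by
  obtain ⟨c, rfl⟩ := h
  exact sy_sq hL v c b

theorem sq_mem_LS (v : Pl k) (hL : LocF k) (a : kˣ) (h : IsSquare a) : a ∈ LS v :=
  (hL.rad v a).2 fun b => hv_sq hL v a b h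

theorem mem_NS (hL : LocF k) (S : Finset (HeightOneSpectrum (𝓞 k))) (a b : kˣ) :
    b ∈ NS S a ↔ ∀ v ∈ pls S, hv v (a : k) (b : k) = 0 := by
  constructor
  · intro h v hv'
    have h1 : NS S a ≤ (hvH hL v a).ker := by
      unfold NS
      rw [Subgroup.closure_le]
      intro c hc
      rw [SetLike.mem_coe, MonoidHom.mem_ker]
      show Multiplicative.ofAdd (hv v (a : k) (c : k)) = 1
      rw [hc v hv']
      rfl
    have h2 := h1 h
    rw [MonoidHom.mem_ker] at h2
    exact h2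
  · intro h
    exact Subgroup.subset_closure h

theorem mem_KS (S : Finset (HeightOneSpectrum (𝓞 k))) (a : kˣ) :
    a ∈ KS S ↔ ∀ v ∈ pls S, a ∈ LS v := B.mem_KS

theorem KS_le_NS (hL : LocF k) (S : Finset (HeightOneSpectrum (𝓞 k))) (a : kˣ) :
    KS S ≤ NS S a := by
  intro b hb
  rw [mem_NS hL]
  intro v hv'
  rw [hL.symm v a b]
  exact (hL.rad v b).1 ((mem_KS S b).1 hb v hv') a

theorem Nm_le_NS (hL : LocF k) (S : Finset (HeightOneSpectrum (𝓞 k))) (a : kˣ) :
    Nm a ≤ NS S a := by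
  unfold Nm
  rw [Subgroup.closure_le]
  rintro b ⟨x, y, hxy⟩
  rw [SetLike.mem_coe, mem_NS hL]
  intro v _
  exact hL.nmz v a b x y hxy

/-- units pair to zero outside `S` -/
theorem hv_unit (hL : LocF k) {S : Finset (HeightOneSpectrum (𝓞 k))}
    (h2 : ∀ P : HeightOneSpectrum (𝓞 k), 0 < ord P (2 : k) → P ∈ S) (a b : kˣ)
    (ha : a ∈ US S) (hb : b ∈ US S) (v : Pl k) (hv' : v ∉ pls S) :
    hv v (a : k) (b : k) = 0 := by
  rcases v with P | φ
  · have hP : P ∉ S := fun h => hv' (B.inl_mem_pls.2 h)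
    have h0 : ord P (2 : k) = 0 := by
      have h3 := ord_two_nonneg P
      have h4 : ¬ 0 < ord P (2 : k) := fun h => hP (h2 P h)
      omega
    exact hL.unit P a b h0 ((mem_US S a).1 ha P hP) ((mem_US S b).1 hb P hP)
  · exact absurd (B.inr_mem_pls S φ) hv'

/-- sums over larger sets of places -/
theorem sum_unit (hL : LocF k) {S S' : Finset (HeightOneSpectrum (𝓞 k))} (hSS : S ⊆ S')
    (h2 : ∀ P : HeightOneSpectrum (𝓞 k), 0 < ord P (2 : k) → P ∈ S) (a b : kˣ)
    (ha : a ∈ US S) (hb : b ∈ US S) :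
    ∑ v ∈ pls S', hv v (a : k) (b : k) = ∑ v ∈ pls S, hv v (a : k) (b : k) := by
  symm
  refine Finset.sum_subset (B.pls_mono hSS) ?_
  intro v _ hv'
  exact hv_unit hL h2 a b ha hb v hv'

/-- values at prime generators -/
theorem hv_gen (hL : LocF k) {S : Finset (HeightOneSpectrum (𝓞 k))} (hS : Adm S)
    {Q : HeightOneSpectrum (𝓞 k)} (hQ : Q ∉ S) (a : kˣ) (ha : a ∈ US S)
    (hns : a ∉ LS (Sum.inl Q : Pl k)) :
    hv (Sum.inl Q : Pl k) (a : k) (gen S Q : k) = 1 := by
  have h0 : ord Q (2 : k) = 0 := by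
    have h3 := ord_two_nonneg Q
    have h4 : ¬ 0 < ord Q (2 : k) := fun h => hQ (hS.two Q h)
    omega
  refine hL.unif Q a (gen S Q) h0 ((mem_US S a).1 ha Q hQ) (gen_spec hS hQ).1 ?_
  intro h
  exact hns ((hL.ls_iff (Sum.inl Q) a).2 h)

end

end Pool.Agent.H98.MF.R
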