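import Pool.Agent.H98.MF.C.Bri
import Pool.Agent.H98.MF.C.RSym
import Pool.Agent.H98.MF.C.H0

/-!
# Project MK4, block C: the Hasse principle for sums of symbols
-/

set_option autoImplicit false

open scoped BigOperators Pointwise
open NumberField IsDedekindDomain

namespace Pool.Agent.H98.MF.B

section

variable {k : Type} [Field k] [NumberField k]

theorem h3_congr (hL : LIn k) (v : Pl k) (a x y : kˣ) (h : x / y ∈ LS v) :
    hv v (a : k) (x : k) = hv v (a : k) (y : k) :=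
  R.hv_congr (locF_of hL) v a x y (by rw [← div_eq_mul_inv]; exact h)

theorem h3_one (hL : LIn k) (v : Pl k) (a : kˣ) : hv v (a : k) ((1 : kˣ) : k) = 0 :=
  R.hv_one (locF_of hL) v a

theorem h3_two (x y : ZMod 2) (h : x + y = 0) : x = y := by
  revert x y
  decide

theorem h3_cases (x : ZMod 2) : x = 0 ∨ x = 1 := by
  revert x
  decide

/-- two symbols at one place -/
theorem h3_local (hL : LIn k) (v : Pl k) (a b c d : kˣ)
    (h : hv v (a : k) (b : k) + hv v (c : k) (d : k) = 0) :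
    ∃ γ : kˣ, hv v (a : k) (γ : k) = hv v (a : k) (b : k) ∧
      hv v (c : k) (γ : k) = hv v (c : k) (d : k) := by
  have h1 := h3_two _ _ h
  rcases h3_cases (hv v (a : k) (b : k)) with h2 | h2
  · exact ⟨1, by rw [h3_one hL, h2], by rw [h3_one hL, ← h1, h2]⟩
  · rw [h2] at h1
    rcases h3_cases (hv v (c : k) (b : k)) with h3 | h3
    · rcases h3_cases (hv v (a : k) (d : k)) with h4 | h4
      · refine ⟨b * d, ?_, ?_⟩
        · rw [hL.mulR, h4, add_zero]
        · rw [hL.mulR, h3, zero_add]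
      · exact ⟨d, by rw [h4, h2], rfl⟩
    · exact ⟨b, rfl, by rw [h3, h1]⟩

/-- a prime element with the classes of given local elements -/
theorem h3_prime (hL : LIn k) (hg : G2St k) {S : Finset (HeightOneSpectrum (𝓞 k))} (hS : Adm S)
    (γ : Pl k → kˣ) : ∃ (Q : HeightOneSpectrum (𝓞 k)) (q : kˣ), Q ∉ S ∧
      (∀ R : HeightOneSpectrum (𝓞 k), R ∉ S → R ≠ Q → ord R (q : k) = 0) ∧
      ∀ v ∈ pls S, ∀ a : kˣ, hv v (a : k) (q : k) = hv v (a : k) (γ v : k) := by
  obtain ⟨g, hg1⟩ := hL.weak (pls S) γ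
  obtain ⟨Q, q, hQ, _, h2, h3⟩ := hg S hS g
  exact ⟨Q, q, hQ, h2, fun v hv' a =>
    (h3_congr hL v a q g (h3 v hv')).trans (h3_congr hL v a g (γ v) (hg1 v hv'))⟩

open Classical in
theorem pls_insert (S : Finset (HeightOneSpectrum (𝓞 k))) (Q : HeightOneSpectrum (𝓞 k)) :
    pls (insert Q S) = insert (Sum.inl Q : Pl k) (pls S) := by
  ext v
  rcases v with P | φ
  · rw [inl_mem_pls, Finset.mem_insert, Finset.mem_insert, inl_mem_pls]
    constructor
    · rintro (h | h)
      · exact Or.inl (by rw [h])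
      · exact Or.inr h
    · rintro (h | h)
      · exact Or.inl (Sum.inl_injective h)
      · exact Or.inr h
  · rw [Finset.mem_insert]
    exact iff_of_true (inr_mem_pls _ φ) (Or.inr (inr_mem_pls _ φ))

/-- the symbol of an `S`-unit and a prime element vanishes outside `S` if the sum over the
places of `S` vanishes -/
theorem h3_out (hL : LIn k) (hr : RecSt k) {S : Finset (HeightOneSpectrum (𝓞 k))} (hS : Adm S)
    {Q : HeightOneSpectrum (𝓞 k)} {q a : kˣ} (hQ : Q ∉ S) (ha : a ∈ US S)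
    (hq : ∀ R : HeightOneSpectrum (𝓞 k), R ∉ S → R ≠ Q → ord R (q : k) = 0)
    (hs : ∑ v ∈ pls S, hv v (a : k) (q : k) = 0) (v : Pl k) (hv' : v ∉ pls S) :
    hv v (a : k) (q : k) = 0 := by
  classical
  have hS' : Adm (insert Q S) := adm_mono hS (Finset.subset_insert Q S)
  have ha' : a ∈ US (insert Q S) := US_mono (Finset.subset_insert Q S) ha
  have hq' : q ∈ US (insert Q S) := mem_US.2 fun R hR => by
    rw [Finset.mem_insert, not_or] at hR
    exact hq R hR.2 hR.1
  by_cases h : v ∈ pls (insert Q S)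
  · rw [pls_insert, Finset.mem_insert] at h
    rcases h with h | h
    · have h1 := hr (insert Q S) hS'.two a ha' q hq'
      rw [pls_insert, Finset.sum_insert (fun h' => hQ (inl_mem_pls.1 h')), hs, add_zero] at h1
      rw [h]
      exact h1
    · exact absurd h hv'
  · exact R.hv_unit (locF_of hL) hS'.two a q ha' hq' v h

/-- one symbol -/
theorem h3_H1 (hn : HNSt k) (a b : kˣ) (h : ∀ v : Pl k, hv v (a : k) (b : k) = 0) :
    TT [(a, b)] := by
  obtain ⟨x, y, h1⟩ := hn a b h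
  exact TT_of_norm a b x y h1

/-- two symbols -/
theorem h3_H2 (hL : LIn k) (h1 : C1St k) (hr : RecSt k) (hn : HNSt k) (hg : G2St k)
    (a b c d : kˣ) (h : ∀ v : Pl k, hv v (a : k) (b : k) + hv v (c : k) (d : k) = 0) :
    TT [(a, b), (c, d)] := by
  classical
  obtain ⟨S₀, hS₀⟩ := exists_mem_US ({a, b, c, d} : Finset kˣ)
  obtain ⟨S, hSS, hS⟩ := h1 S₀
  have ha : a ∈ US S := US_mono hSS (hS₀ a (by simp))
  have hb : b ∈ US S := US_mono hSS (hS₀ b (by simp))
  have hc : c ∈ US S := US_mono hSS (hS₀ c (by simp))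
  have hd : d ∈ US S := US_mono hSS (hS₀ d (by simp))
  choose γ hγ1 hγ2 using fun v => h3_local hL v a b c d (h v)
  obtain ⟨Q, q, hQ, hq1, hq2⟩ := h3_prime hL hg hS γ
  have e1 : ∀ v ∈ pls S, hv v (a : k) (q : k) = hv v (a : k) (b : k) := fun v hv' => by
    rw [hq2 v hv' a, hγ1]
  have e2 : ∀ v ∈ pls S, hv v (c : k) (q : k) = hv v (c : k) (d : k) := fun v hv' => by
    rw [hq2 v hv' c, hγ2]
  have s1 : ∑ v ∈ pls S, hv v (a : k) (q : k) = 0 := by
    rw [Finset.sum_congr rfl e1]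
    exact hr S hS.two a ha b hb
  have s2 : ∑ v ∈ pls S, hv v (c : k) (q : k) = 0 := by
    rw [Finset.sum_congr rfl e2]
    exact hr S hS.two c hc d hd
  have o1 := h3_out hL hr hS hQ ha hq1 s1
  have o2 := h3_out hL hr hS hQ hc hq1 s2
  have t1 : TT [(a, b * q)] := h3_H1 hn a (b * q) fun v => by
    rw [hL.mulR]
    by_cases hv' : v ∈ pls S
    · rw [e1 v hv']
      exact CharTwo.add_self_eq_zero _
    · rw [o1 v hv', R.hv_unit (locF_of hL) hS.two a b ha hb v hv', add_zero]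
  have t2 : TT [(c, d * q)] := h3_H1 hn c (d * q) fun v => by
    rw [hL.mulR]
    by_cases hv' : v ∈ pls S
    · rw [e2 v hv']
      exact CharTwo.add_self_eq_zero _
    · rw [o2 v hv', R.hv_unit (locF_of hL) hS.two c d hc hd v hv', add_zero]
  have t3 : TT [(a * c, q)] := h3_H1 hn (a * c) q fun v => by
    rw [(locF_of hL).mul]
    by_cases hv' : v ∈ pls S
    · rw [e1 v hv', e2 v hv', h v]
    · rw [o1 v hv', o2 v hv', add_zero]
  have u1 : TT [(a, b), (a, q)] :=
    TT.of_append (l := [(a, b), (a, q)]) (l' := [(a, b * q)]) (TT_mul_right a b q) t1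
  have u2 : TT [(c, d), (c, q)] :=
    TT.of_append (l := [(c, d), (c, q)]) (l' := [(c, d * q)]) (TT_mul_right c d q) t2
  have u3 : TT [(a, q), (c, q)] :=
    TT.of_append (l := [(a, q), (c, q)]) (l' := [(a * c, q)]) (TT_mul_left a c q) t3
  refine TT.of_append (l := [(a, b), (c, d)]) (l' := [(a, q), (c, q)]) ?_ u3
  refine (u1.append u2).perm ?_
  show List.Perm [(a, b), (a, q), (c, d), (c, q)] [(a, b), (c, d), (a, q), (c, q)]
  exact List.Perm.cons _ (List.Perm.swap _ _ _)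

/-- one symbol is replaced by a symbol with a given first entry -/
theorem h3_step (hL : LIn k) (h1 : C1St k) (hr : RecSt k) (hn : HNSt k) (hg : G2St k)
    {S S₂ : Finset (HeightOneSpectrum (𝓞 k))} (hS : Adm S) (hSS : S ⊆ S₂) {a : kˣ}
    (ha : a ∈ US S₂) (hna : ∀ v ∈ pls S, a ∉ LS v) (p : kˣ × kˣ) (hp1 : p.1 ∈ US S)
    (hp2 : p.2 ∈ US S) :
    ∃ q : kˣ, TT [p, (a, q)] ∧ ∀ v : Pl k, hv v (a : k) (q : k) = hv v (p.1 : k) (p.2 : k) := by
  classical
  have hS2 : Adm S₂ := adm_mono hS hSS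
  have hex : ∀ v : Pl k, ∃ γ : kˣ, hv v (a : k) (γ : k) = hv v (p.1 : k) (p.2 : k) := by
    intro v
    rcases h3_cases (hv v (p.1 : k) (p.2 : k)) with h | h
    · exact ⟨1, by rw [h3_one hL, h]⟩
    · have hvS : v ∈ pls S := by
        by_contra hcon
        rw [R.hv_unit (locF_of hL) hS.two p.1 p.2 hp1 hp2 v hcon] at h
        exact absurd h (by decide)
      have h2 := hna v hvS
      rw [hL.memLS, ← hL.nd] at h2
      push Not at h2
      obtain ⟨b, hb⟩ := h2
      refine ⟨b, ?_⟩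
      rcases h3_cases (hv v (a : k) (b : k)) with h3 | h3
      · exact absurd h3 hb
      · rw [h3, h]
  choose γ hγ using hex
  obtain ⟨Q, q, hQ, hq1, hq2⟩ := h3_prime hL hg hS2 γ
  have e1 : ∀ v ∈ pls S₂, hv v (a : k) (q : k) = hv v (p.1 : k) (p.2 : k) := fun v hv' => by
    rw [hq2 v hv' a, hγ]
  have s1 : ∑ v ∈ pls S₂, hv v (a : k) (q : k) = 0 := by
    rw [Finset.sum_congr rfl e1]
    exact hr S₂ hS2.two p.1 (US_mono hSS hp1) p.2 (US_mono hSS hp2)
  have o1 := h3_out hL hr hS2 hQ ha hq1 s1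
  have e2 : ∀ v : Pl k, hv v (a : k) (q : k) = hv v (p.1 : k) (p.2 : k) := by
    intro v
    by_cases hv' : v ∈ pls S₂
    · exact e1 v hv'
    · rw [o1 v hv', R.hv_unit (locF_of hL) hS2.two p.1 p.2 (US_mono hSS hp1)
        (US_mono hSS hp2) v hv']
  refine ⟨q, ?_, e2⟩
  refine h3_H2 hL h1 hr hn hg p.1 p.2 a q fun v => ?_
  rw [e2 v]
  exact CharTwo.add_self_eq_zero _

theorem h3_list (hL : LIn k) (h1 : C1St k) (hr : RecSt k) (hn : HNSt k) (hg : G2St k)
    {S S₂ : Finset (HeightOneSpectrum (𝓞 k))} (hS : Adm S) (hSS : S ⊆ S₂) {a : kˣ}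
    (ha : a ∈ US S₂) (hna : ∀ v ∈ pls S, a ∉ LS v) (l : List (kˣ × kˣ))
    (hl : ∀ p ∈ l, p.1 ∈ US S ∧ p.2 ∈ US S) :
    ∃ q : kˣ, TT (l ++ [(a, q)]) ∧ ∀ v : Pl k,
      hv v (a : k) (q : k) = (l.map fun p => hv v (p.1 : k) (p.2 : k)).sum := by
  induction l with
  | nil =>
    refine ⟨1, ?_, fun v => ?_⟩
    · have h := TT_sq_right a 1
      rw [one_pow] at h
      exact h
    · rw [h3_one hL]
      rfl
  | cons p l ih =>
    obtain ⟨q, hq1, hq2⟩ := ih fun p hp => hl p (List.mem_cons_of_mem _ hp)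
    obtain ⟨r, hr1, hr2⟩ := h3_step hL h1 hr hn hg hS hSS ha hna p
      (hl p List.mem_cons_self).1 (hl p List.mem_cons_self).2
    refine ⟨r * q, ?_, fun v => ?_⟩
    · refine (hr1.append (hq1.append (TT_mul_right a r q))).congr fun σ τ => ?_
      simp only [cupL_append, cupL_cons, cupL_nil]
      have h2 : (2 : ZMod 2) = 0 := by decide
      linear_combination (-(chi (a : k) σ * chi (r : k) τ + chi (a : k) σ * chi (q : k) τ)) * h2
    · rw [hL.mulR, hr2, hq2, List.map_cons, List.sum_cons]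

end

theorem h3_sum {k : Type} [Field k] [NumberField k] {r : ℕ} (a b : Fin r → kˣ) (v : Pl k) :
    ((List.ofFn fun i => (a i, b i)).map fun p => hv v (p.1 : k) (p.2 : k)).sum =
      ∑ i, hv v (a i : k) (b i : k) := by
  rw [List.map_ofFn, List.sum_ofFn]
  rfl

/-- the Hasse principle for sums of symbols -/
theorem hp_of (k : Type) [Field k] [NumberField k] (hL : LIn k) (h1 : C1St k) (hr : RecSt k)
    (hn : HNSt k) (hg : G2St k) : HPSt k := by
  classical
  intro r a b hP hR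
  rw [Triv_top_iff]
  set l : List (kˣ × kˣ) := List.ofFn fun i => (a i, b i) with hl
  have hloc : ∀ v : Pl k, (l.map fun p => hv v (p.1 : k) (p.2 : k)).sum = 0 := by
    intro v
    rw [hl, h3_sum]
    rcases v with P | φ
    · exact (hL.triv P a b).1 (hP P)
    · exact (hL.trivR φ a b).1 (hR φ)
  obtain ⟨S₀, hS₀⟩ := exists_mem_US (Finset.univ.image a ∪ Finset.univ.image b)
  obtain ⟨S, hSS₀, hS⟩ := h1 S₀
  have hlS : ∀ p ∈ l, p.1 ∈ US S ∧ p.2 ∈ US S := by
    intro p hp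
    rw [hl, List.mem_ofFn] at hp
    obtain ⟨i, rfl⟩ := hp
    exact ⟨US_mono hSS₀ (hS₀ _ (Finset.mem_union_left _
        (Finset.mem_image_of_mem a (Finset.mem_univ i)))),
      US_mono hSS₀ (hS₀ _ (Finset.mem_union_right _
        (Finset.mem_image_of_mem b (Finset.mem_univ i))))⟩
  choose c hc using (locF_of hL).proper
  obtain ⟨x, hx⟩ := hL.weak (pls S) c
  have hna : ∀ v ∈ pls S, x ∉ LS v := fun v hv' h => by
    have h2 := (LS v).div_mem h (hx v hv')
    rw [div_div_cancel] at h2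
    exact hc v h2
  obtain ⟨S₁, hS₁⟩ := exists_mem_US ({x} : Finset kˣ)
  have hxS : x ∈ US (S ∪ S₁) := US_mono Finset.subset_union_right (hS₁ x (by simp))
  obtain ⟨q, hq1, hq2⟩ := h3_list hL h1 hr hn hg hS Finset.subset_union_left hxS hna l hlS
  refine TT.of_append hq1 (h3_H1 hn x q fun v => ?_)
  rw [hq2, hloc]

end Pool.Agent.H98.MF.B
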