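import Pool.Agent.H98.MF.C.Lin
import Pool.Agent.H98.MF.C.BriR
import Pool.Agent.H98.MF.C.C1
import Pool.Agent.H98.MF.C.C2
import Pool.Agent.H98.MF.C.CI
import Pool.Agent.H98.MF.C.C3a
import Pool.Agent.H98.MF.C.C3b
import Pool.Agent.H98.MF.C.C3c
import Pool.Agent.H98.MF.C.C3d
import Pool.Agent.H98.MF.C.C3e
import Pool.Agent.H98.MF.C.C3
import Pool.Agent.H98.MF.C.C8
import Pool.Agent.H98.MF.C.G2
import Pool.Agent.H98.MF.C.H3

/-!
# Project MK4, block C: assembly
-/

set_option autoImplicit false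

open scoped BigOperators Pointwise
open NumberField IsDedekindDomain

namespace Pool.Agent.H98.MF.B

theorem c3 (k : Type) [Field k] [NumberField k] : C3St k :=
  c3_of (fun k => c1 k) (fun k L => c3d_of k L (c3c_of k L (c3a k L) (c3b k L)) (c2 k) (c2 L))
    (fun k L => c3e_of k L (c3b k L)) k

section

variable {k : Type} [Field k] [NumberField k]

theorem ciSt (k : Type) [Field k] [NumberField k] : CISt k := ci k (lin k)

/-- the reciprocity law -/
theorem recSt (hN : NIn k) : RecSt k := recSt_of (lin k) hN (c1 k) (c2 k) (ciSt k) (c3 k)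

theorem inSt (hN : NIn k) : InSt k := inSt_of (lin k) hN (c3 k)

/-- the Hasse norm theorem for quadratic extensions -/
theorem hnSt (hN : NIn k) : HNSt k := hnSt_of (lin k) hN (c3 k)

theorem duSt (hN : NIn k) : DuSt k := duSt_of (lin k) (c2 k) (ciSt k) (recSt hN) (inSt hN)

theorem frSt (hN : NIn k) : FrSt k :=
  fr_of k (lin k) (c1 k) (c2 k) (ciSt k) (recSt hN) (inSt hN) (duSt hN)

theorem g2St (hN : NIn k) : G2St k :=
  g2_of k (lin k) hN (c2 k) (recSt hN) (inSt hN) (duSt hN)

/-- the Hasse principle for sums of symbols -/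
theorem hpSt (hN : NIn k) : HPSt k :=
  hp_of k (lin k) (c1 k) (recSt hN) (hnSt hN) (g2St hN)

end

end Pool.Agent.H98.MF.B
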