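import Pool.Agent.H98.MF.C.Defs

/-!
# Project MK4, block C, second half: interface structures for the reciprocity law
-/

set_option autoImplicit false

open scoped BigOperators Pointwise
open NumberField IsDedekindDomain

namespace Pool.Agent.H98.MF.R

/-- the local facts used for the reciprocity law -/
structure LocF (k : Type) [Field k] [NumberField k] : Prop where
  ls_iff : ∀ (v : Pl k) (a : kˣ), a ∈ LS v ↔ LocP v (a : k)
  mul : ∀ (v : Pl k) (a b c : kˣ),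
    hv v ((a * b : kˣ) : k) (c : k) = hv v (a : k) (c : k) + hv v (b : k) (c : k)
  symm : ∀ (v : Pl k) (a b : kˣ), hv v (a : k) (b : k) = hv v (b : k) (a : k)
  rad : ∀ (v : Pl k) (a : kˣ), a ∈ LS v ↔ ∀ b : kˣ, hv v (a : k) (b : k) = 0
  nmz : ∀ (v : Pl k) (a b : kˣ) (x y : k), (b : k) = x ^ 2 - (a : k) * y ^ 2 →
    hv v (a : k) (b : k) = 0
  unit : ∀ (P : HeightOneSpectrum (𝓞 k)) (a b : kˣ), ord P (2 : k) = 0 → ord P (a : k) = 0 →
    ord P (b : k) = 0 → hs P (a : k) (b : k) = 0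
  unif : ∀ (P : HeightOneSpectrum (𝓞 k)) (a b : kˣ), ord P (2 : k) = 0 → ord P (a : k) = 0 →
    ord P (b : k) = 1 → ¬ LocSq P (a : k) → hs P (a : k) (b : k) = 1
  wa : ∀ (T : Finset (Pl k)) (x : Pl k → kˣ), ∃ g : kˣ, ∀ v ∈ T, g * (x v)⁻¹ ∈ LS v
  proper : ∀ v : Pl k, ∃ a : kˣ, a ∉ LS v
  even : ∀ (P : HeightOneSpectrum (𝓞 k)) (a : kˣ), a ∈ LS (Sum.inl P) → Even (ord P (a : k))

/-- sign of an element of `ZMod 2` -/
def sg2 (x : ZMod 2) : ℝ := if x = 0 then 1 else -1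

open Classical in
/-- the analytic facts used for the reciprocity law -/
structure AnaF (k : Type) [Field k] [NumberField k] : Prop where
  sm : ∀ s : ℝ, 1 < s → Summable (fun Q : HeightOneSpectrum (𝓞 k) => (nrm Q : ℝ) ^ (-s))
  n2 : ∀ S : Finset (HeightOneSpectrum (𝓞 k)), Adm S → ∀ ψ : kˣ →* Multiplicative (ZMod 2),
    Fnl S ψ → ψ ≠ 1 → ∃ C : ℝ, ∀ s : ℝ, 1 < s → s ≤ 2 →
      ∑' Q : HeightOneSpectrum (𝓞 k),
        (if Q ∈ S then 0 else sg2 (val2 ψ (gen S Q)) * (nrm Q : ℝ) ^ (-s)) ≤ C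
  n4 : ∃ C : ℝ, ∀ s : ℝ, 1 < s → s ≤ 2 →
    |∑' Q : HeightOneSpectrum (𝓞 k), (nrm Q : ℝ) ^ (-s) - Real.log (1 / (s - 1))| ≤ C
  n4a : ∀ a : kˣ, ¬ IsSquare a → ∃ C : ℝ, ∀ s : ℝ, 1 < s → s ≤ 2 →
    |∑' Q : HeightOneSpectrum (𝓞 k), (if LocSq Q (a : k) then (nrm Q : ℝ) ^ (-s) else 0) -
      1 / 2 * Real.log (1 / (s - 1))| ≤ C

section

variable {k : Type} [Field k] [NumberField k]

/-- the group of norms from the field of the square root of `a` -/
def Nm (a : kˣ) : Subgroup kˣ :=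
  Subgroup.closure {b : kˣ | ∃ x y : k, (b : k) = x ^ 2 - (a : k) * y ^ 2}

open Classical in
/-- the places of `S` and the real places at which `a` is not a local square -/
noncomputable def nsp (S : Finset (HeightOneSpectrum (𝓞 k))) (a : kˣ) : Finset (Pl k) :=
  (pls S).filter (fun v => a ∉ LS v)

/-- `S` is large enough for the element `a` -/
structure Gd (S : Finset (HeightOneSpectrum (𝓞 k))) (a : kˣ) : Prop where
  adm : Adm S
  mem : a ∈ US S
  split : ∀ Q : HeightOneSpectrum (𝓞 k), Q ∉ S → LocSq Q (a : k) → gen S Q ∈ US S ⊔ Nm a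
  idx : ∃ NU : Subgroup kˣ, NU ≤ US S ∧ NU ≤ Nm a ∧
    2 * NU.relIndex (US S) = 2 ^ (nsp S a).card

/-- the relation between the places of `T` -/
structure IsT (S : Finset (HeightOneSpectrum (𝓞 k))) (a : kˣ) (T : Finset (Pl k)) : Prop where
  sub : T ⊆ nsp S a
  ne : T.Nonempty
  rel : ∀ b ∈ US S, ∑ v ∈ T, hv v (a : k) (b : k) = 0

/-- the good places of `a` -/
def TG (a : kˣ) : Set (Pl k) := {v | ∃ S T, Gd S a ∧ IsT S a T ∧ v ∈ T}

open Classical in
/-- the local component of the functional of `a` -/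
noncomputable def om (v : Pl k) (a x : kˣ) : ZMod 2 :=
  if v ∈ TG a then hv v (a : k) (x : k) else 0

end

end Pool.Agent.H98.MF.R
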