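import Pool.Agent.H98.MF.C.Stm
import Pool.Agent.H98.MF.C.Val
import Pool.Agent.H98.MF.C.RDefs

/-!
# Project MK4, block C: from `LIn`, `NIn`, `C3St` to the hypotheses of the reciprocity law
-/

set_option autoImplicit false

open scoped BigOperators Pointwise
open NumberField IsDedekindDomain

namespace Pool.Agent.H98.MF.B

open Pool.Agent.H98.MF.R

section

variable {k : Type} [Field k] [NumberField k]

theorem Nm_eq (a : kˣ) : Nm a = NG a := rfl

theorem locF_of (hL : LIn k) : LocF k where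
  ls_iff := hL.memLS
  mul v a b c := by
    rw [hL.symm v (a * b) c, hL.mulR v c a b, hL.symm v c a, hL.symm v c b]
  symm := hL.symm
  rad v a := by rw [hL.memLS, ← hL.nd]
  nmz := hL.nm
  unit P a b h2 ha hb := by
    rw [hL.unt P h2 a b ha, hb, Int.cast_zero, zero_mul]
  unif P a b h2 ha hb hns := by
    rw [hL.unt P h2 a b ha, hb, Int.cast_one, one_mul]
    unfold qr
    rw [if_neg hns]
  wa T x := by
    obtain ⟨g, hg⟩ := hL.weak T x
    exact ⟨g, fun v hv => by rw [← div_eq_mul_inv]; exact hg v hv⟩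
  proper v := by
    by_contra hcon
    push Not at hcon
    have h1 : LS v = ⊤ := by
      rw [eq_top_iff]
      intro a _
      exact hcon a
    have h2 : (LS v).index = 1 := by rw [h1, Subgroup.index_top]
    rcases v with P | φ
    · rw [hL.idxP P] at h2
      omega
    · rw [hL.idxR φ] at h2
      omega
  even P a ha := LocSq_even P a.ne_zero ((hL.memLS _ a).1 ha)

open Classical in
theorem tsum_sub {P : HeightOneSpectrum (𝓞 k) → Prop} (f : HeightOneSpectrum (𝓞 k) → ℝ) :
    ∑' Q : {Q // P Q}, f Q.1 = ∑' Q, if P Q then f Q else 0 := by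
  have h := tsum_subtype {Q | P Q} f
  refine h.trans ?_
  refine tsum_congr fun Q => ?_
  rw [Set.indicator_apply]
  rfl

theorem anaF_of (hN : NIn k) : AnaF k where
  sm := hN.sm
  n2 S hS ψ hψ hne := by
    classical
    obtain ⟨C, hC⟩ := hN.n2 S hS ψ hψ hne
    refine ⟨C, fun s h1 h2 => le_trans (le_of_eq ?_) (hC s h1 h2)⟩
    rw [tsum_sub (P := fun Q => Q ∉ S)
      (fun Q => (if ψ (gen S Q) = 1 then (1 : ℝ) else -1) * (nrm Q : ℝ) ^ (-s))]
    refine tsum_congr fun Q => ?_
    by_cases hQ : Q ∈ S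
    · rw [if_pos hQ, if_neg (not_not.2 hQ)]
    · rw [if_neg hQ, if_pos hQ]
      unfold sg2 val2
      by_cases h : ψ (gen S Q) = 1
      · rw [if_pos h, if_pos (by rw [h]; rfl)]
      · rw [if_neg h, if_neg]
        intro h'
        exact h (Multiplicative.toAdd.injective h')
  n4 := hN.n4
  n4a a ha := by
    classical
    obtain ⟨C, hC⟩ := hN.n4a a ha
    refine ⟨C, fun s h1 h2 => ?_⟩
    have h3 := hC s h1 h2
    rw [tsum_sub (P := fun Q => LocSq Q (a : k)) (fun Q => (nrm Q : ℝ) ^ (-s))] at h3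
    exact h3

theorem nsp_card (hL : LIn k) (S : Finset (HeightOneSpectrum (𝓞 k))) (a : kˣ) :
    (nsp S a).card = sS S a := by
  classical
  unfold nsp sS
  refine congrArg Finset.card (Finset.filter_congr fun v _ => ?_)
  rw [hL.memLS]

theorem gd_of (hL : LIn k) (h3 : C3St k) (a : kˣ) (hns : ¬ IsSquare a)
    (S₀ : Finset (HeightOneSpectrum (𝓞 k))) : ∃ S, S₀ ⊆ S ∧ Gd S a := by
  obtain ⟨S, hS0, hadm, ha, hnp, N, hN1, hN2, hN3⟩ := h3 S₀ a hns
  refine ⟨S, hS0, hadm, ha, fun Q hQ hsq => ?_, N, hN1, hN2, ?_⟩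
  · obtain ⟨b, hb, hb1, hb2⟩ := hnp Q hQ hsq
    have hg := gen_spec hadm.prS hQ
    have h1 : gen S Q = (gen S Q * b⁻¹) * b := by rw [inv_mul_cancel_right]
    rw [h1]
    refine Subgroup.mul_mem_sup (mem_US.2 fun R hR => ?_) hb
    rw [Units.val_mul, ord_mul R (Units.ne_zero _) (Units.ne_zero _), Units.val_inv_eq_inv_val,
      ord_inv]
    by_cases hRQ : R = Q
    · rw [hRQ, hg.1, hb1]
      ring
    · rw [hg.2 R hR hRQ, hb2 R hR hRQ]
      ring
  · rw [nsp_card hL, mul_comm]
    exact hN3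

end

end Pool.Agent.H98.MF.B
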