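import Pool.Agent.H98.MF.C.RBadS

/-!
# Project MK4, block C, second half: additivity
-/

set_option autoImplicit false

open scoped BigOperators Pointwise
open NumberField IsDedekindDomain

namespace Pool.Agent.H98.MF.R

section

variable {k : Type} [Field k] [NumberField k]

theorem ad_sq (hL : LocF k) (v : Pl k) (a x : kˣ) (h : IsSquare a) : om v a x = 0 := by
  unfold om
  split_ifs with h1
  · exact hv_sq hL v a x h
  · rfl

theorem ad_congr (hL : LocF k) (v : Pl k) (a y z : kˣ) (h : y * z⁻¹ ∈ LS v) :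
    om v a y = om v a z := by
  unfold om
  split_ifs with h1
  · exact hv_congr hL v a y z h
  · rfl

theorem ad_one (hL : LocF k) (v : Pl k) (a : kˣ) : om v a 1 = 0 := by
  unfold om
  split_ifs with h1
  · exact hv_one hL v a
  · rfl

/-- the bad primes of `a` outside `S` -/
def adBad (S : Finset (HeightOneSpectrum (𝓞 k))) (a : kˣ) : Set (HeightOneSpectrum (𝓞 k)) :=
  {Q | Q ∉ S ∧ (Sum.inl Q : Pl k) ∉ TG a ∧ ¬ LocSq Q (a : k)}

/-- a sparse set of primes -/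
def AdS (E : Set (HeightOneSpectrum (𝓞 k))) : Prop :=
  ∃ C : ℝ, ∀ s : ℝ, 1 < s → s ≤ 2 →
    ∑' Q : HeightOneSpectrum (𝓞 k), E.indicator (fun Q => (nrm Q : ℝ) ^ (-s)) Q ≤ C

open Classical in
theorem ad_fin (E : Set (HeightOneSpectrum (𝓞 k))) (h : AdS E) : ∃ C : ℝ, ∀ s : ℝ, 1 < s → s ≤ 2 →
      ∑' Q : HeightOneSpectrum (𝓞 k), (if Q ∈ E then (nrm Q : ℝ) ^ (-s) else 0) ≤ C := by
  obtain ⟨C, hC⟩ := h
  refine ⟨C, fun s hs hs2 => le_of_eq_of_le (tsum_congr fun Q => ?_) (hC s hs hs2)⟩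
  rw [Set.indicator_apply]

theorem ad_sparse (hA : AnaF k) (hL : LocF k)
    (hGd : ∀ a : kˣ, ¬ IsSquare a → ∀ S₀ : Finset (HeightOneSpectrum (𝓞 k)), ∃ S, S₀ ⊆ S ∧ Gd S a)
    {S : Finset (HeightOneSpectrum (𝓞 k))} (hS : Adm S) (a : kˣ) (ha : a ∈ US S) :
    AdS (adBad S a) := by
  classical
  by_cases hns : IsSquare a
  · refine ⟨0, fun s _ _ => ?_⟩
    have h1 : adBad S a = ∅ := by
      ext Q
      simp only [Set.mem_empty_iff_false, iff_false]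
      intro hQ
      exact hQ.2.2 ((hL.ls_iff (Sum.inl Q) a).1 (sq_mem_LS _ hL a hns))
    rw [h1]
    simp
  · obtain ⟨C, hC⟩ := bad_sparse hA hL hGd hS a ha hns
    refine ⟨C, fun s hs hs2 => le_of_eq_of_le (tsum_congr fun Q => ?_) (hC s hs hs2)⟩
    by_cases hQ : Q ∈ adBad S a
    · rw [Set.indicator_of_mem hQ]
      exact (if_pos (c := Q ∉ S ∧ (Sum.inl Q : Pl k) ∉ TG a ∧ ¬ LocSq Q (a : k)) hQ).symm
    · rw [Set.indicator_of_notMem hQ]
      exact (if_neg (c := Q ∉ S ∧ (Sum.inl Q : Pl k) ∉ TG a ∧ ¬ LocSq Q (a : k)) hQ).symm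

theorem ad_union (hA : AnaF k) (E₁ E₂ : Set (HeightOneSpectrum (𝓞 k))) (h₁ : AdS E₁)
    (h₂ : AdS E₂) : AdS (E₁ ∪ E₂) := by
  obtain ⟨C₁, h₁⟩ := h₁
  obtain ⟨C₂, h₂⟩ := h₂
  refine ⟨C₁ + C₂, fun s hs hs2 => ?_⟩
  have h0 : ∀ Q : HeightOneSpectrum (𝓞 k), 0 ≤ (nrm Q : ℝ) ^ (-s) :=
    fun Q => Real.rpow_nonneg (Nat.cast_nonneg _) _
  have hS : ∀ E : Set (HeightOneSpectrum (𝓞 k)),
      Summable (E.indicator fun Q => (nrm Q : ℝ) ^ (-s)) := fun E => (hA.sm s hs).indicator E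
  have h3 : ∀ Q, (E₁ ∪ E₂).indicator (fun Q => (nrm Q : ℝ) ^ (-s)) Q ≤
      E₁.indicator (fun Q => (nrm Q : ℝ) ^ (-s)) Q +
      E₂.indicator (fun Q => (nrm Q : ℝ) ^ (-s)) Q := by
    intro Q
    have n1 : 0 ≤ E₁.indicator (fun Q => (nrm Q : ℝ) ^ (-s)) Q :=
      Set.indicator_nonneg (fun Q _ => h0 Q) Q
    have n2 : 0 ≤ E₂.indicator (fun Q => (nrm Q : ℝ) ^ (-s)) Q :=
      Set.indicator_nonneg (fun Q _ => h0 Q) Q
    by_cases hQ : Q ∈ E₁ ∪ E₂
    · rw [Set.indicator_of_mem hQ]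
      rcases hQ with hQ | hQ
      · rw [Set.indicator_of_mem hQ]
        linarith
      · rw [Set.indicator_of_mem hQ]
        linarith
    · rw [Set.indicator_of_notMem hQ]
      exact add_nonneg n1 n2
  have h4 : ∑' Q, (E₁ ∪ E₂).indicator (fun Q => (nrm Q : ℝ) ^ (-s)) Q ≤
      ∑' Q, (E₁.indicator (fun Q => (nrm Q : ℝ) ^ (-s)) Q +
      E₂.indicator (fun Q => (nrm Q : ℝ) ^ (-s)) Q) :=
    (hS _).tsum_le_tsum h3 ((hS E₁).add (hS E₂))
  rw [(hS E₁).tsum_add (hS E₂)] at h4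
  exact h4.trans (add_le_add (h₁ s hs hs2) (h₂ s hs hs2))

/-- classes modulo local squares at a prime outside `S` -/
theorem ad_two (hL : LocF k) {S : Finset (HeightOneSpectrum (𝓞 k))} (hS : Adm S)
    {Q : HeightOneSpectrum (𝓞 k)} (hQ : Q ∉ S) (a b : kˣ) (ha : a ∈ US S) (hb : b ∈ US S)
    (ha' : a ∉ LS (Sum.inl Q : Pl k)) (hb' : b ∉ LS (Sum.inl Q : Pl k)) :
    a * b ∈ LS (Sum.inl Q : Pl k) := by
  by_contra h
  have h1 := hv_gen hL hS hQ a ha ha'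
  have h2 := hv_gen hL hS hQ b hb hb'
  have h3 := hv_gen hL hS hQ (a * b) ((US S).mul_mem ha hb) h
  rw [hL.mul, h1, h2] at h3
  exact absurd h3 (by decide)

open Classical in
theorem ad_ind (hL : LocF k) {S : Finset (HeightOneSpectrum (𝓞 k))} {Q : HeightOneSpectrum (𝓞 k)}
    (hQ : Q ∉ S) (a : kˣ) (h : Q ∉ adBad S a) :
    (if (Sum.inl Q : Pl k) ∈ TG a then (1 : ZMod 2) else 0) =
      if a ∈ LS (Sum.inl Q : Pl k) then 0 else 1 := by
  by_cases h1 : a ∈ LS (Sum.inl Q : Pl k)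
  · rw [if_pos h1, if_neg fun h2 => TG_nsp h2 h1]
  · rw [if_neg h1, if_pos]
    by_contra h2
    exact h ⟨hQ, h2, fun h3 => h1 ((hL.ls_iff (Sum.inl Q) a).2 h3)⟩

theorem om_add (hA : AnaF k) (hL : LocF k)
    (hGd : ∀ a : kˣ, ¬ IsSquare a → ∀ S₀ : Finset (HeightOneSpectrum (𝓞 k)), ∃ S, S₀ ⊆ S ∧ Gd S a)
    (v : Pl k) (a b x : kˣ) : om v (a * b) x = om v a x + om v b x := by
  classical
  by_cases hall : ∀ c : kˣ, IsSquare c
  · rw [ad_sq hL v _ x (hall _), ad_sq hL v _ x (hall _), ad_sq hL v _ x (hall _), add_zero]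
  push Not at hall
  obtain ⟨c, hc⟩ := hall
  obtain ⟨S₁, -, ha₁⟩ := exists_US a (∅ : Finset (HeightOneSpectrum (𝓞 k)))
  obtain ⟨S₂, h12, hb₂⟩ := exists_US b S₁
  obtain ⟨S₃, h23, hv3⟩ : ∃ S₃ : Finset (HeightOneSpectrum (𝓞 k)), S₂ ⊆ S₃ ∧ v ∈ pls S₃ := by
    rcases v with P | φ
    · exact ⟨insert P S₂, Finset.subset_insert _ _, by simp [pls]⟩
    · exact ⟨S₂, Finset.Subset.refl _, by simp [pls]⟩
  obtain ⟨S, h3S, hG⟩ := hGd c hc S₃
  have hS : Adm S := hG.adm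
  have ha : a ∈ US S := US_mono ((h12.trans h23).trans h3S) ha₁
  have hb : b ∈ US S := US_mono (h23.trans h3S) hb₂
  have hab : a * b ∈ US S := (US S).mul_mem ha hb
  have hvS : v ∈ pls S := by
    rw [pls, Finset.mem_disjSum] at hv3 ⊢
    rcases hv3 with ⟨P, hP, rfl⟩ | ⟨φ, _, rfl⟩
    · exact Or.inl ⟨P, h3S hP, rfl⟩
    · exact Or.inr ⟨φ, Finset.mem_univ _, rfl⟩
  obtain ⟨ψa, f1, g1, -⟩ := om_fnl hA hL hGd hS a ha
  obtain ⟨ψb, f2, g2, -⟩ := om_fnl hA hL hGd hS b hb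
  obtain ⟨ψc, f3, g3, -⟩ := om_fnl hA hL hGd hS (a * b) hab
  have hθ : Fnl S (ψa * ψb * ψc) := by
    refine ⟨fun y hy => ?_, fun y hy => ?_⟩
    · rw [MonoidHom.mul_apply, MonoidHom.mul_apply, f1.unit y hy, f2.unit y hy, f3.unit y hy]
      rfl
    · rw [MonoidHom.mul_apply, MonoidHom.mul_apply, f1.loc y hy, f2.loc y hy, f3.loc y hy]
      rfl
  have hval : ∀ y : kˣ, val2 (ψa * ψb * ψc) y = val2 ψa y + val2 ψb y + val2 ψc y := fun y => rfl
  have hone : ψa * ψb * ψc = 1 := by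
    refine fnl_sparse hA hS _ hθ (adBad S a ∪ adBad S b ∪ adBad S (a * b)) (fun Q hQ hE => ?_) ?_
    · have e1 : Q ∉ adBad S a := fun h => hE (Or.inl (Or.inl h))
      have e2 : Q ∉ adBad S b := fun h => hE (Or.inl (Or.inr h))
      have e3 : Q ∉ adBad S (a * b) := fun h => hE (Or.inr h)
      rw [hval, g1, g2, g3, om_gen hA hL hGd hS a ha hQ, om_gen hA hL hGd hS b hb hQ,
        om_gen hA hL hGd hS (a * b) hab hQ, ad_ind hL hQ a e1, ad_ind hL hQ b e2,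
        ad_ind hL hQ (a * b) e3]
      by_cases q1 : a ∈ LS (Sum.inl Q : Pl k)
      · by_cases q2 : b ∈ LS (Sum.inl Q : Pl k)
        · rw [if_pos q1, if_pos q2, if_pos ((LS _).mul_mem q1 q2)]
          decide
        · rw [if_pos q1, if_neg q2, if_neg fun h => q2 (((LS _).mul_mem_cancel_left q1).1 h)]
          decide
      · by_cases q2 : b ∈ LS (Sum.inl Q : Pl k)
        · rw [if_neg q1, if_pos q2, if_neg fun h => q1 (((LS _).mul_mem_cancel_right q2).1 h)]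
          decide
        · rw [if_neg q1, if_neg q2, if_pos (ad_two hL hS hQ a b ha hb q1 q2)]
          decide
    · exact ad_fin _ (ad_union hA _ _ (ad_union hA _ _ (ad_sparse hA hL hGd hS a ha)
        (ad_sparse hA hL hGd hS b hb)) (ad_sparse hA hL hGd hS (a * b) hab))
  obtain ⟨y, hy⟩ := hL.wa (pls S) (fun w => if w = v then x else 1)
  have hsum : ∀ e : kˣ, ∑ w ∈ pls S, om w e y = om v e x := by
    intro e
    rw [Finset.sum_eq_single_of_mem v hvS]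
    · have h1 := hy v hvS
      rw [if_pos rfl] at h1
      exact ad_congr hL v e y x h1
    · intro w hw hwv
      have h1 := hy w hw
      rw [if_neg hwv] at h1
      rw [ad_congr hL w e y 1 h1, ad_one hL]
  have hfin := hval y
  rw [hone, g1, g2, g3, hsum, hsum, hsum] at hfin
  have h0 : val2 (1 : kˣ →* Multiplicative (ZMod 2)) y = 0 := rfl
  rw [h0] at hfin
  have h2 : ∀ p q r : ZMod 2, 0 = p + q + r → r = p + q := by decide
  exact h2 _ _ _ hfin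

end

end Pool.Agent.H98.MF.R
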