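import Pool.Agent.H98.MF.C.RBas

/-!
# Project MK4, block C, second half: sparse sets of primes
-/

set_option autoImplicit false

open scoped BigOperators Pointwise
open NumberField IsDedekindDomain

namespace Pool.Agent.H98.MF.R

section

variable {k : Type} [Field k] [NumberField k]

theorem sp_nrm (Q : HeightOneSpectrum (𝓞 k)) : 1 ≤ nrm Q := by
  unfold nrm
  rw [Nat.one_le_iff_ne_zero, Ne, Ideal.absNorm_eq_zero_iff]
  exact Q.ne_bot

theorem sp_w0 (s : ℝ) (Q : HeightOneSpectrum (𝓞 k)) : 0 ≤ (nrm Q : ℝ) ^ (-s) :=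
  Real.rpow_nonneg (Nat.cast_nonneg _) _

theorem sp_w1 {s : ℝ} (hs : 1 < s) (Q : HeightOneSpectrum (𝓞 k)) : (nrm Q : ℝ) ^ (-s) ≤ 1 := by
  apply Real.rpow_le_one_of_one_le_of_nonpos
  · exact_mod_cast sp_nrm Q
  · linarith

open Classical in
theorem sp_sum (hA : AnaF k) {s : ℝ} (hs : 1 < s) (p : HeightOneSpectrum (𝓞 k) → Prop) :
    Summable (fun Q : HeightOneSpectrum (𝓞 k) => if p Q then (nrm Q : ℝ) ^ (-s) else 0) := by
  refine Summable.of_nonneg_of_le (fun Q => ?_) (fun Q => ?_) (hA.sm s hs)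
  · split_ifs
    · exact sp_w0 s Q
    · exact le_refl _
  · split_ifs
    · exact le_refl _
    · exact sp_w0 s Q

open Classical in
theorem sp_sumS (hA : AnaF k) {s : ℝ} (hs : 1 < s) (S : Finset (HeightOneSpectrum (𝓞 k))) :
    Summable (fun Q : HeightOneSpectrum (𝓞 k) => if Q ∈ S then (nrm Q : ℝ) ^ (-s) else 0) := by
  convert sp_sum hA hs (fun Q => Q ∈ S)

open Classical in
theorem sp_fin (hA : AnaF k) {s : ℝ} (hs : 1 < s) (S : Finset (HeightOneSpectrum (𝓞 k))) :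
    ∑' Q : HeightOneSpectrum (𝓞 k), (if Q ∈ S then (nrm Q : ℝ) ^ (-s) else 0) ≤ (S.card : ℝ) := by
  rw [tsum_eq_sum (s := S) (fun Q hQ => if_neg hQ)]
  calc ∑ Q ∈ S, (if Q ∈ S then (nrm Q : ℝ) ^ (-s) else 0) ≤ ∑ Q ∈ S, (1 : ℝ) := by
        refine Finset.sum_le_sum (fun Q hQ => ?_)
        rw [if_pos hQ]
        exact sp_w1 hs Q
    _ = (S.card : ℝ) := by simp

theorem sp_sg (x : ZMod 2) : -1 ≤ sg2 x ∧ sg2 x ≤ 1 := by
  unfold sg2
  split_ifs <;> norm_num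

open Classical in
theorem sp_sums (hA : AnaF k) {s : ℝ} (hs : 1 < s) (S : Finset (HeightOneSpectrum (𝓞 k)))
    (f : HeightOneSpectrum (𝓞 k) → ZMod 2) :
    Summable (fun Q : HeightOneSpectrum (𝓞 k) =>
      if Q ∈ S then 0 else sg2 (f Q) * (nrm Q : ℝ) ^ (-s)) := by
  refine Summable.of_norm_bounded (hA.sm s hs) (fun Q => ?_)
  split_ifs
  · rw [norm_zero]
    exact sp_w0 s Q
  · rw [norm_mul, Real.norm_of_nonneg (sp_w0 s Q)]
    have := sp_sg (f Q)
    have h1 : ‖sg2 (f Q)‖ ≤ 1 := abs_le.2 this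
    calc ‖sg2 (f Q)‖ * (nrm Q : ℝ) ^ (-s) ≤ 1 * (nrm Q : ℝ) ^ (-s) :=
          mul_le_mul_of_nonneg_right h1 (sp_w0 s Q)
      _ = _ := one_mul _

/-- the logarithm is unbounded -/
theorem sp_unb {c K : ℝ} (hc : 0 < c)
    (h : ∀ s : ℝ, 1 < s → s ≤ 2 → c * Real.log (1 / (s - 1)) ≤ K) : False := by
  set M : ℝ := (|K| + 1) / c with hM
  have hM0 : 0 < M := by positivity
  have h1 := h (1 + Real.exp (-M)) (by linarith [Real.exp_pos (-M)]) (by
    have : Real.exp (-M) ≤ 1 := Real.exp_le_one_iff.2 (by linarith)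
    linarith)
  have h2 : Real.log (1 / (1 + Real.exp (-M) - 1)) = M := by
    rw [add_sub_cancel_left, one_div, Real.log_inv, Real.log_exp, neg_neg]
  rw [h2, hM, mul_div_cancel₀ _ hc.ne'] at h1
  linarith [le_abs_self K]

open Classical in
/-- a functional vanishing at all primes outside a sparse set is trivial -/
theorem fnl_sparse (hA : AnaF k) {S : Finset (HeightOneSpectrum (𝓞 k))} (hS : Adm S)
    (ψ : kˣ →* Multiplicative (ZMod 2)) (hψ : Fnl S ψ) (E : Set (HeightOneSpectrum (𝓞 k)))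
    (hE : ∀ Q : HeightOneSpectrum (𝓞 k), Q ∉ S → Q ∉ E → val2 ψ (gen S Q) = 0)
    (hC : ∃ C : ℝ, ∀ s : ℝ, 1 < s → s ≤ 2 →
      ∑' Q : HeightOneSpectrum (𝓞 k), (if Q ∈ E then (nrm Q : ℝ) ^ (-s) else 0) ≤ C) :
    ψ = 1 := by
  by_contra hne
  obtain ⟨C, hC⟩ := hC
  obtain ⟨C2, h2⟩ := hA.n2 S hS ψ hψ hne
  obtain ⟨C4, h4⟩ := hA.n4
  refine sp_unb (c := 1) (K := C2 + 2 * C + S.card + C4) one_pos (fun s hs hs2 => ?_)
  have a1 := sp_sums hA hs S (fun Q => val2 ψ (gen S Q))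
  have a2 := sp_sum hA hs (fun Q => Q ∈ E)
  have a3 := sp_sumS hA hs S
  have key : ∑' Q : HeightOneSpectrum (𝓞 k), (nrm Q : ℝ) ^ (-s) ≤
      ∑' Q : HeightOneSpectrum (𝓞 k),
        ((if Q ∈ S then 0 else sg2 (val2 ψ (gen S Q)) * (nrm Q : ℝ) ^ (-s)) +
        2 * (if Q ∈ E then (nrm Q : ℝ) ^ (-s) else 0) +
        (if Q ∈ S then (nrm Q : ℝ) ^ (-s) else 0)) := by
    refine Summable.tsum_le_tsum (fun Q => ?_) (hA.sm s hs) ((a1.add (a2.mul_left 2)).add a3)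
    have hw := sp_w0 s Q
    by_cases hQ : Q ∈ S
    · rw [if_pos hQ, if_pos hQ]
      by_cases hQE : Q ∈ E
      · rw [if_pos hQE]; linarith
      · rw [if_neg hQE]; linarith
    · rw [if_neg hQ, if_neg hQ]
      by_cases hQE : Q ∈ E
      · rw [if_pos hQE]
        have := mul_le_mul_of_nonneg_right (sp_sg (val2 ψ (gen S Q))).1 hw
        linarith
      · rw [if_neg hQE, hE Q hQ hQE]
        unfold sg2
        rw [if_pos rfl]
        linarith
  rw [(a1.add (a2.mul_left 2)).tsum_add a3, a1.tsum_add (a2.mul_left 2), tsum_mul_left] at key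
  have b1 := h2 s hs hs2
  have b2 := hC s hs hs2
  have b3 := sp_fin hA hs S
  have b4 := (abs_le.1 (h4 s hs hs2)).1
  linarith

/-- a nonsquare is not a local square at infinitely many primes -/
theorem nonsq_primes (hA : AnaF k) (a : kˣ) (hns : ¬ IsSquare a)
    (S : Finset (HeightOneSpectrum (𝓞 k))) : ∃ Q : HeightOneSpectrum (𝓞 k), Q ∉ S ∧
      ¬ LocSq Q (a : k) := by
  classical
  by_contra hcon
  push Not at hcon
  obtain ⟨C4, h4⟩ := hA.n4
  obtain ⟨Ca, ha⟩ := hA.n4a a hns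
  refine sp_unb (c := 1 / 2) (K := C4 + Ca + S.card) (by norm_num) (fun s hs hs2 => ?_)
  have a2 := sp_sum hA hs (fun Q => LocSq Q (a : k))
  have a3 := sp_sumS hA hs S
  have key : ∑' Q : HeightOneSpectrum (𝓞 k), (nrm Q : ℝ) ^ (-s) ≤
      ∑' Q : HeightOneSpectrum (𝓞 k),
        ((if LocSq Q (a : k) then (nrm Q : ℝ) ^ (-s) else 0) +
        (if Q ∈ S then (nrm Q : ℝ) ^ (-s) else 0)) := by
    refine Summable.tsum_le_tsum (fun Q => ?_) (hA.sm s hs) (a2.add a3)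
    have hw := sp_w0 s Q
    by_cases hQ : Q ∈ S
    · rw [if_pos hQ]
      split_ifs <;> linarith
    · rw [if_neg hQ, if_pos (hcon Q hQ)]
      linarith
  rw [a2.tsum_add a3] at key
  have b3 := sp_fin hA hs S
  have b4 := (abs_le.1 (h4 s hs hs2)).1
  have b5 := (abs_le.1 (ha s hs hs2)).2
  linarith

end

end Pool.Agent.H98.MF.R
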