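import Pool.Agent.H98.MF.C.RFnl
import Pool.Agent.H98.MF.C.RSparse

/-!
# Project MK4, block C, second half: bad primes are sparse
-/

set_option autoImplicit false

open scoped BigOperators Pointwise
open NumberField IsDedekindDomain

namespace Pool.Agent.H98.MF.R

section

variable {k : Type} [Field k] [NumberField k]

theorem bs_sg0 : sg2 0 = 1 := if_pos rfl

theorem bs_sg1 : sg2 1 = -1 := if_neg one_ne_zero

open Classical in
theorem bs_sum (hA : AnaF k) {s : ℝ} (hs : 1 < s) (S : Finset (HeightOneSpectrum (𝓞 k)))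
    (a : kˣ) : Summable (fun Q : HeightOneSpectrum (𝓞 k) =>
      if Q ∉ S ∧ (Sum.inl Q : Pl k) ∉ TG a ∧ ¬ LocSq Q (a : k)
        then (nrm Q : ℝ) ^ (-s) else 0) := by
  refine Summable.of_nonneg_of_le (fun Q => ?_) (fun Q => ?_) (hA.sm s hs)
  · split_ifs
    · exact sp_w0 s Q
    · exact le_refl _
  · split_ifs
    · exact le_refl _
    · exact sp_w0 s Q

open Classical in
/-- bad primes are sparse -/
theorem bad_sparse (hA : AnaF k) (hL : LocF k)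
    (hGd : ∀ a : kˣ, ¬ IsSquare a → ∀ S₀ : Finset (HeightOneSpectrum (𝓞 k)), ∃ S, S₀ ⊆ S ∧ Gd S a)
    {S : Finset (HeightOneSpectrum (𝓞 k))} (hS : Adm S) (a : kˣ) (ha : a ∈ US S)
    (hns : ¬ IsSquare a) : ∃ C : ℝ, ∀ s : ℝ, 1 < s → s ≤ 2 →
      ∑' Q : HeightOneSpectrum (𝓞 k), (if Q ∉ S ∧ (Sum.inl Q : Pl k) ∉ TG a ∧ ¬ LocSq Q (a : k)
        then (nrm Q : ℝ) ^ (-s) else 0) ≤ C := by
  obtain ⟨ψ, hψ, hval, hne⟩ := om_fnl hA hL hGd hS a ha
  have hψ1 : ψ ≠ 1 := fun h => hns (hne h)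
  have hgen : ∀ Q : HeightOneSpectrum (𝓞 k), Q ∉ S →
      val2 ψ (gen S Q) = if (Sum.inl Q : Pl k) ∈ TG a then 1 else 0 := by
    intro Q hQ
    rw [hval, om_gen hA hL hGd hS a ha hQ]
  obtain ⟨C2, h2⟩ := hA.n2 S hS ψ hψ hψ1
  obtain ⟨C4, h4⟩ := hA.n4
  obtain ⟨Ca, h5⟩ := hA.n4a a hns
  refine ⟨(C4 + C2 + 2 * Ca + 2 * S.card) / 2, fun s hs hs2 => ?_⟩
  have a1 := sp_sums hA hs S (fun Q => val2 ψ (gen S Q))
  have a2 := sp_sum hA hs (fun Q => LocSq Q (a : k))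
  have a3 := sp_sumS hA hs S
  have a4 := bs_sum hA hs S a
  have key : ∑' Q : HeightOneSpectrum (𝓞 k),
      (2 * (if Q ∉ S ∧ (Sum.inl Q : Pl k) ∉ TG a ∧ ¬ LocSq Q (a : k)
        then (nrm Q : ℝ) ^ (-s) else 0) + 2 * (if LocSq Q (a : k) then (nrm Q : ℝ) ^ (-s) else 0)) ≤
      ∑' Q : HeightOneSpectrum (𝓞 k), ((nrm Q : ℝ) ^ (-s) +
        (if Q ∈ S then 0 else sg2 (val2 ψ (gen S Q)) * (nrm Q : ℝ) ^ (-s)) +
        2 * (if Q ∈ S then (nrm Q : ℝ) ^ (-s) else 0)) := by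
    refine Summable.tsum_le_tsum (fun Q => ?_) ((a4.mul_left 2).add (a2.mul_left 2))
      (((hA.sm s hs).add a1).add (a3.mul_left 2))
    have hw := sp_w0 s Q
    by_cases hQ : Q ∈ S
    · rw [if_pos hQ, if_pos hQ, if_neg (fun h => h.1 hQ)]
      split_ifs <;> linarith
    · rw [if_neg hQ, if_neg hQ, hgen Q hQ]
      by_cases hT : (Sum.inl Q : Pl k) ∈ TG a
      · have hl : ¬ LocSq Q (a : k) := fun h => TG_nsp hT ((hL.ls_iff (Sum.inl Q) a).2 h)
        rw [if_neg (fun h => h.2.1 hT), if_neg hl, if_pos hT]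
        rw [bs_sg1]
        linarith
      · have h0 := bs_sg0
        by_cases hl : LocSq Q (a : k)
        · rw [if_neg (fun h => h.2.2 hl), if_pos hl, if_neg hT, h0]
          linarith
        · rw [if_pos ⟨hQ, hT, hl⟩, if_neg hl, if_neg hT, h0]
          linarith
  rw [((hA.sm s hs).add a1).tsum_add (a3.mul_left 2), (hA.sm s hs).tsum_add a1,
    (a4.mul_left 2).tsum_add (a2.mul_left 2), tsum_mul_left, tsum_mul_left, tsum_mul_left] at key
  have b1 := h2 s hs hs2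
  have b3 := sp_fin hA hs S
  have b4 := (abs_le.1 (h4 s hs hs2)).2
  have b5 := (abs_le.1 (h5 s hs hs2)).1
  linarith

end

end Pool.Agent.H98.MF.R
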