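import Pool.Agent.H98.MF.C.RDefs
import Pool.Agent.H98.MF.C.Bas

/-!
# Project MK4, block C, second half: elementary facts
-/

set_option autoImplicit false

open scoped BigOperators Pointwise
open NumberField IsDedekindDomain

namespace Pool.Agent.H98.MF.R

section

variable {k : Type} [Field k] [NumberField k]

theorem ord_mul (P : HeightOneSpectrum (𝓞 k)) (a b : kˣ) :
    ord P ((a * b : kˣ) : k) = ord P (a : k) + ord P (b : k) := by
  rw [Units.val_mul]
  exact B.ord_mul P a.ne_zero b.ne_zero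

theorem ord_one (P : HeightOneSpectrum (𝓞 k)) : ord P ((1 : kˣ) : k) = 0 := by
  rw [Units.val_one]
  exact B.ord_one P

theorem ord_inv (P : HeightOneSpectrum (𝓞 k)) (a : kˣ) :
    ord P ((a⁻¹ : kˣ) : k) = - ord P (a : k) := by
  rw [Units.val_inv_eq_inv_val]
  exact B.ord_inv P _

theorem mem_US (S : Finset (HeightOneSpectrum (𝓞 k))) (a : kˣ) :
    a ∈ US S ↔ ∀ Q : HeightOneSpectrum (𝓞 k), Q ∉ S → ord Q (a : k) = 0 := B.mem_US

theorem US_mono {S S' : Finset (HeightOneSpectrum (𝓞 k))} (h : S ⊆ S') :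
    (US S : Subgroup kˣ) ≤ US S' := B.US_mono h

/-- every element is an `S`-unit for large `S` -/
theorem exists_US (a : kˣ) (S₀ : Finset (HeightOneSpectrum (𝓞 k))) :
    ∃ S : Finset (HeightOneSpectrum (𝓞 k)), S₀ ⊆ S ∧ a ∈ US S := by
  classical
  obtain ⟨S, hS⟩ := B.exists_mem_US {a}
  exact ⟨S₀ ∪ S, Finset.subset_union_left,
    B.US_mono Finset.subset_union_right (hS a (Finset.mem_singleton_self a))⟩

/-- all primes above two and a given finite set -/
theorem exists_two (S₀ : Finset (HeightOneSpectrum (𝓞 k))) :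
    ∃ S : Finset (HeightOneSpectrum (𝓞 k)), S₀ ⊆ S ∧
      ∀ P : HeightOneSpectrum (𝓞 k), 0 < ord P (2 : k) → P ∈ S := by
  obtain ⟨S, h1, h2⟩ := exists_US (Units.mk0 (2 : k) two_ne_zero) S₀
  refine ⟨S, h1, fun P hP => ?_⟩
  by_contra h
  have h3 := (mem_US S _).1 h2 P h
  rw [Units.val_mk0] at h3
  omega

theorem ord_two_nonneg (P : HeightOneSpectrum (𝓞 k)) : 0 ≤ ord P (2 : k) := by
  unfold ord
  have h : FractionalIdeal.spanSingleton (nonZeroDivisors (𝓞 k)) (2 : k) =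
      ((Ideal.span {(2 : 𝓞 k)} : Ideal (𝓞 k)) : FractionalIdeal (nonZeroDivisors (𝓞 k)) k) := by
    rw [FractionalIdeal.coeIdeal_span_singleton, map_ofNat]
  rw [h]
  exact FractionalIdeal.count_coe_nonneg k P _

theorem _root_.Pool.Agent.H98.MF.Adm.mono {S S' : Finset (HeightOneSpectrum (𝓞 k))} (hS : Adm S) (h : S ⊆ S') :
    Adm S' := B.adm_mono hS h

theorem gen_spec {S : Finset (HeightOneSpectrum (𝓞 k))} (hS : Adm S)
    {Q : HeightOneSpectrum (𝓞 k)} (hQ : Q ∉ S) :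
    ord Q (gen S Q : k) = 1 ∧
      ∀ R : HeightOneSpectrum (𝓞 k), R ∉ S → R ≠ Q → ord R (gen S Q : k) = 0 :=
  B.gen_spec hS.prS hQ

end

end Pool.Agent.H98.MF.R
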