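import Pool.Agent.H98.MF.C.RAdd

/-!
# Project MK4, block C, second half: dichotomy
-/

set_option autoImplicit false

open scoped BigOperators Pointwise
open NumberField IsDedekindDomain

namespace Pool.Agent.H98.MF.R

section

variable {k : Type} [Field k] [NumberField k]

/-- a good place of `a` is a place at which `a` is not a local square -/
theorem di_TG_nsp {v : Pl k} {a : kˣ} (h : v ∈ TG a) : a ∉ LS v := by
  obtain ⟨S, T, -, hT, hv⟩ := h
  have h1 := hT.sub hv
  classical
  rw [nsp, Finset.mem_filter] at h1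
  exact h1.2

theorem di_pos {v : Pl k} {a : kˣ} (h : v ∈ TG a) (x : kˣ) :
    om v a x = hv v (a : k) (x : k) := by
  unfold om
  rw [if_pos h]

theorem di_neg {v : Pl k} {a : kˣ} (h : v ∉ TG a) (x : kˣ) : om v a x = 0 := by
  unfold om
  rw [if_neg h]

theorem dicho (hA : AnaF k) (hL : LocF k)
    (hGd : ∀ a : kˣ, ¬ IsSquare a → ∀ S₀ : Finset (HeightOneSpectrum (𝓞 k)), ∃ S, S₀ ⊆ S ∧ Gd S a)
    (v : Pl k) : (∀ a : kˣ, v ∉ TG a) ∨ (∀ a : kˣ, a ∉ LS v → v ∈ TG a) := by
  by_contra hcon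
  rw [not_or] at hcon
  obtain ⟨h1, h2⟩ := hcon
  push Not at h1 h2
  obtain ⟨a, ha⟩ := h1
  obtain ⟨b, hb, hbT⟩ := h2
  have hab := fun x : kˣ => om_add hA hL hGd v a b x
  by_cases hT : v ∈ TG (a * b)
  · apply hb
    rw [hL.rad]
    intro x
    have h3 := hab x
    rw [di_pos hT, di_pos ha, di_neg hbT, hL.mul, add_right_inj] at h3
    exact h3
  · apply di_TG_nsp ha
    rw [hL.rad]
    intro x
    have h3 := hab x
    rw [di_neg hT, di_pos ha, di_neg hbT, add_zero] at h3
    exact h3.symm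

end

end Pool.Agent.H98.MF.R
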