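import Pool.Agent.H98.MF.C.RT2

/-!
# Project MK4, block C, second half: the functionals
-/

set_option autoImplicit false

open scoped BigOperators Pointwise
open NumberField IsDedekindDomain

namespace Pool.Agent.H98.MF.R

section

variable {k : Type} [Field k] [NumberField k]

open Classical in
/-- the functional of `a` -/
noncomputable def fn_hom (hL : LocF k) (S : Finset (HeightOneSpectrum (𝓞 k))) (a : kˣ) :
    kˣ →* Multiplicative (ZMod 2) :=
  ∏ v ∈ pls S, (if v ∈ TG a then hvH hL v a else 1)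

theorem fn_val (hL : LocF k) (S : Finset (HeightOneSpectrum (𝓞 k))) (a x : kˣ) :
    val2 (fn_hom hL S a) x = ∑ v ∈ pls S, om v a x := by
  classical
  unfold val2 fn_hom
  rw [MonoidHom.finsetProd_apply, toAdd_prod]
  refine Finset.sum_congr rfl (fun v _ => ?_)
  unfold om
  by_cases h : v ∈ TG a
  · rw [if_pos h, if_pos h]
    rfl
  · rw [if_neg h, if_neg h]
    rfl

theorem fn_loc (hL : LocF k) (v : Pl k) (a x : kˣ) (hx : x ∈ LS v) : om v a x = 0 := by
  unfold om
  split_ifs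
  · rw [hL.symm]
    exact (hL.rad v x).1 hx a
  · rfl

/-- the functional of `a` on `S` -/
theorem om_fnl (hA : AnaF k) (hL : LocF k)
    (hGd : ∀ a : kˣ, ¬ IsSquare a → ∀ S₀ : Finset (HeightOneSpectrum (𝓞 k)), ∃ S, S₀ ⊆ S ∧ Gd S a)
    {S : Finset (HeightOneSpectrum (𝓞 k))} (hS : Adm S) (a : kˣ) (ha : a ∈ US S) :
    ∃ ψ : kˣ →* Multiplicative (ZMod 2), Fnl S ψ ∧ (∀ x : kˣ, val2 ψ x = ∑ v ∈ pls S, om v a x) ∧
      (ψ = 1 → IsSquare a) := by
  classical
  refine ⟨fn_hom hL S a, ⟨?_, ?_⟩, fn_val hL S a, ?_⟩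
  · intro x hx
    have h : val2 (fn_hom hL S a) x = 0 := by
      rw [fn_val]
      exact om_sum hA hL hGd hS.two a x ha hx
    exact h
  · intro x hx
    have h : val2 (fn_hom hL S a) x = 0 := by
      rw [fn_val]
      exact Finset.sum_eq_zero (fun v hv' => fn_loc hL v a x ((mem_KS S x).1 hx v hv'))
    exact h
  · intro h1
    by_contra hns
    obtain ⟨v₀, hv₀, hT⟩ := TG_ne hA hL hGd hS a ha hns
    have h2 : ¬ ∀ b : kˣ, hv v₀ (a : k) (b : k) = 0 :=
      fun h => TG_nsp hT ((hL.rad v₀ a).2 h)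
    push Not at h2
    obtain ⟨b, hb⟩ := h2
    obtain ⟨g, hg⟩ := hL.wa (pls S) (fun w => if w = v₀ then b else 1)
    have h3 : ∑ v ∈ pls S, om v a g = hv v₀ (a : k) (b : k) := by
      rw [Finset.sum_eq_single v₀]
      · have h4 := hg v₀ hv₀
        simp only [if_true] at h4
        unfold om
        rw [if_pos hT]
        exact hv_congr hL v₀ a g b h4
      · intro v hv' hne
        have h4 := hg v hv'
        simp only [if_neg hne, inv_one, mul_one] at h4
        exact fn_loc hL v a g h4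
      · intro h
        exact absurd hv₀ h
    apply hb
    rw [← h3, ← fn_val hL, h1]
    rfl

open Classical in
/-- the functional of `a` at a prime outside `S` -/
theorem om_gen (hA : AnaF k) (hL : LocF k)
    (hGd : ∀ a : kˣ, ¬ IsSquare a → ∀ S₀ : Finset (HeightOneSpectrum (𝓞 k)), ∃ S, S₀ ⊆ S ∧ Gd S a)
    {S : Finset (HeightOneSpectrum (𝓞 k))} (hS : Adm S) (a : kˣ) (ha : a ∈ US S)
    {Q : HeightOneSpectrum (𝓞 k)} (hQ : Q ∉ S) :
    ∑ v ∈ pls S, om v a (gen S Q) = if (Sum.inl Q : Pl k) ∈ TG a then 1 else 0 := by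
  have hsub : S ⊆ insert Q S := Finset.subset_insert Q S
  have hgen : gen S Q ∈ US (insert Q S) := by
    rw [mem_US]
    intro R hR
    rw [Finset.mem_insert, not_or] at hR
    exact (gen_spec hS hQ).2 R hR.2 hR.1
  have h1 := om_sum hA hL hGd (S := insert Q S) (fun P hP => hsub (hS.two P hP)) a (gen S Q)
    (US_mono hsub ha) hgen
  have h2 : pls (insert Q S) = insert (Sum.inl Q : Pl k) (pls S) := by
    ext v
    rcases v with P | φ
    · rw [B.inl_mem_pls, Finset.mem_insert, Finset.mem_insert, B.inl_mem_pls, Sum.inl.injEq]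
    · rw [Finset.mem_insert]
      exact ⟨fun _ => Or.inr (B.inr_mem_pls S φ), fun _ => B.inr_mem_pls _ φ⟩
  have h3 : (Sum.inl Q : Pl k) ∉ pls S := fun h => hQ (B.inl_mem_pls.1 h)
  rw [h2, Finset.sum_insert h3] at h1
  have h4 : om (Sum.inl Q : Pl k) a (gen S Q) = if (Sum.inl Q : Pl k) ∈ TG a then 1 else 0 := by
    unfold om
    by_cases h : (Sum.inl Q : Pl k) ∈ TG a
    · rw [if_pos h, if_pos h]
      exact hv_gen hL hS hQ a ha (TG_nsp h)
    · rw [if_neg h, if_neg h]
  rw [← h4]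
  have h5 : ∀ x y : ZMod 2, x + y = 0 → y = x := by decide
  exact h5 _ _ h1

end

end Pool.Agent.H98.MF.R
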