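import Pool.Agent.H98.MF.C.RDefs

/-!
# Project MK4, block C, second half: groups modulo squares
-/

set_option autoImplicit false

open scoped BigOperators Pointwise
open NumberField IsDedekindDomain

namespace Pool.Agent.H98.MF.R

section

variable {k : Type} [Field k] [NumberField k]

/-- two nontrivial elements of a group of order two multiply to one -/
theorem gr_mul (a b : Multiplicative (ZMod 2)) (ha : a ≠ 1) (hb : b ≠ 1) : a * b = 1 := by
  revert a b; decide

theorem gr_eq (a b : Multiplicative (ZMod 2)) (ha : a ≠ 1) (hb : b ≠ 1) : a = b := by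
  revert a b; decide

/-- the quotient as an additive group is killed by two -/
theorem gr_two {G : Type} [CommGroup G] (H : Subgroup G) (hH : ∀ x : G, x * x ∈ H)
    (v : Additive (G ⧸ H)) : 2 • v = 0 := by
  obtain ⟨q, rfl⟩ := Additive.ofMul.surjective v
  obtain ⟨x, rfl⟩ := QuotientGroup.mk_surjective q
  rw [two_nsmul, ← ofMul_mul, ← QuotientGroup.mk_mul, ofMul_eq_zero, QuotientGroup.eq_one_iff]
  exact hH x

/-- homomorphism attached to an additive functional on the quotient -/
def gr_hom {G : Type} [CommGroup G] (H : Subgroup G) (f : Additive (G ⧸ H) →+ ZMod 2) :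
    G →* Multiplicative (ZMod 2) where
  toFun g := Multiplicative.ofAdd (f (Additive.ofMul (g : G ⧸ H)))
  map_one' := by simp
  map_mul' x y := by
    rw [QuotientGroup.mk_mul, ofMul_mul, map_add, ofAdd_add]

/-- homomorphisms to `ZMod 2` separate a subgroup containing the squares -/
theorem sep_two {G : Type} [CommGroup G] (H : Subgroup G) (hH : ∀ x : G, x * x ∈ H) (x : G)
    (hx : x ∉ H) : ∃ ψ : G →* Multiplicative (ZMod 2), (∀ y ∈ H, ψ y = 1) ∧ ψ x ≠ 1 := by
  let _ : Module (ZMod 2) (Additive (G ⧸ H)) := AddCommGroup.zmodModule (gr_two H hH)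
  have h1 : (Additive.ofMul (x : G ⧸ H)) ≠ 0 := by
    rw [Ne, ofMul_eq_zero, QuotientGroup.eq_one_iff]
    exact hx
  have h2 : ∃ φ : Module.Dual (ZMod 2) (Additive (G ⧸ H)), φ (Additive.ofMul (x : G ⧸ H)) ≠ 0 := by
    by_contra h
    push Not at h
    exact h1 ((Module.forall_dual_apply_eq_zero_iff (ZMod 2) _).1 h)
  obtain ⟨φ, hφ⟩ := h2
  refine ⟨gr_hom H φ.toAddMonoidHom, fun y hy => ?_, fun h => hφ ?_⟩
  · change Multiplicative.ofAdd (φ (Additive.ofMul (y : G ⧸ H))) = 1
    rw [(QuotientGroup.eq_one_iff y).2 hy, ofMul_one, map_zero, ofAdd_zero]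
  · exact ofAdd_eq_one.1 h

/-- index at most two from at most one nontrivial homomorphism -/
theorem index_le_two {G : Type} [CommGroup G] (H : Subgroup G) (hH : ∀ x : G, x * x ∈ H)
    (h : ∀ ψ φ : G →* Multiplicative (ZMod 2), (∀ y ∈ H, ψ y = 1) → (∀ y ∈ H, φ y = 1) →
      ψ ≠ 1 → φ ≠ 1 → ψ = φ) : H.index = 1 ∨ H.index = 2 := by
  by_cases ht : H = ⊤
  · left; rw [ht, Subgroup.index_top]
  · right
    obtain ⟨x, hx⟩ : ∃ x, x ∉ H := by
      by_contra hc
      push Not at hc
      exact ht ((Subgroup.eq_top_iff' H).2 hc)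
    rw [Subgroup.index_eq_two_iff]
    refine ⟨x, fun b => ?_⟩
    by_cases hb : b ∈ H
    · right
      refine ⟨hb, fun hbx => hx ?_⟩
      exact (H.mul_mem_cancel_left hb).1 hbx
    · left
      refine ⟨?_, hb⟩
      by_contra hbx
      have hne : ∀ (ψ : G →* Multiplicative (ZMod 2)) (z : G), ψ z ≠ 1 → ψ ≠ 1 := by
        rintro ψ z hz rfl
        exact hz rfl
      obtain ⟨ψ, hψ, hψx⟩ := sep_two H hH x hx
      obtain ⟨φ, hφ, hφb⟩ := sep_two H hH b hb
      obtain ⟨θ, hθ, hθx⟩ := sep_two H hH (b * x) hbx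
      have e1 := h ψ θ hψ hθ (hne _ _ hψx) (hne _ _ hθx)
      have e2 := h φ θ hφ hθ (hne _ _ hφb) (hne _ _ hθx)
      apply hθx
      rw [map_mul]
      rw [e1] at hψx
      rw [e2] at hφb
      exact gr_mul _ _ hφb hψx

/-- index two gives exactly one nontrivial homomorphism -/
theorem index_two_unique {G : Type} [CommGroup G] (H : Subgroup G) (hi : H.index = 2)
    (ψ φ : G →* Multiplicative (ZMod 2)) (hψ : ∀ y ∈ H, ψ y = 1) (hφ : ∀ y ∈ H, φ y = 1)
    (h1 : ψ ≠ 1) (h2 : φ ≠ 1) : ψ = φ := by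
  obtain ⟨a, ha⟩ := Subgroup.index_eq_two_iff.1 hi
  have key : ∀ θ : G →* Multiplicative (ZMod 2), (∀ y ∈ H, θ y = 1) → ∀ b, b ∉ H →
      θ b = (θ a)⁻¹ := by
    intro θ hθ b hb
    rcases ha b with h | h
    · have := hθ _ h.1
      rw [map_mul] at this
      exact eq_inv_of_mul_eq_one_left this
    · exact absurd h.1 hb
  have hne : ∀ θ : G →* Multiplicative (ZMod 2), (∀ y ∈ H, θ y = 1) → θ ≠ 1 → θ a ≠ 1 := by
    intro θ hθ h3 h4
    apply h3
    ext b
    by_cases hb : b ∈ H
    · rw [hθ b hb]; rfl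
    · rw [key θ hθ b hb, h4, inv_one]; rfl
  have e := gr_eq _ _ (hne ψ hψ h1) (hne φ hφ h2)
  apply MonoidHom.ext
  intro b
  by_cases hb : b ∈ H
  · rw [hψ b hb, hφ b hb]
  · rw [key ψ hψ b hb, key φ hφ b hb, e]

/-- counting: homomorphisms trivial on `H` with pairing against a group `A` -/
theorem dual_count {G A : Type} [CommGroup G] [CommGroup A] (H : Subgroup G)
    (hH : ∀ x : G, x * x ∈ H) (B : Subgroup A) (om : A →* (G →* Multiplicative (ZMod 2)))
    (h1 : ∀ a : A, ∀ y ∈ H, om a y = 1) (h2 : ∀ a : A, om a = 1 → a ∈ B)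
    (h3 : ∀ b ∈ B, om b = 1)
    (hf : H.index ≠ 0) (hc : H.index ≤ B.index) (hb : B.index ≠ 0)
    (ψ : G →* Multiplicative (ZMod 2)) (hψ : ∀ y ∈ H, ψ y = 1) : ∃ a : A, om a = ψ := by
  let _ : Module (ZMod 2) (Additive (G ⧸ H)) := AddCommGroup.zmodModule (gr_two H hH)
  have hfin : Finite (G ⧸ H) := by
    apply Nat.finite_of_card_ne_zero
    exact hf
  have hfinV : Finite (Additive (G ⧸ H)) := hfin
  have hfd : Module.Finite (ZMod 2) (Additive (G ⧸ H)) := Module.Finite.of_finite
  -- homomorphisms trivial on `H` as functionals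
  let D := {θ : G →* Multiplicative (ZMod 2) // ∀ y ∈ H, θ y = 1}
  let F : D → Module.Dual (ZMod 2) (Additive (G ⧸ H)) := fun θ =>
    AddMonoidHom.toZModLinearMap 2 (MonoidHom.toAdditiveLeft (QuotientGroup.lift H θ.1 θ.2))
  have hF : ∀ (θ : D) (x : G), F θ (Additive.ofMul (x : G ⧸ H)) = Multiplicative.toAdd (θ.1 x) :=
    fun θ x => rfl
  have hFinj : Function.Injective F := by
    intro θ θ' h
    apply Subtype.ext
    apply MonoidHom.ext
    intro x
    have := hF θ x
    rw [h, hF θ' x] at this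
    exact this.symm
  have hfinD : Finite (Module.Dual (ZMod 2) (Additive (G ⧸ H))) :=
    Module.finite_of_finite (ZMod 2)
  have hD : Finite D := Finite.of_injective F hFinj
  have hcard : Nat.card D ≤ H.index := by
    have e1 : Nat.card (Module.Dual (ZMod 2) (Additive (G ⧸ H))) = Nat.card (Additive (G ⧸ H)) := by
      rw [Module.natCard_eq_pow_finrank (K := ZMod 2), Subspace.dual_finrank_eq,
        ← Module.natCard_eq_pow_finrank (K := ZMod 2)]
    have e2 : Nat.card (Additive (G ⧸ H)) = H.index := rfl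
    rw [← e2, ← e1]
    exact Nat.card_le_card_of_injective F hFinj
  let g := QuotientGroup.lift B om h3
  have hg : ∀ a : A, g (a : A ⧸ B) = om a := fun a => rfl
  have hgD : ∀ q : A ⧸ B, ∀ y ∈ H, g q y = 1 := by
    intro q
    obtain ⟨a, rfl⟩ := QuotientGroup.mk_surjective q
    rw [hg]
    exact h1 a
  have hginj : Function.Injective g := by
    rw [injective_iff_map_eq_one]
    intro q hq
    obtain ⟨a, rfl⟩ := QuotientGroup.mk_surjective q
    rw [hg] at hq
    exact (QuotientGroup.eq_one_iff a).2 (h2 a hq)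
  let f : A ⧸ B → D := fun q => ⟨g q, hgD q⟩
  have hfinj : Function.Injective f := fun q q' h => hginj (congrArg Subtype.val h)
  have hbij : Function.Bijective f :=
    hfinj.bijective_of_nat_card_le (hcard.trans hc)
  obtain ⟨q, hq⟩ := hbij.2 ⟨ψ, hψ⟩
  obtain ⟨a, rfl⟩ := QuotientGroup.mk_surjective q
  exact ⟨a, congrArg Subtype.val hq⟩

end

end Pool.Agent.H98.MF.R
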