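import Pool.Agent.H98.MF.C.RSym

/-!
# Project MK4, block C, second half: the index of NS
-/

set_option autoImplicit false

open scoped BigOperators Pointwise
open NumberField IsDedekindDomain

namespace Pool.Agent.H98.MF.R

section

variable {k : Type} [Field k] [NumberField k]

theorem ix_zmod (x : ZMod 2) (h : x ≠ 0) : x = 1 := by
  revert h; revert x; decide

theorem ix_mem_nsp (S : Finset (HeightOneSpectrum (𝓞 k))) (a : kˣ) (v : Pl k) :
    v ∈ nsp S a ↔ v ∈ pls S ∧ a ∉ LS v := by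
  classical
  unfold nsp
  exact Finset.mem_filter

/-- prescribed symbols -/
theorem ix_surj (hL : LocF k) (S : Finset (HeightOneSpectrum (𝓞 k))) (a : kˣ)
    (g : Pl k → ZMod 2) : ∃ b : kˣ, ∀ v ∈ nsp S a, hv v (a : k) (b : k) = g v := by
  have h1 : ∀ v : Pl k, ∃ x : kˣ, a ∉ LS v → hv v (a : k) (x : k) = g v := by
    intro v
    by_cases ha : a ∈ LS v
    · exact ⟨1, fun h => absurd ha h⟩
    by_cases hg : g v = 0
    · refine ⟨1, fun _ => ?_⟩
      rw [hg]
      exact hv_one hL v a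
    · have h2 : ¬ ∀ b : kˣ, hv v (a : k) (b : k) = 0 := fun h => ha ((hL.rad v a).2 h)
      push Not at h2
      obtain ⟨b, hb⟩ := h2
      refine ⟨b, fun _ => ?_⟩
      rw [ix_zmod _ hb, ix_zmod _ hg]
  choose x hx using h1
  obtain ⟨b, hb⟩ := hL.wa (pls S) x
  refine ⟨b, fun v hv' => ?_⟩
  rw [ix_mem_nsp] at hv'
  rw [hv_congr hL v a b (x v) (hb v hv'.1)]
  exact hx v hv'.2

theorem ix_mem_NS (hL : LocF k) (S : Finset (HeightOneSpectrum (𝓞 k))) (a b : kˣ) :
    b ∈ NS S a ↔ ∀ v ∈ nsp S a, hv v (a : k) (b : k) = 0 := by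
  rw [mem_NS hL]
  constructor
  · intro h v hv'
    exact h v ((ix_mem_nsp S a v).1 hv').1
  · intro h v hv'
    by_cases ha : a ∈ LS v
    · exact (hL.rad v a).1 ha b
    · exact h v ((ix_mem_nsp S a v).2 ⟨hv', ha⟩)

/-- the vector of symbols -/
noncomputable def ix_F (hL : LocF k) (S : Finset (HeightOneSpectrum (𝓞 k))) (a : kˣ) :
    kˣ →* ({v : Pl k // v ∈ nsp S a} → Multiplicative (ZMod 2)) :=
  MonoidHom.pi (fun v => hvH hL v.1 a)

theorem ix_ker (hL : LocF k) (S : Finset (HeightOneSpectrum (𝓞 k))) (a : kˣ) :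
    (ix_F hL S a).ker = NS S a := by
  ext b
  rw [MonoidHom.mem_ker, ix_mem_NS hL]
  constructor
  · intro h v hv'
    have h1 := congrFun h ⟨v, hv'⟩
    exact congrArg Multiplicative.toAdd h1
  · intro h
    funext v
    have h1 := h v.1 v.2
    exact congrArg Multiplicative.ofAdd h1

theorem ix_onto (hL : LocF k) (S : Finset (HeightOneSpectrum (𝓞 k))) (a : kˣ) :
    Function.Surjective (ix_F hL S a) := by
  classical
  intro g
  obtain ⟨b, hb⟩ := ix_surj hL S a
    (fun v => if h : v ∈ nsp S a then Multiplicative.toAdd (g ⟨v, h⟩) else 0)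
  refine ⟨b, ?_⟩
  funext v
  have h1 := hb v.1 v.2
  rw [dif_pos v.2] at h1
  exact congrArg Multiplicative.ofAdd h1

theorem NS_index (hL : LocF k) (S : Finset (HeightOneSpectrum (𝓞 k))) (a : kˣ) :
    (NS S a).index = 2 ^ (nsp S a).card := by
  rw [← ix_ker hL, Subgroup.index_ker, MonoidHom.range_eq_top_of_surjective _ (ix_onto hL S a),
    Subgroup.card_top, Nat.card_fun]
  congr 1
  · rw [Nat.card_eq_fintype_card, Fintype.card_multiplicative, ZMod.card]
  · rw [Nat.card_eq_fintype_card, Fintype.card_coe]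

theorem ix_val2_prod (χ : kˣ →* Multiplicative (ZMod 2)) (s : Finset (Pl k)) (e : Pl k → kˣ)
    (n : Pl k → ZMod 2) :
    val2 χ (∏ v ∈ s, e v ^ (n v).val) = ∑ v ∈ s, n v * val2 χ (e v) := by
  unfold val2
  rw [map_prod, toAdd_prod]
  refine Finset.sum_congr rfl fun v _ => ?_
  rw [map_pow, toAdd_pow, nsmul_eq_mul, ZMod.natCast_zmod_val]

open Classical in
/-- dual vectors -/
theorem ix_dual (hL : LocF k) (S : Finset (HeightOneSpectrum (𝓞 k))) (a : kˣ) :
    ∃ e : Pl k → kˣ, ∀ v, ∀ w ∈ nsp S a, hv w (a : k) (e v : k) = if w = v then 1 else 0 := by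
  choose e he using fun v : Pl k => ix_surj hL S a (fun w => if w = v then 1 else 0)
  exact ⟨e, he⟩

/-- every functional trivial on `NS S a` is a sum of symbols -/
theorem NS_dual (hL : LocF k) (S : Finset (HeightOneSpectrum (𝓞 k))) (a : kˣ)
    (ψ : kˣ →* Multiplicative (ZMod 2)) (hψ : ∀ b ∈ NS S a, ψ b = 1) :
    ∃ T : Finset (Pl k), T ⊆ nsp S a ∧ ∀ b : kˣ, val2 ψ b = ∑ v ∈ T, hv v (a : k) (b : k) := by
  classical
  obtain ⟨e, he⟩ := ix_dual hL S a
  refine ⟨(nsp S a).filter (fun v => val2 ψ (e v) ≠ 0), Finset.filter_subset _ _, fun b => ?_⟩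
  set b' : kˣ := ∏ v ∈ nsp S a, e v ^ (hv v (a : k) (b : k)).val with hb'
  have h1 : ∀ w ∈ nsp S a, hv w (a : k) (b' : k) = hv w (a : k) (b : k) := by
    intro w hw
    have h2 : hv w (a : k) (b' : k) = val2 (hvH hL w a) b' := rfl
    have h4 : ∀ v : Pl k, val2 (hvH hL w a) (e v) = if w = v then 1 else 0 :=
      fun v => he v w hw
    rw [h2, hb', ix_val2_prod]
    simp only [h4]
    simp [hw]
  have h5 : b * b'⁻¹ ∈ NS S a := by
    rw [ix_mem_NS hL]
    intro w hw
    rw [hv_mulr hL, hv_inv hL, h1 w hw]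
    exact CharTwo.add_self_eq_zero _
  have h6 : val2 ψ b = val2 ψ b' := by
    have h7 := hψ _ h5
    have h8 : ψ b = ψ b' := by
      rw [map_mul, map_inv] at h7
      exact mul_inv_eq_one.1 h7
    unfold val2
    rw [h8]
  rw [h6, hb', ix_val2_prod, Finset.sum_filter]
  refine Finset.sum_congr rfl fun v _ => ?_
  by_cases h0 : val2 ψ (e v) = 0
  · simp [h0]
  · rw [if_pos h0, ix_zmod _ h0, mul_one]

/-- uniqueness of the set of places -/
theorem sum_inj (hL : LocF k) (S : Finset (HeightOneSpectrum (𝓞 k))) (a : kˣ)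
    (T T' : Finset (Pl k)) (hT : T ⊆ nsp S a) (hT' : T' ⊆ nsp S a)
    (h : ∀ b : kˣ, ∑ v ∈ T, hv v (a : k) (b : k) = ∑ v ∈ T', hv v (a : k) (b : k)) :
    T = T' := by
  classical
  obtain ⟨e, he⟩ := ix_dual hL S a
  have key : ∀ U : Finset (Pl k), U ⊆ nsp S a → ∀ v : Pl k,
      ∑ w ∈ U, hv w (a : k) (e v : k) = if v ∈ U then 1 else 0 := by
    intro U hU v
    rw [Finset.sum_congr rfl (fun w hw => he v w (hU hw))]
    simp
  ext v
  have h1 := h (e v)
  rw [key T hT, key T' hT'] at h1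
  by_cases hv1 : v ∈ T <;> by_cases hv2 : v ∈ T' <;> simp_all

end

end Pool.Agent.H98.MF.R
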