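import Pool.Agent.H98.MF.C.RSym
import Pool.Agent.H98.MF.C.RGrp
import Pool.Agent.H98.MF.C.RSparse

/-!
# Project MK4, block C, second half: the second inequality, analytic part
-/

set_option autoImplicit false

open scoped BigOperators Pointwise
open NumberField IsDedekindDomain

namespace Pool.Agent.H98.MF.R

section

variable {k : Type} [Field k] [NumberField k]

theorem sp_eq_of_mul (x y : Multiplicative (ZMod 2)) (h : x * y = 1) : x = y := by
  revert x y; decide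

theorem sp_four (x y : ZMod 2) : 0 ≤ 1 + sg2 x + sg2 y + sg2 (x + y) := by
  have h : ∀ z : ZMod 2, z = 0 ∨ z = 1 := by decide
  have h11 : (1 + 1 : ZMod 2) = 0 := by decide
  rcases h x with rfl | rfl <;> rcases h y with rfl | rfl <;> (simp [sg2, h11]; try norm_num)

theorem sp_zero : 1 + sg2 0 + sg2 0 + sg2 (0 + 0) = (4 : ℝ) := by
  simp [sg2]; norm_num

theorem sp_fnl (hL : LocF k) {S : Finset (HeightOneSpectrum (𝓞 k))} {a : kˣ}
    (ψ : kˣ →* Multiplicative (ZMod 2)) (hψ : ∀ y ∈ US S ⊔ NS S a, ψ y = 1) : Fnl S ψ where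
  unit b hb := hψ b ((le_sup_left : US S ≤ US S ⊔ NS S a) hb)
  loc b hb := hψ b ((le_sup_right : NS S a ≤ US S ⊔ NS S a) (KS_le_NS hL S a hb))

theorem split_sum (hA : AnaF k) (hL : LocF k) {S : Finset (HeightOneSpectrum (𝓞 k))} {a : kˣ}
    (hG : Gd S a) (hns : ¬ IsSquare a) (ψ φ : kˣ →* Multiplicative (ZMod 2))
    (hψ : ∀ y ∈ US S ⊔ NS S a, ψ y = 1) (hφ : ∀ y ∈ US S ⊔ NS S a, φ y = 1)
    (h1 : ψ ≠ 1) (h2 : φ ≠ 1) : ψ = φ := by
  classical
  by_contra hne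
  have h3 : ψ * φ ≠ 1 := fun h => hne (by
    ext y
    have := congrArg (fun f : kˣ →* Multiplicative (ZMod 2) => f y) h
    exact congrArg Multiplicative.toAdd (sp_eq_of_mul _ _ this))
  have hψφ : ∀ y ∈ US S ⊔ NS S a, (ψ * φ) y = 1 := fun y hy => by
    rw [MonoidHom.mul_apply, hψ y hy, hφ y hy, one_mul]
  obtain ⟨C1, c1⟩ := hA.n2 S hG.adm ψ (sp_fnl hL ψ hψ) h1
  obtain ⟨C2, c2⟩ := hA.n2 S hG.adm φ (sp_fnl hL φ hφ) h2
  obtain ⟨C3, c3⟩ := hA.n2 S hG.adm (ψ * φ) (sp_fnl hL (ψ * φ) hψφ) h3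
  obtain ⟨C4, c4⟩ := hA.n4
  obtain ⟨Ca, ca⟩ := hA.n4a a hns
  refine sp_unb (c := 1) (K := C4 + C1 + C2 + C3 + 4 * Ca + 4 * S.card) one_pos
    (fun s hs hs2 => ?_)
  have a0 := hA.sm s hs
  have a1 := sp_sums hA hs S (fun Q => val2 ψ (gen S Q))
  have a2 := sp_sums hA hs S (fun Q => val2 φ (gen S Q))
  have a3 := sp_sums hA hs S (fun Q => val2 (ψ * φ) (gen S Q))
  have a4 := sp_sumS hA hs S
  have a5 := sp_sum hA hs (fun Q => LocSq Q (a : k))
  have key : ∑' Q : HeightOneSpectrum (𝓞 k),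
      4 * (if LocSq Q (a : k) then (nrm Q : ℝ) ^ (-s) else 0) ≤
      ∑' Q : HeightOneSpectrum (𝓞 k),
        ((nrm Q : ℝ) ^ (-s) +
        (if Q ∈ S then 0 else sg2 (val2 ψ (gen S Q)) * (nrm Q : ℝ) ^ (-s)) +
        (if Q ∈ S then 0 else sg2 (val2 φ (gen S Q)) * (nrm Q : ℝ) ^ (-s)) +
        (if Q ∈ S then 0 else sg2 (val2 (ψ * φ) (gen S Q)) * (nrm Q : ℝ) ^ (-s)) +
        4 * (if Q ∈ S then (nrm Q : ℝ) ^ (-s) else 0)) := by
    refine Summable.tsum_le_tsum (fun Q => ?_) (a5.mul_left 4)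
      ((((a0.add a1).add a2).add a3).add (a4.mul_left 4))
    have hw := sp_w0 s Q
    by_cases hQ : Q ∈ S
    · rw [if_pos hQ, if_pos hQ, if_pos hQ, if_pos hQ]
      split_ifs <;> linarith
    · rw [if_neg hQ, if_neg hQ, if_neg hQ, if_neg hQ]
      have hv : val2 (ψ * φ) (gen S Q) = val2 ψ (gen S Q) + val2 φ (gen S Q) := rfl
      rw [hv]
      by_cases hl : LocSq Q (a : k)
      · have hg : gen S Q ∈ US S ⊔ NS S a :=
          (sup_le_sup_left (Nm_le_NS hL S a) (US S)) (hG.split Q hQ hl)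
        have e1 : val2 ψ (gen S Q) = 0 := by unfold val2; rw [hψ _ hg]; rfl
        have e2 : val2 φ (gen S Q) = 0 := by unfold val2; rw [hφ _ hg]; rfl
        rw [if_pos hl, e1, e2]
        have h4 : (1 + sg2 0 + sg2 0 + sg2 (0 + 0)) * (nrm Q : ℝ) ^ (-s) =
            4 * (nrm Q : ℝ) ^ (-s) := by rw [sp_zero]
        linarith
      · rw [if_neg hl]
        have := mul_nonneg (sp_four (val2 ψ (gen S Q)) (val2 φ (gen S Q))) hw
        linarith
  rw [tsum_mul_left, (((a0.add a1).add a2).add a3).tsum_add (a4.mul_left 4),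
    ((a0.add a1).add a2).tsum_add a3, (a0.add a1).tsum_add a2, a0.tsum_add a1,
    tsum_mul_left] at key
  have b1 := c1 s hs hs2
  have b2 := c2 s hs hs2
  have b3 := c3 s hs hs2
  have b4 := (abs_le.1 (c4 s hs hs2)).2
  have b5 := (abs_le.1 (ca s hs hs2)).1
  have b6 := sp_fin hA hs S
  linarith

end

end Pool.Agent.H98.MF.R
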