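import Pool.Agent.H98.MF.C.RIdx
import Pool.Agent.H98.MF.C.RSplit

/-!
# Project MK4, block C, second half: the second inequality
-/

set_option autoImplicit false

open scoped BigOperators Pointwise
open NumberField IsDedekindDomain

namespace Pool.Agent.H98.MF.R

section

variable {k : Type} [Field k] [NumberField k]

/-- `|Q_a| = 2`, the Hasse norm theorem for `S`-units, and a place where `a` is not a square -/
theorem Gd.main (hA : AnaF k) (hL : LocF k) {S : Finset (HeightOneSpectrum (𝓞 k))} {a : kˣ}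
    (hG : Gd S a) (hns : ¬ IsSquare a) :
    (US S ⊔ NS S a).index = 2 ∧ (∀ b ∈ US S, b ∈ NS S a → b ∈ Nm a) ∧ (nsp S a).Nonempty := by
  obtain ⟨NU, h1, h2, h3⟩ := hG.idx
  have hsq : ∀ x : kˣ, x * x ∈ NS S a := by
    intro x
    rw [mem_NS hL]
    intro v _
    rw [hL.symm]
    exact hv_sq hL v _ _ ⟨x, rfl⟩
  have hi := index_le_two (US S ⊔ NS S a) (fun x => Subgroup.mem_sup_right (hsq x))
    (split_sum hA hL hG hns)
  have e1 := NS_index hL S a
  have e2 : (NS S a).relIndex (US S ⊔ NS S a) * (US S ⊔ NS S a).index = (NS S a).index :=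
    Subgroup.relIndex_mul_index le_sup_right
  have e3 : (NS S a).relIndex (US S ⊔ NS S a) = (NS S a).relIndex (US S) :=
    Subgroup.relIndex_sup_right (US S) (NS S a)
  have hle : NU ≤ NS S a ⊓ US S := le_inf (h2.trans (Nm_le_NS hL S a)) h1
  have e4 := Subgroup.relIndex_mul_relIndex NU (NS S a ⊓ US S) (US S) hle inf_le_right
  rw [Subgroup.inf_relIndex_right] at e4
  have hpos : 0 < 2 ^ (nsp S a).card := by positivity
  rw [e3, e1] at e2
  have hj : (NS S a).relIndex (US S) ≠ 0 := by
    intro h0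
    rw [h0, zero_mul] at e2
    omega
  have e5 : 2 * NU.relIndex (NS S a ⊓ US S) = (US S ⊔ NS S a).index := by
    apply Nat.eq_of_mul_eq_mul_left (Nat.pos_of_ne_zero hj)
    rw [e2, ← h3, ← e4]
    ring
  have hi2 : (US S ⊔ NS S a).index = 2 := by
    rcases hi with h | h
    · omega
    · exact h
  have hq : NU.relIndex (NS S a ⊓ US S) = 1 := by omega
  rw [Subgroup.relIndex_eq_one] at hq
  refine ⟨hi2, fun b hb hb' => h2 (hq ⟨hb', hb⟩), ?_⟩
  rw [← Finset.card_pos]
  rcases Nat.eq_zero_or_pos (nsp S a).card with h0 | h0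
  · rw [h0] at h3
    omega
  · exact h0

end

end Pool.Agent.H98.MF.R
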