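import Pool.Agent.H98.MF.C.RUnit

/-!
# Project MK4, block C, second half: no bad places
-/

set_option autoImplicit false

open scoped BigOperators Pointwise
open NumberField IsDedekindDomain

namespace Pool.Agent.H98.MF.R

section

variable {k : Type} [Field k] [NumberField k]

/-- finitely many representatives of a subgroup modulo squares -/
theorem nb_reps {G : Type} [CommGroup G] (A : Subgroup G) (h : (sqr A).relIndex A ≠ 0) :
    ∃ R : Finset G, (∀ r ∈ R, r ∈ A) ∧ ∀ x ∈ A, ∃ r ∈ R, ∃ d : G, x = r * d ^ 2 := by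
  classical
  have hfi : ((sqr A).subgroupOf A).FiniteIndex := ⟨h⟩
  have hfin : Finite (A ⧸ (sqr A).subgroupOf A) := Subgroup.finite_quotient_of_finiteIndex
  have hr : (Set.range (fun q : A ⧸ (sqr A).subgroupOf A => ((Quotient.out q : A) : G))).Finite :=
    Set.finite_range _
  refine ⟨hr.toFinset, ?_, ?_⟩
  · intro r hr'
    rw [Set.Finite.mem_toFinset] at hr'
    obtain ⟨q, rfl⟩ := hr'
    exact (Quotient.out q : A).2
  · intro x hx
    let q : A ⧸ (sqr A).subgroupOf A := QuotientGroup.mk (⟨x, hx⟩ : A)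
    refine ⟨((Quotient.out q : A) : G), ?_, ?_⟩
    · rw [Set.Finite.mem_toFinset]
      exact ⟨q, rfl⟩
    · have h1 : (QuotientGroup.mk (Quotient.out q : A) : A ⧸ (sqr A).subgroupOf A) =
          QuotientGroup.mk (⟨x, hx⟩ : A) := QuotientGroup.out_eq' q
      rw [QuotientGroup.eq, Subgroup.mem_subgroupOf] at h1
      obtain ⟨d, _, hd⟩ := B.mem_sqr.1 h1
      refine ⟨d, ?_⟩
      rw [hd]
      push_cast
      rw [mul_inv_cancel_left]

/-- the exponent of a power product of prime generators -/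
theorem nb_ord {S T : Finset (HeightOneSpectrum (𝓞 k))} (hS : Adm S) (n : HeightOneSpectrum (𝓞 k) → ℤ)
    (hT : ∀ Q ∈ T, Q ∉ S) (R : HeightOneSpectrum (𝓞 k)) (hR : R ∉ S) :
    ord R ((∏ Q ∈ T, gen S Q ^ n Q : kˣ) : k) = by classical exact if R ∈ T then n R else 0 := by
  classical
  rw [B.ord_prod]
  have h1 : ∀ Q ∈ T, ord R ((gen S Q ^ n Q : kˣ) : k) = if R = Q then n Q else 0 := by
    intro Q hQ
    rw [Units.val_zpow_eq_zpow_val, B.ord_zpow]
    have h2 := gen_spec hS (hT Q hQ)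
    by_cases h : R = Q
    · subst h
      rw [h2.1, if_pos rfl, mul_one]
    · rw [h2.2 R hR h, if_neg h, mul_zero]
  rw [Finset.sum_congr rfl h1, Finset.sum_ite_eq]

theorem no_bad (hA : AnaF k) (hL : LocF k)
    (hGd : ∀ a : kˣ, ¬ IsSquare a → ∀ S₀ : Finset (HeightOneSpectrum (𝓞 k)), ∃ S, S₀ ⊆ S ∧ Gd S a)
    (hcard : ∀ S : Finset (HeightOneSpectrum (𝓞 k)), Adm S → (KS S).index = 4 ^ mS S ∧
      (sqr (US S)).relIndex (US S) = 2 ^ mS S)
    (hadm : ∀ S₀ : Finset (HeightOneSpectrum (𝓞 k)), ∃ S, S₀ ⊆ S ∧ Adm S)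
    (v : Pl k) : ∀ a : kˣ, a ∉ LS v → v ∈ TG a := by
  classical
  rcases dicho hA hL hGd v with hbad | h
  swap
  · exact h
  exfalso
  have hSv : ∃ S : Finset (HeightOneSpectrum (𝓞 k)), Adm S ∧ v ∈ pls S := by
    rcases v with P | φ
    · obtain ⟨S, h1, h2⟩ := hadm {P}
      exact ⟨S, h2, B.inl_mem_pls.2 (h1 (Finset.mem_singleton_self P))⟩
    · obtain ⟨S, _, h2⟩ := hadm ∅
      exact ⟨S, h2, B.inr_mem_pls S φ⟩
  obtain ⟨S, hS, hv⟩ := hSv
  have hri : (sqr (US S)).relIndex (US S) ≠ 0 := by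
    rw [(hcard S hS).2]
    positivity
  obtain ⟨R, hRU, hR⟩ := nb_reps (US S) hri
  let f : kˣ → Finset (HeightOneSpectrum (𝓞 k)) := fun r =>
    if h : ∃ Q : HeightOneSpectrum (𝓞 k), Q ∉ S ∧ r ∉ LS (Sum.inl Q : Pl k) then {h.choose} else ∅
  have hf : ∀ r, ∀ Q ∈ f r, Q ∉ S ∧ r ∉ LS (Sum.inl Q : Pl k) := by
    intro r Q hQ
    by_cases h : ∃ Q : HeightOneSpectrum (𝓞 k), Q ∉ S ∧ r ∉ LS (Sum.inl Q : Pl k)
    · have h1 : f r = {h.choose} := dif_pos h
      rw [h1, Finset.mem_singleton] at hQ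
      rw [hQ]
      exact h.choose_spec
    · have h1 : f r = ∅ := dif_neg h
      rw [h1] at hQ
      exact absurd hQ (Finset.notMem_empty Q)
  have hf2 : ∀ r, (∃ Q : HeightOneSpectrum (𝓞 k), Q ∉ S ∧ r ∉ LS (Sum.inl Q : Pl k)) →
      ∃ Q, Q ∈ f r := by
    intro r h
    have h1 : f r = {h.choose} := dif_pos h
    exact ⟨h.choose, by rw [h1]; exact Finset.mem_singleton_self _⟩
  let T : Finset (HeightOneSpectrum (𝓞 k)) := R.biUnion f
  have hTS : ∀ Q ∈ T, Q ∉ S := by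
    intro Q hQ
    obtain ⟨r, _, hQ'⟩ := Finset.mem_biUnion.1 hQ
    exact (hf r Q hQ').1
  have hSS : S ⊆ S ∪ T := Finset.subset_union_left
  have hne : ∀ Q : HeightOneSpectrum (𝓞 k), Q ∉ S → (Sum.inl Q : Pl k) ≠ v := by
    intro Q hQ h
    rw [← h] at hv
    exact hQ (B.inl_mem_pls.1 hv)
  obtain ⟨b, hb, hbv, hbw⟩ := bad_unit hA hL hGd hcard (Adm.mono hS hSS) v
    (B.pls_mono hSS hv) hbad
  let c : kˣ := ∏ Q ∈ T, gen S Q ^ (ord Q (b : k) / 2)
  have hc : b * (c ^ 2)⁻¹ ∈ US S := by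
    rw [mem_US]
    intro Q hQ
    have h1 : ord Q (c : k) = if Q ∈ T then ord Q (b : k) / 2 else 0 :=
      nb_ord hS (fun Q => ord Q (b : k) / 2) hTS Q hQ
    rw [ord_mul, ord_inv, Units.val_pow_eq_pow_val, B.ord_pow, h1]
    by_cases hQT : Q ∈ T
    · have h2 : b ∈ LS (Sum.inl Q : Pl k) :=
        hbw _ (B.inl_mem_pls.2 (Finset.mem_union_right S hQT)) (hne Q hQ)
      obtain ⟨t, ht⟩ := hL.even Q b h2
      rw [if_pos hQT]
      push_cast
      omega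
    · have h2 : ord Q (b : k) = 0 := by
        refine (mem_US _ b).1 hb Q ?_
        intro h
        rcases Finset.mem_union.1 h with h | h
        · exact hQ h
        · exact hQT h
      rw [if_neg hQT, h2]
      simp
  obtain ⟨r, hr, d, hd⟩ := hR _ hc
  have hrb : r = b * ((c * d)⁻¹ * (c * d)⁻¹) := by
    have h1 : b = r * d ^ 2 * c ^ 2 := by
      rw [← hd, inv_mul_cancel_right]
    rw [h1]
    have h2 : r * d ^ 2 * c ^ 2 * ((c * d)⁻¹ * (c * d)⁻¹) = r * ((c * d) ^ 2 * ((c * d) ^ 2)⁻¹) := by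
      rw [mul_pow, pow_two (c * d)⁻¹ |>.symm, inv_pow, mul_pow]
      simp only [mul_assoc]
      rw [← mul_assoc (d ^ 2) (c ^ 2), mul_comm (d ^ 2) (c ^ 2), mul_assoc]
    rw [h2, mul_inv_cancel, mul_one]
  have hsq : ∀ w : Pl k, (c * d)⁻¹ * (c * d)⁻¹ ∈ LS w := fun w => sq_mem_LS w hL _ ⟨_, rfl⟩
  have hrw : ∀ w : Pl k, b ∈ LS w → r ∈ LS w := by
    intro w hw
    rw [hrb]
    exact (LS w).mul_mem hw (hsq w)
  have hrv : r ∉ LS v := by
    intro h
    apply hbv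
    have h1 : b = r * ((c * d)⁻¹ * (c * d)⁻¹)⁻¹ := by
      rw [hrb, mul_inv_cancel_right]
    rw [h1]
    exact (LS v).mul_mem h ((LS v).inv_mem (hsq v))
  have hrns : ¬ IsSquare r := fun h => hrv (sq_mem_LS v hL r h)
  obtain ⟨Q, hQ, hQr⟩ := nonsq_primes hA r hrns S
  have hQr' : r ∉ LS (Sum.inl Q : Pl k) := by
    rw [hL.ls_iff]
    exact hQr
  obtain ⟨Q', hQ'⟩ := hf2 r ⟨Q, hQ, hQr'⟩
  have h1 := hf r Q' hQ'
  refine h1.2 (hrw _ (hbw _ ?_ (hne Q' h1.1)))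
  exact B.inl_mem_pls.2 (Finset.mem_union_right S (Finset.mem_biUnion.2 ⟨r, hr, hQ'⟩))

end

end Pool.Agent.H98.MF.R
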