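import Pool.Agent.H98.MF.C.RMain

/-!
# Project MK4, block C, second half: the set of good places
-/

set_option autoImplicit false

open scoped BigOperators Pointwise
open NumberField IsDedekindDomain

namespace Pool.Agent.H98.MF.R

section

variable {k : Type} [Field k] [NumberField k]

theorem ta_sq (hL : LocF k) (S : Finset (HeightOneSpectrum (𝓞 k))) (a x : kˣ) :
    x * x ∈ NS S a := by
  rw [mem_NS hL]
  intro v _
  rw [hL.symm]
  exact hv_sq hL v _ _ ⟨x, rfl⟩

/-- the sum of symbols over a set of places as a homomorphism -/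
noncomputable def ta_hom (hL : LocF k) (a : kˣ) (T : Finset (Pl k)) :
    kˣ →* Multiplicative (ZMod 2) := ∏ v ∈ T, hvH hL v a

theorem ta_val (hL : LocF k) (a : kˣ) (T : Finset (Pl k)) (b : kˣ) :
    val2 (ta_hom hL a T) b = ∑ v ∈ T, hv v (a : k) (b : k) := by
  unfold val2 ta_hom
  rw [MonoidHom.finsetProd_apply, toAdd_prod]
  rfl

theorem ta_eq_one (ψ : kˣ →* Multiplicative (ZMod 2)) (b : kˣ) : ψ b = 1 ↔ val2 ψ b = 0 :=
  Iff.rfl

theorem ta_triv (hL : LocF k) {S : Finset (HeightOneSpectrum (𝓞 k))} {a : kˣ} {T : Finset (Pl k)}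
    (h1 : T ⊆ nsp S a) (h2 : ∀ b ∈ US S, ∑ v ∈ T, hv v (a : k) (b : k) = 0) :
    ∀ b ∈ US S ⊔ NS S a, ta_hom hL a T b = 1 := by
  have hsub : T ⊆ pls S := by
    classical
    intro v hv'
    have h := h1 hv'
    unfold nsp at h
    exact (Finset.mem_filter.1 h).1
  have hle : US S ⊔ NS S a ≤ (ta_hom hL a T).ker := by
    refine sup_le ?_ ?_
    · intro b hb
      rw [MonoidHom.mem_ker, ta_eq_one, ta_val]
      exact h2 b hb
    · intro b hb
      rw [MonoidHom.mem_ker, ta_eq_one, ta_val]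
      exact Finset.sum_eq_zero (fun v hv' => (mem_NS hL S a b).1 hb v (hsub hv'))
  exact fun b hb => hle hb

theorem ta_ne (hL : LocF k) {S : Finset (HeightOneSpectrum (𝓞 k))} {a : kˣ} {T : Finset (Pl k)}
    (h1 : T ⊆ nsp S a) (h3 : T.Nonempty) : ta_hom hL a T ≠ 1 := by
  intro h
  have := sum_inj hL S a T ∅ h1 (Finset.empty_subset _) (by
    intro b
    rw [← ta_val hL, h]
    rfl)
  rw [this] at h3
  exact Finset.not_nonempty_empty h3

theorem IsT.exists (hA : AnaF k) (hL : LocF k) {S : Finset (HeightOneSpectrum (𝓞 k))} {a : kˣ}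
    (hG : Gd S a) (hns : ¬ IsSquare a) : ∃ T, IsT S a T := by
  obtain ⟨hi, -, -⟩ := hG.main hA hL hns
  have hne : ∃ x : kˣ, x ∉ US S ⊔ NS S a := by
    by_contra hcon
    push Not at hcon
    have : US S ⊔ NS S a = ⊤ := by
      rw [eq_top_iff]
      exact fun x _ => hcon x
    rw [this, Subgroup.index_top] at hi
    omega
  obtain ⟨x, hx⟩ := hne
  obtain ⟨ψ, h1, h2⟩ := sep_two (US S ⊔ NS S a)
    (fun x => Subgroup.mem_sup_right (ta_sq hL S a x)) x hx
  obtain ⟨T, hT, hv2⟩ := NS_dual hL S a ψ (fun b hb => h1 b (Subgroup.mem_sup_right hb))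
  refine ⟨T, hT, ?_, fun b hb => ?_⟩
  · rw [Finset.nonempty_iff_ne_empty]
    rintro rfl
    apply h2
    rw [ta_eq_one, hv2, Finset.sum_empty]
  · rw [← hv2, ← ta_eq_one]
    exact h1 b (Subgroup.mem_sup_left hb)

theorem IsT.unique (hA : AnaF k) (hL : LocF k) {S : Finset (HeightOneSpectrum (𝓞 k))} {a : kˣ}
    (hG : Gd S a) (hns : ¬ IsSquare a) {T : Finset (Pl k)} (hT : IsT S a T)
    {T' : Finset (Pl k)} (h1 : T' ⊆ nsp S a)
    (h2 : ∀ b ∈ US S, ∑ v ∈ T', hv v (a : k) (b : k) = 0) (h3 : T'.Nonempty) : T' = T := by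
  obtain ⟨hi, -, -⟩ := hG.main hA hL hns
  have := index_two_unique _ hi (ta_hom hL a T') (ta_hom hL a T) (ta_triv hL h1 h2)
    (ta_triv hL hT.sub hT.rel) (ta_ne hL h1 h3) (ta_ne hL hT.sub hT.ne)
  refine sum_inj hL S a T' T h1 hT.sub (fun b => ?_)
  rw [← ta_val hL, ← ta_val hL, this]

end

end Pool.Agent.H98.MF.R
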