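import Pool.Agent.H98.MF.C.RT1

/-!
# Project MK4, block C, second half: growth of the set of good places
-/

set_option autoImplicit false

open scoped BigOperators Pointwise
open NumberField IsDedekindDomain

namespace Pool.Agent.H98.MF.R

section

variable {k : Type} [Field k] [NumberField k]

theorem tb_mem_nsp {S : Finset (HeightOneSpectrum (𝓞 k))} {a : kˣ} {v : Pl k} :
    v ∈ nsp S a ↔ v ∈ pls S ∧ a ∉ LS v := by
  classical
  unfold nsp
  exact Finset.mem_filter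

open Classical in
theorem tb_rel (hL : LocF k) {S S' : Finset (HeightOneSpectrum (𝓞 k))} {a : kˣ}
    (hSS : S ⊆ S') (h2 : ∀ P : HeightOneSpectrum (𝓞 k), 0 < ord P (2 : k) → P ∈ S)
    (ha : a ∈ US S) {T' : Finset (Pl k)}
    (hr : ∀ b ∈ US S', ∑ v ∈ T', hv v (a : k) (b : k) = 0) :
    ∀ b ∈ US S, ∑ v ∈ T' with v ∈ pls S, hv v (a : k) (b : k) = 0 := by
  intro b hb
  rw [Finset.sum_filter_of_ne]
  · exact hr b (US_mono hSS hb)
  · intro v _ hne
    by_contra hc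
    exact hne (hv_unit hL h2 a b ha hb v hc)

/-- the set of places meets every admissible set -/
theorem tb_ne (hL : LocF k) {S S' : Finset (HeightOneSpectrum (𝓞 k))} {a : kˣ}
    (hSS : S ⊆ S') (hS : Adm S) (ha : a ∈ US S) {T' : Finset (Pl k)} (hT' : IsT S' a T') :
    ∃ v ∈ T', v ∈ pls S := by
  by_contra hc
  push Not at hc
  obtain ⟨v, hv1⟩ := hT'.ne
  have hv2 := tb_mem_nsp.1 (hT'.sub hv1)
  rcases v with Q | φ
  · have hQ : Q ∉ S := fun h => hc _ hv1 (B.inl_mem_pls.2 h)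
    have hQ' : Q ∈ S' := B.inl_mem_pls.1 hv2.1
    have hg : gen S Q ∈ US S' := by
      rw [mem_US]
      intro R hR
      refine (gen_spec hS hQ).2 R (fun h => hR (hSS h)) ?_
      rintro rfl
      exact hR hQ'
    have h1 := hT'.rel _ hg
    rw [Finset.sum_eq_single_of_mem (Sum.inl Q : Pl k) hv1, hv_gen hL hS hQ a ha hv2.2] at h1
    · exact one_ne_zero h1
    · intro w hw hne
      rcases w with R | φ
      · have hR : R ∉ S := fun h => hc _ hw (B.inl_mem_pls.2 h)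
        have hRQ : R ≠ Q := fun h => hne (by rw [h])
        have h0 : ord R (2 : k) = 0 := by
          have h3 := ord_two_nonneg R
          have h4 : ¬ 0 < ord R (2 : k) := fun h => hR (hS.two R h)
          omega
        exact hL.unit R a (gen S Q) h0 ((mem_US S a).1 ha R hR) ((gen_spec hS hQ).2 R hR hRQ)
      · exact absurd (B.inr_mem_pls S φ) (hc _ hw)
  · exact absurd (B.inr_mem_pls S φ) (hc _ hv1)

theorem IsT.grow (hA : AnaF k) (hL : LocF k) {S S' : Finset (HeightOneSpectrum (𝓞 k))} {a : kˣ}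
    (hSS : S ⊆ S') (hG : Gd S a) (hG' : Gd S' a) (hns : ¬ IsSquare a)
    {T T' : Finset (Pl k)} (hT : IsT S a T) (hT' : IsT S' a T') (v : Pl k) (hv' : v ∈ pls S) :
    v ∈ T' ↔ v ∈ T := by
  classical
  have h1 : T'.filter (fun v => v ∈ pls S) = T := by
    refine IsT.unique hA hL hG hns hT ?_ ?_ ?_
    · intro w hw
      rw [Finset.mem_filter] at hw
      exact tb_mem_nsp.2 ⟨hw.2, (tb_mem_nsp.1 (hT'.sub hw.1)).2⟩
    · intro b hb
      have h := tb_rel hL hSS hG.adm.two hG.mem hT'.rel b hb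
      convert h using 2
    · obtain ⟨w, hw1, hw2⟩ := tb_ne hL hSS hG.adm hG.mem hT'
      exact ⟨w, Finset.mem_filter.2 ⟨hw1, hw2⟩⟩
  rw [← h1, Finset.mem_filter]
  exact ⟨fun h => ⟨h, hv'⟩, fun h => h.1⟩

/-- `TG a` computed on one good set -/
theorem TG_iff (hA : AnaF k) (hL : LocF k)
    (hGd : ∀ a : kˣ, ¬ IsSquare a → ∀ S₀ : Finset (HeightOneSpectrum (𝓞 k)), ∃ S, S₀ ⊆ S ∧ Gd S a)
    {S : Finset (HeightOneSpectrum (𝓞 k))} {a : kˣ}
    (hG : Gd S a) (hns : ¬ IsSquare a) {T : Finset (Pl k)} (hT : IsT S a T) (v : Pl k)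
    (hv' : v ∈ pls S) : v ∈ TG a ↔ v ∈ T := by
  classical
  constructor
  · rintro ⟨S₁, T₁, hG₁, hT₁, hv₁⟩
    obtain ⟨S₂, hS₂, hG₂⟩ := hGd a hns (S ∪ S₁)
    obtain ⟨T₂, hT₂⟩ := IsT.exists hA hL hG₂ hns
    have h1 : v ∈ pls S₁ := (tb_mem_nsp.1 (hT₁.sub hv₁)).1
    have h2 := (IsT.grow hA hL (Finset.subset_union_right.trans hS₂) hG₁ hG₂ hns hT₁ hT₂ v h1).2 hv₁
    exact (IsT.grow hA hL (Finset.subset_union_left.trans hS₂) hG hG₂ hns hT hT₂ v hv').1 h2
  · intro h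
    exact ⟨S, T, hG, hT, h⟩

theorem TG_nsp {a : kˣ} {v : Pl k} (h : v ∈ TG a) : a ∉ LS v := by
  obtain ⟨S, T, _, hT, hv1⟩ := h
  exact (tb_mem_nsp.1 (hT.sub hv1)).2

/-- the relation -/
theorem om_sum (hA : AnaF k) (hL : LocF k)
    (hGd : ∀ a : kˣ, ¬ IsSquare a → ∀ S₀ : Finset (HeightOneSpectrum (𝓞 k)), ∃ S, S₀ ⊆ S ∧ Gd S a)
    {S : Finset (HeightOneSpectrum (𝓞 k))}
    (h2 : ∀ P : HeightOneSpectrum (𝓞 k), 0 < ord P (2 : k) → P ∈ S) (a b : kˣ)
    (ha : a ∈ US S) (hb : b ∈ US S) : ∑ v ∈ pls S, om v a b = 0 := by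
  classical
  by_cases hsq : IsSquare a
  · refine Finset.sum_eq_zero (fun v _ => ?_)
    unfold om
    rw [hv_sq hL v a b hsq, ite_self]
  · obtain ⟨S', hSS, hG⟩ := hGd a hsq S
    obtain ⟨T, hT⟩ := IsT.exists hA hL hG hsq
    have h1 : ∑ v ∈ pls S, om v a b = ∑ v ∈ pls S', om v a b := by
      refine Finset.sum_subset (B.pls_mono hSS) ?_
      intro v _ hv'
      unfold om
      rw [hv_unit hL h2 a b ha hb v hv', ite_self]
    have h3 : ∑ v ∈ pls S', om v a b = ∑ v ∈ T, hv v (a : k) (b : k) := by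
      symm
      have hsub : T ⊆ pls S' := fun v hv1 => (tb_mem_nsp.1 (hT.sub hv1)).1
      have h4 : ∑ v ∈ T, hv v (a : k) (b : k) = ∑ v ∈ T, om v a b := by
        refine Finset.sum_congr rfl (fun v hv1 => ?_)
        unfold om
        rw [if_pos ((TG_iff hA hL hGd hG hsq hT v (hsub hv1)).2 hv1)]
      rw [h4]
      refine Finset.sum_subset hsub ?_
      intro v hv1 hv2
      unfold om
      rw [if_neg (fun h => hv2 ((TG_iff hA hL hGd hG hsq hT v hv1).1 h))]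
    rw [h1, h3]
    exact hT.rel b (US_mono hSS hb)

/-- there is a good place in every admissible set -/
theorem TG_ne (hA : AnaF k) (hL : LocF k)
    (hGd : ∀ a : kˣ, ¬ IsSquare a → ∀ S₀ : Finset (HeightOneSpectrum (𝓞 k)), ∃ S, S₀ ⊆ S ∧ Gd S a)
    {S : Finset (HeightOneSpectrum (𝓞 k))} (hS : Adm S) (a : kˣ) (ha : a ∈ US S)
    (hns : ¬ IsSquare a) : ∃ v ∈ pls S, v ∈ TG a := by
  obtain ⟨S', hSS, hG⟩ := hGd a hns S
  obtain ⟨T, hT⟩ := IsT.exists hA hL hG hns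
  obtain ⟨v, hv1, hv2⟩ := tb_ne hL hSS hS ha hT
  exact ⟨v, hv2, S', T, hG, hT, hv1⟩

end

end Pool.Agent.H98.MF.R
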