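import Pool.Agent.H98.MF.C.RDic

/-!
# Project MK4, block C, second half: a bad place lies in the units
-/

set_option autoImplicit false

open scoped BigOperators Pointwise
open NumberField IsDedekindDomain

namespace Pool.Agent.H98.MF.R

section

variable {k : Type} [Field k] [NumberField k]

theorem un_om_mulr (hL : LocF k) (v : Pl k) (a x y : kˣ) :
    om v a (x * y) = om v a x + om v a y := by
  unfold om
  split_ifs
  · exact hv_mulr hL v a x y
  · simp

theorem un_om_one (hL : LocF k) (v : Pl k) (a : kˣ) : om v a 1 = 0 := by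
  unfold om
  split_ifs
  · exact hv_one hL v a
  · rfl

theorem un_om_ls (hL : LocF k) (v : Pl k) (a x : kˣ) (hx : x ∈ LS v) : om v a x = 0 := by
  unfold om
  split_ifs
  · rw [hL.symm]
    exact (hL.rad v x).1 hx a
  · rfl

theorem un_om_sq (hL : LocF k) (v : Pl k) (a x : kˣ) (ha : IsSquare a) : om v a x = 0 := by
  unfold om
  split_ifs
  · exact hv_sq hL v a x ha
  · rfl

theorem un_mul_self_KS (hL : LocF k) (S : Finset (HeightOneSpectrum (𝓞 k))) (x : kˣ) :
    x * x ∈ KS S := by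
  rw [mem_KS]
  intro v _
  exact sq_mem_LS v hL _ ⟨x, rfl⟩

theorem un_sqr_US (S : Finset (HeightOneSpectrum (𝓞 k))) (u : kˣ) (hu : u ∈ US S)
    (h : IsSquare u) : u ∈ sqr (US S) := by
  obtain ⟨c, hc⟩ := h
  refine ⟨c, ?_, ?_⟩
  · change c ∈ US S
    rw [mem_US]
    intro Q hQ
    have h1 := (mem_US S u).1 hu Q hQ
    rw [hc, ord_mul] at h1
    omega
  · change c ^ 2 = u
    rw [hc, pow_two]

theorem un_inf (hA : AnaF k) (hL : LocF k)
    (hGd : ∀ a : kˣ, ¬ IsSquare a → ∀ S₀ : Finset (HeightOneSpectrum (𝓞 k)), ∃ S, S₀ ⊆ S ∧ Gd S a)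
    {S : Finset (HeightOneSpectrum (𝓞 k))} (hS : Adm S) : KS S ⊓ US S = sqr (US S) := by
  apply le_antisymm
  · rintro u ⟨h1, h2⟩
    by_cases hns : IsSquare u
    · exact un_sqr_US S u h2 hns
    · exfalso
      obtain ⟨v, hv1, hv2⟩ := TG_ne hA hL hGd hS u h2 hns
      exact TG_nsp hv2 ((mem_KS S u).1 h1 v hv1)
  · rintro u ⟨c, hc, rfl⟩
    change c ^ 2 ∈ KS S ⊓ US S
    refine ⟨?_, ?_⟩
    · change c ^ 2 ∈ KS S
      rw [pow_two]
      exact un_mul_self_KS hL S c
    · exact (US S).pow_mem hc 2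

/-- the functional of an `S`-unit -/
noncomputable def un_f (hL : LocF k) (S : Finset (HeightOneSpectrum (𝓞 k))) (a : kˣ) :
    kˣ →* Multiplicative (ZMod 2) where
  toFun x := Multiplicative.ofAdd (∑ v ∈ pls S, om v a x)
  map_one' := by
    rw [Finset.sum_eq_zero fun v _ => un_om_one hL v a]
    rfl
  map_mul' x y := by
    rw [← ofAdd_add, ← Finset.sum_add_distrib]
    congr 1
    exact Finset.sum_congr rfl fun v _ => un_om_mulr hL v a x y

theorem un_f_apply (hL : LocF k) (S : Finset (HeightOneSpectrum (𝓞 k))) (a x : kˣ) :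
    un_f hL S a x = Multiplicative.ofAdd (∑ v ∈ pls S, om v a x) := rfl

/-- the functionals of the `S`-units -/
noncomputable def un_F (hA : AnaF k) (hL : LocF k)
    (hGd : ∀ a : kˣ, ¬ IsSquare a → ∀ S₀ : Finset (HeightOneSpectrum (𝓞 k)), ∃ S, S₀ ⊆ S ∧ Gd S a)
    (S : Finset (HeightOneSpectrum (𝓞 k))) : US S →* (kˣ →* Multiplicative (ZMod 2)) where
  toFun a := un_f hL S (a : kˣ)
  map_one' := by
    ext x
    rw [un_f_apply, Finset.sum_eq_zero fun v _ => un_om_sq hL v _ x ⟨1, by simp⟩]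
    rfl
  map_mul' a b := by
    ext x
    rw [MonoidHom.mul_apply, un_f_apply, un_f_apply, un_f_apply, ← ofAdd_add]
    have h : ∑ v ∈ pls S, om v ((a * b : US S) : kˣ) x =
        ∑ v ∈ pls S, om v (a : kˣ) x + ∑ v ∈ pls S, om v (b : kˣ) x := by
      rw [← Finset.sum_add_distrib]
      exact Finset.sum_congr rfl fun v _ => om_add hA hL hGd v a b x
    rw [h]

theorem un_index (hA : AnaF k) (hL : LocF k)
    (hGd : ∀ a : kˣ, ¬ IsSquare a → ∀ S₀ : Finset (HeightOneSpectrum (𝓞 k)), ∃ S, S₀ ⊆ S ∧ Gd S a)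
    (hcard : ∀ S : Finset (HeightOneSpectrum (𝓞 k)), Adm S → (KS S).index = 4 ^ mS S ∧
      (sqr (US S)).relIndex (US S) = 2 ^ mS S)
    {S : Finset (HeightOneSpectrum (𝓞 k))} (hS : Adm S) :
    (US S ⊔ KS S).index = 2 ^ mS S := by
  obtain ⟨h1, h2⟩ := hcard S hS
  have e2 : (KS S).relIndex (US S ⊔ KS S) * (US S ⊔ KS S).index = (KS S).index :=
    Subgroup.relIndex_mul_index le_sup_right
  have e3 : (KS S).relIndex (US S ⊔ KS S) = (KS S).relIndex (US S) :=
    Subgroup.relIndex_sup_right (US S) (KS S)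
  rw [e3, ← Subgroup.inf_relIndex_right, un_inf hA hL hGd hS, h1, h2] at e2
  have hpos : 0 < 2 ^ mS S := by positivity
  apply Nat.eq_of_mul_eq_mul_left hpos
  rw [e2, ← mul_pow]
  norm_num

/-- a bad place lies in the closure of the units -/
theorem bad_unit (hA : AnaF k) (hL : LocF k)
    (hGd : ∀ a : kˣ, ¬ IsSquare a → ∀ S₀ : Finset (HeightOneSpectrum (𝓞 k)), ∃ S, S₀ ⊆ S ∧ Gd S a)
    (hcard : ∀ S : Finset (HeightOneSpectrum (𝓞 k)), Adm S → (KS S).index = 4 ^ mS S ∧
      (sqr (US S)).relIndex (US S) = 2 ^ mS S)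
    {S : Finset (HeightOneSpectrum (𝓞 k))} (hS : Adm S) (v : Pl k) (hv' : v ∈ pls S)
    (hbad : ∀ a : kˣ, v ∉ TG a) :
    ∃ b ∈ US S, b ∉ LS v ∧ ∀ w ∈ pls S, w ≠ v → b ∈ LS w := by
  classical
  obtain ⟨x', hx'⟩ := hL.proper v
  obtain ⟨g, hg⟩ := hL.wa (pls S) (fun w => if w = v then x' else 1)
  have hgv : g ∉ LS v := by
    intro h
    have h1 := hg v hv'
    simp only [if_true] at h1
    apply hx'
    have h2 := (LS v).mul_mem ((LS v).inv_mem h1) h
    simpa using h2
  have hgw : ∀ w ∈ pls S, w ≠ v → g ∈ LS w := by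
    intro w hw hwv
    have h1 := hg w hw
    simp only [if_neg hwv, inv_one, mul_one] at h1
    exact h1
  have hgH : g ∈ US S ⊔ KS S := by
    by_contra hcon
    obtain ⟨ψ, hψ1, hψ2⟩ := sep_two (US S ⊔ KS S)
      (fun x => Subgroup.mem_sup_right (un_mul_self_KS hL S x)) g hcon
    have hidx := un_index hA hL hGd hcard hS
    have hB : ((sqr (US S)).subgroupOf (US S)).index = 2 ^ mS S := (hcard S hS).2
    have hpos : 0 < 2 ^ mS S := by positivity
    obtain ⟨a, ha⟩ := dual_count (US S ⊔ KS S)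
      (fun x => Subgroup.mem_sup_right (un_mul_self_KS hL S x))
      ((sqr (US S)).subgroupOf (US S)) (un_F hA hL hGd S)
      (by
        intro a y hy
        obtain ⟨y1, hy1, y2, hy2, rfl⟩ := Subgroup.mem_sup.1 hy
        rw [map_mul]
        have e1 : un_F hA hL hGd S a y1 = 1 := by
          change Multiplicative.ofAdd (∑ v ∈ pls S, om v (a : kˣ) y1) = 1
          rw [om_sum hA hL hGd hS.two (a : kˣ) y1 a.2 hy1]
          rfl
        have e2 : un_F hA hL hGd S a y2 = 1 := by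
          change Multiplicative.ofAdd (∑ v ∈ pls S, om v (a : kˣ) y2) = 1
          rw [Finset.sum_eq_zero fun v hv1 => un_om_ls hL v _ y2 ((mem_KS S y2).1 hy2 v hv1)]
          rfl
        rw [e1, e2, one_mul])
      (by
        intro a ha
        obtain ⟨φ, hφ1, hφ2, hφ3⟩ := om_fnl hA hL hGd hS (a : kˣ) a.2
        have h1 : φ = 1 := by
          ext x
          have h2 : un_F hA hL hGd S a x = 1 := by rw [ha]; rfl
          change Multiplicative.ofAdd (∑ v ∈ pls S, om v (a : kˣ) x) = 1 at h2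
          rw [← hφ2 x] at h2
          exact h2
        rw [Subgroup.mem_subgroupOf]
        exact un_sqr_US S _ a.2 (hφ3 h1))
      (by
        intro b hb
        rw [Subgroup.mem_subgroupOf] at hb
        obtain ⟨c, hc, hcb⟩ := hb
        have hsq : IsSquare (b : kˣ) := by
          refine ⟨c, ?_⟩
          rw [← hcb]
          change c ^ 2 = c * c
          rw [pow_two]
        ext x
        change Multiplicative.ofAdd (∑ v ∈ pls S, om v (b : kˣ) x) = 1
        rw [Finset.sum_eq_zero fun v _ => un_om_sq hL v _ x hsq]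
        rfl)
      (by rw [hidx]; exact hpos.ne') (by rw [hidx, hB]) (by rw [hB]; exact hpos.ne') ψ hψ1
    apply hψ2
    rw [← ha]
    change Multiplicative.ofAdd (∑ v ∈ pls S, om v (a : kˣ) g) = 1
    rw [Finset.sum_eq_zero]
    · rfl
    · intro w hw
      by_cases hwv : w = v
      · subst hwv
        unfold om
        rw [if_neg (hbad _)]
      · exact un_om_ls hL w _ g (hgw w hw hwv)
  obtain ⟨b, hb, c, hc, rfl⟩ := Subgroup.mem_sup.1 hgH
  refine ⟨b, hb, ?_, ?_⟩
  · intro h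
    exact hgv ((LS v).mul_mem h ((mem_KS S c).1 hc v hv'))
  · intro w hw hwv
    have h1 := (LS w).mul_mem (hgw w hw hwv) ((LS w).inv_mem ((mem_KS S c).1 hc w hw))
    simpa using h1

end

end Pool.Agent.H98.MF.R
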