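import Pool.Agent.H98.MF.C.Stm
import Pool.Agent.H98.MF.C.Bas

/-!
# Project MK4, block C: the statements on quadratic extensions
-/

set_option autoImplicit false

open scoped BigOperators Pointwise
open NumberField IsDedekindDomain

namespace Pool.Agent.H98.MF

section

variable {k L : Type} [Field k] [NumberField k] [Field L] [NumberField L] [Algebra k L]

/-- `L` is the quadratic extension of `k` by the square root `α` of `a` -/
structure QE (a : kˣ) (α : L) : Prop where
  deg : Module.finrank k L = 2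
  sq : α ^ 2 = algebraMap k L a
  ns : ¬ IsSquare a

/-- the primes of `S'` are the primes above those of `S` -/
def Ovr (S : Finset (HeightOneSpectrum (𝓞 k))) (S' : Finset (HeightOneSpectrum (𝓞 L))) : Prop :=
  ∀ Q : HeightOneSpectrum (𝓞 L), Q ∈ S' ↔
    ∃ P ∈ S, Q.asIdeal.comap (algebraMap (𝓞 k) (𝓞 L)) = P.asIdeal

/-- the norm on units -/
noncomputable def nu (k L : Type) [Field k] [Field L] [Algebra k L] : Lˣ →* kˣ :=
  Units.map (Algebra.norm k : L →* k)

variable (k L)

/-- C3a: the infinite places of a quadratic extension -/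
def C3aSt : Prop := ∀ (a : kˣ) (α : L), QE a α →
  InfinitePlace.nrRealPlaces L + InfinitePlace.nrComplexPlaces L +
    Nat.card {φ : k →+* ℝ // ¬ 0 < φ (a : k)} =
    2 * (InfinitePlace.nrRealPlaces k + InfinitePlace.nrComplexPlaces k)

/-- C3b: the primes above a prime in a quadratic extension -/
def C3bSt : Prop := ∀ (a : kˣ) (α : L), QE a α → ∀ P : HeightOneSpectrum (𝓞 k),
  (LocSq P (a : k) → Nat.card {Q : HeightOneSpectrum (𝓞 L) //
    Q.asIdeal.comap (algebraMap (𝓞 k) (𝓞 L)) = P.asIdeal} = 2) ∧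
  (¬ LocSq P (a : k) → Nat.card {Q : HeightOneSpectrum (𝓞 L) //
    Q.asIdeal.comap (algebraMap (𝓞 k) (𝓞 L)) = P.asIdeal} = 1)

/-- C3c: the number of places -/
def C3cSt : Prop := ∀ (a : kˣ) (α : L), QE a α →
  ∀ (S : Finset (HeightOneSpectrum (𝓞 k))) (S' : Finset (HeightOneSpectrum (𝓞 L))), Ovr S S' →
    mS S' + sS S a = 2 * mS S

/-- C3d: the index of the norms of `S`-units -/
def C3dSt : Prop := ∀ (a : kˣ) (α : L), QE a α →
  ∀ (S : Finset (HeightOneSpectrum (𝓞 k))) (S' : Finset (HeightOneSpectrum (𝓞 L))), Ovr S S' →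
    Adm S → a ∈ US S →
    ((US S').map (nu k L)).relIndex (US S) * 2 = 2 ^ sS S a

/-- C3e: split primes are generated by norms if the ring of `S`-integers above is principal -/
def C3eSt : Prop := ∀ (a : kˣ) (α : L), QE a α →
  ∀ (S : Finset (HeightOneSpectrum (𝓞 k))) (S' : Finset (HeightOneSpectrum (𝓞 L))), Ovr S S' →
    Adm S → a ∈ US S → PrS S' → NPr S a

end

end Pool.Agent.H98.MF
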